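import Pool.Agent.Lib.H3C.Defs

/-! # A1: back and forth -/

namespace Pool.Agent.Lib.H3C

open Equiv

/-- Back and forth.  `R` is a set of finite partial bijections (as graphs) between countable types
with the extension property on both sides.  Then every member extends to a bijection all of whose
finite restrictions are contained in members of `R`.

Proof. If `X` is empty then so is `Y` (`hr` for `r₀`), and the empty bijection works (`r = r₀`).
Otherwise both are nonempty; let `s : ℕ → X` and `t : ℕ → Y` be surjective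
(`exists_surjective_nat`).  By recursion get `r n ∈ R` with `r 0 = r₀`, `r n ⊆ r (n + 1)`, `s n` is a
first and `t n` a second coordinate of a pair of `r (n + 1)` (use `hl`, then `hr`).  The union
of the `r n` is the graph of a bijection: every `x` occurs as a first and every `y` as a second
coordinate, and `hinj` (two pairs are in a common `r n`) makes it single-valued and injective.  For
finite `F` all pairs `(x, σ x)`, `x ∈ F`, are in one `r n`. -/
theorem backForth {X Y : Type} [Countable X] [Countable Y] [DecidableEq X] [DecidableEq Y]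
    (R : Set (Finset (X × Y)))
    (hinj : ∀ r ∈ R, ∀ p ∈ r, ∀ q ∈ r, p.1 = q.1 ↔ p.2 = q.2)
    (hl : ∀ r ∈ R, ∀ x, ∃ y, insert (x, y) r ∈ R) (hr : ∀ r ∈ R, ∀ y, ∃ x, insert (x, y) r ∈ R)
    (r₀ : Finset (X × Y)) (h₀ : r₀ ∈ R) :
    ∃ σ : X ≃ Y, (∀ p ∈ r₀, σ p.1 = p.2) ∧ ∀ F : Finset X, ∃ r ∈ R, ∀ x ∈ F, (x, σ x) ∈ r := by
  rcases isEmpty_or_nonempty X with hX | hX
  · have hY : IsEmpty Y := ⟨fun y => by
      obtain ⟨x, -⟩ := hr r₀ h₀ y
      exact isEmptyElim x⟩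
    exact ⟨Equiv.equivOfIsEmpty X Y, fun p _ => isEmptyElim p.1, fun F => ⟨r₀, h₀, fun x _ =>
      isEmptyElim x⟩⟩
  have hY : Nonempty Y := by
    obtain ⟨x⟩ := hX
    obtain ⟨y, -⟩ := hl r₀ h₀ x
    exact ⟨y⟩
  obtain ⟨s, hs⟩ := exists_surjective_nat X
  obtain ⟨t, ht⟩ := exists_surjective_nat Y
  have hstep : ∀ (n : ℕ) (r : {r : Finset (X × Y) // r ∈ R}), ∃ r' : {r : Finset (X × Y) // r ∈ R},
      r.1 ⊆ r'.1 ∧ (∃ y, (s n, y) ∈ r'.1) ∧ ∃ x, (x, t n) ∈ r'.1 := by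
    intro n r
    obtain ⟨y, hy⟩ := hl r.1 r.2 (s n)
    obtain ⟨x, hx⟩ := hr _ hy (t n)
    refine ⟨⟨_, hx⟩, ?_, ⟨y, ?_⟩, ⟨x, ?_⟩⟩
    · exact (Finset.subset_insert _ _).trans (Finset.subset_insert _ _)
    · exact Finset.mem_insert_of_mem (Finset.mem_insert_self _ _)
    · exact Finset.mem_insert_self _ _
  choose step hsub hsx hsy using hstep
  let ρ : ℕ → {r : Finset (X × Y) // r ∈ R} := fun n => Nat.rec ⟨r₀, h₀⟩ (fun n r => step n r) n
  have hρ0 : (ρ 0).1 = r₀ := rfl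
  have hρs : ∀ n, ρ (n + 1) = step n (ρ n) := fun n => rfl
  have hmono : Monotone fun n => (ρ n).1 := by
    refine monotone_nat_of_le_succ fun n => ?_
    show (ρ n).1 ⊆ (ρ (n + 1)).1
    rw [hρs]
    exact hsub n (ρ n)
  have hkey : ∀ (m n : ℕ) (p q : X × Y), p ∈ (ρ m).1 → q ∈ (ρ n).1 → (p.1 = q.1 ↔ p.2 = q.2) := by
    intro m n p q hp hq
    exact hinj _ (ρ (max m n)).2 p (hmono (le_max_left m n) hp) q (hmono (le_max_right m n) hq)
  have hf : ∀ x : X, ∃ y : Y, ∃ n, (x, y) ∈ (ρ n).1 := by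
    intro x
    obtain ⟨n, rfl⟩ := hs x
    obtain ⟨y, hy⟩ := hsx n (ρ n)
    exact ⟨y, n + 1, hy⟩
  have hg : ∀ y : Y, ∃ x : X, ∃ n, (x, y) ∈ (ρ n).1 := by
    intro y
    obtain ⟨n, rfl⟩ := ht y
    obtain ⟨x, hx⟩ := hsy n (ρ n)
    exact ⟨x, n + 1, hx⟩
  choose f N hf using hf
  choose g N' hg using hg
  refine ⟨⟨f, g, fun x => ?_, fun y => ?_⟩, ?_, ?_⟩
  · exact (hkey _ _ _ _ (hg (f x)) (hf x)).mpr rfl
  · exact (hkey _ _ _ _ (hf (g y)) (hg y)).mp rfl
  · intro p hp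
    exact (hkey _ 0 _ _ (hf p.1) (show p ∈ (ρ 0).1 from hp)).mp rfl
  · intro F
    refine ⟨(ρ (F.sup N)).1, (ρ (F.sup N)).2, fun x hx => ?_⟩
    exact hmono (Finset.le_sup hx) (hf x)

end Pool.Agent.Lib.H3C
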