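import Pool.Agent.Lib.H3C.Defs

/-! # A2: `k`-closedness -/

namespace Pool.Agent.Lib.H3C

open Equiv

theorem A2_le_kcl {X : Type} (K : Subgroup (Perm X)) (k : ℕ) : K ≤ kcl K k :=
  fun g hg _ => ⟨g, hg, fun _ => rfl⟩

/-- A family `S` of subgroups which is finite, whose members contain `H` and are closed, and which
contains `kcl K k` for all `k ≥ 1` and `K ∈ S`, consists of groups which are `k`-closed for some `k`.

Proof. `kcl K (k + 1)` is antitone in `k` (a `(k+1)`-tuple can be extended by repeating its first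
entry, so `kcl K (k + 2) ≤ kcl K (k + 1)`).  Its values are in the finite set `S`, so some value
`kcl K (m + 1)` is minimal: take `m` with `kcl K (m + 1) = kcl K (n + 1)` for all `n ≥ m` (an antitone
sequence in a finite set is eventually constant).  If `σ ∈ kcl K (m + 1)`, then `σ ∈ kcl K (n + 1)`
for all `n`, so `σ` agrees with elements of `K` on every finite set (write the finite set as the
range of a tuple of length `n + 1`, `n ≥ m`; the empty set is trivial) and `σ ∈ K` because `K` is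
closed.  The other inclusion is `A2_le_kcl`. -/
theorem exists_kcl_eq_of_family {X : Type} (S : Set (Subgroup (Perm X))) (hfin : S.Finite)
    (hcl : ∀ K ∈ S, Cl K) (hS : ∀ K ∈ S, ∀ k, kcl K (k + 1) ∈ S)
    (K : Subgroup (Perm X)) (hK : K ∈ S) : ∃ k, kcl K k = K := by
  classical
  have hanti : Antitone fun k => kcl K (k + 1) := by
    refine antitone_nat_of_succ_le fun k => ?_
    intro σ hσ a
    obtain ⟨g, hg, h1⟩ := hσ (Fin.cons (a 0) a)
    refine ⟨g, hg, fun i => ?_⟩
    have h2 := h1 i.succ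
    rwa [Fin.cons_succ] at h2
  have hrfin : (Set.range fun k => kcl K (k + 1)).Finite := by
    refine hfin.subset ?_
    rintro _ ⟨k, rfl⟩
    exact hS K hK k
  obtain ⟨M, hM⟩ := hrfin.exists_minimal ⟨_, 0, rfl⟩
  obtain ⟨⟨m, rfl⟩, hmin⟩ := hM
  refine ⟨m + 1, le_antisymm ?_ (A2_le_kcl K (m + 1))⟩
  intro σ hσ
  apply hcl K hK
  intro F
  rcases F.eq_empty_or_nonempty with rfl | ⟨x0, hx0⟩
  · exact ⟨1, K.one_mem, fun x hx => absurd hx (Finset.notMem_empty x)⟩
  · obtain ⟨n, hn⟩ : ∃ n, n = max m F.card := ⟨_, rfl⟩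
    have hmn : m ≤ n := by rw [hn]; exact le_max_left _ _
    have hFn : F.card ≤ n := by rw [hn]; exact le_max_right _ _
    have h1 : σ ∈ kcl K (n + 1) := hmin ⟨n, rfl⟩ (hanti hmn) hσ
    obtain ⟨g, hg, h2⟩ := h1 fun i : Fin (n + 1) =>
      if h : (i : ℕ) < F.card then ((F.equivFin.symm ⟨i, h⟩ : F) : X) else x0
    refine ⟨g, hg, fun x hx => ?_⟩
    obtain ⟨j, hj⟩ : ∃ j : Fin F.card, j = F.equivFin ⟨x, hx⟩ := ⟨_, rfl⟩
    have h3 := h2 ⟨(j : ℕ), lt_of_lt_of_le j.2 (hFn.trans (Nat.le_succ n))⟩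
    have h4 : ((F.equivFin.symm ⟨(j : ℕ), j.2⟩ : F) : X) = x := by
      have h5 : (⟨(j : ℕ), j.2⟩ : Fin F.card) = F.equivFin ⟨x, hx⟩ := by
        rw [← hj]
      rw [h5, Equiv.symm_apply_apply]
    rw [dif_pos j.2, h4] at h3
    exact h3

/-- `kcl K k` is closed.

Proof. Let `σ` be approximated and `a` a `k`-tuple; with `F` the range of `a` get `g ∈ kcl K k`
which agrees with `σ` on `a`, and then an element of `K` which agrees with `g` on `a`. -/
theorem cl_kcl {X : Type} (K : Subgroup (Perm X)) (k : ℕ) : Cl (kcl K k) := by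
  classical
  intro σ hσ a
  obtain ⟨g, hg, h1⟩ := hσ (Finset.univ.image a)
  obtain ⟨g', hg', h2⟩ := hg a
  refine ⟨g', hg', fun i => ?_⟩
  rw [h2 i]
  exact h1 _ (Finset.mem_image_of_mem a (Finset.mem_univ i))

/-- Proof. `exists_kcl_eq_of_family` with `S = Sup H F`: `kcl K (k + 1)` contains `K` and `H`, is
closed (`cl_kcl`) and fixes every `x ∈ F` (apply the definition to the constant tuple `x`). -/
theorem exists_kcl_eq {X : Type} (H : Subgroup (Perm X)) (F : Finset X) (hfin : (Sup H F).Finite)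
    (K : Subgroup (Perm X)) (hK : K ∈ Sup H F) : ∃ k, kcl K k = K := by
  refine exists_kcl_eq_of_family (Sup H F) hfin (fun K hK => hK.2.1) ?_ K hK
  intro K hK k
  refine ⟨hK.1.trans (A2_le_kcl K (k + 1)), cl_kcl K (k + 1), fun g hg x hx => ?_⟩
  obtain ⟨h, hh, h1⟩ := hg fun _ => x
  have h2 := h1 0
  rw [← h2]
  exact hK.2.2 h hh x hx

end Pool.Agent.Lib.H3C
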