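import Pool.Agent.Lib.H3C.Defs

/-! # A3: finitely many orbits -/

namespace Pool.Agent.Lib.H3C

open Equiv

/-- A larger group has finitely many orbits too. -/
theorem olig_mono {X : Type} {H K : Subgroup (Perm X)} (hHK : H ≤ K) (h : Olig H) : Olig K := by
  intro k
  obtain ⟨T, hT⟩ := h k
  refine ⟨T, fun a => ?_⟩
  obtain ⟨t, ht, g, hg, h1⟩ := hT a
  exact ⟨t, ht, g, hHK hg, h1⟩

/-- Stabilisers have finitely many orbits on tuples.

Proof. Let `T` be the finite set of representatives for `k + 1` and let `T'` be the set of tuples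
`fun i => h_t (t i.succ)`, where `t ∈ T` is such that `t 0` is in the `H`-orbit of `p` and `h_t ∈ H`
is chosen with `h_t (t 0) = p`.  For a `k`-tuple `a` consider `Fin.cons p a`: it is `h ∘ t`, so
`h (t 0) = p`, and `h * h_t⁻¹ ∈ stab H p` maps `h_t (t i.succ)` to `a i`. -/
theorem olig_stab {X : Type} (H : Subgroup (Perm X)) (h : Olig H) (p : X) : Olig (stab H p) := by
  classical
  intro k
  obtain ⟨T, hT⟩ := h (k + 1)
  let φ : (Fin (k + 1) → X) → (Fin k → X) := fun t =>
    if hg : ∃ g ∈ H, g (t 0) = p then fun i => hg.choose (t i.succ) else fun i => t i.succ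
  refine ⟨T.image φ, fun a => ?_⟩
  obtain ⟨t, ht, g, hg, h1⟩ := hT (Fin.cons p a : Fin (k + 1) → X)
  have h2 : g (t 0) = p := by
    rw [h1 0, Fin.cons_zero]
  have hex : ∃ g ∈ H, g (t 0) = p := ⟨g, hg, h2⟩
  have h3 := hex.choose_spec
  refine ⟨φ t, Finset.mem_image_of_mem φ ht, g * hex.choose⁻¹,
    ⟨H.mul_mem hg (H.inv_mem h3.1), ?_⟩, fun i => ?_⟩
  · have h4 : hex.choose⁻¹ p = t 0 := by
      rw [Perm.inv_eq_iff_eq]
      exact h3.2.symm
    rw [Perm.mul_apply, h4, h2]
  · have h5 : φ t = fun i => hex.choose (t i.succ) := by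
      simp only [φ]
      rw [dif_pos hex]
    rw [h5, Perm.mul_apply, pia, h1 i.succ, Fin.cons_succ]

end Pool.Agent.Lib.H3C
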