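import Pool.Agent.Lib.H3C.A3

/-! # A4: normalisers -/

namespace Pool.Agent.Lib.H3C

open Equiv

/-- Counting lemma.  `L` and `L'` have finitely many orbits on tuples and `L' ` is `k`-closed in the
sense `hk`: a permutation `ν` with `ν p = p` (for all `p` in a set `P` of points) which preserves
every `L`-orbit on `k`-tuples is in `L`.  Then the permutations `g` with `g L g⁻¹ = L'` and prescribed
values at the points of `P` form finitely many cosets of `L`.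

Proof. Let `T` be representatives of the `L`-orbits on `k`-tuples and `T'` representatives of the
`L'`-orbits.  For `g` as in the theorem let `τ_g : T → T'` be a function with `g ∘ t` in the `L'`-orbit
of `τ_g t`.  There are finitely many functions; choose one `g₀ ∈ Y` for each function which occurs
(`Set.Finite.exists_finset` for the image of the set of these `g` under `τ`, with a choice of
preimages).  Let `τ_g = τ_{g₀}`.  Then `ν = g₀⁻¹ * g` fixes the points of `P` and preserves the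
`L`-orbits on `k`-tuples: `a = κ ∘ t` with `κ ∈ L`, `g ∘ a = (g κ g⁻¹) ∘ (g ∘ t)`, `g κ g⁻¹ ∈ L'`,
`g ∘ t = ρ ∘ g₀ ∘ t` with `ρ ∈ L'`, so `ν ∘ a = (g₀⁻¹ (g κ g⁻¹) ρ g₀) ∘ t = (…) κ⁻¹ ∘ a` and
`(…) ∈ L` because `g₀⁻¹ L' g₀ = L`.  So `ν ∈ L` by `hk`. -/
theorem finite_cosets {X : Type} (L L' : Subgroup (Perm X)) (hol : Olig L) (hol' : Olig L') (k : ℕ)
    (P : Set X)
    (hk : ∀ ν : Perm X, (∀ p ∈ P, ν p = p) → (∀ a : Fin k → X, ∃ g ∈ L, ∀ i, g (a i) = ν (a i)) →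
      ν ∈ L) (v : X → X) :
    ∃ Y : Finset (Perm X), ∀ g : Perm X, (∀ p ∈ P, g p = v p) →
      (∀ ν : Perm X, ν ∈ L ↔ g * ν * g⁻¹ ∈ L') → ∃ g₀ ∈ Y, g₀⁻¹ * g ∈ L := by
  classical
  obtain ⟨T, hT⟩ := hol k
  obtain ⟨T', hT'⟩ := hol' k
  have hex : ∀ (g : Perm X) (t : T), ∃ t' : T', ∃ ρ ∈ L', ∀ i, ρ (t'.1 i) = g (t.1 i) := by
    intro g t
    obtain ⟨t', ht', ρ, hρ, h1⟩ := hT' (fun i => g (t.1 i))
    exact ⟨⟨t', ht'⟩, ρ, hρ, h1⟩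
  choose τ hτ using hex
  let Q : Perm X → Prop := fun g => (∀ p ∈ P, g p = v p) ∧ ∀ ν : Perm X, ν ∈ L ↔ g * ν * g⁻¹ ∈ L'
  let c : (T → T') → Perm X := fun f => if h : ∃ g, Q g ∧ τ g = f then h.choose else 1
  refine ⟨Finset.univ.image c, fun g hgP hgL => ?_⟩
  have hQ : ∃ g', Q g' ∧ τ g' = τ g := ⟨g, ⟨hgP, hgL⟩, rfl⟩
  have hc : c (τ g) = hQ.choose := by
    simp only [c]
    rw [dif_pos hQ]
  obtain ⟨⟨h1, h2⟩, h3⟩ := hQ.choose_spec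
  rw [← hc] at h1 h2 h3
  refine ⟨c (τ g), Finset.mem_image_of_mem c (Finset.mem_univ _), hk _ ?_ ?_⟩
  · intro p hp
    rw [Perm.mul_apply, hgP p hp, ← h1 p hp, pia]
  · intro a
    obtain ⟨t, ht, κ, hκ, h4⟩ := hT a
    obtain ⟨ρ, hρ, h5⟩ := hτ g ⟨t, ht⟩
    obtain ⟨ρ₀, hρ₀, h6⟩ := hτ (c (τ g)) ⟨t, ht⟩
    rw [h3] at h6
    set g₀ := c (τ g) with hg₀
    have h7 : g₀⁻¹ * (g * κ * g⁻¹ * ρ * ρ₀⁻¹) * g₀ ∈ L := by
      rw [h2]
      have h8 : g₀ * (g₀⁻¹ * (g * κ * g⁻¹ * ρ * ρ₀⁻¹) * g₀) * g₀⁻¹ = g * κ * g⁻¹ * ρ * ρ₀⁻¹ := by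
        group
      rw [h8]
      exact L'.mul_mem (L'.mul_mem ((hgL κ).1 hκ) hρ) (L'.inv_mem hρ₀)
    refine ⟨g₀⁻¹ * (g * κ * g⁻¹ * ρ * ρ₀⁻¹) * g₀ * κ⁻¹, L.mul_mem h7 (L.inv_mem hκ), fun i => ?_⟩
    have h9 : κ⁻¹ (a i) = t i := by
      rw [← h4 i, pia]
    have h10 : ρ₀⁻¹ (g₀ (t i)) = ((τ g ⟨t, ht⟩ : T') : Fin k → X) i := by
      rw [← h6 i, pia]
    simp only [Perm.mul_apply]
    rw [h9, h10, h5 i, pia, h4 i]

/-- If `M` is `k`-closed with finitely many orbits on tuples, then there are finitely many groups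
`G ≥ M` in which `M` is normal.

Proof. `finite_cosets` with `L = L' = M`, `P = ∅` gives `Y`; if `M ≤ G` is normal in `G`, then
`g ∈ G` is `g₀ * m` with `g₀ ∈ Y`, `m ∈ M`, so `g₀ ∈ G`; hence `G` is determined by the subset
`{g₀ ∈ Y | g₀ ∈ G}` of `Y` (`G` is the set of the `g` with `g₀⁻¹ * g ∈ M` for some `g₀ ∈ Y ∩ G`). -/
theorem finite_normal {X : Type} (M : Subgroup (Perm X)) (hol : Olig M) (k : ℕ) (hk : kcl M k = M) :
    {G : Subgroup (Perm X) | M ≤ G ∧ ∀ g ∈ G, ∀ m ∈ M, g * m * g⁻¹ ∈ M}.Finite := by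
  classical
  obtain ⟨Y, hY⟩ := finite_cosets M M hol hol k ∅ (fun ν _ h => by
    rw [← hk]
    exact h) id
  have hle : ∀ G₁ G₂ : Subgroup (Perm X), (M ≤ G₁ ∧ ∀ g ∈ G₁, ∀ m ∈ M, g * m * g⁻¹ ∈ M) →
      M ≤ G₂ → Y.filter (· ∈ G₁) = Y.filter (· ∈ G₂) → G₁ ≤ G₂ := by
    intro G₁ G₂ h1 h2 he g hg
    obtain ⟨g₀, hg₀, h3⟩ := hY g (by simp) (fun ν => ⟨fun hν => h1.2 g hg ν hν, fun hν => by
      have h4 := h1.2 g⁻¹ (G₁.inv_mem hg) _ hν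
      have h5 : g⁻¹ * (g * ν * g⁻¹) * g⁻¹⁻¹ = ν := by group
      rwa [h5] at h4⟩)
    have h6 : g₀ ∈ G₁ := by
      have h7 : g₀ = g * (g₀⁻¹ * g)⁻¹ := by group
      rw [h7]
      exact G₁.mul_mem hg (G₁.inv_mem (h1.1 h3))
    have h8 : g₀ ∈ Y.filter (· ∈ G₂) := by
      rw [← he]
      exact Finset.mem_filter.2 ⟨hg₀, h6⟩
    have h9 : g = g₀ * (g₀⁻¹ * g) := by group
    rw [h9]
    exact G₂.mul_mem (Finset.mem_filter.1 h8).2 (h2 h3)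
  refine Set.Finite.of_finite_image (f := fun G : Subgroup (Perm X) => Y.filter (· ∈ G)) ?_ ?_
  · refine Set.Finite.subset (Finset.finite_toSet Y.powerset) ?_
    rintro _ ⟨G, -, rfl⟩
    exact Finset.mem_coe.2 (Finset.mem_powerset.2 (Finset.filter_subset _ _))
  · intro G₁ h1 G₂ h2 he
    exact le_antisymm (hle G₁ G₂ h1 h2.1 he) (hle G₂ G₁ h2 h1.1 he.symm)

end Pool.Agent.Lib.H3C
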