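import Pool.Agent.Lib.H3C.A4

/-! # A5: double cosets -/

namespace Pool.Agent.Lib.H3C

open Equiv

/-- Proof. Let `R` be a finite set of representatives of the `K`-orbits on `X` (from `hol 1`).
For `r, r' ∈ R` apply `finite_cosets` with `L = stab K r'`, `L' = stab K r`, `P = {p, r'}` and
`v p = r`, `v r' = p` (if `p = r'` or `p = r` nothing is needed: see below), and let `Y` be the union.
Its hypothesis `hk`: if `ν` fixes `r'` and preserves the `stab K r'`-orbits on `k`-tuples then it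
preserves the `K`-orbits, so `ν ∈ kcl K k = K`.
Let `stab G p = K`, `g ∈ G`, `g p ≠ p`.  Choose `k₁ ∈ K` with `k₁ (g p) = r ∈ R` and `k₂ ∈ K` with
`k₂ (g⁻¹ p) = r' ∈ R`, and put `g' = k₁ * g * k₂⁻¹`.  As `K` fixes `p`: `g' p = r` and `g' r' = p`;
and `r ≠ p`, `r' ≠ p` (`k₁` fixes `p` and `g p ≠ p`).  For `ν ∈ K` with `ν r' = r'` the element
`g' ν g'⁻¹ ∈ G` fixes `p = g' r'` and `r = g' p`; conversely, if `g' ν g'⁻¹ ∈ K` fixes `r`, then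
`ν ∈ G` fixes `p` and `r'` (as `g'⁻¹ r = p`, `g'⁻¹ p = r'`).  So `finite_cosets` gives `g₀ ∈ Y` with
`g₀⁻¹ * g' ∈ stab K r' ≤ K`, and `g = k₁⁻¹ * g₀ * (g₀⁻¹ * g') * k₂`. -/
theorem finite_doubleCosets {X : Type} (K : Subgroup (Perm X)) (hol : Olig K) (k : ℕ)
    (hk : kcl K k = K) (p : X) (hp : ∀ g ∈ K, g p = p) :
    ∃ Y : Finset (Perm X), ∀ G : Subgroup (Perm X), stab G p = K → ∀ g ∈ G, g p ≠ p →
      ∃ g₀ ∈ Y, ∃ k₁ ∈ K, ∃ k₂ ∈ K, g = k₁ * g₀ * k₂ := by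
  classical
  obtain ⟨T, hT⟩ := hol 1
  set R : Finset X := T.image (fun t => t 0) with hRdef
  have hR : ∀ x : X, ∃ r ∈ R, ∃ h ∈ K, h r = x := by
    intro x
    obtain ⟨t, ht, h, hh, h1⟩ := hT (fun _ => x)
    exact ⟨t 0, Finset.mem_image.2 ⟨t, ht, rfl⟩, h, hh, h1 0⟩
  have hk' : ∀ r' : X, ∀ ν : Perm X, (∀ q ∈ ({p, r'} : Set X), ν q = q) →
      (∀ a : Fin k → X, ∃ g ∈ stab K r', ∀ i, g (a i) = ν (a i)) → ν ∈ stab K r' := by
    intro r' ν h1 h2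
    have h3 : ν ∈ kcl K k := by
      intro a
      obtain ⟨g, hg, h4⟩ := h2 a
      exact ⟨g, hg.1, h4⟩
    rw [hk] at h3
    exact ⟨h3, h1 r' (by simp)⟩
  have hY : ∀ r r' : X, ∃ Y : Finset (Perm X), ∀ g : Perm X,
      (∀ q ∈ ({p, r'} : Set X), g q = if q = p then r else p) →
      (∀ ν : Perm X, ν ∈ stab K r' ↔ g * ν * g⁻¹ ∈ stab K r) → ∃ g₀ ∈ Y, g₀⁻¹ * g ∈ stab K r' :=
    fun r r' => finite_cosets (stab K r') (stab K r) (olig_stab K hol r') (olig_stab K hol r) k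
      {p, r'} (hk' r') (fun q => if q = p then r else p)
  choose Y hY using hY
  refine ⟨R.biUnion fun r => R.biUnion fun r' => Y r r', ?_⟩
  intro G hG g hg hgp
  have hKG : ∀ ν : Perm X, ν ∈ K ↔ ν ∈ G ∧ ν p = p := by
    intro ν
    rw [← hG]
    exact Iff.rfl
  obtain ⟨r, hr, h, hh, h1⟩ := hR (g p)
  obtain ⟨r', hr', h', hh', h2⟩ := hR (g⁻¹ p)
  have hhG : h ∈ G := ((hKG h).1 hh).1
  have hhG' : h' ∈ G := ((hKG h').1 hh').1
  set g' : Perm X := h⁻¹ * g * h' with hg'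
  have hg'G : g' ∈ G := G.mul_mem (G.mul_mem (G.inv_mem hhG) hg) hhG'
  have e1 : g' p = r := by
    rw [hg', Perm.mul_apply, Perm.mul_apply, hp h' hh', ← h1, pia]
  have e2 : g' r' = p := by
    rw [hg', Perm.mul_apply, Perm.mul_apply, h2, pai]
    exact hp h⁻¹ (K.inv_mem hh)
  have e1' : g'⁻¹ r = p := by rw [← e1, pia]
  have e2' : g'⁻¹ p = r' := by
    conv_lhs => rw [← e2]
    rw [pia]
  have hr'p : r' ≠ p := by
    intro h3
    apply hgp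
    rw [h3, hp h' hh'] at h2
    rw [h2, pai, ← h2]
  have hcond : ∀ ν : Perm X, ν ∈ stab K r' ↔ g' * ν * g'⁻¹ ∈ stab K r := by
    intro ν
    constructor
    · rintro ⟨hν, hν'⟩
      obtain ⟨hν1, hν2⟩ := (hKG ν).1 hν
      refine ⟨(hKG _).2 ⟨G.mul_mem (G.mul_mem hg'G hν1) (G.inv_mem hg'G), ?_⟩, ?_⟩
      · rw [Perm.mul_apply, Perm.mul_apply, e2', hν', e2]
      · rw [Perm.mul_apply, Perm.mul_apply, e1', hν2, e1]
    · rintro ⟨hμ, hμ'⟩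
      obtain ⟨hμ1, hμ2⟩ := (hKG _).1 hμ
      have e3 : ν = g'⁻¹ * (g' * ν * g'⁻¹) * g' := by group
      have hνG : ν ∈ G := by
        rw [e3]
        exact G.mul_mem (G.mul_mem (G.inv_mem hg'G) hμ1) hg'G
      refine ⟨(hKG _).2 ⟨hνG, ?_⟩, ?_⟩
      · rw [e3, Perm.mul_apply, Perm.mul_apply, e1, hμ', e1']
      · rw [e3, Perm.mul_apply, Perm.mul_apply, e2, hμ2, e2']
  obtain ⟨g₀, hg₀, h5⟩ := hY r r' g' (by
    intro q hq
    rcases hq with rfl | hq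
    · simp [e1]
    · rw [Set.mem_singleton_iff] at hq
      rw [hq, if_neg hr'p, e2]) hcond
  refine ⟨g₀, ?_, h, hh, (g₀⁻¹ * g') * h'⁻¹, K.mul_mem h5.1 (K.inv_mem hh'), ?_⟩
  · rw [Finset.mem_biUnion]
    refine ⟨r, hr, ?_⟩
    rw [Finset.mem_biUnion]
    exact ⟨r', hr', hg₀⟩
  · rw [hg']
    group

end Pool.Agent.Lib.H3C
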