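import Pool.Agent.Lib.H3C.A2
import Pool.Agent.Lib.H3C.A5

/-! # A6: adding a point -/

namespace Pool.Agent.Lib.H3C

open Equiv

/-- If there are finitely many closed supergroups of `H` which fix `F` and `p`, then there are
finitely many which fix `F`.

Proof. For `G ∈ Sup H F` the group `K = stab G p` is in `Sup H (insert p F)` (closed: if `σ` is
approximated by elements of `stab G p` then `σ ∈ G`, and `σ p = p`; it contains `H` by `hH`).  So it is enough that for each of the finitely many
`K` the set `{G | stab G p = K}` is finite (`Set.Finite.preimage'` or `Set.Finite.biUnion`).  `K` is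
`k`-closed by `exists_kcl_eq`, and has finitely many orbits by `olig_mono`.  With `Y` from
`finite_doubleCosets`, `G` is determined by `{g₀ ∈ Y | g₀ ∈ G}`: `g ∈ G` iff `g ∈ K` or
`g = k₁ * g₀ * k₂` with `k₁, k₂ ∈ K` and `g₀ ∈ Y ∩ G` (if `g ∈ G` is such a product then
`g₀ = k₁⁻¹ * g * k₂⁻¹ ∈ G` as `K ≤ G`). -/
theorem sup_finite_of_insert {X : Type} [DecidableEq X] (H : Subgroup (Perm X)) (hol : Olig H)
    (F : Finset X) (p : X) (hH : ∀ h ∈ H, h p = p) (h : (Sup H (insert p F)).Finite) :
    (Sup H F).Finite := by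
  classical
  have hfib : ∀ K ∈ Sup H (insert p F), {G : Subgroup (Perm X) | stab G p = K}.Finite := by
    intro K hK
    obtain ⟨k, hk⟩ := exists_kcl_eq H (insert p F) h K hK
    obtain ⟨Y, hY⟩ := finite_doubleCosets K (olig_mono hK.1 hol) k hk p
      (fun g hg => hK.2.2 g hg p (Finset.mem_insert_self p F))
    have key : ∀ G G' : Subgroup (Perm X), stab G p = K → stab G' p = K →
        (∀ g₀ ∈ Y, g₀ ∈ G → g₀ ∈ G') → G ≤ G' := by
      intro G G' hG hG' hsub g hg
      by_cases hgp : g p = p
      · have h1 : g ∈ K := by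
          rw [← hG]
          exact ⟨hg, hgp⟩
        rw [← hG'] at h1
        exact h1.1
      · obtain ⟨g₀, hg₀, k₁, hk₁, k₂, hk₂, hgk⟩ := hY G hG g hg hgp
        have hk₁G : k₁ ∈ G := by
          rw [← hG] at hk₁
          exact hk₁.1
        have hk₂G : k₂ ∈ G := by
          rw [← hG] at hk₂
          exact hk₂.1
        have hk₁G' : k₁ ∈ G' := by
          rw [← hG'] at hk₁
          exact hk₁.1
        have hk₂G' : k₂ ∈ G' := by
          rw [← hG'] at hk₂
          exact hk₂.1
        have hg₀e : g₀ = k₁⁻¹ * g * k₂⁻¹ := by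
          rw [hgk]
          group
        have hg₀G : g₀ ∈ G := by
          rw [hg₀e]
          exact G.mul_mem (G.mul_mem (G.inv_mem hk₁G) hg) (G.inv_mem hk₂G)
        rw [hgk]
        exact G'.mul_mem (G'.mul_mem hk₁G' (hsub g₀ hg₀ hg₀G)) hk₂G'
    refine Set.Finite.of_injOn (f := fun G : Subgroup (Perm X) => Y.filter (fun g => g ∈ G))
      (t := (↑Y.powerset : Set (Finset (Perm X)))) ?_ ?_ (Finset.finite_toSet _)
    · intro G _
      rw [Finset.mem_coe, Finset.mem_powerset]
      exact Finset.filter_subset _ _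
    · intro G hG G' hG' hGG
      have hGG' : Y.filter (fun g => g ∈ G) = Y.filter (fun g => g ∈ G') := hGG
      apply le_antisymm
      · refine key G G' hG hG' (fun g₀ hg₀ hg₀G => ?_)
        have h1 : g₀ ∈ Y.filter (fun g => g ∈ G) := Finset.mem_filter.2 ⟨hg₀, hg₀G⟩
        rw [hGG'] at h1
        exact (Finset.mem_filter.1 h1).2
      · refine key G' G hG' hG (fun g₀ hg₀ hg₀G => ?_)
        have h1 : g₀ ∈ Y.filter (fun g => g ∈ G') := Finset.mem_filter.2 ⟨hg₀, hg₀G⟩
        rw [← hGG'] at h1
        exact (Finset.mem_filter.1 h1).2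
  refine Set.Finite.subset (Set.Finite.biUnion h hfib) ?_
  intro G hG
  rw [Set.mem_iUnion₂]
  refine ⟨stab G p, ⟨?_, ?_, ?_⟩, rfl⟩
  · intro g hg
    exact ⟨hG.1 hg, hH g hg⟩
  · intro σ hσ
    refine ⟨hG.2.1 σ (fun E => ?_), ?_⟩
    · obtain ⟨g, hg, hgE⟩ := hσ E
      exact ⟨g, hg.1, hgE⟩
    · obtain ⟨g, hg, hgE⟩ := hσ {p}
      rw [← hgE p (Finset.mem_singleton_self p)]
      exact hg.2
  · intro g hg x hx
    rcases Finset.mem_insert.1 hx with rfl | hx
    · exact hg.2
    · exact hG.2.2 g hg.1 x hx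

/-- Proof. Induction on `F` (remove the points one after the other), with
`Sup H ∅ = {G | H ≤ G ∧ Cl G}`. -/
theorem fr_of_sup {X : Type} (H : Subgroup (Perm X)) (hol : Olig H) (F : Finset X)
    (hH : ∀ h ∈ H, ∀ x ∈ F, h x = x) (h : (Sup H F).Finite) : FR H := by
  classical
  induction F using Finset.induction_on with
  | empty =>
    refine Set.Finite.subset h ?_
    intro G hG
    exact ⟨hG.1, hG.2, fun g _ x hx => absurd hx (Finset.notMem_empty x)⟩
  | insert p F _ ih =>
    exact ih (fun h' hh' x hx => hH h' hh' x (Finset.mem_insert_of_mem hx))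
      (sup_finite_of_insert H hol F p (fun h' hh' => hH h' hh' p (Finset.mem_insert_self p F)) h)

end Pool.Agent.Lib.H3C
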