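import Pool.Agent.Lib.H3C.Defs

/-! # B1: placing finitely many points -/

namespace Pool.Agent.Lib.H3C

open Equiv

/-- Proof. `e` is strictly monotone and its range is dense: there are rationals `a < b` with
`u < e a`, `e b < v` (`EReal.lt_iff_exists_rat_btwn` twice, or `EReal.lt_iff_exists_real_btwn`).
The `n + 1` disjoint intervals obtained by subdividing `(a, b)` each contain a rational of colour `c`;
or: by induction on `Z` (the statement for all `u < v`): if the point found for `Z` is the new point
`z` of `Z ∪ {z}`, use `(u, e z)` instead of `(u, v)` and the induction hypothesis. -/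
theorem exists_col {C : Type} (κ : ℚ → C) (hκ : Dn κ) (u v : EReal) (h : u < v) (c : C)
    (Z : Finset ℚ) : ∃ x : ℚ, u < e x ∧ e x < v ∧ κ x = c ∧ x ∉ Z := by
  induction Z using Finset.induction_on generalizing u v with
  | empty =>
    obtain ⟨a, ha1, ha2⟩ := EReal.lt_iff_exists_rat_btwn.1 h
    obtain ⟨b, hb1, hb2⟩ := EReal.lt_iff_exists_rat_btwn.1 ha2
    have hab : a < b := by exact_mod_cast hb1
    obtain ⟨x, hx1, hx2, hx3⟩ := hκ a b hab c
    refine ⟨x, ha1.trans ?_, lt_trans ?_ hb2, hx3, Finset.notMem_empty x⟩
    · unfold e; exact_mod_cast hx1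
    · unfold e; exact_mod_cast hx2
  | insert z Z hz ih =>
    obtain ⟨x, hx1, hx2, hx3, hx4⟩ := ih u v h
    by_cases hxz : x = z
    · subst hxz
      obtain ⟨y, hy1, hy2, hy3, hy4⟩ := ih u (e x) hx1
      refine ⟨y, hy1, hy2.trans hx2, hy3, ?_⟩
      rw [Finset.mem_insert]
      rintro (rfl | h5)
      · exact lt_irrefl _ hy2
      · exact hy4 h5
    · refine ⟨x, hx1, hx2, hx3, ?_⟩
      rw [Finset.mem_insert]
      rintro (h5 | h5)
      · exact hxz h5
      · exact hx4 h5

/-- Placing finitely many points of prescribed colours in intervals with monotone end points.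

Proof. `Finset.induction_on_max`.  For `F ∪ {m}`, `m` larger than all of `F`, take `f` for `F` and
change its value at `m`: for `x ∈ F` we have `e (f x) < v x ≤ v m`, and `u m < v m`; so
`max (u m) (max over F of e (f x)) < v m` (`Finset.exists_max_image` or `Finset.sup`; `F` may be
empty), and `exists_col` gives `f m` above all of these. -/
theorem placing {C : Type} (κ : ℚ → C) (hκ : Dn κ) (F : Finset ℚ) (u v : ℚ → EReal)
    (huv : ∀ x ∈ F, u x < v x) (hu : ∀ x ∈ F, ∀ y ∈ F, x < y → u x ≤ u y)
    (hv : ∀ x ∈ F, ∀ y ∈ F, x < y → v x ≤ v y) (Z : Finset ℚ) :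
    ∃ f : ℚ → ℚ, (∀ x ∈ F, κ (f x) = κ x ∧ u x < e (f x) ∧ e (f x) < v x ∧ f x ∉ Z) ∧
      ∀ x ∈ F, ∀ y ∈ F, x < y → f x < f y := by
  induction F using Finset.induction_on_max with
  | empty =>
    exact ⟨id, fun x hx => absurd hx (Finset.notMem_empty x),
      fun x hx => absurd hx (Finset.notMem_empty x)⟩
  | insert m F hm ih =>
    obtain ⟨f, hf1, hf2⟩ := ih (fun x hx => huv x (Finset.mem_insert_of_mem hx))
      (fun x hx y hy => hu x (Finset.mem_insert_of_mem hx) y (Finset.mem_insert_of_mem hy))
      (fun x hx y hy => hv x (Finset.mem_insert_of_mem hx) y (Finset.mem_insert_of_mem hy))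
    have hmF : m ∉ F := fun h => lt_irrefl m (hm m h)
    have hmm : m ∈ insert m F := Finset.mem_insert_self m F
    have hlt : max (u m) (F.sup fun x => e (f x)) < v m := by
      refine max_lt (huv m hmm) ?_
      rw [Finset.sup_lt_iff (lt_of_le_of_lt bot_le (huv m hmm))]
      intro x hx
      exact (hf1 x hx).2.2.1.trans_le (hv x (Finset.mem_insert_of_mem hx) m hmm (hm x hx))
    obtain ⟨z, hz1, hz2, hz3, hz4⟩ := exists_col κ hκ _ _ hlt (κ m) Z
    refine ⟨Function.update f m z, ?_, ?_⟩
    · intro x hx
      rcases Finset.mem_insert.1 hx with rfl | hx'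
      · rw [Function.update_self]
        exact ⟨hz3, (le_max_left _ _).trans_lt hz1, hz2, hz4⟩
      · rw [Function.update_of_ne (ne_of_mem_of_not_mem hx' hmF)]
        exact hf1 x hx'
    · intro x hx y hy hxy
      rcases Finset.mem_insert.1 hy with rfl | hy'
      · have hx' : x ∈ F := by
          rcases Finset.mem_insert.1 hx with h | h
          · exact absurd hxy (h ▸ lt_irrefl _)
          · exact h
        rw [Function.update_self, Function.update_of_ne (ne_of_mem_of_not_mem hx' hmF)]
        have h1 : e (f x) < e z := by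
          refine lt_of_le_of_lt ?_ hz1
          exact (Finset.le_sup (f := fun x => e (f x)) hx').trans (le_max_right _ _)
        unfold e at h1
        exact_mod_cast h1
      · have hx' : x ∈ F := by
          rcases Finset.mem_insert.1 hx with h | h
          · exact absurd (hxy.trans (hm y hy')) (h ▸ lt_irrefl _)
          · exact h
        rw [Function.update_of_ne (ne_of_mem_of_not_mem hy' hmF),
          Function.update_of_ne (ne_of_mem_of_not_mem hx' hmF)]
        exact hf2 x hx' y hy' hxy

end Pool.Agent.Lib.H3C
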