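import Pool.Agent.Lib.H3C.A1

/-! # B2: homogeneity of the coloured rationals -/

namespace Pool.Agent.Lib.H3C

open Equiv

/-- The finite partial isomorphisms with support in `(a, b)`. -/
private def B2R {C : Type} (κ : ℚ → C) (a b : ℚ) : Set (Finset (ℚ × ℚ)) :=
  {r | (∀ p ∈ r, ∀ q ∈ r, p.1 < q.1 ↔ p.2 < q.2) ∧ (∀ p ∈ r, κ p.1 = κ p.2) ∧
    ∀ p ∈ r, (a < p.1 ∧ p.1 < b ∧ a < p.2 ∧ p.2 < b) ∨ ((p.1 ≤ a ∨ b ≤ p.1) ∧ p.2 = p.1)}

private theorem B2_swap {C : Type} {κ : ℚ → C} {a b : ℚ} {r : Finset (ℚ × ℚ)}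
    (hr : r ∈ B2R κ a b) : r.image Prod.swap ∈ B2R κ a b := by
  obtain ⟨h1, h2, h3⟩ := hr
  refine ⟨?_, ?_, ?_⟩
  · intro p hp q hq
    obtain ⟨p', hp', rfl⟩ := Finset.mem_image.1 hp
    obtain ⟨q', hq', rfl⟩ := Finset.mem_image.1 hq
    exact (h1 p' hp' q' hq').symm
  · intro p hp
    obtain ⟨p', hp', rfl⟩ := Finset.mem_image.1 hp
    exact (h2 p' hp').symm
  · intro p hp
    obtain ⟨p', hp', rfl⟩ := Finset.mem_image.1 hp
    rcases h3 p' hp' with h | ⟨h, h'⟩
    · exact Or.inl ⟨h.2.2.1, h.2.2.2, h.1, h.2.1⟩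
    · refine Or.inr ⟨?_, h'.symm⟩
      show p'.2 ≤ a ∨ b ≤ p'.2
      rw [h']
      exact h

private theorem B2_insert {C : Type} {κ : ℚ → C} {a b : ℚ} {r : Finset (ℚ × ℚ)}
    (hr : r ∈ B2R κ a b) {x y : ℚ} (hc : κ x = κ y)
    (ht : (a < x ∧ x < b ∧ a < y ∧ y < b) ∨ ((x ≤ a ∨ b ≤ x) ∧ y = x))
    (h1 : ∀ q ∈ r, x < q.1 ↔ y < q.2) (h2 : ∀ q ∈ r, q.1 < x ↔ q.2 < y) :
    insert (x, y) r ∈ B2R κ a b := by
  obtain ⟨k1, k2, k3⟩ := hr
  refine ⟨?_, ?_, ?_⟩
  · intro p hp q hq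
    rcases Finset.mem_insert.1 hp with rfl | hp
    · rcases Finset.mem_insert.1 hq with rfl | hq
      · exact ⟨fun h => absurd h (lt_irrefl _), fun h => absurd h (lt_irrefl _)⟩
      · exact h1 q hq
    · rcases Finset.mem_insert.1 hq with rfl | hq
      · exact h2 p hp
      · exact k1 p hp q hq
  · intro p hp
    rcases Finset.mem_insert.1 hp with rfl | hp
    · exact hc
    · exact k2 p hp
  · intro p hp
    rcases Finset.mem_insert.1 hp with rfl | hp
    · exact ht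
    · exact k3 p hp

private theorem B2_ext {C : Type} {κ : ℚ → C} (hκ : Dn κ) {a b : ℚ} {r : Finset (ℚ × ℚ)}
    (hr : r ∈ B2R κ a b) (x : ℚ) : ∃ y, insert (x, y) r ∈ B2R κ a b := by
  classical
  obtain ⟨k1, k2, k3⟩ := id hr
  by_cases hx : ∃ p ∈ r, p.1 = x
  · obtain ⟨p, hp, rfl⟩ := hx
    refine ⟨p.2, ?_⟩
    have : insert (p.1, p.2) r = r := Finset.insert_eq_of_mem hp
    rw [this]
    exact hr
  by_cases hout : x ≤ a ∨ b ≤ x
  · refine ⟨x, B2_insert hr rfl (Or.inr ⟨hout, rfl⟩) ?_ ?_⟩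
    · intro q hq
      rcases k3 q hq with ⟨l1, l2, l3, l4⟩ | ⟨-, h⟩
      · rcases hout with h | h
        · exact ⟨fun _ => lt_of_le_of_lt h l3, fun _ => lt_of_le_of_lt h l1⟩
        · exact ⟨fun h' => absurd (lt_of_le_of_lt h h') (not_lt.2 l2.le),
            fun h' => absurd (lt_of_le_of_lt h h') (not_lt.2 l4.le)⟩
      · rw [h]
    · intro q hq
      rcases k3 q hq with ⟨l1, l2, l3, l4⟩ | ⟨-, h⟩
      · rcases hout with h | h
        · exact ⟨fun h' => absurd (lt_of_lt_of_le h' h) (not_lt.2 l1.le),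
            fun h' => absurd (lt_of_lt_of_le h' h) (not_lt.2 l3.le)⟩
        · exact ⟨fun _ => lt_of_lt_of_le l4 h, fun _ => lt_of_lt_of_le l2 h⟩
      · rw [h]
  push Not at hout
  obtain ⟨hax, hxb⟩ := hout
  let Lo : Finset ℚ := insert a ((r.filter (fun p => a < p.1 ∧ p.1 < x)).image Prod.snd)
  let Hi : Finset ℚ := insert b ((r.filter (fun p => x < p.1 ∧ p.1 < b)).image Prod.snd)
  have hLo : Lo.Nonempty := ⟨a, Finset.mem_insert_self _ _⟩
  have hHi : Hi.Nonempty := ⟨b, Finset.mem_insert_self _ _⟩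
  have hins : ∀ p ∈ r, a < p.1 → p.1 < b → a < p.2 ∧ p.2 < b := by
    intro p hp h1 h2
    rcases k3 p hp with ⟨-, -, l3, l4⟩ | ⟨h | h, -⟩
    · exact ⟨l3, l4⟩
    · exact absurd h1 (not_lt.2 h)
    · exact absurd h2 (not_lt.2 h)
  have hlh : ∀ u ∈ Lo, ∀ v ∈ Hi, u < v := by
    intro u hu v hv
    rcases Finset.mem_insert.1 hu with rfl | hu
    · rcases Finset.mem_insert.1 hv with rfl | hv
      · exact hax.trans hxb
      · obtain ⟨p, hp, rfl⟩ := Finset.mem_image.1 hv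
        obtain ⟨hp, h1, h2⟩ := Finset.mem_filter.1 hp
        exact (hins p hp (hax.trans h1) h2).1
    · obtain ⟨q, hq, rfl⟩ := Finset.mem_image.1 hu
      obtain ⟨hq, h3, h4⟩ := Finset.mem_filter.1 hq
      rcases Finset.mem_insert.1 hv with rfl | hv
      · exact (hins q hq h3 (h4.trans hxb)).2
      · obtain ⟨p, hp, rfl⟩ := Finset.mem_image.1 hv
        obtain ⟨hp, h1, h2⟩ := Finset.mem_filter.1 hp
        exact (k1 q hq p hp).1 (h4.trans h1)
  obtain ⟨y, hy1, hy2, hy3⟩ := hκ (Lo.max' hLo) (Hi.min' hHi)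
    (hlh _ (Finset.max'_mem _ _) _ (Finset.min'_mem _ _)) (κ x)
  have hay : a < y := lt_of_le_of_lt (Finset.le_max' Lo a (Finset.mem_insert_self _ _)) hy1
  have hyb : y < b := lt_of_lt_of_le hy2 (Finset.min'_le Hi b (Finset.mem_insert_self _ _))
  have hlt : ∀ q ∈ r, q.1 < x → q.2 < y := by
    intro q hq h
    by_cases h1 : a < q.1
    · refine lt_of_le_of_lt (Finset.le_max' Lo q.2 ?_) hy1
      exact Finset.mem_insert_of_mem (Finset.mem_image.2 ⟨q, Finset.mem_filter.2 ⟨hq, h1, h⟩, rfl⟩)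
    · rcases k3 q hq with ⟨l1, -⟩ | ⟨-, h'⟩
      · exact absurd l1 h1
      · rw [h']
        exact lt_of_le_of_lt (not_lt.1 h1) hay
  have hgt : ∀ q ∈ r, x < q.1 → y < q.2 := by
    intro q hq h
    by_cases h1 : q.1 < b
    · refine lt_of_lt_of_le hy2 (Finset.min'_le Hi q.2 ?_)
      exact Finset.mem_insert_of_mem (Finset.mem_image.2 ⟨q, Finset.mem_filter.2 ⟨hq, h, h1⟩, rfl⟩)
    · rcases k3 q hq with ⟨-, l2, -⟩ | ⟨-, h'⟩
      · exact absurd l2 h1
      · rw [h']
        exact lt_of_lt_of_le hyb (not_lt.1 h1)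
  refine ⟨y, B2_insert hr hy3.symm (Or.inl ⟨hax, hxb, hay, hyb⟩) ?_ ?_⟩
  · intro q hq
    refine ⟨hgt q hq, fun h => ?_⟩
    rcases lt_trichotomy x q.1 with h1 | h1 | h1
    · exact h1
    · exact absurd ⟨q, hq, h1.symm⟩ hx
    · exact absurd (hlt q hq h1) (not_lt.2 h.le)
  · intro q hq
    refine ⟨hlt q hq, fun h => ?_⟩
    rcases lt_trichotomy x q.1 with h1 | h1 | h1
    · exact absurd (hgt q hq h1) (not_lt.2 h.le)
    · exact absurd ⟨q, hq, h1.symm⟩ hx
    · exact h1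

/-- Extension of finite partial isomorphisms, with support in an interval.

Proof. `backForth` with `R` the set of finite graphs `r` such that for all `p, q ∈ r`:
`p.1 < q.1 ↔ p.2 < q.2`, `κ p.1 = κ p.2`, and: either `a < p.1 < b` and `a < p.2 < b`, or
(`p.1 ≤ a` or `b ≤ p.1`) and `p.2 = p.1`.  (`hinj` follows from the first property.)
Extension by `x`: if `x` is a first coordinate of `r`, take its partner.  If `x ≤ a` or `b ≤ x`
take `y = x` (the pairs inside the interval stay inside).  If `a < x < b`: let `lo` be the maximum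
of `a` and all `p.2`, `p ∈ r` inside with `p.1 < x`, and `hi` the minimum of `b` and all `p.2` inside
with `x < p.1`; then `lo < hi` and `hκ` gives `y ∈ (lo, hi)` of colour `κ x`.  The other side is
the same (the conditions are symmetric).  Start with the graph of `f` on `F`.  The result `σ` is in
`HH κ` and is the identity outside because every pair `(x, σ x)` and every two pairs are in some
member of `R`. -/
theorem exists_HH_local {C : Type} (κ : ℚ → C) (hκ : Dn κ) (a b : ℚ) (F : Finset ℚ) (f : ℚ → ℚ)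
    (hF : ∀ x ∈ F, a < x ∧ x < b ∧ a < f x ∧ f x < b ∧ κ (f x) = κ x)
    (hm : ∀ x ∈ F, ∀ y ∈ F, x < y → f x < f y) :
    ∃ h ∈ HH κ, (∀ x ∈ F, h x = f x) ∧ ∀ x, (x ≤ a ∨ b ≤ x) → h x = x := by
  classical
  have hr₀ : F.image (fun x => (x, f x)) ∈ B2R κ a b := by
    refine ⟨?_, ?_, ?_⟩
    · intro p hp q hq
      obtain ⟨x, hx, rfl⟩ := Finset.mem_image.1 hp
      obtain ⟨y, hy, rfl⟩ := Finset.mem_image.1 hq
      refine ⟨fun h => hm x hx y hy h, fun h => ?_⟩
      rcases lt_trichotomy x y with h1 | h1 | h1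
      · exact h1
      · exact absurd h (by show ¬ f x < f y; rw [h1]; exact lt_irrefl _)
      · exact absurd (hm y hy x hx h1) (not_lt.2 (le_of_lt h))
    · intro p hp
      obtain ⟨x, hx, rfl⟩ := Finset.mem_image.1 hp
      exact (hF x hx).2.2.2.2.symm
    · intro p hp
      obtain ⟨x, hx, rfl⟩ := Finset.mem_image.1 hp
      obtain ⟨h1, h2, h3, h4, -⟩ := hF x hx
      exact Or.inl ⟨h1, h2, h3, h4⟩
  obtain ⟨σ, hσ1, hσ2⟩ := backForth (X := ℚ) (Y := ℚ) (B2R κ a b)
    (by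
      intro r hr p hp q hq
      have h1 := hr.1 p hp q hq
      have h2 := hr.1 q hq p hp
      constructor
      · intro h
        exact le_antisymm (not_lt.1 fun h' => absurd (h2.2 h') (by rw [h]; exact lt_irrefl _))
          (not_lt.1 fun h' => absurd (h1.2 h') (by rw [h]; exact lt_irrefl _))
      · intro h
        exact le_antisymm (not_lt.1 fun h' => absurd (h2.1 h') (by rw [h]; exact lt_irrefl _))
          (not_lt.1 fun h' => absurd (h1.1 h') (by rw [h]; exact lt_irrefl _)))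
    (fun r hr x => B2_ext hκ hr x)
    (by
      intro r hr y
      obtain ⟨x, hx⟩ := B2_ext hκ (B2_swap hr) y
      refine ⟨x, ?_⟩
      have h1 := B2_swap hx
      rw [Finset.image_insert, Finset.image_image] at h1
      have h2 : r.image (Prod.swap ∘ Prod.swap) = r := by
        rw [Prod.swap_swap_eq, Finset.image_id]
      rw [h2] at h1
      exact h1)
    (F.image (fun x => (x, f x))) hr₀
  refine ⟨σ, ⟨?_, ?_⟩, ?_, ?_⟩
  · intro x y hxy
    obtain ⟨r, hr, h⟩ := hσ2 {x, y}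
    exact (hr.1 _ (h x (by simp)) _ (h y (by simp))).1 hxy
  · intro x
    obtain ⟨r, hr, h⟩ := hσ2 {x}
    exact (hr.2.1 _ (h x (by simp))).symm
  · intro x hx
    exact hσ1 (x, f x) (Finset.mem_image.2 ⟨x, hx, rfl⟩)
  · intro x hx
    obtain ⟨r, hr, h⟩ := hσ2 {x}
    rcases hr.2.2 _ (h x (by simp)) with ⟨l1, l2, -⟩ | ⟨-, h'⟩
    · rcases hx with hx | hx
      · exact absurd l1 (not_lt.2 hx)
      · exact absurd l2 (not_lt.2 hx)
    · exact h'

/-- Proof. Take `a < b` with `F` and `f '' F` in `(a, b)` and use `exists_HH_local`. -/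
theorem exists_HH {C : Type} (κ : ℚ → C) (hκ : Dn κ) (F : Finset ℚ) (f : ℚ → ℚ)
    (hc : ∀ x ∈ F, κ (f x) = κ x) (hm : ∀ x ∈ F, ∀ y ∈ F, x < y → f x < f y) :
    ∃ h ∈ HH κ, ∀ x ∈ F, h x = f x := by
  classical
  obtain ⟨m, hmin⟩ := (F ∪ F.image f).bddBelow
  obtain ⟨M, hmax⟩ := (F ∪ F.image f).bddAbove
  have h1 : ∀ x ∈ F, m ≤ x ∧ x ≤ M := fun x hx =>
    ⟨hmin (Finset.mem_coe.2 (Finset.mem_union_left _ hx)),
      hmax (Finset.mem_coe.2 (Finset.mem_union_left _ hx))⟩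
  have h2 : ∀ x ∈ F, m ≤ f x ∧ f x ≤ M := fun x hx =>
    ⟨hmin (Finset.mem_coe.2 (Finset.mem_union_right _ (Finset.mem_image_of_mem f hx))),
      hmax (Finset.mem_coe.2 (Finset.mem_union_right _ (Finset.mem_image_of_mem f hx)))⟩
  obtain ⟨h, hh, hf, -⟩ := exists_HH_local κ hκ (m - 1) (M + 1) F f
    (fun x hx => ⟨by linarith [(h1 x hx).1], by linarith [(h1 x hx).2], by linarith [(h2 x hx).1],
      by linarith [(h2 x hx).2], hc x hx⟩) hm
  exact ⟨h, hh, hf⟩

/-- There are finitely many orbits on tuples.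

Proof. The type of a tuple `a : Fin k → ℚ` is `(fun i => κ (a i), fun i j => decide (a i < a j))`, an
element of a finite type.  `T` contains one tuple of every type which occurs.  If `t` and `a` have
the same type, then `t i = t j ↔ a i = a j`, and the map `t i ↦ a i` on the finite set of the `t i`
is strictly monotone and preserves the colours: `exists_HH`. -/
theorem olig_HH {C : Type} [Finite C] (κ : ℚ → C) (hκ : Dn κ) : Olig (HH κ) := by
  classical
  intro k
  let Θ : (Fin k → ℚ) → (Fin k → C) × (Fin k → Fin k → Bool) :=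
    fun a => (fun i => κ (a i), fun i j => decide (a i < a j))
  let g : Set.range Θ → (Fin k → ℚ) := fun s => s.2.choose
  have hg : ∀ s : Set.range Θ, Θ (g s) = s := fun s => s.2.choose_spec
  refine ⟨(Set.finite_range g).toFinset, fun a => ?_⟩
  obtain ⟨t, ht⟩ : ∃ t, t = g ⟨Θ a, a, rfl⟩ := ⟨_, rfl⟩
  have htT : t ∈ (Set.finite_range g).toFinset := by
    rw [Set.Finite.mem_toFinset, ht]
    exact Set.mem_range_self _
  have hΘ : Θ t = Θ a := by
    rw [ht, hg]
  refine ⟨t, htT, ?_⟩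
  have hcol : ∀ i, κ (t i) = κ (a i) := fun i => congrFun (congrArg Prod.fst hΘ) i
  have hlt : ∀ i j, t i < t j ↔ a i < a j := fun i j => by
    have h := congrFun (congrFun (congrArg Prod.snd hΘ) i) j
    exact decide_eq_decide.1 h
  have heq : ∀ i j, t i = t j → a i = a j := by
    intro i j h
    refine le_antisymm (not_lt.1 fun h' => ?_) (not_lt.1 fun h' => ?_)
    · have := (hlt j i).2 h'
      rw [h] at this
      exact lt_irrefl _ this
    · have := (hlt i j).2 h'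
      rw [h] at this
      exact lt_irrefl _ this
  let f : ℚ → ℚ := fun q => if h : ∃ i, t i = q then a h.choose else q
  have hf : ∀ i, f (t i) = a i := by
    intro i
    have hex : ∃ j, t j = t i := ⟨i, rfl⟩
    show (if h : ∃ j, t j = t i then a h.choose else t i) = a i
    rw [dif_pos hex]
    exact heq _ _ hex.choose_spec
  obtain ⟨h, hh, hfh⟩ := exists_HH κ hκ (Finset.univ.image t) f
    (by
      intro x hx
      obtain ⟨i, -, rfl⟩ := Finset.mem_image.1 hx
      rw [hf, hcol])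
    (by
      intro x hx y hy hxy
      obtain ⟨i, -, rfl⟩ := Finset.mem_image.1 hx
      obtain ⟨j, -, rfl⟩ := Finset.mem_image.1 hy
      rw [hf, hf]
      exact (hlt i j).1 hxy)
  refine ⟨h, hh, fun i => ?_⟩
  rw [hfh (t i) (Finset.mem_image_of_mem t (Finset.mem_univ i)), hf]

end Pool.Agent.Lib.H3C
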