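import Pool.Agent.Lib.H3C.B2

/-! # B3: the relation `rel` -/

namespace Pool.Agent.Lib.H3C

open Equiv

theorem rel_refl {X : Type} (G : Subgroup (Perm X)) (B : Finset X) (x : X) : rel G B x x :=
  ⟨1, G.one_mem, fun _ _ => rfl, rfl⟩

theorem rel_symm {X : Type} {G : Subgroup (Perm X)} {B : Finset X} {x y : X} (h : rel G B x y) :
    rel G B y x := by
  obtain ⟨g, hg, hb, hxy⟩ := h
  refine ⟨g⁻¹, G.inv_mem hg, fun b hb' => ?_, ?_⟩
  · rw [Perm.inv_eq_iff_eq, hb b hb']
  · rw [Perm.inv_eq_iff_eq, hxy]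

theorem rel_trans {X : Type} {G : Subgroup (Perm X)} {B : Finset X} {x y z : X}
    (h : rel G B x y) (h' : rel G B y z) : rel G B x z := by
  obtain ⟨g, hg, hb, hxy⟩ := h
  obtain ⟨g', hg', hb', hyz⟩ := h'
  refine ⟨g' * g, G.mul_mem hg' hg, fun b hb1 => ?_, ?_⟩
  · rw [Perm.mul_apply, hb b hb1, hb' b hb1]
  · rw [Perm.mul_apply, hxy, hyz]

theorem rel_mono {X : Type} {G : Subgroup (Perm X)} {B B' : Finset X} (hB : B ⊆ B') {x y : X}
    (h : rel G B' x y) : rel G B x y := by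
  obtain ⟨g, hg, hb, hxy⟩ := h
  exact ⟨g, hg, fun b hb1 => hb b (hB hb1), hxy⟩

/-- Proof. Conjugate: if `k ∈ G` fixes `B` and maps `x` to `y`, then `g * k * g⁻¹` fixes
`B.image g` and maps `g x` to `g y`. -/
theorem rel_image {X : Type} [DecidableEq X] {G : Subgroup (Perm X)} {B : Finset X} {x y : X}
    {g : Perm X} (hg : g ∈ G) (h : rel G B x y) : rel G (B.image g) (g x) (g y) := by
  obtain ⟨k, hk, hb, hxy⟩ := h
  refine ⟨g * k * g⁻¹, G.mul_mem (G.mul_mem hg hk) (G.inv_mem hg), fun b hb1 => ?_, ?_⟩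
  · obtain ⟨b', hb', rfl⟩ := Finset.mem_image.1 hb1
    rw [Perm.mul_apply, Perm.mul_apply, pia, hb b' hb']
  · rw [Perm.mul_apply, Perm.mul_apply, pia, hxy]

/-- Points of the same colour in the same interval of the complement of `B` are equivalent.

Proof. `exists_HH` for `F = insert x B` and `f = fun z => if z = x then y else z`: for `b ∈ B`,
`b < x ↔ b < y`, hence also `x < b ↔ y < b` (as `x, y ∉ B`). -/
theorem rel_cell {C : Type} (κ : ℚ → C) (hκ : Dn κ) (G : Subgroup (Perm ℚ)) (hG : HH κ ≤ G)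
    (B : Finset ℚ) (x y : ℚ) (hx : x ∉ B) (hy : y ∉ B) (hc : κ x = κ y)
    (h : ∀ b ∈ B, b < x ↔ b < y) : rel G B x y := by
  have hne : ∀ b ∈ B, b ≠ x := fun b hb hbx => hx (hbx ▸ hb)
  have hney : ∀ b ∈ B, b ≠ y := fun b hb hbx => hy (hbx ▸ hb)
  obtain ⟨k, hk, hk1⟩ := exists_HH κ hκ (insert x B) (fun z => if z = x then y else z)
    (by
      intro z hz
      rcases Finset.mem_insert.1 hz with rfl | hz
      · simp [hc]
      · simp [hne z hz])
    (by
      intro z hz w hw hzw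
      rcases Finset.mem_insert.1 hz with rfl | hz
      · rcases Finset.mem_insert.1 hw with rfl | hw
        · exact absurd hzw (lt_irrefl _)
        · have h1 : ¬ w < z := not_lt.2 hzw.le
          have h2 : ¬ w < y := fun h3 => h1 ((h w hw).2 h3)
          have h4 : y < w := lt_of_le_of_ne (not_lt.1 h2) (fun h5 => hney w hw h5.symm)
          simp only [if_true, if_neg (hne w hw)]
          exact h4
      · have hz' : z ∈ B := hz
        rcases Finset.mem_insert.1 hw with rfl | hw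
        · simp only [if_true, if_neg (hne z hz')]
          exact (h z hz').1 hzw
        · simp only [if_neg (hne z hz'), if_neg (hne w hw)]
          exact hzw)
  refine ⟨k, hG hk, fun b hb => ?_, ?_⟩
  · rw [hk1 b (Finset.mem_insert_of_mem hb)]
    simp only [if_neg (hne b hb)]
  · rw [hk1 x (Finset.mem_insert_self _ _)]
    simp only [if_true]

private theorem B3_ext {C : Type} (κ : ℚ → C) (hκ : Dn κ) (B : Finset ℚ) (φ : ℚ → ℚ)
    (hφc : ∀ b ∈ B, κ (φ b) = κ b) (hφm : ∀ b ∈ B, ∀ b' ∈ B, b < b' → φ b < φ b') (x z : ℚ)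
    (hx : x ∉ B) (hz : κ z = κ x) (hxz : ∀ b ∈ B, (b < x → φ b < z) ∧ (x < b → z < φ b)) :
    ∃ h ∈ HH κ, (∀ b ∈ B, h b = φ b) ∧ h x = z := by
  have hne : ∀ b ∈ B, b ≠ x := fun b hb hbx => hx (hbx ▸ hb)
  obtain ⟨k, hk, hk1⟩ := exists_HH κ hκ (insert x B) (fun w => if w = x then z else φ w)
    (by
      intro w hw
      rcases Finset.mem_insert.1 hw with rfl | hw
      · simp [hz]
      · simp [hne w hw, hφc w hw])
    (by
      intro u hu w hw huw
      rcases Finset.mem_insert.1 hu with rfl | hu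
      · rcases Finset.mem_insert.1 hw with rfl | hw
        · exact absurd huw (lt_irrefl _)
        · simp only [if_true, if_neg (hne w hw)]
          exact (hxz w hw).2 huw
      · have hu' : u ∈ B := hu
        rcases Finset.mem_insert.1 hw with rfl | hw
        · simp only [if_true, if_neg (hne u hu')]
          exact (hxz u hu').1 huw
        · simp only [if_neg (hne u hu'), if_neg (hne w hw)]
          exact hφm u hu' w hw huw)
  refine ⟨k, hk, fun b hb => ?_, ?_⟩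
  · rw [hk1 b (Finset.mem_insert_of_mem hb)]
    simp only [if_neg (hne b hb)]
  · rw [hk1 x (Finset.mem_insert_self _ _)]
    simp only [if_true]

/-- Transport of inequivalence to another finite set.

Proof. Suppose `rel G (B.image φ) z w`.  By `exists_HH` for `insert x B` there is `h₁ ∈ HH κ` with
`h₁ = φ` on `B` and `h₁ x = z` (the map `φ` with `x ↦ z` is strictly monotone by `hxz`), and `h₂`
with `h₂ = φ` on `B`, `h₂ y = w`.  If `k ∈ G` fixes `B.image φ` and `k z = w` then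
`h₂⁻¹ * k * h₁` fixes `B` and maps `x` to `y`. -/
theorem rel_transport {C : Type} (κ : ℚ → C) (hκ : Dn κ) (G : Subgroup (Perm ℚ)) (hG : HH κ ≤ G)
    (B : Finset ℚ) (φ : ℚ → ℚ) (hφc : ∀ b ∈ B, κ (φ b) = κ b)
    (hφm : ∀ b ∈ B, ∀ b' ∈ B, b < b' → φ b < φ b') (x y z w : ℚ) (hx : x ∉ B) (hy : y ∉ B)
    (hz : κ z = κ x) (hw : κ w = κ y) (hxz : ∀ b ∈ B, (b < x → φ b < z) ∧ (x < b → z < φ b))
    (hyw : ∀ b ∈ B, (b < y → φ b < w) ∧ (y < b → w < φ b)) (h : rel G (B.image φ) z w) :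
    rel G B x y := by
  obtain ⟨h₁, hh1, h1b, h1x⟩ := B3_ext κ hκ B φ hφc hφm x z hx hz hxz
  obtain ⟨h₂, hh2, h2b, h2y⟩ := B3_ext κ hκ B φ hφc hφm y w hy hw hyw
  obtain ⟨k, hk, hkb, hkz⟩ := h
  refine ⟨h₂⁻¹ * k * h₁, G.mul_mem (G.mul_mem (G.inv_mem (hG hh2)) hk) (hG hh1),
    fun b hb => ?_, ?_⟩
  · rw [Perm.mul_apply, Perm.mul_apply, h1b b hb, hkb _ (Finset.mem_image_of_mem φ hb),
      Perm.inv_eq_iff_eq, h2b b hb]
  · rw [Perm.mul_apply, Perm.mul_apply, h1x, hkz, Perm.inv_eq_iff_eq, h2y]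

end Pool.Agent.Lib.H3C
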