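import Pool.Agent.Lib.H3C.B3

/-! # C1: the reductions -/

namespace Pool.Agent.Lib.H3C

open Equiv

private lemma C1_disj {C : Type} (κ : ℚ → C) (G : Subgroup (Perm ℚ)) (c : C)
    (h : ∀ (B : Finset ℚ) (x y : ℚ), x ∉ B → y ∉ B → κ x = c → κ y = c → rel G B x y)
    (B₀ : Finset ℚ) (hB₀ : ∀ b ∈ B₀, κ b ≠ c) (A : Finset ℚ) (hA : ∀ a ∈ A, κ a = c) (f : ℚ → ℚ)
    (hf : ∀ a ∈ A, κ (f a) = c) (hinj : ∀ a ∈ A, ∀ b ∈ A, f a = f b → a = b)
    (hdis : ∀ a ∈ A, f a ∉ A) : ∃ g ∈ G, (∀ b ∈ B₀, g b = b) ∧ ∀ a ∈ A, g a = f a := by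
  classical
  have key : ∀ A' : Finset ℚ, A' ⊆ A → ∃ g ∈ G, (∀ b ∈ B₀, g b = b) ∧ (∀ a ∈ A', g a = f a) ∧
      ∀ a ∈ A, a ∉ A' → g a = a := by
    intro A'
    induction A' using Finset.induction_on with
    | empty =>
      intro _
      exact ⟨1, G.one_mem, fun _ _ => rfl, fun a ha => absurd ha (Finset.notMem_empty a), fun _ _ _ => rfl⟩
    | insert a A' ha ih =>
      intro hsub
      have haA : a ∈ A := hsub (Finset.mem_insert_self a A')
      have hA'A : A' ⊆ A := fun x hx => hsub (Finset.mem_insert_of_mem hx)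
      obtain ⟨g, hg, hgB, hgA', hgid⟩ := ih hA'A
      have hrel := h (B₀ ∪ (A'.image f ∪ A \ insert a A')) a (f a) ?_ ?_ (hA a haA) (hf a haA)
      · obtain ⟨k, hk, hkB, hka⟩ := hrel
        refine ⟨k * g, G.mul_mem hk hg, ?_, ?_, ?_⟩
        · intro b hb
          rw [Perm.mul_apply, hgB b hb]
          exact hkB b (Finset.mem_union_left _ hb)
        · intro x hx
          rw [Perm.mul_apply]
          rcases Finset.mem_insert.mp hx with rfl | hx
          · rw [hgid x haA ha, hka]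
          · rw [hgA' x hx]
            exact hkB _ (Finset.mem_union_right _ (Finset.mem_union_left _ (Finset.mem_image_of_mem f hx)))
        · intro x hx hxn
          have hx1 : x ∉ A' := fun hh => hxn (Finset.mem_insert_of_mem hh)
          rw [Perm.mul_apply, hgid x hx hx1]
          exact hkB _ (Finset.mem_union_right _ (Finset.mem_union_right _ (Finset.mem_sdiff.mpr ⟨hx, hxn⟩)))
      · intro hmem
        rcases Finset.mem_union.mp hmem with h1 | h1
        · exact hB₀ a h1 (hA a haA)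
        rcases Finset.mem_union.mp h1 with h2 | h2
        · obtain ⟨x, hx, hxa⟩ := Finset.mem_image.mp h2
          exact hdis x (hA'A hx) (hxa ▸ haA)
        · exact (Finset.mem_sdiff.mp h2).2 (Finset.mem_insert_self a A')
      · intro hmem
        rcases Finset.mem_union.mp hmem with h1 | h1
        · exact hB₀ (f a) h1 (hf a haA)
        rcases Finset.mem_union.mp h1 with h2 | h2
        · obtain ⟨x, hx, hxa⟩ := Finset.mem_image.mp h2
          have := hinj x (hA'A hx) a haA hxa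
          exact ha (this ▸ hx)
        · exact hdis a haA (Finset.mem_sdiff.mp h2).1
  obtain ⟨g, hg, h1, h2, _⟩ := key A (Finset.Subset.refl A)
  exact ⟨g, hg, h1, h2⟩

private lemma C1_infinite {C : Type} (κ : ℚ → C) (hκ : Dn κ) (c : C) : {x : ℚ | κ x = c}.Infinite := by
  apply Set.infinite_of_forall_exists_gt
  intro a
  obtain ⟨x, hx, _, hxc⟩ := hκ a (a + 1) (by linarith) c
  exact ⟨x, hxc, hx⟩

private lemma C1_gen {C : Type} (κ : ℚ → C) (hκ : Dn κ) (G : Subgroup (Perm ℚ)) (c : C)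
    (h : ∀ (B : Finset ℚ) (x y : ℚ), x ∉ B → y ∉ B → κ x = c → κ y = c → rel G B x y)
    (B₀ : Finset ℚ) (hB₀ : ∀ b ∈ B₀, κ b ≠ c) (A : Finset ℚ) (hA : ∀ a ∈ A, κ a = c) (f : ℚ → ℚ)
    (hf : ∀ a ∈ A, κ (f a) = c) (hinj : ∀ a ∈ A, ∀ b ∈ A, f a = f b → a = b) :
    ∃ g ∈ G, (∀ b ∈ B₀, g b = b) ∧ ∀ a ∈ A, g a = f a := by
  classical
  have hinf : ({x : ℚ | κ x = c} \ ((A ∪ A.image f : Finset ℚ) : Set ℚ)).Infinite :=
    (C1_infinite κ hκ c).sdiff (Finset.finite_toSet _)
  let em := hinf.natEmbedding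
  let j : ℚ → ℚ := fun a => if ha : a ∈ A then (em (A.equivFin ⟨a, ha⟩ : ℕ) : ℚ) else a
  have hj : ∀ a (ha : a ∈ A), j a = (em (A.equivFin ⟨a, ha⟩ : ℕ) : ℚ) := fun a ha => dif_pos ha
  have hjc : ∀ a ∈ A, κ (j a) = c := by
    intro a ha
    rw [hj a ha]
    exact (em (A.equivFin ⟨a, ha⟩ : ℕ)).2.1
  have hjn : ∀ a ∈ A, j a ∉ A ∪ A.image f := by
    intro a ha
    rw [hj a ha]
    exact fun hh => (em (A.equivFin ⟨a, ha⟩ : ℕ)).2.2 (Finset.mem_coe.mpr hh)
  have hjinj : ∀ a ∈ A, ∀ b ∈ A, j a = j b → a = b := by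
    intro a ha b hb hab
    rw [hj a ha, hj b hb] at hab
    have h1 := em.injective (Subtype.ext hab)
    have h2 := A.equivFin.injective (Fin.ext h1)
    exact congrArg Subtype.val h2
  obtain ⟨g₁, hg₁, hg₁B, hg₁A⟩ := C1_disj κ G c h B₀ hB₀ A hA j hjc hjinj
    (fun a ha hh => hjn a ha (Finset.mem_union_left _ hh))
  -- the second map
  let r : ℚ → ℚ := fun z => if hz : ∃ a ∈ A, j a = z then f hz.choose else z
  have hr : ∀ a ∈ A, r (j a) = f a := by
    intro a ha
    have hz : ∃ a' ∈ A, j a' = j a := ⟨a, ha, rfl⟩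
    have h1 : r (j a) = f hz.choose := dif_pos hz
    rw [h1, hjinj hz.choose hz.choose_spec.1 a ha hz.choose_spec.2]
  have q1 : ∀ z ∈ A.image j, κ z = c := by
    intro z hz
    obtain ⟨a, ha, rfl⟩ := Finset.mem_image.mp hz
    exact hjc a ha
  have q2 : ∀ z ∈ A.image j, κ (r z) = c := by
    intro z hz
    obtain ⟨a, ha, rfl⟩ := Finset.mem_image.mp hz
    rw [hr a ha]
    exact hf a ha
  have q3 : ∀ z ∈ A.image j, ∀ w ∈ A.image j, r z = r w → z = w := by
    intro z hz w hw hzw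
    obtain ⟨a, ha, rfl⟩ := Finset.mem_image.mp hz
    obtain ⟨b, hb, rfl⟩ := Finset.mem_image.mp hw
    rw [hr a ha, hr b hb] at hzw
    rw [hinj a ha b hb hzw]
  have q4 : ∀ z ∈ A.image j, r z ∉ A.image j := by
    intro z hz hmem
    obtain ⟨a, ha, rfl⟩ := Finset.mem_image.mp hz
    rw [hr a ha] at hmem
    obtain ⟨b, hb, hba⟩ := Finset.mem_image.mp hmem
    apply hjn b hb
    rw [hba]
    exact Finset.mem_union_right _ (Finset.mem_image_of_mem f ha)
  obtain ⟨g₂, hg₂, hg₂B, hg₂A⟩ := C1_disj κ G c h B₀ hB₀ (A.image j) q1 r q2 q3 q4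
  refine ⟨g₂ * g₁, G.mul_mem hg₂ hg₁, ?_, ?_⟩
  · intro b hb
    rw [Perm.mul_apply, hg₁B b hb, hg₂B b hb]
  · intro a ha
    rw [Perm.mul_apply, hg₁A a ha, hg₂A _ (Finset.mem_image_of_mem j ha), hr a ha]

/-- Reduction (R1): if all points of colour `c` are equivalent over all finite sets then `G` contains
all permutations supported by the points of colour `c`.

Proof. Closedness: let `F` be finite; we need `g ∈ G` with `g = σ` on `F`.  Let `B₀` be the set of the
points of `F` of colour `≠ c` (they are fixed by `σ`) and `F₁` the others; `σ` maps `F₁` to points of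
colour `c` (if `κ (σ x) ≠ c` then `σ (σ x) = σ x`, so `σ x = x`).
Claim: for every finite set `A` of points of colour `c` and every injective `f : A → {colour c}` there
is `g ∈ G` fixing `B₀` with `g = f` on `A`.  First let `f '' A` be disjoint from `A`;
move one point at a time: for
`A' ⊆ A` there is `g ∈ G` fixing `B₀` with `g = f` on `A'` and `g = id` on `A \ A'` (induction on
`A'`): to pass from `A'` to `A' ∪ {a}` multiply from the left by `k ∈ G` with `k a = f a` which
fixes `B₀ ∪ f '' A' ∪ (A \ (A' ∪ {a}))` (the hypothesis; `a` and `f a` are not in this set as `f` is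
injective and `f '' A` is disjoint from `A`).  The general case is the composition of two such maps
through a set of fresh points of colour `c` (choose an injection `A → {colour c}` avoiding
`A ∪ f '' A`; the points of colour `c` are infinitely many). -/
theorem R1 {C : Type} (κ : ℚ → C) (hκ : Dn κ) (G : Subgroup (Perm ℚ)) (hG : HH κ ≤ G) (hcl : Cl G)
    (c : C)
    (h : ∀ (B : Finset ℚ) (x y : ℚ), x ∉ B → y ∉ B → κ x = c → κ y = c → rel G B x y) :
    ∀ σ : Perm ℚ, (∀ x, κ x ≠ c → σ x = x) → σ ∈ G := by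
  classical
  intro σ hσ
  apply hcl
  intro F
  have hσc : ∀ x, κ x = c → κ (σ x) = c := by
    intro x hx
    by_contra hne
    have h1 := σ.injective (hσ (σ x) hne)
    exact hne (h1.symm ▸ hx)
  obtain ⟨g, hg, hgB, hgA⟩ := C1_gen κ hκ G c h (F.filter fun x => κ x ≠ c)
    (fun b hb => (Finset.mem_filter.mp hb).2) (F.filter fun x => κ x = c)
    (fun a ha => (Finset.mem_filter.mp ha).2) σ (fun a ha => hσc a (Finset.mem_filter.mp ha).2)
    (fun a _ b _ hab => σ.injective hab)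
  refine ⟨g, hg, fun x hx => ?_⟩
  by_cases hxc : κ x = c
  · exact hgA x (Finset.mem_filter.mpr ⟨hx, hxc⟩)
  · rw [hgB x (Finset.mem_filter.mpr ⟨hx, hxc⟩), hσ x hxc]

end Pool.Agent.Lib.H3C
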