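import Pool.Agent.Lib.H3C.B3

/-! # C1b: merging two colours -/

namespace Pool.Agent.Lib.H3C

open Equiv

/-- The colouring with the colour `d` replaced by `c`. -/
noncomputable def mrg {C : Type} (κ : ℚ → C) (c d : C) (hcd : c ≠ d) : ℚ → {x : C // x ≠ d} :=
  open Classical in fun q => if h : κ q = d then ⟨c, hcd⟩ else ⟨κ q, h⟩

theorem dn_mrg {C : Type} (κ : ℚ → C) (hκ : Dn κ) (c d : C) (hcd : c ≠ d) :
    Dn (mrg κ c d hcd) := by
  intro a b hab c'
  obtain ⟨x, h1, h2, h3⟩ := hκ a b hab c'.1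
  refine ⟨x, h1, h2, ?_⟩
  have h4 : κ x ≠ d := by
    rw [h3]
    exact c'.2
  unfold mrg
  rw [dif_neg h4]
  exact Subtype.ext h3

private theorem c1b_cases {C : Type} {κ : ℚ → C} {c d : C} {hcd : c ≠ d} {x y : ℚ}
    (h : mrg κ c d hcd y = mrg κ c d hcd x) :
    κ y = κ x ∨ (κ x = c ∧ κ y = d) ∨ (κ x = d ∧ κ y = c) := by
  unfold mrg at h
  by_cases hy : κ y = d
  · by_cases hx : κ x = d
    · exact Or.inl (hy.trans hx.symm)
    · rw [dif_pos hy, dif_neg hx] at h
      exact Or.inr (Or.inl ⟨(congrArg Subtype.val h).symm, hy⟩)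
  · by_cases hx : κ x = d
    · rw [dif_neg hy, dif_pos hx] at h
      exact Or.inr (Or.inr ⟨hx, congrArg Subtype.val h⟩)
    · rw [dif_neg hy, dif_neg hx] at h
      exact Or.inl (congrArg Subtype.val h)

private theorem c1b_lo (B : Finset ℚ) (u : ℚ) : ∃ a < u, ∀ b ∈ B, b < u → b ≤ a := by
  classical
  induction B using Finset.induction_on with
  | empty => exact ⟨u - 1, by linarith, fun b hb => absurd hb (Finset.notMem_empty b)⟩
  | insert z B _ ih =>
    obtain ⟨a, ha, hB⟩ := ih
    rcases lt_or_ge z u with hz | hz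
    · refine ⟨max a z, max_lt ha hz, fun b hb hbu => ?_⟩
      rcases Finset.mem_insert.1 hb with rfl | hb
      · exact le_max_right _ _
      · exact (hB b hb hbu).trans (le_max_left _ _)
    · refine ⟨a, ha, fun b hb hbu => ?_⟩
      rcases Finset.mem_insert.1 hb with rfl | hb
      · exact absurd hbu (not_lt.2 hz)
      · exact hB b hb hbu

private theorem c1b_ext {C : Type} (κ : ℚ → C) (hκ : Dn κ) (G : Subgroup (Perm ℚ)) (hG : HH κ ≤ G)
    (c d : C)
    (h : ∀ (B : Finset ℚ) (x y : ℚ), x ∉ B → y ∉ B → κ x = c → κ y = d →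
      (∀ b ∈ B, (b < x ↔ b < y) ∧ (x < b ↔ y < b)) → rel G B x y) (F : Finset ℚ) :
    ∀ (n : ℕ) (f : ℚ → ℚ) (T : Finset ℚ), T ⊆ F → T.card = n →
      (∀ x ∈ F, x ∉ T → κ (f x) = κ x) →
      (∀ x ∈ T, (κ x = c ∧ κ (f x) = d) ∨ (κ x = d ∧ κ (f x) = c)) →
      (∀ x ∈ F, ∀ y ∈ F, x < y → f x < f y) → ∃ g ∈ G, ∀ x ∈ F, g x = f x := by
  classical
  intro n
  induction n with
  | zero =>
    intro f T _ hT h1 _ h3
    have h4 : T = ∅ := Finset.card_eq_zero.1 hT
    obtain ⟨g, hg, h5⟩ := exists_HH κ hκ F f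
      (fun x hx => h1 x hx (by rw [h4]; exact Finset.notMem_empty x)) h3
    exact ⟨g, hG hg, h5⟩
  | succ n ih =>
    intro f T hTF hT h1 h2 h3
    obtain ⟨x, hx⟩ : T.Nonempty := by
      rw [← Finset.card_pos, hT]
      exact Nat.succ_pos n
    have hxF := hTF hx
    obtain ⟨a, ha, hB⟩ := c1b_lo ((F.erase x).image f) (f x)
    obtain ⟨y, hy1, hy2, hy3⟩ := hκ a (f x) ha (κ x)
    have hfx : f x ∉ (F.erase x).image f := by
      intro hmem
      obtain ⟨z, hz, hzx⟩ := Finset.mem_image.1 hmem
      obtain ⟨hz1, hz2⟩ := Finset.mem_erase.1 hz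
      rcases lt_or_gt_of_ne hz1 with hlt | hlt
      · exact absurd hzx (h3 z hz2 x hxF hlt).ne
      · exact absurd hzx (h3 x hxF z hz2 hlt).ne'
    have hyB : y ∉ (F.erase x).image f := fun hmem => absurd (hB y hmem hy2) (not_le.2 hy1)
    have hcell : ∀ b ∈ (F.erase x).image f, (b < y ↔ b < f x) ∧ (y < b ↔ f x < b) := by
      intro b hb
      refine ⟨⟨fun h4 => h4.trans hy2, fun h4 => (hB b hb h4).trans_lt hy1⟩, fun h4 => ?_,
        fun h4 => hy2.trans h4⟩
      rcases lt_trichotomy b (f x) with h5 | h5 | h5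
      · exact absurd (hB b hb h5) (not_le.2 (hy1.trans h4))
      · exact absurd (h5 ▸ hb) hfx
      · exact h5
    have hk : rel G ((F.erase x).image f) y (f x) := by
      rcases h2 x hx with h4 | h4
      · exact h _ y (f x) hyB hfx (hy3.trans h4.1) h4.2 hcell
      · exact rel_symm (h _ (f x) y hfx hyB h4.2 (hy3.trans h4.1) fun b hb =>
          ⟨(hcell b hb).1.symm, (hcell b hb).2.symm⟩)
    obtain ⟨k, hkG, hk1, hk2⟩ := hk
    obtain ⟨g, hgG, hg⟩ := ih (fun z => if z = x then y else f z) (T.erase x)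
      ((Finset.erase_subset _ _).trans hTF)
      (by rw [Finset.card_erase_of_mem hx, hT]; rfl)
      (by
        intro z hz hzT
        by_cases hzx : z = x
        · simp only [if_pos hzx]
          rw [hy3, hzx]
        · simp only [if_neg hzx]
          exact h1 z hz fun h4 => hzT (Finset.mem_erase.2 ⟨hzx, h4⟩))
      (by
        intro z hz
        obtain ⟨hz1, hz2⟩ := Finset.mem_erase.1 hz
        simp only [if_neg hz1]
        exact h2 z hz2)
      (by
        intro z hz w hw hzw
        by_cases hzx : z = x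
        · have hwx : w ≠ x := by
            intro h4
            rw [hzx, h4] at hzw
            exact lt_irrefl _ hzw
          simp only [if_pos hzx, if_neg hwx]
          rw [hzx] at hzw
          exact hy2.trans (h3 x hxF w hw hzw)
        · by_cases hwx : w = x
          · simp only [if_neg hzx, if_pos hwx]
            rw [hwx] at hzw
            exact (hB (f z) (Finset.mem_image_of_mem f (Finset.mem_erase.2 ⟨hzx, hz⟩))
              (h3 z hz x hxF hzw)).trans_lt hy1
          · simp only [if_neg hzx, if_neg hwx]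
            exact h3 z hz w hw hzw)
    refine ⟨k * g, G.mul_mem hkG hgG, fun z hz => ?_⟩
    rw [Perm.mul_apply, hg z hz]
    by_cases hzx : z = x
    · simp only [if_pos hzx]
      rw [hk2, hzx]
    · simp only [if_neg hzx]
      exact hk1 (f z) (Finset.mem_image_of_mem f (Finset.mem_erase.2 ⟨hzx, hz⟩))

/-- Reduction (R2): if `c ≠ d` cannot be distinguished in any interval over any finite set, then `G`
contains the automorphism group for the colouring in which `c` and `d` are merged.

Proof. Closedness: let `σ ∈ HH (mrg κ c d hcd)` and `F` finite; `σ` is increasing, and `κ (σ x) = κ x`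
or both colours are in `{c, d}`.  By induction on the number of the `x ∈ F` with `κ (σ x) ≠ κ x`
we show that for every strictly increasing `f : F → ℚ` with this property there is `g ∈ G` with
`g = f` on `F`.  If the number is `0` use `exists_HH`.  Otherwise let `x ∈ F` with `κ (f x) ≠ κ x`,
choose `y` of colour `κ x` so near to `f x` that no element of `f '' F \ {f x}` is between (or equal
to `y`); let `f' = f` with `f' x = y`.  There is `g' ∈ G` with `g' = f'` on `F`, and by the hypothesis
(or its symmetric form) there is `k ∈ G` fixing `f '' (F \ {x})` with `k y = f x`; take `k * g'`. -/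
theorem R2 {C : Type} (κ : ℚ → C) (hκ : Dn κ) (G : Subgroup (Perm ℚ)) (hG : HH κ ≤ G) (hcl : Cl G)
    (c d : C) (hcd : c ≠ d)
    (h : ∀ (B : Finset ℚ) (x y : ℚ), x ∉ B → y ∉ B → κ x = c → κ y = d →
      (∀ b ∈ B, (b < x ↔ b < y) ∧ (x < b ↔ y < b)) → rel G B x y) :
    HH (mrg κ c d hcd) ≤ G := by
  classical
  intro σ hσ
  refine hcl σ fun F => ?_
  refine c1b_ext κ hκ G hG c d h F _ σ (F.filter fun x => κ (σ x) ≠ κ x)
    (Finset.filter_subset _ _) rfl ?_ ?_ (fun x _ y _ hxy => hσ.1 x y hxy)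
  · intro x hx hxT
    by_contra hcon
    exact hxT (Finset.mem_filter.2 ⟨hx, hcon⟩)
  · intro x hx
    have h1 := (Finset.mem_filter.1 hx).2
    rcases c1b_cases (hσ.2 x) with h2 | h2
    · exact absurd h2 h1
    · exact h2

end Pool.Agent.Lib.H3C
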