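import Pool.Agent.Lib.H3C.Defs2
import Pool.Agent.Lib.H3C.B3

/-! # C2: transpositions -/

namespace Pool.Agent.Lib.H3C

open Equiv

/-- `swap x y ∈ G` is an equivalence relation (transitivity).

Proof. If two of the points are equal it is clear (`swap_self`, `swap_comm`); otherwise
`swap x z = swap x y * swap y z * swap x y` (up to `swap_comm`; `Equiv.swap_mul_swap_mul_swap`). -/
theorem swap_trans {X : Type} [DecidableEq X] (G : Subgroup (Perm X)) (x y z : X)
    (h : swap x y ∈ G) (h' : swap y z ∈ G) : swap x z ∈ G := by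
  by_cases hxy : x = y
  · rw [hxy]
    exact h'
  by_cases hxz : x = z
  · rw [hxz, swap_self]
    exact G.one_mem
  have h1 : swap y z * swap x y * swap y z = swap z x := swap_mul_swap_mul_swap hxy hxz
  rw [swap_comm x z, ← h1]
  exact G.mul_mem (G.mul_mem h' h) h'

private theorem C2_lt {C : Type} (κ : ℚ → C) (hκ : Dn κ) (G : Subgroup (Perm ℚ)) (hG : HH κ ≤ G)
    {a b : C} {x₀ y₀ : ℚ} (h0 : x₀ < y₀) (hx0 : κ x₀ = a) (hy0 : κ y₀ = b)
    (hs : swap x₀ y₀ ∈ G) (x y : ℚ) (hxy : x < y) (hx : κ x = a) (hy : κ y = b) :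
    swap x y ∈ G := by
  obtain ⟨h, hh, hv⟩ := exists_HH κ hκ {x₀, y₀} (fun z => if z = x₀ then x else y) (by
    intro z hz
    rcases Finset.mem_insert.1 hz with rfl | hz
    · rw [if_pos rfl, hx, hx0]
    · rw [Finset.mem_singleton] at hz
      rw [hz, if_neg h0.ne', hy, hy0]) (by
    intro z hz w hw hzw
    have h1 : z = x₀ := by
      rcases Finset.mem_insert.1 hz with h1 | h1
      · exact h1
      · rw [Finset.mem_singleton] at h1
        rcases Finset.mem_insert.1 hw with h2 | h2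
        · rw [h1, h2] at hzw
          exact absurd hzw (not_lt.2 h0.le)
        · rw [Finset.mem_singleton] at h2
          rw [h1, h2] at hzw
          exact absurd hzw (lt_irrefl _)
    have h2 : w ≠ x₀ := by
      intro h2
      rw [h1, h2] at hzw
      exact lt_irrefl _ hzw
    simp only [if_pos h1, if_neg h2]
    exact hxy)
  have e1 : h x₀ = x := by
    rw [hv x₀ (Finset.mem_insert_self _ _), if_pos rfl]
  have e2 : h y₀ = y := by
    rw [hv y₀ (Finset.mem_insert_of_mem (Finset.mem_singleton_self _)), if_neg h0.ne']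
  rw [← e1, ← e2, swap_apply_apply]
  exact G.mul_mem (G.mul_mem (hG hh) hs) (G.inv_mem (hG hh))

private theorem C2_all {C : Type} (κ : ℚ → C) (hκ : Dn κ) (G : Subgroup (Perm ℚ))
    {a b : C} (hlt : ∀ x y : ℚ, x < y → κ x = a → κ y = b → swap x y ∈ G)
    (x y : ℚ) (hx : κ x = a) (hy : κ y = b) : swap x y ∈ G := by
  rcases lt_trichotomy x y with h | h | h
  · exact hlt x y h hx hy
  · rw [h, swap_self]
    exact G.one_mem
  · obtain ⟨w, -, hw, hwc⟩ := hκ (y - 1) y (by linarith) a
    obtain ⟨z, hz, -, hzc⟩ := hκ x (x + 1) (by linarith) b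
    have s1 : swap x z ∈ G := hlt x z hz hx hzc
    have s2 : swap z w ∈ G := by
      rw [swap_comm]
      exact hlt w z (by linarith) hwc hzc
    have s3 : swap w y ∈ G := hlt w y hw hwc hy
    exact swap_trans G x w y (swap_trans G x z w s1 s2) s3

/-- Proof. Let `swap x₀ y₀ ∈ G`, `κ x₀ = a`, `κ y₀ = b`, and (first case) `x₀ < y₀`.  If `x < y` have
colours `a`, `b`, then `swap x y = h * swap x₀ y₀ * h⁻¹` for `h ∈ HH κ` with `h x₀ = x`, `h y₀ = y`
(`exists_HH`).  If `y < x`: take `w < y` of colour `a` and `z > x` of colour `b` (`hκ`): the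
transpositions of `(x, z)`, `(w, z)`, `(w, y)` are in `G` by the first part, so `swap x y ∈ G` by
`swap_trans`.  If `x = y` it is `1`.  The second case `y₀ < x₀` is symmetric (exchange the roles
of `a` and `b`, `swap_comm`). -/
theorem cr_swap {C : Type} (κ : ℚ → C) (hκ : Dn κ) (G : Subgroup (Perm ℚ)) (hG : HH κ ≤ G)
    (a b : C) (h : cr κ G a b) (x y : ℚ) (hx : κ x = a) (hy : κ y = b) : swap x y ∈ G := by
  obtain ⟨x₀, y₀, hne, hx0, hy0, hs⟩ := h
  rcases lt_or_gt_of_ne hne with h0 | h0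
  · exact C2_all κ hκ G (C2_lt κ hκ G hG h0 hx0 hy0 hs) x y hx hy
  · rw [swap_comm] at hs ⊢
    exact C2_all κ hκ G (C2_lt κ hκ G hG h0 hy0 hx0 hs) y x hy hx

theorem cr_symm {C : Type} (κ : ℚ → C) (G : Subgroup (Perm ℚ)) (a b : C) (h : cr κ G a b) :
    cr κ G b a := by
  obtain ⟨x, y, hne, hx, hy, hs⟩ := h
  exact ⟨y, x, hne.symm, hy, hx, by rw [swap_comm]; exact hs⟩

/-- Proof. `cr_swap` and `swap_trans`; choose the points `x ≠ z` of colours `a`, `c` and `y` of
colour `b`. -/
theorem cr_trans {C : Type} (κ : ℚ → C) (hκ : Dn κ) (G : Subgroup (Perm ℚ)) (hG : HH κ ≤ G)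
    (a b c : C) (h : cr κ G a b) (h' : cr κ G b c) : cr κ G a c := by
  obtain ⟨x, -, hx1, hx⟩ := hκ 0 1 (by norm_num) a
  obtain ⟨z, hz1, -, hz⟩ := hκ 1 2 (by norm_num) c
  obtain ⟨y, -, -, hy⟩ := hκ 2 3 (by norm_num) b
  exact ⟨x, z, (hx1.trans hz1).ne, hx, hz, swap_trans G x y z
    (cr_swap κ hκ G hG a b h x y hx hy) (cr_swap κ hκ G hG b c h' y z hy hz)⟩

/-- Proof. Closedness; let `F` be finite.  By induction on `F` there is `g ∈ G` with `g = σ` on `F`
and `swap x (g x) ∈ G` for all `x`.  For `insert a F` take `swap (g a) (σ a) * g`: `swap a (σ a) ∈ G`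
(`cr_swap`, or `σ a = a`), `swap a (g a) ∈ G`, so `swap (g a) (σ a) ∈ G`; it does not move the points
`g x = σ x`, `x ∈ F`; and the new permutation still has `swap x (g' x) ∈ G` by `swap_trans`. -/
theorem mem_of_InS {C : Type} (κ : ℚ → C) (hκ : Dn κ) (G : Subgroup (Perm ℚ)) (hG : HH κ ≤ G)
    (hcl : Cl G) (σ : Perm ℚ) (h : InS κ (cr κ G) σ) : σ ∈ G := by
  have hσ : ∀ x, swap x (σ x) ∈ G := by
    intro x
    by_cases hD : cr κ G (κ x) (κ x)
    · exact cr_swap κ hκ G hG _ _ ((h x).1 hD) x (σ x) rfl rfl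
    · rw [(h x).2 hD, swap_self]
      exact G.one_mem
  apply hcl
  intro F
  have key : ∀ F : Finset ℚ, ∃ g ∈ G, (∀ x ∈ F, g x = σ x) ∧ ∀ x, swap x (g x) ∈ G := by
    intro F
    induction F using Finset.induction_on with
    | empty =>
      refine ⟨1, G.one_mem, fun x hx => absurd hx (Finset.notMem_empty _), fun x => ?_⟩
      rw [Perm.one_apply, swap_self]
      exact G.one_mem
    | insert a F ha ih =>
      obtain ⟨g, hg, hgF, hgs⟩ := ih
      have h1 : swap (g a) (σ a) ∈ G :=
        swap_trans G (g a) a (σ a) (by rw [swap_comm]; exact hgs a) (hσ a)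
      refine ⟨swap (g a) (σ a) * g, G.mul_mem h1 hg, ?_, ?_⟩
      · intro x hx
        rw [Perm.mul_apply]
        rcases Finset.mem_insert.1 hx with rfl | hx
        · rw [swap_apply_left]
        · have hxa : x ≠ a := fun h2 => ha (h2 ▸ hx)
          rw [swap_apply_of_ne_of_ne, hgF x hx]
          · exact fun h2 => hxa (g.injective h2)
          · rw [hgF x hx]
            exact fun h2 => hxa (σ.injective h2)
      · intro x
        rw [Perm.mul_apply]
        refine swap_trans G x (g x) _ (hgs x) ?_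
        by_cases h2 : g x = g a
        · rw [h2, swap_apply_left]
          exact h1
        · by_cases h3 : g x = σ a
          · rw [h3, swap_apply_right, swap_comm]
            exact h1
          · rw [swap_apply_of_ne_of_ne h2 h3, swap_self]
            exact G.one_mem
  obtain ⟨g, hg, hgF, -⟩ := key F
  exact ⟨g, hg, hgF⟩

end Pool.Agent.Lib.H3C
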