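import Pool.Agent.Lib.H3C.Defs2
import Pool.Agent.Lib.H3C.B2
import Mathlib.Order.CountableDenseLinearOrder

/-! # C3: the family `Mfam` -/

namespace Pool.Agent.Lib.H3C

open Equiv

/-- Proof. If all colours are in classes, then a member of `Mfam κ D` is exactly
`{σ | ∀ x, D (κ x) (κ (σ x))}`, so `Mfam κ D` is a subsingleton. -/
theorem mfam_subsingleton {C : Type} (κ : ℚ → C) (D : C → C → Prop) (hD : ∀ c, D c c) :
    (Mfam κ D).Subsingleton := by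
  have key : ∀ M ∈ Mfam κ D, ∀ σ : Perm ℚ, σ ∈ M ↔ ∀ x, D (κ x) (κ (σ x)) := by
    intro M hM σ
    constructor
    · intro hσ x
      exact hM.2.2.2 σ hσ x (hD _)
    · intro h
      exact hM.2.2.1 σ fun x => ⟨fun _ => h x, fun h1 => absurd (hD _) h1⟩
  intro M hM M' hM'
  ext σ
  rw [key M hM, key M' hM']

/-- The points outside the classes, as a coloured copy of the rationals.

Proof. The type `{q : ℚ // ¬ D (κ q) (κ q)}` is a countable, nonempty, densely ordered linear order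
without end points (take a colour `c₀` with `¬ D c₀ c₀` and use `hκ` in the intervals
`(x - 1, x)`, `(x, x + 1)`, `(x, y)`), so it is order isomorphic to `ℚ`
(`Order.iso_of_countable_dense`).  `κ'` is the colouring transported to `ℚ`. -/
theorem exists_copy {C : Type} (κ : ℚ → C) (hκ : Dn κ) (D : C → C → Prop) (c₀ : C)
    (hc₀ : ¬ D c₀ c₀) :
    ∃ (f : ℚ ≃o {q : ℚ // ¬ D (κ q) (κ q)}) (κ' : ℚ → {c : C // ¬ D c c}), Dn κ' ∧
      ∀ q, ((κ' q : {c : C // ¬ D c c}) : C) = κ (f q) := by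
  have key : ∀ a b : ℚ, a < b → ∀ c : C, ¬ D c c →
      ∃ x : {q : ℚ // ¬ D (κ q) (κ q)}, a < x.1 ∧ x.1 < b ∧ κ x.1 = c := by
    intro a b hab c hc
    obtain ⟨x, h1, h2, h3⟩ := hκ a b hab c
    exact ⟨⟨x, by rw [h3]; exact hc⟩, h1, h2, h3⟩
  have h1 : Nonempty {q : ℚ // ¬ D (κ q) (κ q)} := by
    obtain ⟨x, -⟩ := key 0 1 one_pos c₀ hc₀
    exact ⟨x⟩
  have h2 : NoMinOrder {q : ℚ // ¬ D (κ q) (κ q)} := by
    refine ⟨fun a => ?_⟩
    obtain ⟨x, -, hx, -⟩ := key (a.1 - 1) a.1 (by linarith) c₀ hc₀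
    exact ⟨x, hx⟩
  have h3 : NoMaxOrder {q : ℚ // ¬ D (κ q) (κ q)} := by
    refine ⟨fun a => ?_⟩
    obtain ⟨x, hx, -, -⟩ := key a.1 (a.1 + 1) (by linarith) c₀ hc₀
    exact ⟨x, hx⟩
  have h4 : DenselyOrdered {q : ℚ // ¬ D (κ q) (κ q)} := by
    refine ⟨fun a b hab => ?_⟩
    obtain ⟨x, hx, hx', -⟩ := key a.1 b.1 hab c₀ hc₀
    exact ⟨x, hx, hx'⟩
  obtain ⟨f⟩ := Order.iso_of_countable_dense ℚ {q : ℚ // ¬ D (κ q) (κ q)}
  refine ⟨f, fun q => ⟨κ (f q), (f q).2⟩, ?_, fun q => rfl⟩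
  intro a b hab c
  obtain ⟨x, hx1, hx2, hx3⟩ := key (f a).1 (f b).1 (f.lt_iff_lt.2 hab) c.1 c.2
  refine ⟨f.symm x, ?_, ?_, ?_⟩
  · rw [← f.lt_iff_lt, f.apply_symm_apply]
    exact hx1
  · rw [← f.lt_iff_lt, f.apply_symm_apply]
    exact hx2
  · apply Subtype.ext
    show κ (f (f.symm x)) = c.1
    rw [f.apply_symm_apply]
    exact hx3

end Pool.Agent.Lib.H3C
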