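import Pool.Agent.Lib.H3C.C3

/-! # C4: `Mfam` is finite -/

namespace Pool.Agent.Lib.H3C

open Equiv

/-- Extension of a permutation of the copy by the identity. -/
private noncomputable def C4_ext (p : ℚ → Prop) (f : ℚ ≃ {q : ℚ // p q}) :
    Perm ℚ →* Perm ℚ := by
  classical
  exact Equiv.Perm.extendDomainHom f

private theorem C4_img (p : ℚ → Prop) (f : ℚ ≃ {q : ℚ // p q}) (τ : Perm ℚ) (q : ℚ) :
    C4_ext p f τ (f q) = f (τ q) := by
  classical
  exact Equiv.Perm.extendDomain_apply_image τ f q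

private theorem C4_out (p : ℚ → Prop) (f : ℚ ≃ {q : ℚ // p q}) (τ : Perm ℚ) {x : ℚ}
    (h : ¬ p x) : C4_ext p f τ x = x := by
  classical
  exact Equiv.Perm.extendDomain_apply_not_subtype τ f h

private theorem C4_surj (p : ℚ → Prop) (f : ℚ ≃ {q : ℚ // p q}) {x : ℚ} (h : p x) :
    ∃ q, (f q : ℚ) = x :=
  ⟨f.symm ⟨x, h⟩, by rw [f.apply_symm_apply]⟩

/-- The permutation which is `a` on `p` and the identity outside. -/
private theorem C4_glue (p : ℚ → Prop) (a : Perm ℚ) (ha : ∀ x, p (a x) ↔ p x) :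
    ∃ s : Perm ℚ, (∀ x, p x → s x = a x) ∧ ∀ x, ¬ p x → s x = x := by
  classical
  have ha' : ∀ x, p (a⁻¹ x) ↔ p x := fun x => by
    have := ha (a⁻¹ x)
    rw [pai] at this
    exact this.symm
  refine ⟨⟨fun x => if p x then a x else x, fun x => if p x then a⁻¹ x else x, ?_, ?_⟩, ?_, ?_⟩
  · intro x
    by_cases hx : p x
    · have h1 : p (a x) := (ha x).2 hx
      show (if p (if p x then a x else x) then a⁻¹ (if p x then a x else x)
        else (if p x then a x else x)) = x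
      rw [if_pos hx, if_pos h1, pia]
    · show (if p (if p x then a x else x) then a⁻¹ (if p x then a x else x)
        else (if p x then a x else x)) = x
      rw [if_neg hx, if_neg hx]
  · intro x
    by_cases hx : p x
    · have h1 : p (a⁻¹ x) := (ha' x).2 hx
      show (if p (if p x then a⁻¹ x else x) then a (if p x then a⁻¹ x else x)
        else (if p x then a⁻¹ x else x)) = x
      rw [if_pos hx, if_pos h1, pai]
    · show (if p (if p x then a⁻¹ x else x) then a (if p x then a⁻¹ x else x)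
        else (if p x then a⁻¹ x else x)) = x
      rw [if_neg hx, if_neg hx]
  · intro x hx
    show (if p x then a x else x) = a x
    rw [if_pos hx]
  · intro x hx
    show (if p x then a x else x) = x
    rw [if_neg hx]

/-- Every permutation which fixes all points outside `p` is an extension. -/
private theorem C4_restr (p : ℚ → Prop) (f : ℚ ≃ {q : ℚ // p q}) (t : Perm ℚ)
    (h1 : ∀ x, ¬ p x → t x = x) (h2 : ∀ x, p (t x) ↔ p x) : ∃ τ : Perm ℚ, C4_ext p f τ = t := by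
  have h2' : ∀ x, p (t⁻¹ x) ↔ p x := fun x => by
    have := h2 (t⁻¹ x)
    rw [pai] at this
    exact this.symm
  refine ⟨⟨fun q => f.symm ⟨t (f q), (h2 _).2 (f q).2⟩,
    fun q => f.symm ⟨t⁻¹ (f q), (h2' _).2 (f q).2⟩, ?_, ?_⟩, ?_⟩
  · intro q
    simp [pia]
  · intro q
    simp
  · ext x
    by_cases hx : p x
    · obtain ⟨q, rfl⟩ := C4_surj p f hx
      rw [C4_img]
      simp
    · rw [C4_out p f _ hx, h1 x hx]

private theorem C4_closed (p : ℚ → Prop) (f : ℚ ≃ {q : ℚ // p q}) (M : Subgroup (Perm ℚ))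
    (hM : Cl M) : Cl (M.comap (C4_ext p f)) := by
  classical
  intro τ hτ
  show C4_ext p f τ ∈ M
  refine hM _ fun F => ?_
  obtain ⟨g, hg, h⟩ := hτ (F.preimage (fun q => (f q : ℚ))
    (Set.injOn_of_injective (Subtype.val_injective.comp f.injective)))
  refine ⟨C4_ext p f g, hg, fun x hx => ?_⟩
  by_cases hp : p x
  · obtain ⟨q, rfl⟩ := C4_surj p f hp
    rw [C4_img, C4_img, h q (Finset.mem_preimage.2 hx)]
  · rw [C4_out p f _ hp, C4_out p f _ hp]

private theorem C4_HH {C : Type} (κ : ℚ → C) (hκ : Dn κ) (D : C → C → Prop)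
    (f : ℚ ≃o {q : ℚ // ¬ D (κ q) (κ q)}) (κ' : ℚ → {c : C // ¬ D c c})
    (hf : ∀ q, ((κ' q : {c : C // ¬ D c c}) : C) = κ (f q)) (M : Subgroup (Perm ℚ))
    (hM : M ∈ Mfam κ D) : HH κ' ≤ M.comap (C4_ext (fun q => ¬ D (κ q) (κ q)) f.toEquiv) := by
  classical
  intro τ hτ
  show C4_ext (fun q => ¬ D (κ q) (κ q)) f.toEquiv τ ∈ M
  refine hM.2.1 _ fun F => ?_
  have himg : ∀ q, C4_ext (fun q => ¬ D (κ q) (κ q)) f.toEquiv τ (f q) = f (τ q) :=
    fun q => C4_img (fun q => ¬ D (κ q) (κ q)) f.toEquiv τ q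
  obtain ⟨h, hh, hhF⟩ := exists_HH κ hκ (F.filter fun q => ¬ D (κ q) (κ q)) (C4_ext (fun q => ¬ D (κ q) (κ q)) f.toEquiv τ) (by
    intro x hx
    obtain ⟨q, rfl⟩ := C4_surj (fun q => ¬ D (κ q) (κ q)) f.toEquiv (Finset.mem_filter.1 hx).2
    show κ (C4_ext (fun q => ¬ D (κ q) (κ q)) f.toEquiv τ (f q)) = κ (f q)
    rw [himg, ← hf, ← hf, hτ.2]) (by
    intro x hx y hy hxy
    obtain ⟨q, rfl⟩ := C4_surj (fun q => ¬ D (κ q) (κ q)) f.toEquiv (Finset.mem_filter.1 hx).2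
    obtain ⟨q', rfl⟩ := C4_surj (fun q => ¬ D (κ q) (κ q)) f.toEquiv (Finset.mem_filter.1 hy).2
    show C4_ext (fun q => ¬ D (κ q) (κ q)) f.toEquiv τ (f q) < C4_ext (fun q => ¬ D (κ q) (κ q)) f.toEquiv τ (f q')
    rw [himg, himg]
    have h1 : q < q' := f.lt_iff_lt.1 (Subtype.coe_lt_coe.1 hxy)
    exact Subtype.coe_lt_coe.2 (f.lt_iff_lt.2 (hτ.1 _ _ h1)))
  have hinv : ∀ x, κ (h⁻¹ x) = κ x := (HH κ).inv_mem hh |>.2
  obtain ⟨s, hs1, hs2⟩ := C4_glue (fun x => D (κ x) (κ x)) h⁻¹ (fun x => by rw [hinv x])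
  refine ⟨s * h, M.mul_mem (hM.2.2.1 s ?_) (hM.1 hh), fun x hx => ?_⟩
  · intro x
    refine ⟨fun hx => ?_, fun hx => hs2 x hx⟩
    rw [hs1 x hx, hinv]
    exact hx
  · rw [Perm.mul_apply]
    by_cases hx' : D (κ x) (κ x)
    · rw [hs1 (h x) (by rw [hh.2]; exact hx'), pia, C4_out (fun q => ¬ D (κ q) (κ q)) f.toEquiv τ (not_not.2 hx')]
    · rw [hs2 (h x) (by rw [hh.2]; exact hx')]
      exact hhF x (Finset.mem_filter.2 ⟨hx, hx'⟩)

private theorem C4_inj {C : Type} (κ : ℚ → C) (D : C → C → Prop) (hs : ∀ a b, D a b → D b a)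
    (ht : ∀ a b c, D a b → D b c → D a c) (f : ℚ ≃ {q : ℚ // ¬ D (κ q) (κ q)})
    (M₁ M₂ : Subgroup (Perm ℚ)) (h₁ : M₁ ∈ Mfam κ D) (h₂ : M₂ ∈ Mfam κ D)
    (h : M₁.comap (C4_ext (fun q => ¬ D (κ q) (κ q)) f) ≤
      M₂.comap (C4_ext (fun q => ¬ D (κ q) (κ q)) f)) : M₁ ≤ M₂ := by
  intro m hm
  have hD : ∀ m ∈ M₁, ∀ x, D (κ x) (κ x) → D (κ (m x)) (κ (m x)) := by
    intro m hm x hx
    have h1 := h₁.2.2.2 m hm x hx
    exact ht _ _ _ (hs _ _ h1) h1
  have hD' : ∀ x, D (κ (m x)) (κ (m x)) ↔ D (κ x) (κ x) := by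
    intro x
    refine ⟨fun hx => ?_, hD m hm x⟩
    have h1 := hD m⁻¹ (M₁.inv_mem hm) (m x) hx
    rw [pia] at h1
    exact h1
  obtain ⟨s, hs1, hs2⟩ := C4_glue (fun x => D (κ x) (κ x)) m hD'
  have hsS : InS κ D s := by
    intro x
    refine ⟨fun hx => ?_, fun hx => hs2 x hx⟩
    rw [hs1 x hx]
    exact h₁.2.2.2 m hm x hx
  have hin : ∀ x, D (κ x) (κ x) → (s⁻¹ * m) x = x := by
    intro x hx
    rw [Perm.mul_apply, ← hs1 x hx, pia]
  have hout : ∀ x, ¬ D (κ x) (κ x) → (s⁻¹ * m) x = m x := by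
    intro x hx
    have h1 : ¬ D (κ (m x)) (κ (m x)) := fun h => hx ((hD' x).1 h)
    rw [Perm.mul_apply]
    have h2 := hs2 (m x) h1
    rw [Perm.inv_eq_iff_eq]
    exact h2.symm
  obtain ⟨τ, hτ⟩ := C4_restr (fun q => ¬ D (κ q) (κ q)) f (s⁻¹ * m)
    (fun x hx => hin x (not_not.1 hx)) (by
      intro x
      by_cases hx : D (κ x) (κ x)
      · rw [hin x hx]
      · rw [hout x hx]
        exact not_congr (hD' x))
  have h3 : τ ∈ M₁.comap (C4_ext (fun q => ¬ D (κ q) (κ q)) f) := by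
    show C4_ext (fun q => ¬ D (κ q) (κ q)) f τ ∈ M₁
    rw [hτ]
    exact M₁.mul_mem (M₁.inv_mem (h₁.2.2.1 s hsS)) hm
  have h4 : C4_ext (fun q => ¬ D (κ q) (κ q)) f τ ∈ M₂ := h h3
  rw [hτ] at h4
  have h5 : m = s * (s⁻¹ * m) := by rw [mul_inv_cancel_left]
  rw [h5]
  exact M₂.mul_mem (h₂.2.2.1 s hsS) h4

/-- Finiteness of `Mfam` by induction on the number of colours.

Proof. If `D c c` for all `c` use `mfam_subsingleton`.  Otherwise take `f, κ'` from `exists_copy`.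
`{c // ¬ D c c}` has fewer elements than `C` because `D c₁ c₁` for some `c₁`; so `ih` gives
`FR (HH κ')`.  For `τ : Perm ℚ` let `ext τ = τ.extendDomain f.toEquiv` (`Equiv.Perm.extendDomain`,
`Equiv.Perm.extendDomainHom`): it is `f ∘ τ ∘ f⁻¹` on the points outside the classes and the
identity on the points `x` with `D (κ x) (κ x)`.  For `M ∈ Mfam κ D` let
`K M = {τ | ext τ ∈ M}` (`Subgroup.comap`).
(a) `K M` is closed: if `τ` is approximated by elements of `K M` then `ext τ` is approximated by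
elements of `M` (for finite `F` use the finite set of the `q` with `f q ∈ F`).
(b) `HH κ' ≤ K M`: let `τ ∈ HH κ'`, `F` finite.  `x ↦ ext τ x` is increasing and preserves the
colours on the points of `F` outside the classes; take `h ∈ HH κ` equal to it there (`exists_HH`) and
let `s x = h⁻¹ x` if `D (κ x) (κ x)` and `s x = x` otherwise; `s` is a permutation with `InS κ D s`
(`h` preserves the colours), so `s * h ∈ M`, and `s * h = ext τ` on `F`.
(c) `M ↦ K M` is injective on `Mfam κ D`: let `K M₁ = K M₂` and `m ∈ M₁`.  `m` maps the points inside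
the classes to points inside the classes (`D (κ x) (κ (m x))`, symmetry and transitivity of `D`;
the same for `m⁻¹`), so it induces `τ` on the other points with `m = s * ext τ`, where `s` is `m`
inside and the identity outside; `InS κ D s`, so `s ∈ M₁`, `ext τ ∈ M₁`, `τ ∈ K M₁ = K M₂`,
`m = s * ext τ ∈ M₂`.
So `Mfam κ D` is finite (`Set.Finite.of_finite_image`, `Set.Finite.subset`). -/
theorem mfam_finite {C : Type} [Finite C]
    (ih : ∀ (C' : Type) [Finite C'], Nat.card C' < Nat.card C → ∀ κ' : ℚ → C', Dn κ' → FR (HH κ'))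
    (κ : ℚ → C) (hκ : Dn κ) (D : C → C → Prop) (hs : ∀ a b, D a b → D b a)
    (ht : ∀ a b c, D a b → D b c → D a c) (c₁ : C) (hc₁ : D c₁ c₁) : (Mfam κ D).Finite := by
  by_cases hall : ∀ c, D c c
  · exact (mfam_subsingleton κ D hall).finite
  push Not at hall
  obtain ⟨c₀, hc₀⟩ := hall
  obtain ⟨f, κ', hκ', hf⟩ := exists_copy κ hκ D c₀ hc₀
  have hcard : Nat.card {c : C // ¬ D c c} < Nat.card C :=
    Finite.card_subtype_lt (x := c₁) (not_not.2 hc₁)
  have hfin : {G : Subgroup (Perm ℚ) | HH κ' ≤ G ∧ Cl G}.Finite := ih _ hcard κ' hκ'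
  refine Set.Finite.of_finite_image (f := fun M : Subgroup (Perm ℚ) =>
    M.comap (C4_ext (fun q => ¬ D (κ q) (κ q)) f.toEquiv)) (hfin.subset ?_) ?_
  · rintro _ ⟨M, hM, rfl⟩
    exact ⟨C4_HH κ hκ D f κ' hf M hM, C4_closed _ f.toEquiv M hM.2.1⟩
  · intro M₁ h₁ M₂ h₂ h
    exact le_antisymm (C4_inj κ D hs ht f.toEquiv M₁ M₂ h₁ h₂ (le_of_eq h))
      (C4_inj κ D hs ht f.toEquiv M₂ M₁ h₂ h₁ (ge_of_eq h))

end Pool.Agent.Lib.H3C
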