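import Pool.Agent.Lib.H3C.A2
import Pool.Agent.Lib.H3C.A4
import Pool.Agent.Lib.H3C.C2
import Pool.Agent.Lib.H3C.C4

/-! # C5: the groups with transpositions -/

namespace Pool.Agent.Lib.H3C

open Equiv

/-- Elements of `G` map points inside the classes to points inside the classes. -/
private theorem c5_in {C : Type} (κ : ℚ → C) (hκ : Dn κ) (G : Subgroup (Perm ℚ)) (hG : HH κ ≤ G)
    {g : Perm ℚ} (hg : g ∈ G) {x : ℚ} (hx : cr κ G (κ x) (κ x)) :
    cr κ G (κ (g x)) (κ (g x)) := by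
  obtain ⟨y, hy, -, hyc⟩ := hκ x (x + 1) (by linarith) (κ x)
  have h1 : swap x y ∈ G := cr_swap κ hκ G hG _ _ hx x y rfl hyc
  have h2 : swap (g x) (g y) ∈ G := by
    rw [swap_apply_apply]
    exact G.mul_mem (G.mul_mem hg h1) (G.inv_mem hg)
  have h3 : cr κ G (κ (g x)) (κ (g y)) := ⟨g x, g y, fun h => hy.ne (g.injective h), rfl, rfl, h2⟩
  exact cr_trans κ hκ G hG _ _ _ h3 (cr_symm κ G _ _ h3)

/-- The elements of `G` which preserve the classes. -/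
private def c5M {C : Type} (κ : ℚ → C) (hκ : Dn κ) (G : Subgroup (Perm ℚ)) (hG : HH κ ≤ G) :
    Subgroup (Perm ℚ) where
  carrier := {g | g ∈ G ∧ ∀ x, cr κ G (κ x) (κ x) → cr κ G (κ x) (κ (g x))}
  mul_mem' := fun {a b} ha hb => ⟨G.mul_mem ha.1 hb.1, fun x hx => by
    rw [Perm.mul_apply]
    exact cr_trans κ hκ G hG _ _ _ (hb.2 x hx) (ha.2 (b x) (c5_in κ hκ G hG hb.1 hx))⟩
  one_mem' := ⟨G.one_mem, fun x hx => by rw [Perm.one_apply]; exact hx⟩
  inv_mem' := fun {a} ha => ⟨G.inv_mem ha.1, fun x hx => by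
    have h1 := ha.2 (a⁻¹ x) (c5_in κ hκ G hG (G.inv_mem ha.1) hx)
    rw [pai] at h1
    exact cr_symm κ G _ _ h1⟩

private theorem c5M_mem {C : Type} (κ : ℚ → C) (hκ : Dn κ) (G : Subgroup (Perm ℚ)) (hG : HH κ ≤ G)
    (hcl : Cl G) : c5M κ hκ G hG ∈ Mfam κ (cr κ G) := by
  refine ⟨fun g hg => ⟨hG hg, fun x hx => ?_⟩, fun σ hσ => ⟨hcl σ fun F => ?_, fun x hx => ?_⟩,
    fun σ hσ => ⟨mem_of_InS κ hκ G hG hcl σ hσ, fun x hx => (hσ x).1 hx⟩, fun m hm x hx => hm.2 x hx⟩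
  · rw [hg.2]
    exact hx
  · obtain ⟨g, hg, h⟩ := hσ F
    exact ⟨g, hg.1, h⟩
  · obtain ⟨g, hg, h⟩ := hσ {x}
    rw [← h x (Finset.mem_singleton_self x)]
    exact hg.2 x hx

private theorem c5M_normal {C : Type} (κ : ℚ → C) (hκ : Dn κ) (G : Subgroup (Perm ℚ))
    (hG : HH κ ≤ G) {g : Perm ℚ} (hg : g ∈ G) {m : Perm ℚ} (hm : m ∈ c5M κ hκ G hG) :
    g * m * g⁻¹ ∈ c5M κ hκ G hG := by
  refine ⟨G.mul_mem (G.mul_mem hg hm.1) (G.inv_mem hg), fun x hx => ?_⟩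
  have h1 := c5_in κ hκ G hG (G.inv_mem hg) hx
  have h2 := hm.2 (g⁻¹ x) h1
  have h3 : swap (g⁻¹ x) (m (g⁻¹ x)) ∈ G := cr_swap κ hκ G hG _ _ h2 _ _ rfl rfl
  have h4 : swap (g (g⁻¹ x)) (g (m (g⁻¹ x))) ∈ G := by
    rw [swap_apply_apply]
    exact G.mul_mem (G.mul_mem hg h3) (G.inv_mem hg)
  rw [pai] at h4
  rw [Perm.mul_apply, Perm.mul_apply]
  by_cases hne : x = g (m (g⁻¹ x))
  · rw [← hne]
    exact hx
  · exact ⟨x, g (m (g⁻¹ x)), hne, rfl, rfl, h4⟩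

private theorem c5_family {C : Type} (κ : ℚ → C) (D : C → C → Prop) :
    ∀ K ∈ Mfam κ D, ∀ k, kcl K (k + 1) ∈ Mfam κ D := by
  intro K hK k
  refine ⟨hK.1.trans (A2_le_kcl K (k + 1)), cl_kcl K (k + 1),
    fun σ hσ => A2_le_kcl K (k + 1) (hK.2.2.1 σ hσ), fun m hm x hx => ?_⟩
  obtain ⟨g, hg, h1⟩ := hm fun _ => x
  rw [← h1 0]
  exact hK.2.2.2 g hg x hx

/-- The closed supergroups of `HH κ` which contain a transposition of two points of the same colour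
are finitely many.

Proof. `C → C → Prop` is finite, so it is enough to treat the `G` with `cr κ G = D` for a fixed `D`
with `D c₁ c₁`.  `D` is symmetric and transitive (`cr_symm`, `cr_trans`).  Let
`M G = {g ∈ G | ∀ x, D (κ x) (κ x) → D (κ x) (κ (g x))}`.
(1) It is a subgroup (symmetry and transitivity) and closed, contains `HH κ` (colours preserved) and
all `σ` with `InS κ D σ` (`mem_of_InS`): `M G ∈ Mfam κ D`.
(2) It is normal in `G`: `g * swap x y * g⁻¹ = swap (g x) (g y)`, so `G` preserves the relation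
`swap x y ∈ G`; for `m ∈ M G` and `x` with `D (κ x) (κ x)`: `swap x y ∈ G` for some `y ≠ x`, so
`z = g⁻¹ x` has `swap z (g⁻¹ y) ∈ G`, so `D (κ z) (κ z)` (`cr_trans`, `cr_symm`), `D (κ z) (κ (m z))`,
`swap z (m z) ∈ G` (`cr_swap`), `swap x (g m g⁻¹ x) ∈ G`, and so `D (κ x) (κ (g m g⁻¹ x))`.
(3) `Mfam κ D` is finite (`mfam_finite`) and its members are `k`-closed for some `k`
(`exists_kcl_eq_of_family`: `kcl K (k + 1)` contains `K`, is closed and preserves the classes as for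
every `x` it agrees with an element of `K` at `x`).  They have finitely many orbits (`olig_HH`,
`olig_mono`).  By `finite_normal` and (2) the groups `G` form a subset of a finite union of finite
sets. -/
theorem finite_with_swaps {C : Type} [Finite C]
    (ih : ∀ (C' : Type) [Finite C'], Nat.card C' < Nat.card C → ∀ κ' : ℚ → C', Dn κ' → FR (HH κ'))
    (κ : ℚ → C) (hκ : Dn κ) :
    {G : Subgroup (Perm ℚ) | HH κ ≤ G ∧ Cl G ∧ ∃ c, cr κ G c c}.Finite := by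
  refine (Set.finite_iUnion (ι := C → C → Prop) (f := fun D =>
    {G : Subgroup (Perm ℚ) | HH κ ≤ G ∧ Cl G ∧ (∃ c, cr κ G c c) ∧ cr κ G = D}) fun D => ?_).subset
    (fun G hG => Set.mem_iUnion.2 ⟨cr κ G, hG.1, hG.2.1, hG.2.2, rfl⟩)
  rcases Set.eq_empty_or_nonempty
    {G : Subgroup (Perm ℚ) | HH κ ≤ G ∧ Cl G ∧ (∃ c, cr κ G c c) ∧ cr κ G = D} with h0 | h0
  · rw [h0]
    exact Set.finite_empty
  obtain ⟨G₀, hG₀, -, ⟨c₁, hc₁⟩, hD⟩ := h0
  have hs : ∀ a b, D a b → D b a := by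
    rw [← hD]
    exact fun a b h => cr_symm κ G₀ a b h
  have ht : ∀ a b c, D a b → D b c → D a c := by
    rw [← hD]
    exact fun a b c h h' => cr_trans κ hκ G₀ hG₀ a b c h h'
  rw [hD] at hc₁
  have hfin : (Mfam κ D).Finite := mfam_finite ih κ hκ D hs ht c₁ hc₁
  refine (Set.Finite.biUnion hfin (t := fun M : Subgroup (Perm ℚ) =>
    {G : Subgroup (Perm ℚ) | M ≤ G ∧ ∀ g ∈ G, ∀ m ∈ M, g * m * g⁻¹ ∈ M}) fun M hM => ?_).subset ?_
  · obtain ⟨k, hk⟩ := exists_kcl_eq_of_family (Mfam κ D) hfin (fun K hK => hK.2.1)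
      (c5_family κ D) M hM
    exact finite_normal M (olig_mono hM.1 (olig_HH κ hκ)) k hk
  · rintro G ⟨hG, hcl, -, hGD⟩
    have h1 := c5M_mem κ hκ G hG hcl
    rw [hGD] at h1
    exact Set.mem_biUnion h1 ⟨fun g hg => hg.1, fun g hg m hm => c5M_normal κ hκ G hG hg hm⟩

end Pool.Agent.Lib.H3C
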