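import Pool.Agent.Lib.H3C.B1
import Pool.Agent.Lib.H3C.B3

/-! # D1: inequivalent configurations -/

namespace Pool.Agent.Lib.H3C

open Equiv

private theorem d1_top {C : Type} (κ : ℚ → C) (hκ : Dn κ) (G : Subgroup (Perm ℚ)) (h1 : N1 κ G)
    (c d : C) : ∃ (B : Finset ℚ) (x y : ℚ), x ∉ B ∧ y ∉ B ∧ κ x = c ∧ κ y = d ∧ x < y ∧
      (∀ b ∈ B, b < y) ∧ ¬ rel G B x y := by
  obtain ⟨B, x, x', hx, hx', hcx, hcx', hn⟩ := h1 c
  obtain ⟨M, hM⟩ := (insert x (insert x' B)).exists_le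
  obtain ⟨y, hy, _, hyd⟩ := hκ M (M + 1) (by linarith) d
  have hxM : x < y := (hM x (by simp)).trans_lt hy
  have hxM' : x' < y := (hM x' (by simp)).trans_lt hy
  have hB : ∀ b ∈ B, b < y := fun b hb => (hM b (by simp [hb])).trans_lt hy
  have hyB : y ∉ B := fun h => lt_irrefl _ (hB y h)
  by_cases h2 : rel G B x y
  · refine ⟨B, x', y, hx', hyB, hcx', hyd, hxM', hB, fun h3 => hn ?_⟩
    exact rel_trans h2 (rel_symm h3)
  · exact ⟨B, x, y, hx, hyB, hcx, hyd, hxM, hB, h2⟩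

private theorem d1_bot {C : Type} (κ : ℚ → C) (hκ : Dn κ) (G : Subgroup (Perm ℚ)) (h1 : N1 κ G)
    (c d : C) : ∃ (B : Finset ℚ) (x y : ℚ), x ∉ B ∧ y ∉ B ∧ κ x = c ∧ κ y = d ∧ y < x ∧
      (∀ b ∈ B, y < b) ∧ ¬ rel G B x y := by
  obtain ⟨B, x, x', hx, hx', hcx, hcx', hn⟩ := h1 c
  obtain ⟨M, hM⟩ : ∃ M : ℚ, ∀ b ∈ insert x (insert x' B), M ≤ b :=
    (insert x (insert x' B)).bddBelow.imp fun M h b hb => h hb
  obtain ⟨y, _, hy, hyd⟩ := hκ (M - 1) M (by linarith) d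
  have hxM : y < x := hy.trans_le (hM x (by simp))
  have hxM' : y < x' := hy.trans_le (hM x' (by simp))
  have hB : ∀ b ∈ B, y < b := fun b hb => hy.trans_le (hM b (by simp [hb]))
  have hyB : y ∉ B := fun h => lt_irrefl _ (hB y h)
  by_cases h2 : rel G B x y
  · refine ⟨B, x', y, hx', hyB, hcx', hyd, hxM', hB, fun h3 => hn ?_⟩
    exact rel_trans h2 (rel_symm h3)
  · exact ⟨B, x, y, hx, hyB, hcx, hyd, hxM, hB, h2⟩

/-- Proof. Suppose not: then for all `B` and all `x < y` outside `B` of colours `c`, `d` with an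
element of `B` in between, `rel G B x y`.  Take `B, x, x'` from `N1` for the colour `c`, a rational
`b'` larger than `x`, `x'` and all elements of `B`, and `y > b'` of colour `d`.  Over
`B' = insert b' B` both `x` and `x'` are equivalent to `y`, so `rel G B' x x'`, so `rel G B x x'`. -/
theorem config_lt {C : Type} (κ : ℚ → C) (hκ : Dn κ) (G : Subgroup (Perm ℚ)) (h1 : N1 κ G)
    (c d : C) : ∃ (B : Finset ℚ) (x y : ℚ), x ∉ B ∧ y ∉ B ∧ κ x = c ∧ κ y = d ∧ x < y ∧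
      ¬ rel G B x y := by
  obtain ⟨B, x, y, hx, hy, hc, hd, hxy, _, hn⟩ := d1_top κ hκ G h1 c d
  exact ⟨B, x, y, hx, hy, hc, hd, hxy, hn⟩

/-- As `config_lt`, with `b'` and `y` smaller than everything. -/
theorem config_gt {C : Type} (κ : ℚ → C) (hκ : Dn κ) (G : Subgroup (Perm ℚ)) (h1 : N1 κ G)
    (c d : C) : ∃ (B : Finset ℚ) (x y : ℚ), x ∉ B ∧ y ∉ B ∧ κ x = c ∧ κ y = d ∧ y < x ∧
      ¬ rel G B x y := by
  obtain ⟨B, x, y, hx, hy, hc, hd, hxy, _, hn⟩ := d1_bot κ hκ G h1 c d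
  exact ⟨B, x, y, hx, hy, hc, hd, hxy, hn⟩

/-- Proof. Otherwise all points of colour `c` outside `B` are equivalent over `B` to a point of
colour `d` above everything, so they are equivalent to each other, against `N1`. -/
theorem config_top {C : Type} (κ : ℚ → C) (hκ : Dn κ) (G : Subgroup (Perm ℚ)) (h1 : N1 κ G)
    (c d : C) : ∃ (B : Finset ℚ) (x y : ℚ), x ∉ B ∧ y ∉ B ∧ κ x = c ∧ κ y = d ∧
      (∀ b ∈ B, b < y) ∧ ¬ rel G B x y := by
  obtain ⟨B, x, y, hx, hy, hc, hd, _, hB, hn⟩ := d1_top κ hκ G h1 c d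
  exact ⟨B, x, y, hx, hy, hc, hd, hB, hn⟩

theorem config_bot {C : Type} (κ : ℚ → C) (hκ : Dn κ) (G : Subgroup (Perm ℚ)) (h1 : N1 κ G)
    (c d : C) : ∃ (B : Finset ℚ) (x y : ℚ), x ∉ B ∧ y ∉ B ∧ κ x = c ∧ κ y = d ∧
      (∀ b ∈ B, y < b) ∧ ¬ rel G B x y := by
  obtain ⟨B, x, y, hx, hy, hc, hd, _, hB, hn⟩ := d1_bot κ hκ G h1 c d
  exact ⟨B, x, y, hx, hy, hc, hd, hB, hn⟩

end Pool.Agent.Lib.H3C
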