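import Pool.Agent.Lib.H3C.D1

/-! # D2: separation of places -/

namespace Pool.Agent.Lib.H3C

open Equiv

/-- Transport of an inequivalent configuration to given places.  `lo b` / `hi b`: the conditions on
the position of the image of `b`.

Proof. `placing` for `F = B` and the intervals `(u b, v b)`, where `u b` is the maximum of the places
`ξ` (if `x < b`) and `η` (if `y < b`) and `⊥`, and `v b` the minimum of `ξ` (if `b < x`), `η` (if
`b < y`) and `⊤`; by the hypotheses `u b < v b`, and both are monotone in `b`.  It gives `φ`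
avoiding `Z`.  `W = B.image φ`: its elements are different from `ξ` and `η` because every `b ∈ B` is
`< x` or `> x`, and `< y` or `> y`.  If `near ξ W z`, then `b < x → e (φ b) < ξ → φ b < z` and so
on; now `rel_transport`. -/
theorem sep_of_config {C : Type} (κ : ℚ → C) (hκ : Dn κ) (G : Subgroup (Perm ℚ)) (hG : HH κ ≤ G)
    (B : Finset ℚ) (x y : ℚ) (hx : x ∉ B) (hy : y ∉ B) (h : ¬ rel G B x y) (ξ η : EReal)
    (h1 : ∀ b ∈ B, b < x → ⊥ < ξ) (h2 : ∀ b ∈ B, x < b → ξ < ⊤) (h3 : ∀ b ∈ B, b < y → ⊥ < η)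
    (h4 : ∀ b ∈ B, y < b → η < ⊤) (h5 : ∀ b ∈ B, x < b → b < y → ξ < η)
    (h6 : ∀ b ∈ B, y < b → b < x → η < ξ) (Z : Finset ℚ) :
    ∃ W : Finset ℚ, (∀ w ∈ W, w ∉ Z ∧ e w ≠ ξ ∧ e w ≠ η) ∧
      ∀ z w, κ z = κ x → κ w = κ y → near ξ W z → near η W w → ¬ rel G W z w := by
  classical
  let u : ℚ → EReal := fun b => max (if x < b then ξ else ⊥) (if y < b then η else ⊥)
  let v : ℚ → EReal := fun b => min (if b < x then ξ else ⊤) (if b < y then η else ⊤)
  have hcx : ∀ b ∈ B, b < x ∨ x < b := fun b hb =>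
    lt_or_gt_of_ne fun hbx => hx (hbx ▸ hb)
  have hcy : ∀ b ∈ B, b < y ∨ y < b := fun b hb =>
    lt_or_gt_of_ne fun hby => hy (hby ▸ hb)
  have hu1 : ∀ b, x < b → ξ ≤ u b := fun b hb => by
    show ξ ≤ max (if x < b then ξ else ⊥) (if y < b then η else ⊥)
    rw [if_pos hb]
    exact le_max_left _ _
  have hu2 : ∀ b, y < b → η ≤ u b := fun b hb => by
    show η ≤ max (if x < b then ξ else ⊥) (if y < b then η else ⊥)
    rw [if_pos hb]
    exact le_max_right _ _
  have hv1 : ∀ b, b < x → v b ≤ ξ := fun b hb => by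
    show min (if b < x then ξ else ⊤) (if b < y then η else ⊤) ≤ ξ
    rw [if_pos hb]
    exact min_le_left _ _
  have hv2 : ∀ b, b < y → v b ≤ η := fun b hb => by
    show min (if b < x then ξ else ⊤) (if b < y then η else ⊤) ≤ η
    rw [if_pos hb]
    exact min_le_right _ _
  have huv : ∀ b ∈ B, u b < v b := by
    intro b hb
    show max (if x < b then ξ else ⊥) (if y < b then η else ⊥) <
      min (if b < x then ξ else ⊤) (if b < y then η else ⊤)
    rcases hcx b hb with hbx | hbx <;> rcases hcy b hb with hby | hby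
    · rw [if_neg (not_lt_of_gt hbx), if_neg (not_lt_of_gt hby), if_pos hbx, if_pos hby, max_self]
      exact lt_min (h1 b hb hbx) (h3 b hb hby)
    · rw [if_neg (not_lt_of_gt hbx), if_pos hby, if_pos hbx, if_neg (not_lt_of_gt hby)]
      rw [max_eq_right bot_le, min_eq_left le_top]
      exact h6 b hb hby hbx
    · rw [if_pos hbx, if_neg (not_lt_of_gt hby), if_neg (not_lt_of_gt hbx), if_pos hby]
      rw [max_eq_left bot_le, min_eq_right le_top]
      exact h5 b hb hbx hby
    · rw [if_pos hbx, if_pos hby, if_neg (not_lt_of_gt hbx), if_neg (not_lt_of_gt hby), min_self]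
      exact max_lt (h2 b hb hbx) (h4 b hb hby)
  have hum : ∀ b ∈ B, ∀ b' ∈ B, b < b' → u b ≤ u b' := by
    intro b _ b' _ hbb
    refine max_le ?_ ?_
    · split_ifs with hxb
      · exact hu1 b' (hxb.trans hbb)
      · exact bot_le
    · split_ifs with hyb
      · exact hu2 b' (hyb.trans hbb)
      · exact bot_le
  have hvm : ∀ b ∈ B, ∀ b' ∈ B, b < b' → v b ≤ v b' := by
    intro b _ b' _ hbb
    refine le_min ?_ ?_
    · split_ifs with hxb
      · exact hv1 b (hbb.trans hxb)
      · exact le_top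
    · split_ifs with hyb
      · exact hv2 b (hbb.trans hyb)
      · exact le_top
  obtain ⟨φ, hφ1, hφ2⟩ := placing κ hκ B u v huv hum hvm Z
  refine ⟨B.image φ, ?_, ?_⟩
  · intro w hw
    obtain ⟨b, hb, rfl⟩ := Finset.mem_image.1 hw
    obtain ⟨_, k2, k3, k4⟩ := hφ1 b hb
    refine ⟨k4, ?_, ?_⟩
    · rcases hcx b hb with hbx | hbx
      · exact (k3.trans_le (hv1 b hbx)).ne
      · exact ((hu1 b hbx).trans_lt k2).ne'
    · rcases hcy b hb with hby | hby
      · exact (k3.trans_le (hv2 b hby)).ne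
      · exact ((hu2 b hby).trans_lt k2).ne'
  · intro z w hz hw hnz hnw hrel
    apply h
    refine rel_transport κ hκ G hG B φ (fun b hb => (hφ1 b hb).1) (fun b hb b' hb' => hφ2 b hb b' hb')
      x y z w hx hy hz hw (fun b hb => ⟨fun hbx => ?_, fun hbx => ?_⟩)
      (fun b hb => ⟨fun hby => ?_, fun hby => ?_⟩) hrel
    · exact (hnz (φ b) (Finset.mem_image_of_mem φ hb)).1.1 ((hφ1 b hb).2.2.1.trans_le (hv1 b hbx))
    · exact (hnz (φ b) (Finset.mem_image_of_mem φ hb)).2.1 ((hu1 b hbx).trans_lt (hφ1 b hb).2.1)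
    · exact (hnw (φ b) (Finset.mem_image_of_mem φ hb)).1.1 ((hφ1 b hb).2.2.1.trans_le (hv2 b hby))
    · exact (hnw (φ b) (Finset.mem_image_of_mem φ hb)).2.1 ((hu2 b hby).trans_lt (hφ1 b hb).2.1)

end Pool.Agent.Lib.H3C
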