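import Pool.Agent.Lib.H3C.D2

/-! # D3: the separation theorem -/

namespace Pool.Agent.Lib.H3C

open Equiv

/-- Any place `(ξ, c)` with `ξ` real is separated from any other place by a finite set which avoids
any given finite set.

Proof. `sep_of_config` with a suitable configuration `(B, x, y)`, `κ x = c`, `κ y = d`.
Case `η = ⊤`: `config_top` (no `b ∈ B` is above `y`; `h5` holds as `ξ < ⊤`, `h6` and `h4` are
vacuous).  Case `η = ⊥`: `config_bot`.  Case `η` real, `ξ < η`: `config_lt` (`x < y`, so `h6` is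
vacuous).  Case `η < ξ`: `config_gt`.  Case `ξ = η`: then `c ≠ d` and `N2` gives `B, x, y` with no
element of `B` between `x` and `y`, so `h5`, `h6` are vacuous. -/
theorem sep {C : Type} (κ : ℚ → C) (hκ : Dn κ) (G : Subgroup (Perm ℚ)) (hG : HH κ ≤ G)
    (h1 : N1 κ G) (h2 : N2 κ G) (ξ : ℝ) (c : C) (η : EReal) (d : C)
    (hne : ¬ ((ξ : EReal) = η ∧ c = d)) (Z : Finset ℚ) :
    ∃ W : Finset ℚ, (∀ w ∈ W, w ∉ Z ∧ e w ≠ ξ ∧ e w ≠ η) ∧
      ∀ z w, κ z = c → κ w = d → near ξ W z → near η W w → ¬ rel G W z w := by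
  have hξb : (⊥ : EReal) < (ξ : EReal) := EReal.bot_lt_coe ξ
  have hξt : (ξ : EReal) < ⊤ := EReal.coe_lt_top ξ
  induction η using EReal.rec with
  | bot =>
    obtain ⟨B, x, y, hx, hy, rfl, rfl, hB, hr⟩ := config_bot κ hκ G h1 c d
    exact sep_of_config κ hκ G hG B x y hx hy hr (ξ : EReal) ⊥
      (fun _ _ _ => hξb) (fun _ _ _ => hξt)
      (fun b hb h => absurd h (lt_asymm (hB b hb))) (fun _ _ _ => bot_lt_top)
      (fun b hb _ h => absurd h (lt_asymm (hB b hb))) (fun _ _ _ _ => hξb) Z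
  | top =>
    obtain ⟨B, x, y, hx, hy, rfl, rfl, hB, hr⟩ := config_top κ hκ G h1 c d
    exact sep_of_config κ hκ G hG B x y hx hy hr (ξ : EReal) ⊤
      (fun _ _ _ => hξb) (fun _ _ _ => hξt)
      (fun _ _ _ => bot_lt_top) (fun b hb h => absurd h (lt_asymm (hB b hb)))
      (fun _ _ _ _ => hξt) (fun b hb h _ => absurd h (lt_asymm (hB b hb))) Z
  | coe r =>
    have hrb : (⊥ : EReal) < (r : EReal) := EReal.bot_lt_coe r
    have hrt : (r : EReal) < ⊤ := EReal.coe_lt_top r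
    rcases lt_trichotomy ξ r with hlt | heq | hgt
    · obtain ⟨B, x, y, hx, hy, rfl, rfl, hxy, hr⟩ := config_lt κ hκ G h1 c d
      exact sep_of_config κ hκ G hG B x y hx hy hr (ξ : EReal) (r : EReal)
        (fun _ _ _ => hξb) (fun _ _ _ => hξt) (fun _ _ _ => hrb) (fun _ _ _ => hrt)
        (fun _ _ _ _ => EReal.coe_lt_coe_iff.2 hlt)
        (fun b _ h h' => absurd (lt_trans h h') (lt_asymm hxy)) Z
    · have hcd : c ≠ d := fun h => hne ⟨by rw [heq], h⟩
      obtain ⟨B, x, y, hx, hy, rfl, rfl, hB, hr⟩ := h2 c d hcd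
      exact sep_of_config κ hκ G hG B x y hx hy hr (ξ : EReal) (r : EReal)
        (fun _ _ _ => hξb) (fun _ _ _ => hξt) (fun _ _ _ => hrb) (fun _ _ _ => hrt)
        (fun b hb h h' => absurd ((hB b hb).1.2 h') (lt_asymm h))
        (fun b hb h h' => absurd ((hB b hb).1.1 h') (lt_asymm h)) Z
    · obtain ⟨B, x, y, hx, hy, rfl, rfl, hxy, hr⟩ := config_gt κ hκ G h1 c d
      exact sep_of_config κ hκ G hG B x y hx hy hr (ξ : EReal) (r : EReal)
        (fun _ _ _ => hξb) (fun _ _ _ => hξt) (fun _ _ _ => hrb) (fun _ _ _ => hrt)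
        (fun b _ h h' => absurd (lt_trans h h') (lt_asymm hxy))
        (fun _ _ _ _ => EReal.coe_lt_coe_iff.2 hgt) Z

end Pool.Agent.Lib.H3C
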