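import Mathlib.GroupTheory.Perm.Basic
import Mathlib.Algebra.Group.Subgroup.Lattice
import Mathlib.Algebra.Group.End
import Mathlib.Data.Set.Finite.Basic
import Mathlib.Data.Set.Finite.Lattice
import Mathlib.Data.Set.Finite.Powerset
import Mathlib.Data.Finset.Powerset
import Mathlib.Data.Fintype.Pi
import Mathlib.Data.Countable.Basic
import Mathlib.Data.Rat.Encodable
import Mathlib.Topology.Instances.EReal.Lemmas
import Mathlib.Topology.Instances.Rat
import Mathlib.Topology.Order.IntermediateValue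
import Mathlib.Tactic

/-!
# Closed groups containing the automorphism group of a coloured dense linear order

Definitions for `Pool/Agent/Lib/H3C` (MP_f225a9, Thomas's conjecture for homogeneous coloured
linear orders).
-/

namespace Pool.Agent.Lib.H3C

open Equiv Filter Topology

theorem pai {X : Type} (g : Perm X) (x : X) : g (g⁻¹ x) = x := g.apply_symm_apply x

theorem pia {X : Type} (g : Perm X) (x : X) : g⁻¹ (g x) = x := g.symm_apply_apply x

/-- `G` is closed in the topology of pointwise convergence. -/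
def Cl {X : Type} (G : Subgroup (Perm X)) : Prop :=
  ∀ σ : Perm X, (∀ F : Finset X, ∃ g ∈ G, ∀ x ∈ F, g x = σ x) → σ ∈ G

/-- The closed supergroups of `H` which fix every point of `F`. -/
def Sup {X : Type} (H : Subgroup (Perm X)) (F : Finset X) : Set (Subgroup (Perm X)) :=
  {G | H ≤ G ∧ Cl G ∧ ∀ g ∈ G, ∀ x ∈ F, g x = x}

/-- Finitely many closed supergroups. -/
def FR {X : Type} (H : Subgroup (Perm X)) : Prop :=
  {G : Subgroup (Perm X) | H ≤ G ∧ Cl G}.Finite

/-- Finitely many orbits on tuples. -/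
def Olig {X : Type} (H : Subgroup (Perm X)) : Prop :=
  ∀ k : ℕ, ∃ T : Finset (Fin k → X), ∀ a : Fin k → X, ∃ t ∈ T, ∃ h ∈ H, ∀ i, h (t i) = a i

/-- The permutations which preserve every orbit of `K` on `k`-tuples. -/
def kcl {X : Type} (K : Subgroup (Perm X)) (k : ℕ) : Subgroup (Perm X) where
  carrier := {σ | ∀ a : Fin k → X, ∃ g ∈ K, ∀ i, g (a i) = σ (a i)}
  mul_mem' := by
    intro σ τ hσ hτ a
    obtain ⟨g, hg, h1⟩ := hτ a
    obtain ⟨g', hg', h2⟩ := hσ (fun i => τ (a i))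
    exact ⟨g' * g, K.mul_mem hg' hg, fun i => by
      rw [Perm.mul_apply, Perm.mul_apply, h1 i, h2 i]⟩
  one_mem' := fun a => ⟨1, K.one_mem, fun i => rfl⟩
  inv_mem' := by
    intro σ hσ a
    obtain ⟨g, hg, h1⟩ := hσ (fun i => σ⁻¹ (a i))
    refine ⟨g⁻¹, K.inv_mem hg, fun i => ?_⟩
    have h2 : g (σ⁻¹ (a i)) = a i := by rw [h1 i, pai]
    rw [Perm.inv_eq_iff_eq, h2]

/-- The stabiliser of a point. -/
def stab {X : Type} (G : Subgroup (Perm X)) (p : X) : Subgroup (Perm X) where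
  carrier := {g | g ∈ G ∧ g p = p}
  mul_mem' := fun {a b} ha hb => ⟨G.mul_mem ha.1 hb.1, by rw [Perm.mul_apply, hb.2, ha.2]⟩
  one_mem' := ⟨G.one_mem, rfl⟩
  inv_mem' := fun {a} ha => ⟨G.inv_mem ha.1, by rw [Perm.inv_eq_iff_eq, ha.2]⟩

/-- `x` and `y` are in the same orbit of the pointwise stabiliser of `B` in `G`. -/
def rel {X : Type} (G : Subgroup (Perm X)) (B : Finset X) (x y : X) : Prop :=
  ∃ g ∈ G, (∀ b ∈ B, g b = b) ∧ g x = y

/-! ## Coloured rationals -/

/-- Every colour is dense. -/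
def Dn {C : Type} (κ : ℚ → C) : Prop := ∀ a b : ℚ, a < b → ∀ c : C, ∃ x, a < x ∧ x < b ∧ κ x = c

/-- The automorphism group of `(ℚ; <, κ)`. -/
def HH {C : Type} (κ : ℚ → C) : Subgroup (Perm ℚ) where
  carrier := {σ | (∀ x y, x < y → σ x < σ y) ∧ ∀ x, κ (σ x) = κ x}
  mul_mem' := fun {a b} ha hb =>
    ⟨fun x y h => ha.1 _ _ (hb.1 _ _ h), fun x => by rw [Perm.mul_apply, ha.2, hb.2]⟩
  one_mem' := ⟨fun _ _ h => h, fun _ => rfl⟩
  inv_mem' := by
    intro a ha
    refine ⟨fun x y h => ?_, fun x => ?_⟩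
    · by_contra h1
      rcases (not_lt.1 h1).lt_or_eq with h2 | h2
      · have := ha.1 _ _ h2
        rw [pai, pai] at this
        exact lt_asymm h this
      · have := a⁻¹.injective h2
        exact absurd h (by rw [this]; exact lt_irrefl _)
    · have := ha.2 (a⁻¹ x)
      rw [pai] at this
      exact this.symm

/-- The colour `c` can be seen: there are inequivalent points of colour `c`. -/
def N1 {C : Type} (κ : ℚ → C) (G : Subgroup (Perm ℚ)) : Prop :=
  ∀ c : C, ∃ (B : Finset ℚ) (x y : ℚ), x ∉ B ∧ y ∉ B ∧ κ x = c ∧ κ y = c ∧ ¬ rel G B x y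

/-- The colours `c ≠ d` can be distinguished in an interval. -/
def N2 {C : Type} (κ : ℚ → C) (G : Subgroup (Perm ℚ)) : Prop :=
  ∀ c d : C, c ≠ d → ∃ (B : Finset ℚ) (x y : ℚ), x ∉ B ∧ y ∉ B ∧ κ x = c ∧ κ y = d ∧
    (∀ b ∈ B, (b < x ↔ b < y) ∧ (x < b ↔ y < b)) ∧ ¬ rel G B x y

/-- The embedding of the rationals in the extended reals. -/
def e (q : ℚ) : EReal := ((q : ℝ) : EReal)

/-- The filter of the place `(ξ, c)`: rationals of colour `c` near `ξ` (and different from `ξ`). -/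
noncomputable def Fp {C : Type} (κ : ℚ → C) (ξ : EReal) (c : C) : Filter ℚ :=
  comap e (𝓝[≠] ξ) ⊓ 𝓟 {q | κ q = c}

/-- `(η, d)` is a cluster place of `g` at `(ξ, c)`. -/
def clus {C : Type} (κ : ℚ → C) (g : Perm ℚ) (ξ : EReal) (c : C) (η : EReal) (d : C) : Prop :=
  (map g (Fp κ ξ c) ⊓ Fp κ η d).NeBot

/-- `z` is in the same interval of the complement of `W` as `η`. -/
def near (η : EReal) (W : Finset ℚ) (z : ℚ) : Prop :=
  ∀ b ∈ W, (e b < η ↔ b < z) ∧ (η < e b ↔ z < b)

/-- The place `(ξ, c)` is bad for `g`: it has a cluster place which is an end. -/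
def bad {C : Type} (κ : ℚ → C) (g : Perm ℚ) (c : C) : Set ℝ :=
  {ξ | ∃ d, clus κ g (ξ : EReal) c ⊤ d ∨ clus κ g (ξ : EReal) c ⊥ d}

/-- The elements of `G` which preserve the colours and are increasing on every colour. -/
def G0 {C : Type} (κ : ℚ → C) (G : Subgroup (Perm ℚ)) : Subgroup (Perm ℚ) where
  carrier := {σ | σ ∈ G ∧ (∀ x, κ (σ x) = κ x) ∧ ∀ x y, κ x = κ y → x < y → σ x < σ y}
  mul_mem' := fun {a b} ha hb => ⟨G.mul_mem ha.1 hb.1, fun x => by
      rw [Perm.mul_apply, ha.2.1, hb.2.1], fun x y h hxy =>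
      ha.2.2 _ _ (by rw [hb.2.1, hb.2.1, h]) (hb.2.2 _ _ h hxy)⟩
  one_mem' := ⟨G.one_mem, fun _ => rfl, fun _ _ _ h => h⟩
  inv_mem' := by
    intro a ha
    have hk : ∀ x, κ (a⁻¹ x) = κ x := fun x => by
      have := ha.2.1 (a⁻¹ x)
      rw [pai] at this
      exact this.symm
    refine ⟨G.inv_mem ha.1, hk, fun x y hc h => ?_⟩
    by_contra h1
    rcases (not_lt.1 h1).lt_or_eq with h2 | h2
    · have := ha.2.2 _ _ (by rw [hk, hk, hc]) h2
      rw [pai, pai] at this
      exact lt_asymm h this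
    · have := a⁻¹.injective h2
      exact absurd h (by rw [this]; exact lt_irrefl _)

/-- The colours `c` and `d` are linked. -/
def linked {C : Type} (κ : ℚ → C) (G : Subgroup (Perm ℚ)) (c d : C) : Prop :=
  ∀ g ∈ G0 κ G, ∀ x y, κ x = c → κ y = d → (x < y ↔ g x < g y)

end Pool.Agent.Lib.H3C
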