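import Pool.Agent.Lib.H3C.Defs

/-! # Definitions for the transposition part -/

namespace Pool.Agent.Lib.H3C

open Equiv

/-- Some transposition of points of the colours `a`, `b` is in `G`. -/
def cr {C : Type} (κ : ℚ → C) (G : Subgroup (Perm ℚ)) (a b : C) : Prop :=
  ∃ x y : ℚ, x ≠ y ∧ κ x = a ∧ κ y = b ∧ swap x y ∈ G

/-- `σ` preserves the classes of `D` and fixes the other points. -/
def InS {C : Type} (κ : ℚ → C) (D : C → C → Prop) (σ : Perm ℚ) : Prop :=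
  ∀ x, (D (κ x) (κ x) → D (κ x) (κ (σ x))) ∧ (¬ D (κ x) (κ x) → σ x = x)

/-- The closed supergroups of `HH κ` which contain `InS` and preserve the classes of `D`. -/
def Mfam {C : Type} (κ : ℚ → C) (D : C → C → Prop) : Set (Subgroup (Perm ℚ)) :=
  {M | HH κ ≤ M ∧ Cl M ∧ (∀ σ, InS κ D σ → σ ∈ M) ∧
    ∀ m ∈ M, ∀ x, D (κ x) (κ x) → D (κ x) (κ (m x))}

/-- The standing hypotheses. -/
structure Std {C : Type} (κ : ℚ → C) (G : Subgroup (Perm ℚ)) : Prop where
  dn : Dn κ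
  le : HH κ ≤ G
  n1 : N1 κ G
  n2 : N2 κ G

end Pool.Agent.Lib.H3C
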