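import Pool.Agent.Lib.H3C.B1

/-! # E1: the filters of the places -/

namespace Pool.Agent.Lib.H3C

open Equiv Filter Topology

private theorem E1_e_lt {a b : ℚ} : e a < e b ↔ a < b := by
  unfold e
  rw [EReal.coe_lt_coe_iff, Rat.cast_lt]

private theorem E1_e_inj {a b : ℚ} : e a = e b ↔ a = b := by
  unfold e
  rw [EReal.coe_eq_coe_iff, Rat.cast_inj]

/-- Proof. Every neighbourhood of `ξ` in `EReal` contains a nonempty open interval with end point `ξ`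
(right of `ξ` if `ξ ≠ ⊤`, left of `ξ` if `ξ ≠ ⊥`), which contains a point `e x` with `κ x = c` by
`exists_col`. -/
theorem Fp_neBot {C : Type} (κ : ℚ → C) (hκ : Dn κ) (ξ : EReal) (c : C) : (Fp κ ξ c).NeBot := by
  unfold Fp
  rw [Filter.inf_principal_neBot_iff]
  rintro U ⟨V, hV, hVU⟩
  have key : ∃ x : ℚ, e x ∈ V ∧ κ x = c := by
    by_cases hξ : ξ = ⊤
    · subst hξ
      have h1 : V ∈ 𝓝[<] (⊤ : EReal) :=
        nhdsWithin_mono _ (fun x hx => ne_of_lt hx) hV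
      rw [mem_nhdsLT_iff_exists_Ioo_subset' (bot_lt_top : (⊥ : EReal) < ⊤)] at h1
      obtain ⟨l, hl, hlV⟩ := h1
      obtain ⟨x, hx1, hx2, hx3, -⟩ := exists_col κ hκ l ⊤ hl c ∅
      exact ⟨x, hlV ⟨hx1, hx2⟩, hx3⟩
    · have hlt : ξ < ⊤ := lt_top_iff_ne_top.mpr hξ
      have h1 : V ∈ 𝓝[>] ξ := nhdsWithin_mono _ (fun x hx => ne_of_gt hx) hV
      rw [mem_nhdsGT_iff_exists_Ioo_subset' hlt] at h1
      obtain ⟨u, hu, huV⟩ := h1
      obtain ⟨x, hx1, hx2, hx3, -⟩ := exists_col κ hκ ξ u hu c ∅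
      exact ⟨x, huV ⟨hx1, hx2⟩, hx3⟩
  obtain ⟨x, hx1, hx2⟩ := key
  exact ⟨x, hVU hx1, hx2⟩

theorem Fp_color {C : Type} (κ : ℚ → C) (ξ : EReal) (c : C) : ∀ᶠ z in Fp κ ξ c, κ z = c :=
  Filter.mem_inf_of_right (Filter.mem_principal_self _)

theorem Fp_mem {C : Type} (κ : ℚ → C) (ξ : EReal) (c : C) (U : Set EReal) (hU : U ∈ 𝓝 ξ) :
    ∀ᶠ z in Fp κ ξ c, e z ∈ U :=
  Filter.mem_inf_of_left ⟨U, mem_nhdsWithin_of_mem_nhds hU, fun _ h => h⟩

/-- Proof. If `e q ≠ ξ` use the open set `{e q}ᶜ`, otherwise `𝓝[≠]`. -/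
theorem Fp_ne {C : Type} (κ : ℚ → C) (ξ : EReal) (c : C) (q : ℚ) : ∀ᶠ z in Fp κ ξ c, z ≠ q := by
  by_cases hq : e q = ξ
  · have h1 : ∀ᶠ z in Fp κ ξ c, e z ∈ ({ξ}ᶜ : Set EReal) :=
      Filter.mem_inf_of_left ⟨{ξ}ᶜ, self_mem_nhdsWithin, fun _ h => h⟩
    filter_upwards [h1] with z hz hzq
    apply hz
    rw [hzq]
    exact hq
  · have h1 : ∀ᶠ z in Fp κ ξ c, e z ∈ ({e q}ᶜ : Set EReal) :=
      Fp_mem κ ξ c _ (isOpen_compl_singleton.mem_nhds (fun h => hq h.symm))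
    filter_upwards [h1] with z hz hzq
    apply hz
    rw [hzq]
    exact rfl

/-- Proof. For every `w ∈ W`: if `e w < ξ` then eventually `e w < e z`, and if `ξ < e w` then
eventually `e z < e w`. -/
theorem Fp_near {C : Type} (κ : ℚ → C) (ξ : EReal) (c : C) (W : Finset ℚ)
    (hW : ∀ w ∈ W, e w ≠ ξ) : ∀ᶠ z in Fp κ ξ c, near ξ W z := by
  unfold near
  rw [Filter.eventually_all_finset]
  intro b hb
  rcases lt_or_gt_of_ne (hW b hb) with h | h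
  · have h1 : ∀ᶠ z in Fp κ ξ c, e z ∈ Set.Ioi (e b) :=
      Fp_mem κ ξ c _ (isOpen_Ioi.mem_nhds h)
    filter_upwards [h1] with z hz
    have hz' : b < z := E1_e_lt.mp hz
    exact ⟨⟨fun _ => hz', fun _ => h⟩,
      ⟨fun h2 => absurd h2 (lt_asymm h), fun h2 => absurd h2 (lt_asymm hz')⟩⟩
  · have h1 : ∀ᶠ z in Fp κ ξ c, e z ∈ Set.Iio (e b) :=
      Fp_mem κ ξ c _ (isOpen_Iio.mem_nhds h)
    filter_upwards [h1] with z hz
    have hz' : z < b := E1_e_lt.mp hz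
    exact ⟨⟨fun h2 => absurd h2 (lt_asymm h), fun h2 => absurd h2 (lt_asymm hz')⟩,
      ⟨fun _ => hz', fun _ => h⟩⟩

theorem clus_symm {C : Type} (κ : ℚ → C) (g : Perm ℚ) (ξ : EReal) (c : C) (η : EReal) (d : C)
    (h : clus κ g ξ c η d) : clus κ g⁻¹ η d ξ c := by
  unfold clus at h ⊢
  have h1 : (map (⇑g⁻¹) (map g (Fp κ ξ c) ⊓ Fp κ η d)).NeBot := h.map _
  rw [Filter.map_inf g⁻¹.injective, Filter.map_map] at h1
  have h2 : (⇑g⁻¹ ∘ ⇑g) = id := by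
    funext x
    exact pia g x
  rw [h2, Filter.map_id, inf_comm] at h1
  exact h1

/-- If a property holds eventually at `(ξ, c)` and another one at `(η, d)` then there is a point `z`
with the first property and the second property for `g z`. -/
theorem clus_exists {C : Type} (κ : ℚ → C) (g : Perm ℚ) (ξ : EReal) (c : C) (η : EReal) (d : C)
    (h : clus κ g ξ c η d) {P Q : ℚ → Prop} (hP : ∀ᶠ z in Fp κ ξ c, P z)
    (hQ : ∀ᶠ w in Fp κ η d, Q w) : ∃ z, P z ∧ Q (g z) := by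
  unfold clus at h
  have h1 : ∀ᶠ w in map g (Fp κ ξ c), P (g⁻¹ w) := by
    rw [Filter.eventually_map]
    filter_upwards [hP] with z hz
    rw [pia]
    exact hz
  have h2 : ∀ᶠ w in map g (Fp κ ξ c) ⊓ Fp κ η d, P (g⁻¹ w) := Filter.mem_inf_of_left h1
  have h3 : ∀ᶠ w in map g (Fp κ ξ c) ⊓ Fp κ η d, Q w := Filter.mem_inf_of_right hQ
  haveI := h
  obtain ⟨w, hw1, hw2⟩ := (h2.and h3).exists
  refine ⟨g⁻¹ w, hw1, ?_⟩
  rw [pai]
  exact hw2

end Pool.Agent.Lib.H3C
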