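import Pool.Agent.Lib.H3C.B1

/-! # E1b: cluster places exist -/

namespace Pool.Agent.Lib.H3C

open Equiv Filter Topology

/-- Every free filter has a cluster place.

Proof. `EReal` is compact and `C` is finite: the filter `map (fun z => (e z, κ z)) f` on the compact
space `EReal × C` (`C` discrete; or first choose `d` with `(f ⊓ 𝓟 {κ = d}).NeBot`, a finite union,
and then use compactness of `EReal` for `map e`) has a cluster point `(η, d)`.  Because
`e z ≠ η` eventually (`e` is injective and `hf`), `f ⊓ comap e (𝓝[≠] η) ⊓ 𝓟 {κ = d}` is not `⊥`. -/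
theorem exists_cluster {C : Type} [Finite C] (κ : ℚ → C) (f : Filter ℚ) [f.NeBot]
    (hf : ∀ q, ∀ᶠ z in f, z ≠ q) : ∃ (η : EReal) (d : C), (f ⊓ Fp κ η d).NeBot := by
  have hinj : Function.Injective e := by
    intro x y h
    unfold e at h
    exact_mod_cast h
  obtain ⟨d, hd⟩ : ∃ d, (f ⊓ 𝓟 {q | κ q = d}).NeBot := by
    by_contra hno
    push Not at hno
    have h1 : ∀ d, {q | κ q = d}ᶜ ∈ f := by
      intro d
      have h2 : f ⊓ 𝓟 {q | κ q = d} = ⊥ := hno d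
      rwa [inf_principal_eq_bot] at h2
    have h2 : (⋂ d, {q | κ q = d}ᶜ) ∈ f := iInter_mem.2 h1
    obtain ⟨z, hz⟩ := nonempty_of_mem h2
    exact (Set.mem_iInter.1 hz (κ z)) rfl
  have := hd
  obtain ⟨η, hη⟩ := exists_clusterPt_of_compactSpace (map e (f ⊓ 𝓟 {q | κ q = d}))
  refine ⟨η, d, ?_⟩
  have hne : {z : ℚ | e z ≠ η} ∈ f := by
    by_cases hq : ∃ q, e q = η
    · obtain ⟨q, rfl⟩ := hq
      filter_upwards [hf q] with z hz
      exact fun h => hz (hinj h)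
    · exact univ_mem' fun z h => hq ⟨z, h⟩
  unfold Fp
  rw [inf_comm (comap e (𝓝[≠] η)), ← inf_assoc, inf_neBot_iff]
  intro s hs t ht
  rw [mem_comap] at ht
  obtain ⟨u, hu, hut⟩ := ht
  rw [mem_nhdsWithin_iff_exists_mem_nhds_inter] at hu
  obtain ⟨v, hv, hvu⟩ := hu
  rw [ClusterPt, inf_neBot_iff] at hη
  have h3 : e '' (s ∩ {z : ℚ | e z ≠ η}) ∈ map e (f ⊓ 𝓟 {q | κ q = d}) :=
    image_mem_map (inter_mem hs (mem_inf_of_left hne))
  obtain ⟨w, hw1, z, ⟨hz1, hz2⟩, rfl⟩ := hη hv h3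
  exact ⟨z, hz1, hut (hvu ⟨hw1, hz2⟩)⟩

end Pool.Agent.Lib.H3C
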