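import Pool.Agent.Lib.H3C.D3
import Pool.Agent.Lib.H3C.E1
import Pool.Agent.Lib.H3C.E1b
import Pool.Agent.Lib.H3C.Defs2

/-! # E2: uniqueness of cluster places -/

namespace Pool.Agent.Lib.H3C

open Equiv Filter Topology

private theorem E2_e_inj {a b : ℚ} (h : e a = e b) : a = b := by
  unfold e at h
  exact_mod_cast h

/-- An interior cluster place is the only cluster place.

Proof. Suppose `(η', d') ≠ (η, d)`.  Let `Z = {g q | e q = ξ}` (at most one point; `Z = ∅` or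
`{g q}`).  `sep` for `(η, d)` and `(η', d')` gives `W` avoiding `Z`.  Let `B = W.image g⁻¹`; no
element of `B` is equal to `ξ`, so eventually at `(ξ, c)` the points `z` are near `ξ` relative to `B`
and have colour `c` (`Fp_near`, `Fp_color`), and any two such points `z, z'` (outside `B`) satisfy
`rel G B z z'` (`rel_cell`), so `rel G W (g z) (g z')` (`rel_image`).  Choose such a `z` with `g z`
near `η` relative to `W`, of colour `d`, and such a `z'` with `g z'` near `η'` relative to `W`, of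
colour `d'` (`clus_exists`); contradiction. -/
theorem clus_unique {C : Type} (κ : ℚ → C) (G : Subgroup (Perm ℚ)) (hS : Std κ G) (g : Perm ℚ)
    (hg : g ∈ G) (ξ : EReal) (c : C) (η : ℝ) (d : C) (η' : EReal) (d' : C)
    (h : clus κ g ξ c η d) (h' : clus κ g ξ c η' d') : η' = η ∧ d' = d := by
  classical
  by_contra hcon
  have hne : ¬ ((η : EReal) = η' ∧ d = d') := fun hh => hcon ⟨hh.1.symm, hh.2.symm⟩
  have hZ : ∃ Z : Finset ℚ, ∀ q, e q = ξ → g q ∈ Z := by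
    by_cases hq : ∃ q, e q = ξ
    · obtain ⟨q, hq⟩ := hq
      refine ⟨{g q}, fun q' hq' => ?_⟩
      have h1 : q' = q := E2_e_inj (hq'.trans hq.symm)
      rw [h1]
      exact Finset.mem_singleton_self _
    · exact ⟨∅, fun q hq' => absurd ⟨q, hq'⟩ hq⟩
  obtain ⟨Z, hZ⟩ := hZ
  obtain ⟨W, hW, hsep⟩ := sep κ hS.dn G hS.le hS.n1 hS.n2 η d η' d' hne Z
  have hB : ∀ b ∈ W.image (g⁻¹ : Perm ℚ), e b ≠ ξ := by
    intro b hb hbe
    obtain ⟨w, hw, rfl⟩ := Finset.mem_image.1 hb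
    have h1 := hZ _ hbe
    rw [pai] at h1
    exact (hW w hw).1 h1
  have hP : ∀ᶠ z in Fp κ ξ c, near ξ (W.image (g⁻¹ : Perm ℚ)) z ∧ κ z = c :=
    (Fp_near κ ξ c _ hB).and (Fp_color κ ξ c)
  have hQ : ∀ᶠ w in Fp κ (η : EReal) d, near η W w ∧ κ w = d :=
    (Fp_near κ η d W fun w hw => (hW w hw).2.1).and (Fp_color κ η d)
  have hQ' : ∀ᶠ w in Fp κ η' d', near η' W w ∧ κ w = d' :=
    (Fp_near κ η' d' W fun w hw => (hW w hw).2.2).and (Fp_color κ η' d')
  obtain ⟨z, hz, hgz⟩ := clus_exists κ g ξ c η d h hP hQ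
  obtain ⟨z', hz', hgz'⟩ := clus_exists κ g ξ c η' d' h' hP hQ'
  have hout : ∀ y, near ξ (W.image (g⁻¹ : Perm ℚ)) y → y ∉ W.image (g⁻¹ : Perm ℚ) := by
    intro y hy hyB
    rcases lt_or_gt_of_ne (hB y hyB) with h1 | h1
    · exact lt_irrefl _ (((hy y hyB).1).1 h1)
    · exact lt_irrefl _ (((hy y hyB).2).1 h1)
  have hr := rel_cell κ hS.dn G hS.le (W.image (g⁻¹ : Perm ℚ)) z z' (hout z hz.1) (hout z' hz'.1)
    (hz.2.trans hz'.2.symm) fun b hb => ((hz.1 b hb).1.symm).trans (hz'.1 b hb).1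
  have hr2 := rel_image hg hr
  have himg : (W.image (g⁻¹ : Perm ℚ)).image g = W := by
    rw [Finset.image_image]
    have h1 : (g : ℚ → ℚ) ∘ ((g⁻¹ : Perm ℚ) : ℚ → ℚ) = id := by
      funext x
      exact pai g x
    rw [h1, Finset.image_id]
  rw [himg] at hr2
  exact hsep (g z) (g z') hgz.2 hgz'.2 hgz.1 hgz'.1 hr2

/-- Proof. If not, there is `U ∈ Fp κ η d` with `g z ∉ U` frequently at `(ξ, c)`; the filter
`map g (Fp κ ξ c) ⊓ 𝓟 Uᶜ` is `NeBot` and free, so it has a cluster place (`exists_cluster`), which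
is `(η, d)` by `clus_unique`; but `Uᶜ ∩ U = ∅`. -/
theorem tendsto_of_clus {C : Type} [Finite C] (κ : ℚ → C) (G : Subgroup (Perm ℚ)) (hS : Std κ G)
    (g : Perm ℚ) (hg : g ∈ G) (ξ : EReal) (c : C) (η : ℝ) (d : C) (h : clus κ g ξ c η d) :
    Tendsto g (Fp κ ξ c) (Fp κ η d) := by
  intro U hU
  by_contra hcon
  have hne : (map g (Fp κ ξ c) ⊓ 𝓟 Uᶜ).NeBot := by
    refine ⟨fun hbot => ?_⟩
    apply hcon
    have h1 : U ∈ map g (Fp κ ξ c) := by
      have h2 := Filter.mem_iff_inf_principal_compl.2 hbot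
      exact h2
    exact h1
  have hfree : ∀ q, ∀ᶠ z in map g (Fp κ ξ c) ⊓ 𝓟 Uᶜ, z ≠ q := by
    intro q
    refine Filter.Eventually.filter_mono inf_le_left ?_
    rw [Filter.eventually_map]
    filter_upwards [Fp_ne κ ξ c (g⁻¹ q)] with z hz hzq
    apply hz
    rw [← hzq, pia]
  obtain ⟨η', d', hcl⟩ := exists_cluster κ (map g (Fp κ ξ c) ⊓ 𝓟 Uᶜ) hfree
  have hcl2 : clus κ g ξ c η' d' := hcl.mono (inf_le_inf_right _ inf_le_left)
  obtain ⟨h1, h2⟩ := clus_unique κ G hS g hg ξ c η d η' d' h hcl2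
  subst h2
  subst h1
  have h3 : (𝓟 Uᶜ ⊓ 𝓟 U : Filter ℚ).NeBot := by
    refine hcl.mono (inf_le_inf inf_le_right ?_)
    exact Filter.le_principal_iff.2 hU
  rw [Filter.inf_principal, Set.compl_inter_self, Filter.principal_empty] at h3
  exact h3.ne rfl

theorem clus_of_tendsto {C : Type} (κ : ℚ → C) (hκ : Dn κ) (g : Perm ℚ) (ξ : EReal) (c : C)
    (η : EReal) (d : C) (h : Tendsto g (Fp κ ξ c) (Fp κ η d)) : clus κ g ξ c η d := by
  have := Fp_neBot κ hκ ξ c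
  have h1 : map g (Fp κ ξ c) ≤ Fp κ η d := h
  unfold clus
  rw [inf_eq_left.2 h1]
  infer_instance

end Pool.Agent.Lib.H3C
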