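import Pool.Agent.Lib.H3C.E2

/-! # E2b: the place of a rational point -/

namespace Pool.Agent.Lib.H3C

open Equiv Filter Topology

private theorem E2b_e_lt (a b : ℚ) : e a < e b ↔ a < b := by
  unfold e
  rw [EReal.coe_lt_coe_iff, Rat.cast_lt]

private theorem E2b_interval (x : ℚ) (B : Finset ℚ) (hx : x ∉ B) :
    ∃ a b : ℚ, a < x ∧ x < b ∧ ∀ w ∈ B, w ≤ a ∨ b ≤ w := by
  induction B using Finset.induction_on with
  | empty => exact ⟨x - 1, x + 1, by linarith, by linarith, by simp⟩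
  | insert w B hw ih =>
    rw [Finset.mem_insert, not_or] at hx
    obtain ⟨a, b, ha, hb, h⟩ := ih hx.2
    rcases lt_or_gt_of_ne hx.1 with h1 | h1
    · refine ⟨a, min b w, ha, lt_min hb h1, fun w' hw' => ?_⟩
      rcases Finset.mem_insert.1 hw' with h2 | h2
      · rw [h2]
        exact Or.inr (min_le_right _ _)
      · rcases h w' h2 with h3 | h3
        · exact Or.inl h3
        · exact Or.inr ((min_le_left _ _).trans h3)
    · refine ⟨max a w, b, max_lt ha h1, hb, fun w' hw' => ?_⟩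
      rcases Finset.mem_insert.1 hw' with h2 | h2
      · rw [h2]
        exact Or.inl (le_max_right _ _)
      · rcases h w' h2 with h3 | h3
        · exact Or.inl (h3.trans (le_max_left _ _))
        · exact Or.inr h3

/-- At the place of a rational point the limit is the image.

Proof. Let `(η, d)` be any cluster place of `g` at `(x, κ x)` (`exists_cluster` for
`map g (Fp κ (e x) (κ x))`); if `(η, d) = (g x, κ (g x))` we are done by `tendsto_of_clus`.
Otherwise apply `sep` to the place `(g x, κ (g x))` and `(η, d)`: `W`, with `g x ∉ W`.  Let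
`B = W.image g⁻¹`; `x ∉ B`; let `a < x < b` be rationals with no element of `B` in `[a, b]`.
By `clus_exists` there is `z` with `a < z < b`, `κ z = κ x` and `g z` near `η` relative to `W`, of
colour `d`.  Let `h ∈ HH κ` be supported in `(a, b)` with `h x = z` (`exists_HH_local`).  Then
`g * h * g⁻¹ ∈ G` fixes `W` and maps `g x` to `g z`: `rel G W (g x) (g z)`.  But `g x` itself is
near `g x` relative to `W` and has the colour `κ (g x)`; contradiction to `sep`. -/
theorem tendsto_own {C : Type} [Finite C] (κ : ℚ → C) (G : Subgroup (Perm ℚ)) (hS : Std κ G)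
    (g : Perm ℚ) (hg : g ∈ G) (x : ℚ) :
    Tendsto g (Fp κ (e x) (κ x)) (Fp κ (e (g x)) (κ (g x))) := by
  classical
  have : (Fp κ (e x) (κ x)).NeBot := Fp_neBot κ hS.dn (e x) (κ x)
  have hfree : ∀ q, ∀ᶠ z in map g (Fp κ (e x) (κ x)), z ≠ q := by
    intro q
    rw [eventually_map]
    filter_upwards [Fp_ne κ (e x) (κ x) (g⁻¹ q)] with z hz h
    exact hz (by rw [← h, pia])
  obtain ⟨η, d, hηd⟩ := exists_cluster κ (map g (Fp κ (e x) (κ x))) hfree
  have hclus : clus κ g (e x) (κ x) η d := hηd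
  by_cases hcase : ((((g x : ℚ) : ℝ) : EReal) = η ∧ κ (g x) = d)
  · obtain ⟨h1, h2⟩ := hcase
    rw [← h1, ← h2] at hclus
    exact tendsto_of_clus κ G hS g hg (e x) (κ x) ((g x : ℚ) : ℝ) (κ (g x)) hclus
  · exfalso
    obtain ⟨W, hW, hsep⟩ := sep κ hS.dn G hS.le hS.n1 hS.n2 ((g x : ℚ) : ℝ) (κ (g x)) η d hcase ∅
    have hgx : g x ∉ W := fun h => (hW _ h).2.1 rfl
    have hxB : x ∉ W.image (g⁻¹ : Perm ℚ) := by
      intro h
      obtain ⟨w, hw, hwx⟩ := Finset.mem_image.1 h
      apply hgx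
      rw [← hwx, pai]
      exact hw
    obtain ⟨a, b, hax, hxb, hab⟩ := E2b_interval x _ hxB
    have hP : ∀ᶠ z in Fp κ (e x) (κ x), (a < z ∧ z < b) ∧ κ z = κ x := by
      have h1 := Fp_mem κ (e x) (κ x) (Set.Ioo (e a) (e b))
        (Ioo_mem_nhds ((E2b_e_lt a x).2 hax) ((E2b_e_lt x b).2 hxb))
      filter_upwards [h1, Fp_color κ (e x) (κ x)] with z hz hz'
      exact ⟨⟨(E2b_e_lt a z).1 hz.1, (E2b_e_lt z b).1 hz.2⟩, hz'⟩
    have hQ : ∀ᶠ w in Fp κ η d, near η W w ∧ κ w = d := by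
      filter_upwards [Fp_near κ η d W fun w hw => (hW w hw).2.2, Fp_color κ η d] with w hw hw'
      exact ⟨hw, hw'⟩
    obtain ⟨z, ⟨⟨haz, hzb⟩, hzc⟩, hgz, hgzc⟩ := clus_exists κ g (e x) (κ x) η d hclus hP hQ
    obtain ⟨h, hh, hhx, hfix⟩ := exists_HH_local κ hS.dn a b {x} (fun _ => z)
      (fun x' hx' => by
        rw [Finset.mem_singleton] at hx'
        subst hx'
        exact ⟨hax, hxb, haz, hzb, hzc⟩)
      (fun x' hx' y' hy' hxy => by
        rw [Finset.mem_singleton] at hx' hy'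
        subst hx' hy'
        exact absurd hxy (lt_irrefl _))
    have hhx' : h x = z := hhx x (Finset.mem_singleton_self x)
    refine hsep (g x) (g z) rfl hgzc ?_ hgz ⟨g * h * g⁻¹,
      G.mul_mem (G.mul_mem hg (hS.le hh)) (G.inv_mem hg), ?_, ?_⟩
    · intro w _
      exact ⟨E2b_e_lt w (g x), E2b_e_lt (g x) w⟩
    · intro w hw
      rw [Perm.mul_apply, Perm.mul_apply, hfix _ (hab _ (Finset.mem_image_of_mem _ hw)), pai]
    · rw [Perm.mul_apply, Perm.mul_apply, pia, hhx']

end Pool.Agent.Lib.H3C
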