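import Pool.Agent.Lib.H3C.E2b

/-! # E3: the bad places -/

namespace Pool.Agent.Lib.H3C

open Equiv Filter Topology

/-- Proof. There is a cluster place (`exists_cluster` for `map g (Fp κ ξ c)`); it is not an end, as
`ξ` is not bad, so it is real and `tendsto_of_clus` applies. -/
theorem good_of_not_bad {C : Type} [Finite C] (κ : ℚ → C) (G : Subgroup (Perm ℚ)) (hS : Std κ G)
    (g : Perm ℚ) (hg : g ∈ G) (c : C) (ξ : ℝ) (h : ξ ∉ bad κ g c) :
    ∃ (η : ℝ) (d : C), Tendsto g (Fp κ (ξ : EReal) c) (Fp κ (η : EReal) d) := by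
  have hne := Fp_neBot κ hS.dn (ξ : EReal) c
  have hfree : ∀ q, ∀ᶠ z in map g (Fp κ (ξ : EReal) c), z ≠ q := by
    intro q
    rw [eventually_map]
    filter_upwards [Fp_ne κ (ξ : EReal) c (g⁻¹ q)] with z hz h1
    exact hz (by rw [← h1, pia])
  obtain ⟨η, d, hηd⟩ := exists_cluster κ (map g (Fp κ (ξ : EReal) c)) hfree
  have hcl : clus κ g (ξ : EReal) c η d := hηd
  induction η with
  | bot => exact absurd ⟨d, Or.inr hcl⟩ h
  | coe η => exact ⟨η, d, tendsto_of_clus κ G hS g hg (ξ : EReal) c η d hcl⟩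
  | top => exact absurd ⟨d, Or.inl hcl⟩ h

/-- Proof. By `clus_unique`. -/
theorem not_bad_of_clus {C : Type} (κ : ℚ → C) (G : Subgroup (Perm ℚ)) (hS : Std κ G)
    (g : Perm ℚ) (hg : g ∈ G) (c : C) (ξ : ℝ) (η : ℝ) (d : C) (h : clus κ g (ξ : EReal) c η d) :
    ξ ∉ bad κ g c := by
  rintro ⟨d', h1 | h1⟩
  · exact (EReal.coe_ne_top η) (clus_unique κ G hS g hg (ξ : EReal) c η d ⊤ d' h h1).1.symm
  · exact (EReal.coe_ne_bot η) (clus_unique κ G hS g hg (ξ : EReal) c η d ⊥ d' h h1).1.symm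

/-- The place of a rational point is good (`tendsto_own`). -/
theorem own_not_bad {C : Type} [Finite C] (κ : ℚ → C) (G : Subgroup (Perm ℚ)) (hS : Std κ G)
    (g : Perm ℚ) (hg : g ∈ G) (x : ℚ) : (x : ℝ) ∉ bad κ g (κ x) := by
  have h := clus_of_tendsto κ hS.dn g (e x) (κ x) (e (g x)) (κ (g x)) (tendsto_own κ G hS g hg x)
  exact not_bad_of_clus κ G hS g hg (κ x) (x : ℝ) ((g x : ℚ) : ℝ) (κ (g x)) h

/-- There are few bad places.

Proof. For `ξ ∈ bad κ g c` choose an end `(⊤, d)` or `(⊥, d)` which is a cluster place.  This is an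
injective map to `Bool × C`: if the same end is a cluster place of `g` at `(ξ, c)` and at `(ξ', c)`,
then `(ξ, c)` and `(ξ', c)` are cluster places of `g⁻¹` at this end (`clus_symm`), so `ξ = ξ'` by
`clus_unique`. -/
theorem bad_finite {C : Type} [Finite C] (κ : ℚ → C) (G : Subgroup (Perm ℚ)) (hS : Std κ G)
    (g : Perm ℚ) (hg : g ∈ G) (c : C) :
    (bad κ g c).Finite ∧ (bad κ g c).ncard ≤ 2 * Nat.card C := by
  classical
  have hex : ∀ ξ ∈ bad κ g c, ∃ p : Bool × C,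
      clus κ g (ξ : EReal) c (if p.1 = true then ⊤ else ⊥) p.2 := by
    rintro ξ ⟨d, h | h⟩
    · exact ⟨(true, d), by simpa using h⟩
    · exact ⟨(false, d), by simpa using h⟩
  choose f hf using hex
  set F : ℝ → Bool × C := fun ξ => if h : ξ ∈ bad κ g c then f ξ h else (false, c) with hF
  have hFe : ∀ ξ (h : ξ ∈ bad κ g c), F ξ = f ξ h := fun ξ h => by
    rw [hF]
    exact dif_pos h
  have hinj : Set.InjOn F (bad κ g c) := by
    intro ξ hξ ξ' hξ' heq
    have h1 := hf ξ hξ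
    have h2 := hf ξ' hξ'
    rw [← hFe ξ hξ] at h1
    rw [← hFe ξ' hξ', ← heq] at h2
    have h3 := clus_symm κ g _ _ _ _ h1
    have h4 := clus_symm κ g _ _ _ _ h2
    have h5 := clus_unique κ G hS g⁻¹ (G.inv_mem hg) _ _ ξ c (ξ' : EReal) c h3 h4
    exact (EReal.coe_eq_coe_iff.mp h5.1).symm
  have hmaps : Set.MapsTo F (bad κ g c) (Set.univ : Set (Bool × C)) := fun _ _ => Set.mem_univ _
  have hfin : (Set.univ : Set (Bool × C)).Finite := Set.finite_univ
  refine ⟨Set.Finite.of_injOn hmaps hinj hfin, ?_⟩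
  have h6 := Set.ncard_le_ncard_of_injOn F (fun a _ => Set.mem_univ (F a)) hinj hfin
  rw [Set.ncard_univ, Nat.card_prod, Nat.card_eq_fintype_card (α := Bool), Fintype.card_bool] at h6
  exact h6

/-- A limit place is good for the inverse.

Proof. `clus_of_tendsto`, `clus_symm` and `not_bad_of_clus`. -/
theorem not_bad_inv {C : Type} [Finite C] (κ : ℚ → C) (G : Subgroup (Perm ℚ)) (hS : Std κ G)
    (g : Perm ℚ) (hg : g ∈ G) (c : C) (ξ η : ℝ) (d : C)
    (h : Tendsto g (Fp κ (ξ : EReal) c) (Fp κ (η : EReal) d)) : η ∉ bad κ g⁻¹ d := by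
  have h1 := clus_of_tendsto κ hS.dn g (ξ : EReal) c (η : EReal) d h
  exact not_bad_of_clus κ G hS g⁻¹ (G.inv_mem hg) d η ξ c (clus_symm κ g _ _ _ _ h1)

end Pool.Agent.Lib.H3C
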