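import Pool.Agent.Lib.H3C.E3

/-! # F1: continuity of the limit -/

namespace Pool.Agent.Lib.H3C

open Equiv Filter Topology

private theorem F1_coe_nhds {x : ℝ} {s : Set ℝ} (hs : s ∈ 𝓝 x) :
    ((fun y : ℝ => (y : EReal)) '' s) ∈ 𝓝 (x : EReal) := by
  rw [EReal.nhds_coe]
  exact Filter.image_mem_map hs

private theorem F1_e_mem {s : Set ℝ} {q : ℚ} (h : e q ∈ (fun y : ℝ => (y : EReal)) '' s) :
    (q : ℝ) ∈ s := by
  obtain ⟨y, hy, hq⟩ := h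
  have h1 : y = (q : ℝ) := EReal.coe_injective hq
  rwa [h1] at hy

private theorem F1_ev {C : Type} (κ : ℚ → C) (ξ : ℝ) (c : C) {s : Set ℝ} (hs : s ∈ 𝓝 ξ) :
    ∀ᶠ z in Fp κ (ξ : EReal) c, ((z : ℚ) : ℝ) ∈ s :=
  (Fp_mem κ (ξ : EReal) c _ (F1_coe_nhds hs)).mono fun _ hz => F1_e_mem hz

private theorem F1_eps {C : Type} (κ : ℚ → C) (ξ : ℝ) (c : C) {P : ℚ → Prop}
    (h : ∀ᶠ z in Fp κ (ξ : EReal) c, P z) :
    ∃ ε > 0, ∀ z : ℚ, |(z : ℝ) - ξ| < ε → (z : ℝ) ≠ ξ → κ z = c → P z := by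
  unfold Fp at h
  rw [eventually_inf_principal, eventually_comap, eventually_nhdsWithin_iff, EReal.nhds_coe,
    eventually_map, Metric.eventually_nhds_iff] at h
  obtain ⟨ε, hε, h⟩ := h
  refine ⟨ε, hε, fun z hz hne hc => ?_⟩
  refine h (y := (z : ℝ)) ?_ ?_ z rfl hc
  · rwa [Real.dist_eq]
  · intro heq
    exact hne (EReal.coe_injective heq)

/-- Limits of `g` at places near `(ξ, c)` are near the limit at `(ξ, c)`.

Proof. Let `V' ⊆ V` be a closed neighbourhood of `η`.  By `h` there is `ε > 0` such that for all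
`z` of colour `c` with `0 < |z - ξ| < ε`: `κ (g z) = d` and `g z ∈ V'` (translate between `EReal`
and `ℝ` neighbourhoods).  If `ξ' ≠ ξ`, `|ξ' - ξ| < ε`, then this holds eventually at `(ξ', c)`, so
`d' = d` and `η' ∈ V'` (closed; `Fp_neBot`).  If `ξ' = ξ` use `clus_unique`. -/
theorem lim_local {C : Type} [Finite C] (κ : ℚ → C) (G : Subgroup (Perm ℚ)) (hS : Std κ G)
    (g : Perm ℚ) (hg : g ∈ G) (c : C) (ξ η : ℝ) (d : C)
    (h : Tendsto g (Fp κ (ξ : EReal) c) (Fp κ (η : EReal) d)) (V : Set ℝ) (hV : V ∈ 𝓝 η) :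
    ∃ ε > 0, ∀ ξ' : ℝ, |ξ' - ξ| < ε → ∀ (η' : ℝ) (d' : C),
      Tendsto g (Fp κ (ξ' : EReal) c) (Fp κ (η' : EReal) d') → d' = d ∧ η' ∈ V := by
  obtain ⟨r, hr, hrV⟩ := Metric.nhds_basis_closedBall.mem_iff.1 hV
  have h1 : ∀ᶠ w in Fp κ (η : EReal) d, κ w = d ∧ ((w : ℚ) : ℝ) ∈ Metric.ball η r :=
    (Fp_color κ (η : EReal) d).and (F1_ev κ η d (Metric.ball_mem_nhds η hr))
  obtain ⟨ε, hε, h2⟩ := F1_eps κ ξ c (h.eventually h1)
  refine ⟨ε, hε, fun ξ' hξ' η' d' h' => ?_⟩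
  by_cases hne : ξ' = ξ
  · rw [hne] at h'
    obtain ⟨h3, h4⟩ := clus_unique κ G hS g hg (ξ : EReal) c η d (η' : EReal) d'
      (clus_of_tendsto κ hS.dn g _ _ _ _ h) (clus_of_tendsto κ hS.dn g _ _ _ _ h')
    refine ⟨h4, ?_⟩
    have h5 : η' = η := EReal.coe_injective h3
    rw [h5]
    exact mem_of_mem_nhds hV
  · have hs : {x : ℝ | |x - ξ| < ε ∧ x ≠ ξ} ∈ 𝓝 ξ' := by
      refine IsOpen.mem_nhds ?_ ⟨hξ', hne⟩
      have h8 : Continuous fun x : ℝ => |x - ξ| := by fun_prop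
      exact (isOpen_lt h8 continuous_const).inter isOpen_ne
    have h3 : ∀ᶠ z in Fp κ (ξ' : EReal) c, κ (g z) = d ∧ ((g z : ℚ) : ℝ) ∈ Metric.ball η r := by
      filter_upwards [F1_ev κ ξ' c hs, Fp_color κ (ξ' : EReal) c] with z hz hc
      exact h2 z hz.1 hz.2 hc
    have := Fp_neBot κ hS.dn (ξ' : EReal) c
    refine ⟨?_, ?_⟩
    · have h4 := h'.eventually (Fp_color κ (η' : EReal) d')
      obtain ⟨z, hz1, hz2⟩ := (h3.and h4).exists
      exact hz2.symm.trans hz1.1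
    · apply hrV
      by_contra hη
      have h5 : (Metric.closedBall η r)ᶜ ∈ 𝓝 η' :=
        Metric.isClosed_closedBall.isOpen_compl.mem_nhds hη
      have h6 := h'.eventually (F1_ev κ η' d' h5)
      obtain ⟨z, hz1, hz2⟩ := (h3.and h6).exists
      exact hz2 (Metric.ball_subset_closedBall hz1.2)

end Pool.Agent.Lib.H3C
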