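import Pool.Agent.Lib.H3C.F1

/-! # F2: monotonicity on intervals without bad places -/

namespace Pool.Agent.Lib.H3C

open Equiv Filter Topology

private theorem F2_mono {φ : ℝ → ℝ} {I : Set ℝ} (hI : I.OrdConnected) {a b : ℝ} (ha : a ∈ I)
    (hb : b ∈ I) (hab : a < b) (hc : ContinuousOn φ I) (hi : Set.InjOn φ I) :
    StrictMonoOn φ I ∨ StrictAntiOn φ I := by
  have key : ∀ x ∈ I, ∀ y ∈ I, x < y →
      (φ a < φ b → φ x < φ y) ∧ (φ b < φ a → φ y < φ x) := by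
    intro x hx y hy hxy
    have hm : min a x ∈ I := by
      rcases min_choice a x with h | h <;> rw [h]
      · exact ha
      · exact hx
    have hM : max b y ∈ I := by
      rcases max_choice b y with h | h <;> rw [h]
      · exact hb
      · exact hy
    have hsub : Set.Icc (min a x) (max b y) ⊆ I := hI.out hm hM
    have h1 : a ∈ Set.Icc (min a x) (max b y) :=
      ⟨min_le_left _ _, hab.le.trans (le_max_left _ _)⟩
    have h2 : b ∈ Set.Icc (min a x) (max b y) :=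
      ⟨(min_le_left _ _).trans hab.le, le_max_left _ _⟩
    have h3 : x ∈ Set.Icc (min a x) (max b y) :=
      ⟨min_le_right _ _, hxy.le.trans (le_max_right _ _)⟩
    have h4 : y ∈ Set.Icc (min a x) (max b y) :=
      ⟨(min_le_right _ _).trans hxy.le, le_max_right _ _⟩
    rcases ContinuousOn.strictMonoOn_of_injOn_Icc' (h1.1.trans h1.2) (hc.mono hsub)
      (hi.mono hsub) with h | h
    · exact ⟨fun _ => h h3 h4 hxy, fun h5 => absurd (h h1 h2 hab) (lt_asymm h5)⟩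
    · exact ⟨fun h5 => absurd (h h1 h2 hab) (lt_asymm h5), fun _ => h h3 h4 hxy⟩
  rcases lt_trichotomy (φ a) (φ b) with h | h | h
  · left
    intro x hx y hy hxy
    exact (key x hx y hy hxy).1 h
  · exact absurd (hi ha hb h) hab.ne
  · right
    intro x hx y hy hxy
    exact (key x hx y hy hxy).2 h

/-- On an open interval without bad places `g` is given by a continuous strictly monotone function
on the points of colour `c`, which get one colour `d`; and all points of colour `d` in the image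
interval are images.

Proof. `good_of_not_bad` gives functions `φ` and `D` on `I` with
`Tendsto g (Fp κ ξ c) (Fp κ (φ ξ) (D ξ))`.  By `lim_local` `D` is locally constant on `I` and `φ` is
continuous on `I`; `I` is connected (`OrdConnected`, `Set.OrdConnected.isPreconnected`), so `D = d`
is constant.  `φ` is injective on `I`: if `φ ξ = φ ξ'` then `(ξ, c)` and `(ξ', c)` are both cluster
places of `g⁻¹` at `(φ ξ, d)` (`clus_of_tendsto`, `clus_symm`), so `ξ = ξ'` by `clus_unique`.  A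
continuous injective function on an interval is strictly monotone or antitone
(`ContinuousOn.strictMonoOn_of_injOn_Icc'` and similar; reduce to intervals `Icc`, or use
`Continuous.strictMono_of_inj` on the subtype).  For `x ∈ I` rational of colour `c`, `tendsto_own`
and `clus_unique` give `φ x = g x` and `d = κ (g x)`.  Let `w` have colour `d` and `w = φ ξ`, `ξ ∈ I`:
by `tendsto_own` for `g⁻¹` at `w` and `clus_symm`, `clus_unique` (for `g⁻¹` at `(w, d)`):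
`(g⁻¹ w, κ (g⁻¹ w)) = (ξ, c)`. -/
theorem exists_mono {C : Type} [Finite C] (κ : ℚ → C) (G : Subgroup (Perm ℚ)) (hS : Std κ G)
    (g : Perm ℚ) (hg : g ∈ G) (c : C) (I : Set ℝ) (hI : I.OrdConnected) (hIo : IsOpen I)
    (hIn : I.Nonempty) (hgood : ∀ ξ ∈ I, ξ ∉ bad κ g c) :
    ∃ (d : C) (φ : ℝ → ℝ),
      (∀ ξ ∈ I, Tendsto g (Fp κ (ξ : EReal) c) (Fp κ (φ ξ : EReal) d)) ∧ ContinuousOn φ I ∧
      (StrictMonoOn φ I ∨ StrictAntiOn φ I) ∧
      (∀ x : ℚ, (x : ℝ) ∈ I → κ x = c → κ (g x) = d ∧ φ x = g x) ∧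
      (∀ w : ℚ, κ w = d → (w : ℝ) ∈ φ '' I → κ (g⁻¹ w) = c ∧ ((g⁻¹ w : ℚ) : ℝ) ∈ I) := by
  have h1 : ∀ ξ : ℝ, ∃ (η : ℝ) (d : C), ξ ∈ I →
      Tendsto g (Fp κ (ξ : EReal) c) (Fp κ (η : EReal) d) := by
    intro ξ
    by_cases hξ : ξ ∈ I
    · obtain ⟨η, d, h⟩ := good_of_not_bad κ G hS g hg c ξ (hgood ξ hξ)
      exact ⟨η, d, fun _ => h⟩
    · exact ⟨0, c, fun h => absurd h hξ⟩
  choose φ D hφ using h1
  have hloc : ∀ ξ ∈ I, ∀ V ∈ 𝓝 (φ ξ), ∀ᶠ ξ' in 𝓝[I] ξ, D ξ' = D ξ ∧ φ ξ' ∈ V := by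
    intro ξ hξ V hV
    obtain ⟨ε, hε, h⟩ := lim_local κ G hS g hg c ξ (φ ξ) (D ξ) (hφ ξ hξ) V hV
    rw [eventually_nhdsWithin_iff]
    filter_upwards [Metric.ball_mem_nhds ξ hε] with ξ' h2 h3
    rw [Metric.mem_ball, Real.dist_eq] at h2
    exact h ξ' h2 (φ ξ') (D ξ') (hφ ξ' h3)
  have hcont : ContinuousOn φ I := by
    intro ξ hξ
    intro V hV
    exact (hloc ξ hξ V hV).mono fun ξ' h => h.2
  obtain ⟨ξ₀, hξ₀⟩ := hIn
  have hD : ∀ ξ ∈ I, D ξ = D ξ₀ := by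
    intro ξ hξ
    letI : TopologicalSpace C := ⊥
    haveI : DiscreteTopology C := ⟨rfl⟩
    have hcD : ContinuousOn D I := by
      intro ξ' hξ'
      refine (continuousWithinAt_const (b := D ξ')).congr_of_eventuallyEq ?_ rfl
      exact (hloc ξ' hξ' Set.univ univ_mem).mono fun _ h => h.1
    exact hI.isPreconnected.constant hcD hξ hξ₀
  have hφ' : ∀ ξ ∈ I, Tendsto g (Fp κ (ξ : EReal) c) (Fp κ (φ ξ : EReal) (D ξ₀)) := by
    intro ξ hξ
    have h2 := hφ ξ hξ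
    rwa [hD ξ hξ] at h2
  have hcl : ∀ ξ ∈ I, clus κ g (ξ : EReal) c (φ ξ : EReal) (D ξ₀) := fun ξ hξ =>
    clus_of_tendsto κ hS.dn g ξ c _ _ (hφ' ξ hξ)
  have hcl' : ∀ ξ ∈ I, clus κ g⁻¹ (φ ξ : EReal) (D ξ₀) (ξ : EReal) c := fun ξ hξ =>
    clus_symm κ g _ _ _ _ (hcl ξ hξ)
  have hinj : Set.InjOn φ I := by
    intro ξ hξ ξ' hξ' h2
    have h3 := hcl' ξ hξ
    rw [h2] at h3
    have h4 := (clus_unique κ G hS g⁻¹ (G.inv_mem hg) _ _ ξ' c _ _ (hcl' ξ' hξ') h3).1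
    exact EReal.coe_eq_coe_iff.mp h4
  obtain ⟨ε, hε, hball⟩ := Metric.isOpen_iff.mp hIo ξ₀ hξ₀
  have hξ₁ : ξ₀ + ε / 2 ∈ I := hball (by
    rw [Metric.mem_ball, Real.dist_eq, add_sub_cancel_left, abs_of_pos (by positivity)]
    linarith)
  refine ⟨D ξ₀, φ, hφ', hcont, F2_mono hI hξ₀ hξ₁ (by linarith) hcont hinj, ?_, ?_⟩
  · intro x hx hxc
    have h2 := clus_of_tendsto κ hS.dn g _ _ _ _ (tendsto_own κ G hS g hg x)
    rw [hxc] at h2
    obtain ⟨h3, h4⟩ := clus_unique κ G hS g hg _ _ (φ x) (D ξ₀) _ _ (hcl x hx) h2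
    exact ⟨h4, (EReal.coe_eq_coe_iff.mp h3).symm⟩
  · rintro w hw ⟨ξ, hξ, hwξ⟩
    have h2 := clus_of_tendsto κ hS.dn g⁻¹ _ _ _ _ (tendsto_own κ G hS g⁻¹ (G.inv_mem hg) w)
    rw [hw] at h2
    have h5 := hcl' ξ hξ
    rw [hwξ] at h5
    obtain ⟨h3, h4⟩ := clus_unique κ G hS g⁻¹ (G.inv_mem hg) _ _ ξ c _ _ h5 h2
    refine ⟨h4, ?_⟩
    have h6 : ((g⁻¹ w : ℚ) : ℝ) = ξ := EReal.coe_eq_coe_iff.mp h3
    rw [h6]
    exact hξ

end Pool.Agent.Lib.H3C
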