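import Pool.Agent.Lib.H3C.B2
import Pool.Agent.Lib.H3C.E1

/-! # G1: the elements which preserve the colours and are increasing on every colour -/

namespace Pool.Agent.Lib.H3C

open Equiv Filter Topology

private theorem G1_rev {C : Type} {κ : ℚ → C} {G : Subgroup (Perm ℚ)} {c d : C}
    (h : linked κ G c d) {g : Perm ℚ} (hg : g ∈ G0 κ G) {x y : ℚ} (hx : κ x = c) (hy : κ y = d) :
    y < x ↔ g y < g x := by
  have h1 := h g hg x y hx hy
  rcases lt_trichotomy x y with h2 | h2 | h2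
  · have h3 := h1.1 h2
    exact ⟨fun h4 => absurd h4 (lt_asymm h2), fun h4 => absurd h4 (lt_asymm h3)⟩
  · rw [h2]
    exact ⟨fun h4 => absurd h4 (lt_irrefl _), fun h4 => absurd h4 (lt_irrefl _)⟩
  · refine ⟨fun _ => ?_, fun _ => h2⟩
    rcases lt_trichotomy (g x) (g y) with h3 | h3 | h3
    · exact absurd (h1.2 h3) (lt_asymm h2)
    · exact absurd (g.injective h3) (ne_of_gt h2)
    · exact h3

private theorem G1_e_lt {q : ℚ} {ξ : ℝ} (h : (q : ℝ) < ξ) : e q < (ξ : EReal) :=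
  EReal.coe_lt_coe_iff.2 h

private theorem G1_lt_e {q : ℚ} {ξ : ℝ} (h : ξ < (q : ℝ)) : (ξ : EReal) < e q :=
  EReal.coe_lt_coe_iff.2 h

private theorem G1_e_lt_e {p q : ℚ} (h : e p < e q) : p < q := by
  have h1 : ((p : ℝ) : EReal) < ((q : ℝ) : EReal) := h
  exact_mod_cast EReal.coe_lt_coe_iff.1 h1

private theorem G1_col {C : Type} {κ : ℚ → C} (hκ : Dn κ) {a b : ℝ} (hab : a < b) (c : C) :
    ∃ x : ℚ, a < x ∧ (x : ℝ) < b ∧ κ x = c := by
  obtain ⟨p, hp1, hp2⟩ := exists_rat_btwn hab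
  obtain ⟨q, hq1, hq2⟩ := exists_rat_btwn hp2
  have hpq : p < q := by exact_mod_cast hq1
  obtain ⟨x, hx1, hx2, hx3⟩ := hκ p q hpq c
  refine ⟨x, ?_, ?_, hx3⟩
  · have : (p : ℝ) < x := by exact_mod_cast hx1
    linarith
  · have : (x : ℝ) < q := by exact_mod_cast hx2
    linarith

theorem HH_le_G0 {C : Type} (κ : ℚ → C) (G : Subgroup (Perm ℚ)) (hG : HH κ ≤ G) :
    HH κ ≤ G0 κ G := by
  intro σ hσ
  exact ⟨hG hσ, hσ.2, fun x y _ hxy => hσ.1 x y hxy⟩

theorem linked_refl {C : Type} (κ : ℚ → C) (G : Subgroup (Perm ℚ)) (c : C) : linked κ G c c := by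
  intro g hg x y hx hy
  refine ⟨fun h => hg.2.2 x y (hx.trans hy.symm) h, fun h => ?_⟩
  by_contra h1
  rcases (not_lt.1 h1).lt_or_eq with h2 | h2
  · exact lt_asymm h (hg.2.2 y x (hy.trans hx.symm) h2)
  · rw [h2] at h
    exact lt_irrefl _ h

theorem linked_symm {C : Type} (κ : ℚ → C) (G : Subgroup (Perm ℚ)) (c d : C)
    (h : linked κ G c d) : linked κ G d c := by
  intro g hg x y hx hy
  exact G1_rev h hg hy hx

/-- Proof. Let `x, z` have the colours `c`, `e'`.  If `x < z` take `y` of colour `d` in between: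
`g x < g y < g z`.  If `z < x` the same gives `g z < g x`. -/
theorem linked_trans {C : Type} (κ : ℚ → C) (hκ : Dn κ) (G : Subgroup (Perm ℚ)) (c d e' : C)
    (h : linked κ G c d) (h' : linked κ G d e') : linked κ G c e' := by
  intro g hg x z hx hz
  have h1 : x < z → g x < g z := by
    intro hxz
    obtain ⟨y, hy1, hy2, hy3⟩ := hκ x z hxz d
    exact ((h g hg x y hx hy3).1 hy1).trans ((h' g hg y z hy3 hz).1 hy2)
  have h2 : z < x → g z < g x := by
    intro hzx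
    obtain ⟨y, hy1, hy2, hy3⟩ := hκ z x hzx d
    exact ((G1_rev h' hg hy3 hz).1 hy1).trans ((G1_rev h hg hx hy3).1 hy2)
  refine ⟨h1, fun h3 => ?_⟩
  rcases lt_trichotomy x z with h4 | h4 | h4
  · exact h4
  · rw [h4] at h3
    exact absurd h3 (lt_irrefl _)
  · exact absurd h3 (lt_asymm (h2 h4))

/-- Elements of `G0` are continuous on every colour.

Proof. `g` restricts to an increasing bijection of the dense set `P = {q | κ q = c}`.  Let
`η = sSup {(g z : ℝ) | z ∈ P, z < ξ}` (bounded by `g z'` for any `z' ∈ P`, `ξ < z'`).  For `ε > 0`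
there is `z₁ ∈ P`, `z₁ < ξ`, `η - ε < g z₁`; and if `w ∈ P`, `η < w < η + ε`, then `z₂ = g⁻¹ w ∈ P`
is not `< ξ`; choose two such `w`, so that one has `z₂ > ξ`.  For `z ∈ P`, `z₁ < z < z₂`:
`η - ε < g z < η + ε`.  Also `g z ≠ η` for `z ≠ g⁻¹ η` (use `Fp_ne`). -/
theorem G0_tendsto {C : Type} (κ : ℚ → C) (hκ : Dn κ) (G : Subgroup (Perm ℚ)) (g : Perm ℚ)
    (hg : g ∈ G0 κ G) (ξ : ℝ) (c : C) :
    ∃ η : ℝ, Tendsto g (Fp κ (ξ : EReal) c) (Fp κ (η : EReal) c) ∧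
      (∀ z : ℚ, κ z = c → (z : ℝ) < ξ → (g z : ℝ) ≤ η) ∧
      ∀ z : ℚ, κ z = c → ξ < z → η ≤ g z := by
  have hcol : ∀ x, κ (g x) = κ x := hg.2.1
  have hinc : ∀ x y, κ x = κ y → x < y → g x < g y := hg.2.2
  set A : Set ℝ := {r | ∃ z : ℚ, κ z = c ∧ (z : ℝ) < ξ ∧ r = (g z : ℝ)} with hA
  obtain ⟨z₀, hz₀1, hz₀2, hz₀3⟩ := G1_col hκ (show ξ - 1 < ξ by linarith) c
  obtain ⟨z₁, hz₁1, hz₁2, hz₁3⟩ := G1_col hκ (show ξ < ξ + 1 by linarith) c
  have hne : A.Nonempty := ⟨(g z₀ : ℝ), z₀, hz₀3, hz₀2, rfl⟩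
  have hupper : ∀ z : ℚ, κ z = c → ξ < z → ∀ r ∈ A, r ≤ (g z : ℝ) := by
    rintro z hz1 hz2 r ⟨w, hw1, hw2, rfl⟩
    have h1 : w < z := by
      have : (w : ℝ) < z := hw2.trans hz2
      exact_mod_cast this
    have h2 := hinc w z (hw1.trans hz1.symm) h1
    exact_mod_cast h2.le
  have hbdd : BddAbove A := ⟨(g z₁ : ℝ), fun r hr => hupper z₁ hz₁3 hz₁1 r hr⟩
  set η : ℝ := sSup A with hη
  have hlow : ∀ z : ℚ, κ z = c → (z : ℝ) < ξ → (g z : ℝ) ≤ η := fun z hz1 hz2 =>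
    le_csSup hbdd ⟨z, hz1, hz2, rfl⟩
  have hup : ∀ z : ℚ, κ z = c → ξ < z → η ≤ g z := fun z hz1 hz2 =>
    csSup_le hne (hupper z hz1 hz2)
  refine ⟨η, ?_, hlow, hup⟩
  have hreal : Tendsto (fun z : ℚ => (g z : ℝ)) (Fp κ (ξ : EReal) c) (𝓝 η) := by
    rw [tendsto_order]
    constructor
    · intro a ha
      obtain ⟨r, ⟨z, hz1, hz2, rfl⟩, hr⟩ := exists_lt_of_lt_csSup hne ha
      filter_upwards [Fp_mem κ (ξ : EReal) c (Set.Ioi (e z)) (Ioi_mem_nhds (G1_e_lt hz2)),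
        Fp_color κ (ξ : EReal) c] with w hw1 hw2
      have h1 : z < w := G1_e_lt_e hw1
      have h2 : ((g z : ℚ) : ℝ) < ((g w : ℚ) : ℝ) := by
        exact_mod_cast hinc z w (hz1.trans hw2.symm) h1
      exact hr.trans h2
    · intro b hb
      obtain ⟨w₁, hw₁1, hw₁2, hw₁3⟩ := G1_col hκ hb c
      obtain ⟨w₂, hw₂1, hw₂2, hw₂3⟩ := G1_col hκ hw₁2 c
      have hcol' : ∀ w, κ (g⁻¹ w) = κ w := by
        intro w
        have := hcol (g⁻¹ w)
        rw [pai] at this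
        exact this.symm
      have h1 : ξ ≤ ((g⁻¹ w₁ : ℚ) : ℝ) := by
        by_contra hcon
        have h2 := hlow (g⁻¹ w₁) ((hcol' w₁).trans hw₁3) (not_le.1 hcon)
        rw [pai] at h2
        linarith
      have h2 : g⁻¹ w₁ < g⁻¹ w₂ := by
        by_contra hcon
        rcases (not_lt.1 hcon).lt_or_eq with h3 | h3
        · have h4 := hinc _ _ (((hcol' w₂).trans hw₂3).trans ((hcol' w₁).trans hw₁3).symm) h3
          rw [pai, pai] at h4
          have h5 : (w₂ : ℝ) < w₁ := by exact_mod_cast h4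
          linarith
        · have h4 := g⁻¹.injective h3
          rw [h4] at hw₂1
          exact lt_irrefl _ hw₂1
      have h3 : ξ < ((g⁻¹ w₂ : ℚ) : ℝ) := by
        have : ((g⁻¹ w₁ : ℚ) : ℝ) < ((g⁻¹ w₂ : ℚ) : ℝ) := by exact_mod_cast h2
        linarith
      filter_upwards [Fp_mem κ (ξ : EReal) c (Set.Iio (e (g⁻¹ w₂))) (Iio_mem_nhds (G1_lt_e h3)),
        Fp_color κ (ξ : EReal) c] with w hw1 hw2
      have h4 : w < g⁻¹ w₂ := G1_e_lt_e hw1
      have h5 := hinc w _ (hw2.trans ((hcol' w₂).trans hw₂3).symm) h4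
      rw [pai] at h5
      have h6 : ((g w : ℚ) : ℝ) < w₂ := by exact_mod_cast h5
      exact h6.trans hw₂2
  have he : Tendsto (fun z : ℚ => e (g z)) (Fp κ (ξ : EReal) c) (𝓝 (η : EReal)) :=
    (continuous_coe_real_ereal.tendsto η).comp hreal
  have hne' : ∀ᶠ z in Fp κ (ξ : EReal) c, e (g z) ∈ ({(η : EReal)}ᶜ : Set EReal) := by
    by_cases hex : ∃ w : ℚ, e w = (η : EReal)
    · obtain ⟨w, hw⟩ := hex
      filter_upwards [Fp_ne κ (ξ : EReal) c (g⁻¹ w)] with z hz hz2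
      apply hz
      have h1 : e (g z) = e w := by
        rw [hw]
        exact hz2
      have h2 : g z = w := by
        have h3 : (((g z : ℚ) : ℝ) : EReal) = ((w : ℝ) : EReal) := h1
        exact_mod_cast EReal.coe_eq_coe_iff.1 h3
      rw [← h2, pia]
    · exact Eventually.of_forall fun z hz => hex ⟨g z, hz⟩
  unfold Fp
  refine tendsto_inf.2 ⟨?_, ?_⟩
  · rw [tendsto_comap_iff]
    exact tendsto_nhdsWithin_iff.2 ⟨he, hne'⟩
  · rw [tendsto_principal]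
    filter_upwards [Fp_color κ (ξ : EReal) c] with z hz
    show κ (g z) = c
    rw [hcol z]
    exact hz

end Pool.Agent.Lib.H3C
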