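import Pool.Agent.Lib.H3C.G1

/-! # G2: moving points of one colour past points of an unlinked colour -/

namespace Pool.Agent.Lib.H3C

open Equiv Filter Topology

private theorem g2_e_lt (a b : ℚ) : e a < e b ↔ a < b := by
  simp [e]

/-- A property which holds eventually at all places over an irrational point holds in an interval. -/
private theorem g2_interval {C : Type} [Finite C] (κ : ℚ → C) (ξ : ℝ) (hξ : Irrational ξ)
    (Q : ℚ → Prop) (h : ∀ c : C, ∀ᶠ z in Fp κ (ξ : EReal) c, Q z) :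
    ∃ u₁ u₂ : ℚ, (u₁ : ℝ) < ξ ∧ ξ < u₂ ∧ ∀ z : ℚ, u₁ < z → z < u₂ → Q z := by
  have h1 : ∀ c : C, ∀ᶠ z in comap e (𝓝[≠] (ξ : EReal)), κ z = c → Q z := by
    intro c
    have := h c
    rw [Fp, Filter.eventually_inf_principal] at this
    exact this
  have h2 : ∀ᶠ z in comap e (𝓝[≠] (ξ : EReal)), Q z := by
    have h3 := Filter.eventually_all.2 h1
    exact h3.mono fun z hz => hz (κ z) rfl
  obtain ⟨U, hU, hUQ⟩ := Filter.mem_comap.1 h2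
  obtain ⟨V, hV, hξV, hVU⟩ := mem_nhdsWithin.1 hU
  have h4 : IsOpen ((fun r : ℝ => (r : EReal)) ⁻¹' V) := hV.preimage continuous_coe_real_ereal
  have h5 : (fun r : ℝ => (r : EReal)) ⁻¹' V ∈ 𝓝 ξ := h4.mem_nhds hξV
  obtain ⟨l, u, ⟨hl, hu⟩, hlu⟩ := mem_nhds_iff_exists_Ioo_subset.1 h5
  obtain ⟨u₁, h6, h7⟩ := exists_rat_btwn hl
  obtain ⟨u₂, h8, h9⟩ := exists_rat_btwn hu
  refine ⟨u₁, u₂, h7, h8, fun z hz1 hz2 => ?_⟩
  have h10 : (u₁ : ℝ) < z := by exact_mod_cast hz1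
  have h11 : (z : ℝ) < u₂ := by exact_mod_cast hz2
  have h12 : e z ∈ V := hlu ⟨h6.trans h10, h11.trans h9⟩
  have h13 : e z ≠ (ξ : EReal) := by
    intro h14
    have h15 : (z : ℝ) = ξ := by
      have := h14
      simp only [e] at this
      exact_mod_cast this
    exact hξ ⟨z, h15⟩
  exact hUQ (hVU ⟨h12, h13⟩)

/-- A permutation which fixes the complement of a set maps the set to itself. -/
private theorem g2_supp (h : Perm ℚ) (a b : ℚ) (hs : ∀ x, (x ≤ a ∨ b ≤ x) → h x = x) (x : ℚ)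
    (hx : a < h x ∧ h x < b) : a < x ∧ x < b := by
  by_contra hc
  have h1 : x ≤ a ∨ b ≤ x := by
    by_cases h2 : a < x
    · right
      by_contra h3
      exact hc ⟨h2, not_le.1 h3⟩
    · left
      exact not_lt.1 h2
  rw [hs x h1] at hx
  exact hc hx

private theorem g2_supp_inv (h : Perm ℚ) (a b : ℚ) (hs : ∀ x, (x ≤ a ∨ b ≤ x) → h x = x) (x : ℚ)
    (hx : x ≤ a ∨ b ≤ x) : h⁻¹ x = x := by
  rw [Perm.inv_eq_iff_eq]
  exact (hs x hx).symm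

/-- The normalised form of the hypothesis. -/
private theorem g2_norm {C : Type} (κ : ℚ → C) (G : Subgroup (Perm ℚ)) (c d : C)
    (h : ¬ linked κ G c d) :
    ∃ g ∈ G0 κ G, ∃ x y : ℚ, κ x = c ∧ κ y = d ∧ x < y ∧ g y < g x := by
  unfold linked at h
  push Not at h
  obtain ⟨g, hg, x, y, hx, hy, hxy⟩ := h
  rcases hxy with ⟨h1, h2⟩ | ⟨h1, h2⟩
  · refine ⟨g, hg, x, y, hx, hy, h1, lt_of_le_of_ne h2 fun h3 => ?_⟩
    exact absurd (g.injective h3) h1.ne'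
  · refine ⟨g⁻¹, (G0 κ G).inv_mem hg, g x, g y, (hg.2.1 x).trans hx, (hg.2.1 y).trans hy, h2, ?_⟩
    rw [pia, pia]
    refine lt_of_le_of_ne h1 fun h3 => ?_
    rw [h3] at h2
    exact lt_irrefl _ h2

/-- A neighbourhood of a limit which separates it from the other limits. -/
private theorem g2_sep {C : Type} [Finite C] (η : C → ℝ) (c : C) :
    ∃ v₁ v₂ : ℚ, (v₁ : ℝ) < η c ∧ η c < v₂ ∧ ∀ e', η e' ≠ η c → η e' < v₁ ∨ (v₂ : ℝ) < η e' := by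
  have h1 : (Set.range η \ {η c}).Finite := (Set.finite_range η).subset Set.sdiff_subset
  have h2 : (Set.range η \ {η c})ᶜ ∈ 𝓝 (η c) :=
    h1.isClosed.isOpen_compl.mem_nhds fun h3 => h3.2 rfl
  obtain ⟨l, u, ⟨hl, hu⟩, hlu⟩ := mem_nhds_iff_exists_Ioo_subset.1 h2
  obtain ⟨v₁, h6, h7⟩ := exists_rat_btwn hl
  obtain ⟨v₂, h8, h9⟩ := exists_rat_btwn hu
  refine ⟨v₁, v₂, h7, h8, fun e' he' => ?_⟩
  by_contra hc
  push Not at hc
  exact hlu ⟨h6.trans_le hc.1, hc.2.trans_lt h9⟩ ⟨⟨e', rfl⟩, he'⟩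

/-- Proof. There are `g ∈ G0`, `κ x = c`, `κ y = d` with `¬ (x < y ↔ g x < g y)`.  Replacing `g`, `x`,
`y` by `g⁻¹`, `g x`, `g y` if necessary, we may assume `x < y` and `g y < g x` (`c ≠ d` by
`linked_refl`, so `x ≠ y`).  Let `ξ ∈ (x, y)` be irrational and for every colour `e'` let `η e'` be the
limit from `G0_tendsto`; then `η d ≤ g y < g x ≤ η c`.  Let `E = {e' | η e' = η c}`; `d ∉ E`.  Choose
rationals `v₁ < η c < v₂` such that no `η e'`, `e' ∉ E`, is in `[v₁, v₂]`, and then rationals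
`u₁ < ξ < u₂` such that for `z ∈ (u₁, u₂)`: `g z ∈ (v₁, v₂)` if `κ z ∈ E` and `g z ∉ [v₁, v₂]` if
`κ z ∉ E` (finitely many colours; `ξ` is irrational, so `z ≠ ξ`).
Let `z₀ < z₁` be points of colour `c` in `(u₁, u₂)` and `h ∈ HH κ` supported in `(u₁, u₂)` with
`h z₀ = z₁` (`exists_HH_local`); `k = g * h * g⁻¹`, `w₀ = g z₀`, `w₁ = g z₁ = k w₀`, `w₀ < w₁` in
`(v₁, v₂)`.  Let `w₂ ∈ (w₁, v₂)` be of colour `c` and `h' ∈ HH κ` supported in `(w₀, v₂)` with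
`h' w₁ = w₂`.  `f = h' * k * h'⁻¹ * k⁻¹ ∈ G0 κ G`; `f w₁ = h' k h'⁻¹ w₀ = h' k w₀ = h' w₁ = w₂`.
If `q ∉ (v₁, v₂)` then `f q = q`: if `g⁻¹ q ∉ (u₁, u₂)` then `k⁻¹ q = q` and everything fixes `q`;
otherwise `κ q ∉ E` and `k⁻¹ q = g (h⁻¹ (g⁻¹ q)) ∉ [v₁, v₂]` is fixed by `h'⁻¹`, so `f q = h' q = q`.
If `κ q = d` and `q ∈ (v₁, v₂)`: `g⁻¹ q ∉ (u₁, u₂)`, so `k⁻¹ q = q`; the same for `q' = h'⁻¹ q`, so
`k q' = q'` and `f q = q`.  Take `a = v₁`, `b = v₂`. -/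
theorem unlinked_mover {C : Type} [Finite C] (κ : ℚ → C) (hκ : Dn κ) (G : Subgroup (Perm ℚ))
    (hG : HH κ ≤ G) (c d : C) (h : ¬ linked κ G c d) :
    ∃ f ∈ G0 κ G, ∃ a b w₁ w₂ : ℚ, a < w₁ ∧ w₁ < w₂ ∧ w₂ < b ∧ κ w₁ = c ∧ f w₁ = w₂ ∧
      (∀ q, q ≤ a ∨ b ≤ q → f q = q) ∧ ∀ q, κ q = d → f q = q := by
  obtain ⟨g, hg, x, y, hx, hy, hxy, hgxy⟩ := g2_norm κ G c d h
  have hxy' : (x : ℝ) < y := by exact_mod_cast hxy
  obtain ⟨ξ, hξ, hxξ, hξy⟩ := exists_irrational_btwn hxy'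
  choose η hη using fun e' => G0_tendsto κ hκ G g hg ξ e'
  have hηd : η d ≤ g y := (hη d).2.2 y hy hξy
  have hηc : (g x : ℝ) ≤ η c := (hη c).2.1 x hx hxξ
  have hgxy' : (g y : ℝ) < g x := by exact_mod_cast hgxy
  have hdc : η d ≠ η c := (hηd.trans_lt (hgxy'.trans_le hηc)).ne
  obtain ⟨v₁, v₂, hv₁, hv₂, hsep⟩ := g2_sep η c
  obtain ⟨u₁, u₂, hu₁, hu₂, hu⟩ := g2_interval κ ξ hξ
    (fun z => (η (κ z) = η c → v₁ < g z ∧ g z < v₂) ∧
      (η (κ z) ≠ η c → g z < v₁ ∨ v₂ < g z)) (by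
    intro e'
    have hcol := Fp_color κ (ξ : EReal) e'
    by_cases he : η e' = η c
    · have hU : Set.Ioo (e v₁) (e v₂) ∈ 𝓝 (η e' : EReal) := by
        refine Ioo_mem_nhds ?_ ?_
        · rw [he]; exact EReal.coe_lt_coe_iff.2 hv₁
        · rw [he]; exact EReal.coe_lt_coe_iff.2 hv₂
      have h1 := (hη e').1.eventually (Fp_mem κ _ _ _ hU)
      filter_upwards [hcol, h1] with z hz1 hz2
      rw [hz1]
      exact ⟨fun _ => ⟨(g2_e_lt _ _).1 hz2.1, (g2_e_lt _ _).1 hz2.2⟩, fun h2 => absurd he h2⟩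
    · rcases hsep e' he with h2 | h2
      · have hU : Set.Iio (e v₁) ∈ 𝓝 (η e' : EReal) := Iio_mem_nhds (EReal.coe_lt_coe_iff.2 h2)
        have h1 := (hη e').1.eventually (Fp_mem κ _ _ _ hU)
        filter_upwards [hcol, h1] with z hz1 hz2
        rw [hz1]
        exact ⟨fun h3 => absurd h3 he, fun _ => Or.inl ((g2_e_lt _ _).1 hz2)⟩
      · have hU : Set.Ioi (e v₂) ∈ 𝓝 (η e' : EReal) := Ioi_mem_nhds (EReal.coe_lt_coe_iff.2 h2)
        have h1 := (hη e').1.eventually (Fp_mem κ _ _ _ hU)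
        filter_upwards [hcol, h1] with z hz1 hz2
        rw [hz1]
        exact ⟨fun h3 => absurd h3 he, fun _ => Or.inr ((g2_e_lt _ _).1 hz2)⟩)
  have hu12 : u₁ < u₂ := by exact_mod_cast hu₁.trans hu₂
  obtain ⟨z₀, hz₀1, hz₀2, hz₀c⟩ := hκ u₁ u₂ hu12 c
  obtain ⟨z₁, hz₁1, hz₁2, hz₁c⟩ := hκ z₀ u₂ hz₀2 c
  obtain ⟨h, hh, hh1, hh2⟩ := exists_HH_local κ hκ u₁ u₂ {z₀} (fun _ => z₁) (by
    intro x hx
    rw [Finset.mem_singleton] at hx
    rw [hx]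
    exact ⟨hz₀1, hz₀2, hz₀1.trans hz₁1, hz₁2, by rw [hz₀c, hz₁c]⟩) (by
    intro x hx y hy hxy
    rw [Finset.mem_singleton] at hx hy
    rw [hx, hy] at hxy
    exact absurd hxy (lt_irrefl _))
  have hhz : h z₀ = z₁ := hh1 z₀ (Finset.mem_singleton_self _)
  have hw₀ := (hu z₀ hz₀1 hz₀2).1 (by rw [hz₀c])
  have hw₁ := (hu z₁ (hz₀1.trans hz₁1) hz₁2).1 (by rw [hz₁c])
  have hw01 : g z₀ < g z₁ := hg.2.2 _ _ (by rw [hz₀c, hz₁c]) hz₁1
  have hκw₁ : κ (g z₁) = c := (hg.2.1 z₁).trans hz₁c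
  obtain ⟨w₂, hw₂1, hw₂2, hw₂c⟩ := hκ (g z₁) v₂ hw₁.2 c
  obtain ⟨h', hh', hh'1, hh'2⟩ := exists_HH_local κ hκ (g z₀) v₂ {g z₁} (fun _ => w₂) (by
    intro x hx
    rw [Finset.mem_singleton] at hx
    rw [hx]
    exact ⟨hw01, hw₁.2, hw01.trans hw₂1, hw₂2, by rw [hκw₁, hw₂c]⟩) (by
    intro x hx y hy hxy
    rw [Finset.mem_singleton] at hx hy
    rw [hx, hy] at hxy
    exact absurd hxy (lt_irrefl _))
  have hh'w : h' (g z₁) = w₂ := hh'1 _ (Finset.mem_singleton_self _)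
  have hhG := HH_le_G0 κ G hG hh
  have hh'G := HH_le_G0 κ G hG hh'
  set k : Perm ℚ := g * h * g⁻¹ with hk
  have hkG : k ∈ G0 κ G := (G0 κ G).mul_mem ((G0 κ G).mul_mem hg hhG) ((G0 κ G).inv_mem hg)
  have hkapp : ∀ q, k q = g (h (g⁻¹ q)) := fun q => by rw [hk, Perm.mul_apply, Perm.mul_apply]
  have hkinv : ∀ q, k⁻¹ q = g (h⁻¹ (g⁻¹ q)) := fun q => by
    rw [Perm.inv_eq_iff_eq, hkapp, pia, pai, pai]
  have hh'out : ∀ q, q ≤ v₁ ∨ v₂ ≤ q → h' q = q := fun q hq =>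
    hh'2 q (hq.imp (fun h3 => h3.trans hw₀.1.le) id)
  have hh'out' : ∀ q, q ≤ v₁ ∨ v₂ ≤ q → h'⁻¹ q = q := fun q hq => by
    rw [Perm.inv_eq_iff_eq]; exact (hh'out q hq).symm
  have hkfix : ∀ q, (g⁻¹ q ≤ u₁ ∨ u₂ ≤ g⁻¹ q) → k q = q := fun q hq => by
    rw [hkapp, hh2 _ hq, pai]
  have hkfix' : ∀ q, (g⁻¹ q ≤ u₁ ∨ u₂ ≤ g⁻¹ q) → k⁻¹ q = q := fun q hq => by
    rw [Perm.inv_eq_iff_eq]; exact (hkfix q hq).symm
  have hfapp : ∀ q, (h' * k * h'⁻¹ * k⁻¹) q = h' (k (h'⁻¹ (k⁻¹ q))) := fun q => by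
    rw [Perm.mul_apply, Perm.mul_apply, Perm.mul_apply]
  have hdich : ∀ q, (q ≤ u₁ ∨ u₂ ≤ q) ∨ (u₁ < q ∧ q < u₂) := fun q => by
    rcases le_or_gt q u₁ with h3 | h3
    · exact Or.inl (Or.inl h3)
    · rcases le_or_gt u₂ q with h4 | h4
      · exact Or.inl (Or.inr h4)
      · exact Or.inr ⟨h3, h4⟩
  refine ⟨h' * k * h'⁻¹ * k⁻¹, (G0 κ G).mul_mem ((G0 κ G).mul_mem ((G0 κ G).mul_mem hh'G hkG)
    ((G0 κ G).inv_mem hh'G)) ((G0 κ G).inv_mem hkG), v₁, v₂, g z₁, w₂, hw₁.1, hw₂1, hw₂2, hκw₁,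
    ?_, ?_, ?_⟩
  · have h3 : k (g z₀) = g z₁ := by rw [hkapp, pia, hhz]
    have h4 : k⁻¹ (g z₁) = g z₀ := by rw [Perm.inv_eq_iff_eq, h3]
    have h5 : h'⁻¹ (g z₀) = g z₀ := by
      rw [Perm.inv_eq_iff_eq]
      exact (hh'2 _ (Or.inl le_rfl)).symm
    rw [hfapp, h4, h5, h3, hh'w]
  · intro q hq
    rw [hfapp]
    rcases hdich (g⁻¹ q) with h3 | h3
    · rw [hkfix' q h3, hh'out' q hq, hkfix q h3, hh'out q hq]
    · have hz' : u₁ < h⁻¹ (g⁻¹ q) ∧ h⁻¹ (g⁻¹ q) < u₂ :=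
        g2_supp h u₁ u₂ hh2 _ (by rw [pai]; exact h3)
      have hE : η (κ (g⁻¹ q)) ≠ η c := by
        intro h4
        have h5 := (hu _ h3.1 h3.2).1 h4
        rw [pai] at h5
        rcases hq with h6 | h6
        · exact absurd h5.1 (not_lt.2 h6)
        · exact absurd h5.2 (not_lt.2 h6)
      have hκz' : κ (h⁻¹ (g⁻¹ q)) = κ (g⁻¹ q) := by
        have := hh.2 (h⁻¹ (g⁻¹ q))
        rw [pai] at this
        exact this.symm
      have h5 := (hu _ hz'.1 hz'.2).2 (by rw [hκz']; exact hE)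
      have h6 : h'⁻¹ (k⁻¹ q) = k⁻¹ q := by
        rw [hkinv]
        exact hh'out' _ (h5.imp le_of_lt le_of_lt)
      rw [h6, pai, hh'out q hq]
  · intro q hq
    rw [hfapp]
    by_cases hqv : v₁ < q ∧ q < v₂
    · have key : ∀ q', κ q' = d → v₁ < q' ∧ q' < v₂ → g⁻¹ q' ≤ u₁ ∨ u₂ ≤ g⁻¹ q' := by
        intro q' hq' hqv'
        rcases hdich (g⁻¹ q') with h3 | h3
        · exact h3
        · have hκ' : κ (g⁻¹ q') = d := by
            have := hg.2.1 (g⁻¹ q')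
            rw [pai] at this
            rw [← this, hq']
          have h4 := (hu _ h3.1 h3.2).2 (by rw [hκ']; exact hdc)
          rw [pai] at h4
          rcases h4 with h5 | h5
          · exact absurd h5 (lt_asymm hqv'.1)
          · exact absurd h5 (lt_asymm hqv'.2)
      have h3 : k⁻¹ q = q := hkfix' q (key q hq hqv)
      have h4 : κ (h'⁻¹ q) = d := by
        have := hh'.2 (h'⁻¹ q)
        rw [pai] at this
        rw [← this, hq]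
      have h5 : v₁ < h'⁻¹ q ∧ h'⁻¹ q < v₂ :=
        g2_supp h' v₁ v₂ hh'out _ (by rw [pai]; exact hqv)
      rw [h3, hkfix _ (key _ h4 h5), pai]
    · have hq' : q ≤ v₁ ∨ v₂ ≤ q := by
        rcases le_or_gt q v₁ with h3 | h3
        · exact Or.inl h3
        · exact Or.inr (not_lt.1 fun h4 => hqv ⟨h3, h4⟩)
      rcases hdich (g⁻¹ q) with h3 | h3
      · rw [hkfix' q h3, hh'out' q hq', hkfix q h3, hh'out q hq']
      · have hz' : u₁ < h⁻¹ (g⁻¹ q) ∧ h⁻¹ (g⁻¹ q) < u₂ :=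
          g2_supp h u₁ u₂ hh2 _ (by rw [pai]; exact h3)
        have hκz : κ (g⁻¹ q) = d := by
          have := hg.2.1 (g⁻¹ q)
          rw [pai] at this
          rw [← this, hq]
        have hκz' : κ (h⁻¹ (g⁻¹ q)) = d := by
          have := hh.2 (h⁻¹ (g⁻¹ q))
          rw [pai] at this
          rw [← this, hκz]
        have h5 := (hu _ hz'.1 hz'.2).2 (by rw [hκz']; exact hdc)
        have h6 : h'⁻¹ (k⁻¹ q) = k⁻¹ q := by
          rw [hkinv]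
          exact hh'out' _ (h5.imp le_of_lt le_of_lt)
        rw [h6, pai, hh'out q hq']

end Pool.Agent.Lib.H3C
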