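import Pool.Agent.Lib.H3C.G2

/-! # G3: local movers -/

namespace Pool.Agent.Lib.H3C

open Equiv

private theorem g3_move {C : Type} (κ : ℚ → C) (hκ : Dn κ) (a₀ p₀ q₀ b₀ : ℚ) (h1 : a₀ < p₀)
    (h2 : p₀ < q₀) (h3 : q₀ < b₀) (a p q b : ℚ) (h1' : a < p) (h2' : p < q) (h3' : q < b)
    (hp : κ p = κ p₀) (hq : κ q = κ q₀) :
    ∃ k ∈ HH κ, (a < k a₀ ∧ k a₀ < p) ∧ k p₀ = p ∧ k q₀ = q ∧ (q < k b₀ ∧ k b₀ < b) := by
  classical
  obtain ⟨a', ha1, ha2, hac⟩ := hκ a p h1' (κ a₀)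
  obtain ⟨b', hb1, hb2, hbc⟩ := hκ q b h3' (κ b₀)
  let f : ℚ → ℚ := fun z => if z = a₀ then a' else if z = p₀ then p else if z = q₀ then q else b'
  have e1 : f a₀ = a' := by simp [f]
  have e2 : f p₀ = p := by simp [f, h1.ne']
  have e3 : f q₀ = q := by simp [f, (h1.trans h2).ne', h2.ne']
  have e4 : f b₀ = b' := by simp [f, ((h1.trans h2).trans h3).ne', (h2.trans h3).ne', h3.ne']
  obtain ⟨k, hk, hkf⟩ := exists_HH κ hκ ({a₀, p₀, q₀, b₀} : Finset ℚ) f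
    (by
      intro x hx
      simp only [Finset.mem_insert, Finset.mem_singleton] at hx
      rcases hx with rfl | rfl | rfl | rfl
      · rw [e1, hac]
      · rw [e2, hp]
      · rw [e3, hq]
      · rw [e4, hbc])
    (by
      intro x hx y hy hxy
      simp only [Finset.mem_insert, Finset.mem_singleton] at hx hy
      rcases hx with rfl | rfl | rfl | rfl <;> rcases hy with rfl | rfl | rfl | rfl
      all_goals first
        | exact absurd hxy (lt_irrefl _)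
        | (simp only [e1, e2, e3, e4]; linarith))
  have k1 := hkf a₀ (by simp)
  have k2 := hkf p₀ (by simp)
  have k3 := hkf q₀ (by simp)
  have k4 := hkf b₀ (by simp)
  rw [e1] at k1
  rw [e2] at k2
  rw [e3] at k3
  rw [e4] at k4
  exact ⟨k, hk, ⟨by rw [k1]; exact ha1, by rw [k1]; exact ha2⟩, k2, k3,
    ⟨by rw [k4]; exact hb1, by rw [k4]; exact hb2⟩⟩

/-- Proof. Take `f₀, a₀, b₀, w₁, w₂` from `unlinked_mover` and `y₀ ∈ (w₁, w₂)` of colour `d`.  Choose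
`a' ∈ (a, x)` of the colour of `a₀` and `b' ∈ (y, b)` of the colour of `b₀` and `h ∈ HH κ` with
`a₀ ↦ a'`, `w₁ ↦ x`, `y₀ ↦ y`, `b₀ ↦ b'` (`exists_HH`).  `f = h * f₀ * h⁻¹`: `f x = h w₂ > h y₀ = y`. -/
theorem mover_right {C : Type} [Finite C] (κ : ℚ → C) (hκ : Dn κ) (G : Subgroup (Perm ℚ))
    (hG : HH κ ≤ G) (c d : C) (h : ¬ linked κ G c d) (a x y b : ℚ) (h1 : a < x) (h2 : x < y)
    (h3 : y < b) (hx : κ x = c) (hy : κ y = d) :
    ∃ f ∈ G0 κ G, (∀ q, q ≤ a ∨ b ≤ q → f q = q) ∧ (∀ q, κ q = d → f q = q) ∧ y < f x := by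
  obtain ⟨f₀, hf₀, a₀, b₀, w₁, w₂, haw, hww, hwb, hcw, hfw, hfix, hfd⟩ :=
    unlinked_mover κ hκ G hG c d h
  obtain ⟨y₀, hy1, hy2, hyd⟩ := hκ w₁ w₂ hww d
  obtain ⟨k, hk, k1, k2, k3, k4⟩ := g3_move κ hκ a₀ w₁ y₀ b₀ haw hy1 (hy2.trans hwb) a x y b h1 h2 h3
    (by rw [hx, hcw]) (by rw [hy, hyd])
  have hkG : k ∈ G0 κ G := HH_le_G0 κ G hG hk
  refine ⟨k * f₀ * k⁻¹, (G0 κ G).mul_mem ((G0 κ G).mul_mem hkG hf₀) ((G0 κ G).inv_mem hkG),
    ?_, ?_, ?_⟩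
  · intro q hq
    have hki := (HH κ).inv_mem hk
    have : f₀ (k⁻¹ q) = k⁻¹ q := by
      refine hfix _ ?_
      rcases hq with hq | hq
      · left
        have h5 := hki.1 _ _ (lt_of_le_of_lt hq k1.1)
        rw [pia] at h5
        exact h5.le
      · right
        have h5 := hki.1 _ _ (lt_of_lt_of_le k4.2 hq)
        rw [pia] at h5
        exact h5.le
    rw [Perm.mul_apply, Perm.mul_apply, this, pai]
  · intro q hq
    have : f₀ (k⁻¹ q) = k⁻¹ q := by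
      refine hfd _ ?_
      rw [((HH κ).inv_mem hk).2, hq]
    rw [Perm.mul_apply, Perm.mul_apply, this, pai]
  · rw [Perm.mul_apply, Perm.mul_apply, ← k2, pia, hfw, ← k3]
    exact hk.1 _ _ hy2

/-- Proof. As `mover_right` with `f₀⁻¹` (`f₀⁻¹ w₂ = w₁`) and `h w₂ = x`, `h y₀ = y`. -/
theorem mover_left {C : Type} [Finite C] (κ : ℚ → C) (hκ : Dn κ) (G : Subgroup (Perm ℚ))
    (hG : HH κ ≤ G) (c d : C) (h : ¬ linked κ G c d) (a x y b : ℚ) (h1 : a < y) (h2 : y < x)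
    (h3 : x < b) (hx : κ x = c) (hy : κ y = d) :
    ∃ f ∈ G0 κ G, (∀ q, q ≤ a ∨ b ≤ q → f q = q) ∧ (∀ q, κ q = d → f q = q) ∧ f x < y := by
  obtain ⟨f₀, hf₀, a₀, b₀, w₁, w₂, haw, hww, hwb, hcw, hfw, hfix, hfd⟩ :=
    unlinked_mover κ hκ G hG c d h
  obtain ⟨y₀, hy1, hy2, hyd⟩ := hκ w₁ w₂ hww d
  have hcw2 : κ w₂ = c := by rw [← hfw, hf₀.2.1, hcw]
  obtain ⟨k, hk, k1, k2, k3, k4⟩ := g3_move κ hκ a₀ y₀ w₂ b₀ (haw.trans hy1) hy2 hwb a y x b h1 h2 h3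
    (by rw [hy, hyd]) (by rw [hx, hcw2])
  have hkG : k ∈ G0 κ G := HH_le_G0 κ G hG hk
  refine ⟨k * f₀⁻¹ * k⁻¹, (G0 κ G).mul_mem ((G0 κ G).mul_mem hkG ((G0 κ G).inv_mem hf₀))
    ((G0 κ G).inv_mem hkG), ?_, ?_, ?_⟩
  · intro q hq
    have hki := (HH κ).inv_mem hk
    have h6 : f₀ (k⁻¹ q) = k⁻¹ q := by
      refine hfix _ ?_
      rcases hq with hq | hq
      · left
        have h5 := hki.1 _ _ (lt_of_le_of_lt hq k1.1)
        rw [pia] at h5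
        exact h5.le
      · right
        have h5 := hki.1 _ _ (lt_of_lt_of_le k4.2 hq)
        rw [pia] at h5
        exact h5.le
    have : f₀⁻¹ (k⁻¹ q) = k⁻¹ q := by
      conv_lhs => rw [← h6]
      rw [pia]
    rw [Perm.mul_apply, Perm.mul_apply, this, pai]
  · intro q hq
    have h6 : f₀ (k⁻¹ q) = k⁻¹ q := by
      refine hfd _ ?_
      rw [((HH κ).inv_mem hk).2, hq]
    have : f₀⁻¹ (k⁻¹ q) = k⁻¹ q := by
      conv_lhs => rw [← h6]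
      rw [pia]
    rw [Perm.mul_apply, Perm.mul_apply, this, pai]
  · have h7 : f₀⁻¹ w₂ = w₁ := by rw [← hfw, pia]
    rw [Perm.mul_apply, Perm.mul_apply, ← k3, pia, h7, ← k2]
    exact hk.1 _ _ hy1

end Pool.Agent.Lib.H3C
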