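import Pool.Agent.Lib.H3C.G3

/-! # G4: the group `G0` is as large as possible -/

namespace Pool.Agent.Lib.H3C

open Equiv

private theorem g4_below (F : Finset ℚ) (x : ℚ) : ∃ y, y < x ∧ ∀ z ∈ F, z < x → z < y := by
  classical
  rcases (F.filter (· < x)).eq_empty_or_nonempty with h | h
  · refine ⟨x - 1, by linarith, fun z hz hzx => ?_⟩
    have : z ∈ F.filter (· < x) := Finset.mem_filter.mpr ⟨hz, hzx⟩
    rw [h] at this
    exact absurd this (Finset.notMem_empty z)
  · have hm := Finset.mem_filter.mp ((F.filter (· < x)).max'_mem h)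
    refine ⟨((F.filter (· < x)).max' h + x) / 2, by linarith [hm.2], fun z hz hzx => ?_⟩
    have := (F.filter (· < x)).le_max' z (Finset.mem_filter.mpr ⟨hz, hzx⟩)
    linarith [hm.2]

private theorem g4_above (F : Finset ℚ) (x : ℚ) : ∃ y, x < y ∧ ∀ z ∈ F, x < z → y < z := by
  classical
  rcases (F.filter (x < ·)).eq_empty_or_nonempty with h | h
  · refine ⟨x + 1, by linarith, fun z hz hzx => ?_⟩
    have : z ∈ F.filter (x < ·) := Finset.mem_filter.mpr ⟨hz, hzx⟩
    rw [h] at this
    exact absurd this (Finset.notMem_empty z)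
  · have hm := Finset.mem_filter.mp ((F.filter (x < ·)).min'_mem h)
    refine ⟨((F.filter (x < ·)).min' h + x) / 2, by linarith [hm.2], fun z hz hzx => ?_⟩
    have := (F.filter (x < ·)).min'_le z (Finset.mem_filter.mpr ⟨hz, hzx⟩)
    linarith [hm.2]

open Classical in
/-- The set of inversions. -/
private noncomputable def g4_inv {ι : Type} [Fintype ι] (a b : ι → ℚ) : Finset (ι × ι) :=
  Finset.univ.filter fun p => a p.1 < a p.2 ∧ b p.2 < b p.1

private theorem g4_mem {ι : Type} [Fintype ι] (a b : ι → ℚ) (i j : ι) :
    (i, j) ∈ g4_inv a b ↔ a i < a j ∧ b j < b i := by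
  unfold g4_inv
  rw [Finset.mem_filter]
  simp

private theorem g4_aux {C : Type} [Finite C] (κ : ℚ → C) (hκ : Dn κ) (G : Subgroup (Perm ℚ))
    (hG : HH κ ≤ G) {ι : Type} [Fintype ι] (b : ι → ℚ) (hb : Function.Injective b) :
    ∀ (n : ℕ) (a : ι → ℚ), (g4_inv a b).card ≤ n → Function.Injective a →
      (∀ i, κ (a i) = κ (b i)) →
      (∀ i j, linked κ G (κ (a i)) (κ (a j)) → a i < a j → b i < b j) →
      ∃ g ∈ G0 κ G, ∀ i, g (a i) = b i := by
  classical
  intro n
  have step0 : ∀ a : ι → ℚ, g4_inv a b = ∅ → Function.Injective a → (∀ i, κ (a i) = κ (b i)) →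
      ∃ g ∈ G0 κ G, ∀ i, g (a i) = b i := by
    intro a h0 ha hc
    rcases isEmpty_or_nonempty ι with hι | hι
    · exact ⟨1, (G0 κ G).one_mem, fun i => hι.elim i⟩
    have hmono : ∀ i j, a i < a j → b i < b j := by
      intro i j hij
      by_contra h1
      have hne : b i ≠ b j := fun h => by
        rw [hb h] at hij
        exact lt_irrefl _ hij
      have h2 : (i, j) ∈ g4_inv a b := (g4_mem a b i j).mpr ⟨hij, lt_of_le_of_ne (not_lt.mp h1) hne.symm⟩
      rw [h0] at h2
      exact absurd h2 (Finset.notMem_empty _)
    have e1 : ∀ x ∈ Finset.univ.image a, κ (b (Function.invFun a x)) = κ x := by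
      intro x hx
      obtain ⟨i, -, rfl⟩ := Finset.mem_image.mp hx
      rw [Function.leftInverse_invFun ha i, hc i]
    have e2 : ∀ x ∈ Finset.univ.image a, ∀ y ∈ Finset.univ.image a, x < y →
        b (Function.invFun a x) < b (Function.invFun a y) := by
      intro x hx y hy hxy
      obtain ⟨i, -, rfl⟩ := Finset.mem_image.mp hx
      obtain ⟨j, -, rfl⟩ := Finset.mem_image.mp hy
      rw [Function.leftInverse_invFun ha i, Function.leftInverse_invFun ha j]
      exact hmono i j hxy
    obtain ⟨h, hh, h1⟩ := exists_HH κ hκ (Finset.univ.image a)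
      (fun x => b (Function.invFun a x)) e1 e2
    refine ⟨h, HH_le_G0 κ G hG hh, fun i => ?_⟩
    rw [h1 (a i) (Finset.mem_image_of_mem a (Finset.mem_univ i)), Function.leftInverse_invFun ha i]
  induction n with
  | zero =>
    intro a hn ha hc _
    exact step0 a (Finset.card_eq_zero.mp (Nat.le_zero.mp hn)) ha hc
  | succ n ih =>
    intro a hn ha hc hm
    rcases (g4_inv a b).eq_empty_or_nonempty with h0 | h0
    · exact step0 a h0 ha hc
    obtain ⟨⟨i, j⟩, hij, hmin⟩ := Finset.exists_min_image (g4_inv a b) (fun p => a p.2 - a p.1) h0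
    obtain ⟨haij, hbji⟩ := (g4_mem a b i j).mp hij
    have hbne : ∀ {p q : ι}, p ≠ q → b p ≠ b q := fun h h' => h (hb h')
    have hane : ∀ {p q : ι}, p ≠ q → a p ≠ a q := fun h h' => h (ha h')
    have hnone : ∀ l, ¬ (a i < a l ∧ a l < a j) := by
      rintro l ⟨h1, h2⟩
      have hil : i ≠ l := fun h => by
        rw [h] at h1
        exact lt_irrefl _ h1
      have hlj : l ≠ j := fun h => by
        rw [h] at h2
        exact lt_irrefl _ h2
      have h3 : b i < b l := by
        by_contra h4
        have h5 := hmin (i, l) ((g4_mem a b i l).mpr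
          ⟨h1, lt_of_le_of_ne (not_lt.mp h4) (hbne hil).symm⟩)
        simp only at h5
        linarith
      have h3' : b l < b j := by
        by_contra h4
        have h5 := hmin (l, j) ((g4_mem a b l j).mpr
          ⟨h2, lt_of_le_of_ne (not_lt.mp h4) (hbne hlj).symm⟩)
        simp only at h5
        linarith
      exact lt_asymm (h3.trans h3') hbji
    have hunl : ¬ linked κ G (κ (a i)) (κ (a j)) := fun h => lt_asymm (hm i j h haij) hbji
    obtain ⟨a₀, ha₀, ha₀'⟩ := g4_below (Finset.univ.image a) (a i)
    obtain ⟨b₀, hb₀, hb₀'⟩ := g4_above (Finset.univ.image a) (a j)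
    have hlow : ∀ l, a l < a i → a l < a₀ := fun l hl =>
      ha₀' _ (Finset.mem_image_of_mem a (Finset.mem_univ l)) hl
    have hhigh : ∀ l, a j < a l → b₀ < a l := fun l hl =>
      hb₀' _ (Finset.mem_image_of_mem a (Finset.mem_univ l)) hl
    obtain ⟨f, hf, hfix, hfixd, hfx⟩ := mover_right κ hκ G hG (κ (a i)) (κ (a j)) hunl a₀ (a i)
      (a j) b₀ ha₀ haij hb₀ rfl rfl
    have hpos : ∀ l, l ≠ i → l ≠ j → a l < a₀ ∨ b₀ < a l := by
      intro l hli hlj
      rcases lt_or_gt_of_ne (hane hli) with h1 | h1
      · exact Or.inl (hlow l h1)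
      · rcases lt_or_gt_of_ne (hane hlj) with h2 | h2
        · exact absurd ⟨h1, h2⟩ (hnone l)
        · exact Or.inr (hhigh l h2)
    have hfl : ∀ l, l ≠ i → f (a l) = a l := by
      intro l hli
      by_cases hlj : l = j
      · rw [hlj]
        exact hfixd (a j) rfl
      · rcases hpos l hli hlj with h1 | h1
        · exact hfix _ (Or.inl h1.le)
        · exact hfix _ (Or.inr h1.le)
    have hfi : f (a i) < b₀ := by
      by_contra h1
      have h2 := hfix (f (a i)) (Or.inr (not_lt.mp h1))
      have h3 := f.injective h2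
      rw [h3] at hfx
      exact lt_asymm hfx haij
    have hcol : ∀ l, κ (f (a l)) = κ (a l) := fun l => hf.2.1 (a l)
    have hij' : i ≠ j := fun h => by
      rw [h] at haij
      exact lt_irrefl _ haij
    -- comparison of the new positions
    have hcomp1 : ∀ q, q ≠ i → f (a i) < f (a q) → q ≠ j ∧ a i < a q := by
      intro q hq h1
      rw [hfl q hq] at h1
      refine ⟨fun h => ?_, haij.trans (hfx.trans h1)⟩
      rw [h] at h1
      exact lt_asymm h1 hfx
    have hcomp2 : ∀ p, p ≠ i → p ≠ j → f (a p) < f (a i) → a p < a i := by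
      intro p hp hpj h1
      rw [hfl p hp] at h1
      rcases hpos p hp hpj with h2 | h2
      · exact h2.trans ha₀
      · exact absurd (h1.trans hfi) (lt_asymm h2)
    have e1 : (g4_inv (fun l => f (a l)) b).card ≤ n := by
      have hss : g4_inv (fun l => f (a l)) b ⊂ g4_inv a b := by
        rw [Finset.ssubset_iff_of_subset]
        · refine ⟨(i, j), hij, fun h2 => ?_⟩
          rw [g4_mem] at h2
          have h3 := h2.1
          rw [hfl j hij'.symm] at h3
          exact lt_asymm h3 hfx
        · rintro ⟨p, q⟩ hpq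
          rw [g4_mem] at hpq ⊢
          obtain ⟨h2, h3⟩ := hpq
          refine ⟨?_, h3⟩
          by_cases hp : p = i
          · by_cases hq : q = i
            · rw [hp, hq] at h2
              exact absurd h2 (lt_irrefl _)
            · rw [hp] at h2 ⊢
              exact (hcomp1 q hq h2).2
          · by_cases hq : q = i
            · by_cases hpj : p = j
              · rw [hpj, hq] at h3
                exact absurd h3 (lt_asymm hbji)
              · rw [hq] at h2 ⊢
                exact hcomp2 p hp hpj h2
            · rw [hfl p hp, hfl q hq] at h2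
              exact h2
      have := Finset.card_lt_card hss
      omega
    have e2 : ∀ p q, linked κ G (κ (f (a p))) (κ (f (a q))) → f (a p) < f (a q) → b p < b q := by
      intro p q hl h2
      rw [hcol p, hcol q] at hl
      by_cases hp : p = i
      · by_cases hq : q = i
        · rw [hp, hq] at h2
          exact absurd h2 (lt_irrefl _)
        · rw [hp] at h2 hl ⊢
          exact hm i q hl (hcomp1 q hq h2).2
      · by_cases hq : q = i
        · by_cases hpj : p = j
          · rw [hpj, hq] at hl
            exact absurd (linked_symm κ G _ _ hl) hunl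
          · rw [hq] at h2 hl ⊢
            exact hm p i hl (hcomp2 p hp hpj h2)
        · rw [hfl p hp, hfl q hq] at h2
          exact hm p q hl h2
    obtain ⟨g', hg', h1⟩ := ih (fun l => f (a l)) e1 (f.injective.comp ha)
      (fun l => (hcol l).trans (hc l)) e2
    exact ⟨g' * f, (G0 κ G).mul_mem hg' hf, fun l => by rw [Perm.mul_apply]; exact h1 l⟩

/-- Every finite partial map which preserves the colours and the order of points of linked colours
is induced by an element of `G0`.

Proof. Induction on the number of inversions `#{(i, j) | a i < a j ∧ b j < b i}`.  If it is `0` then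
`a i < a j → b i < b j`, and `exists_HH` for the finite set of the `a i` gives `g ∈ HH κ ≤ G0 κ G`
(`HH_le_G0`).  Otherwise take an inversion `(i, j)` with the least number of indices `l` with
`a i < a l < a j`; this number is `0` (if `l` is such an index then `(i, l)` or `(l, j)` is an
inversion: otherwise `b i < b l < b j`).  The colours of `a i` and `a j` are not linked (otherwise
`hm`).  Let `a₀ < a i`, `a j < b₀` be rationals such that no other `a l` is in `[a₀, b₀]`, and let
`f ∈ G0` be from `mover_right` for `x = a i`, `y = a j`: it fixes all `a l`, `l ≠ i` (`a j` has the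
colour `d`), and `a j < f (a i) < b₀` (`f` maps `(a₀, b₀)` onto itself, being the identity outside).
Let `a' = f ∘ a = Function.update a i (f (a i))`.  It has the same colours, satisfies `hm` (the order
of `a' i` and `a l` is that of `a i` and `a l` for `l ≠ i, j`; `κ (a i)`, `κ (a j)` are not linked),
and one inversion less.  With `g'` for `a'` take `g = g' * f`. -/
theorem G0_realizes {C : Type} [Finite C] (κ : ℚ → C) (hκ : Dn κ) (G : Subgroup (Perm ℚ))
    (hG : HH κ ≤ G) {ι : Type} [Finite ι] (a b : ι → ℚ) (ha : Function.Injective a)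
    (hb : Function.Injective b) (hc : ∀ i, κ (a i) = κ (b i))
    (hm : ∀ i j, linked κ G (κ (a i)) (κ (a j)) → a i < a j → b i < b j) :
    ∃ g ∈ G0 κ G, ∀ i, g (a i) = b i := by
  have : Fintype ι := Fintype.ofFinite ι
  exact g4_aux κ hκ G hG b hb _ a le_rfl ha hc hm

end Pool.Agent.Lib.H3C
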