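import Pool.Agent.Lib.H3C.F2
import Pool.Agent.Lib.H3C.G1

/-! # H1: conjugation of local elements of `G0` -/

namespace Pool.Agent.Lib.H3C

open Equiv Filter Topology

/-- Proof. Let `I = Set.Ioo (a : ℝ) b`, and for every colour `e'` let `D e'`, `φ e'` be the colour
and the function from `exists_mono` for `g⁻¹`, `e'` and `I`.  `J e' = φ e' '' I` is an interval
(`ContinuousOn`, connected image).  `k = g⁻¹ * f * g`.  For `q : ℚ` with `g q ∉ I`: `k q = q`.  For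
`g q ∈ I`, `e' = κ (g q)`: `κ q = D e'`, `q = φ e' (g q) ∈ J e'`, and as `f (g q) ∈ I` has the colour
`e'` again: `κ (k q) = D e'`, `k q = φ e' (f (g q)) ∈ J e'`.  So `k` preserves the colours.
Let `q < q'` have the same colour `a'`.  If both `g q`, `g q'` are outside `I` it is clear.  If
`g q ∈ I` and `g q' ∉ I` then `q' ∉ J e'` (last clause of `exists_mono`: otherwise `g q' ∈ I`), so
`q'` is above the whole interval `J e'`, hence `k q < q' = k q'`; similarly for `g q ∉ I`.  If both are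
in `I` with colours `e'`, `e''`: if `e' = e''` then `φ e'` is strictly monotone (or antitone) and `f`
is increasing on the colour `e'`, so `k q < k q'` because `q < q'`.  If `e' ≠ e''` then `J e'` and
`J e''` are disjoint: both are open intervals (`φ` is strictly monotone and continuous on the open
interval `I`), and a rational `w` of colour `a'` in both would have `κ (g w) = e'` and `= e''`.
So `J e' < J e''` or `J e'' < J e'`, and `q < q'` gives `k q < k q'`. -/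
theorem conj_mem_G0 {C : Type} [Finite C] (κ : ℚ → C) (G : Subgroup (Perm ℚ)) (hS : Std κ G)
    (g : Perm ℚ) (hg : g ∈ G) (a b : ℚ) (hab : a < b)
    (hgood : ∀ ξ ∈ Set.Ioo (a : ℝ) b, ∀ e', ξ ∉ bad κ g⁻¹ e') (f : Perm ℚ) (hf : f ∈ G0 κ G)
    (hfs : ∀ q, q ≤ a ∨ b ≤ q → f q = q) : g⁻¹ * f * g ∈ G0 κ G := by
  obtain ⟨I, hIdef⟩ : ∃ I : Set ℝ, I = Set.Ioo (a : ℝ) b := ⟨_, rfl⟩
  have hIo : I.OrdConnected := hIdef ▸ Set.ordConnected_Ioo
  have hIopen : IsOpen I := hIdef ▸ isOpen_Ioo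
  have hIn : I.Nonempty := hIdef ▸ Set.nonempty_Ioo.2 (by exact_mod_cast hab)
  have hIp : IsPreconnected I := hIdef ▸ isPreconnected_Ioo
  have hex : ∀ e' : C, ∃ (d : C) (φ : ℝ → ℝ), ContinuousOn φ I ∧
      (StrictMonoOn φ I ∨ StrictAntiOn φ I) ∧
      (∀ x : ℚ, (x : ℝ) ∈ I → κ x = e' → κ (g⁻¹ x) = d ∧ φ x = g⁻¹ x) ∧
      (∀ w : ℚ, κ w = d → (w : ℝ) ∈ φ '' I → κ (g w) = e' ∧ ((g w : ℚ) : ℝ) ∈ I) := by
    intro e'
    obtain ⟨d, φ, _, h2, h3, h4, h5⟩ := exists_mono κ G hS g⁻¹ (G.inv_mem hg) e' I hIo hIopen hIn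
      (fun ξ hξ => hgood ξ (hIdef ▸ hξ) e')
    refine ⟨d, φ, h2, h3, h4, fun w hw hw' => ?_⟩
    have := h5 w hw hw'
    rw [inv_inv] at this
    exact this
  choose D φ hcont hmono himg hback using hex
  have hJ : ∀ e', (φ e' '' I).OrdConnected := fun e' =>
    (hIp.image _ (hcont e')).ordConnected
  have hout : ∀ p : ℚ, ¬ ((p : ℝ) ∈ I) → f p = p := by
    intro p hp
    apply hfs
    by_contra hcon
    push Not at hcon
    apply hp
    rw [hIdef]
    exact ⟨by exact_mod_cast hcon.1, by exact_mod_cast hcon.2⟩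
  have hin : ∀ p : ℚ, (p : ℝ) ∈ I → ((f p : ℚ) : ℝ) ∈ I := by
    intro p hp
    by_contra hcon
    have h1 := hout _ hcon
    have h2 : f p = p := f.injective h1
    rw [h2] at hcon
    exact hcon hp
  -- the value of the conjugate
  have hk : ∀ q, (g⁻¹ * f * g) q = g⁻¹ (f (g q)) := fun q => rfl
  have hkout : ∀ q : ℚ, ¬ (((g q : ℚ) : ℝ) ∈ I) → (g⁻¹ * f * g) q = q := by
    intro q hq
    rw [hk, hout _ hq, pia]
  have hkin : ∀ q : ℚ, ((g q : ℚ) : ℝ) ∈ I → κ q = D (κ (g q)) ∧ (q : ℝ) = φ (κ (g q)) (g q) ∧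
      κ ((g⁻¹ * f * g) q) = D (κ (g q)) ∧
      (((g⁻¹ * f * g) q : ℚ) : ℝ) = φ (κ (g q)) (f (g q)) := by
    intro q hq
    have h1 := himg (κ (g q)) (g q) hq rfl
    have h2 := himg (κ (g q)) (f (g q)) (hin _ hq) (hf.2.1 _)
    rw [pia] at h1
    exact ⟨h1.1, h1.2.symm, h2.1, h2.2.symm⟩
  have hcol : ∀ q, κ ((g⁻¹ * f * g) q) = κ q := by
    intro q
    by_cases hq : ((g q : ℚ) : ℝ) ∈ I
    · have := hkin q hq
      rw [this.1, this.2.2.1]
    · rw [hkout q hq]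
  have hgk : ∀ q, g ((g⁻¹ * f * g) q) = f (g q) := fun q => by rw [hk, pai]
  refine ⟨G.mul_mem (G.mul_mem (G.inv_mem hg) hf.1) hg, hcol, fun q q' hqq hlt => ?_⟩
  have hlt' : (q : ℝ) < q' := by exact_mod_cast hlt
  by_cases hq : ((g q : ℚ) : ℝ) ∈ I
  · obtain ⟨c1, c2, c3, c4⟩ := hkin q hq
    have m1 : (q : ℝ) ∈ φ (κ (g q)) '' I := ⟨_, hq, c2.symm⟩
    have m2 : (((g⁻¹ * f * g) q : ℚ) : ℝ) ∈ φ (κ (g q)) '' I := ⟨_, hin _ hq, c4.symm⟩
    by_cases hq' : ((g q' : ℚ) : ℝ) ∈ I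
    · obtain ⟨d1, d2, d3, d4⟩ := hkin q' hq'
      have n1 : (q' : ℝ) ∈ φ (κ (g q')) '' I := ⟨_, hq', d2.symm⟩
      have n2 : (((g⁻¹ * f * g) q' : ℚ) : ℝ) ∈ φ (κ (g q')) '' I := ⟨_, hin _ hq', d4.symm⟩
      by_cases hee : κ (g q) = κ (g q')
      · -- the same piece
        have goal : (((g⁻¹ * f * g) q : ℚ) : ℝ) < (((g⁻¹ * f * g) q' : ℚ) : ℝ) := by
          rw [c4, d4]
          rw [c2, d2, ← hee] at hlt'
          rw [← hee]
          rcases hmono (κ (g q)) with hm | hm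
          · have h1 : ((g q : ℚ) : ℝ) < (g q' : ℚ) := (hm.lt_iff_lt hq hq').1 hlt'
            have h2 : g q < g q' := by exact_mod_cast h1
            have h3 := hf.2.2 _ _ hee h2
            exact hm (hin _ hq) (hin _ hq') (by exact_mod_cast h3)
          · have h1 : ((g q' : ℚ) : ℝ) < (g q : ℚ) := (hm.lt_iff_gt hq hq').1 hlt'
            have h2 : g q' < g q := by exact_mod_cast h1
            have h3 := hf.2.2 _ _ hee.symm h2
            exact hm (hin _ hq') (hin _ hq) (by exact_mod_cast h3)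
        exact_mod_cast goal
      · -- different pieces
        by_contra hcon
        push Not at hcon
        have hcon' : (((g⁻¹ * f * g) q' : ℚ) : ℝ) ≤ (((g⁻¹ * f * g) q : ℚ) : ℝ) := by
          exact_mod_cast hcon
        rcases le_or_gt (((g⁻¹ * f * g) q' : ℚ) : ℝ) (q : ℝ) with h1 | h1
        · have h2 : (q : ℝ) ∈ φ (κ (g q')) '' I := (hJ _).out n2 n1 ⟨h1, hlt'.le⟩
          have h3 := (hback (κ (g q')) q (by rw [hqq, d1]) h2).1
          exact hee h3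
        · have h2 : (((g⁻¹ * f * g) q' : ℚ) : ℝ) ∈ φ (κ (g q)) '' I :=
            (hJ _).out m1 m2 ⟨h1.le, hcon'⟩
          have h3 := (hback (κ (g q)) _ (by rw [hcol, ← hqq, c1]) h2).1
          rw [hgk, hf.2.1] at h3
          exact hee h3.symm
    · rw [hkout q' hq']
      by_contra hcon
      push Not at hcon
      have hcon' : (q' : ℝ) ≤ (((g⁻¹ * f * g) q : ℚ) : ℝ) := by exact_mod_cast hcon
      have h2 : (q' : ℝ) ∈ φ (κ (g q)) '' I := (hJ _).out m1 m2 ⟨hlt'.le, hcon'⟩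
      exact hq' (hback (κ (g q)) q' (by rw [← hqq, c1]) h2).2
  · rw [hkout q hq]
    by_cases hq' : ((g q' : ℚ) : ℝ) ∈ I
    · obtain ⟨d1, d2, d3, d4⟩ := hkin q' hq'
      have n1 : (q' : ℝ) ∈ φ (κ (g q')) '' I := ⟨_, hq', d2.symm⟩
      have n2 : (((g⁻¹ * f * g) q' : ℚ) : ℝ) ∈ φ (κ (g q')) '' I := ⟨_, hin _ hq', d4.symm⟩
      by_contra hcon
      push Not at hcon
      have hcon' : (((g⁻¹ * f * g) q' : ℚ) : ℝ) ≤ (q : ℝ) := by exact_mod_cast hcon
      have h2 : (q : ℝ) ∈ φ (κ (g q')) '' I := (hJ _).out n2 n1 ⟨hcon', hlt'.le⟩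
      exact hq (hback (κ (g q')) q (by rw [hqq, d1]) h2).2
    · rw [hkout q' hq']
      exact hlt

end Pool.Agent.Lib.H3C
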