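import Pool.Agent.Lib.H3C.H1
import Pool.Agent.Lib.H3C.G3

/-! # H2: linked places are mapped to linked places, generic case -/

namespace Pool.Agent.Lib.H3C

open Equiv Filter Topology

theorem H2_e_lt {q : ℚ} {η : ℝ} : e q < (η : EReal) ↔ (q : ℝ) < η := EReal.coe_lt_coe_iff

theorem H2_lt_e {q : ℚ} {η : ℝ} : (η : EReal) < e q ↔ η < (q : ℝ) := EReal.coe_lt_coe_iff

theorem H2_window (S : Set ℝ) (hSf : S.Finite) (η : ℝ) (hη : η ∉ S) (η' : EReal) :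
    ∃ v₁ v₂ : ℚ, (v₁ : ℝ) < η ∧ η < v₂ ∧ (∀ ξ ∈ Set.Ioo (v₁ : ℝ) v₂, ξ ∉ S) ∧
      (η' ≠ η → η' < e v₁ ∨ e v₂ < η') := by
  have h1 : Sᶜ ∈ 𝓝 η := hSf.isClosed.isOpen_compl.mem_nhds hη
  obtain ⟨δ, hδ, hd⟩ := Metric.mem_nhds_iff.1 h1
  obtain ⟨a, ha1, ha2⟩ := exists_rat_btwn (show η - δ < η by linarith)
  obtain ⟨b, hb1, hb2⟩ := exists_rat_btwn (show η < η + δ by linarith)
  have hgood : ∀ v₁ v₂ : ℚ, a ≤ v₁ → v₂ ≤ b → ∀ ξ ∈ Set.Ioo (v₁ : ℝ) v₂, ξ ∉ S := by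
    intro v₁ v₂ h1 h2 ξ hξ
    have h1' : (a : ℝ) ≤ v₁ := by exact_mod_cast h1
    have h2' : (v₂ : ℝ) ≤ b := by exact_mod_cast h2
    have : ξ ∈ Metric.ball η δ := by
      rw [Metric.mem_ball, Real.dist_eq, abs_lt]
      exact ⟨by linarith [hξ.1, hξ.2], by linarith [hξ.1, hξ.2]⟩
    exact hd this
  rcases lt_trichotomy η' (η : EReal) with h | h | h
  · obtain ⟨q, hq1, hq2⟩ := EReal.lt_iff_exists_rat_btwn.1 h
    have hq2' : (q : ℝ) < η := H2_e_lt.1 hq2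
    refine ⟨max a q, b, ?_, hb1, hgood _ _ (le_max_left _ _) le_rfl, fun _ => Or.inl ?_⟩
    · push_cast
      exact max_lt ha2 hq2'
    · refine lt_of_lt_of_le hq1 ?_
      have : (q : ℝ) ≤ ((max a q : ℚ) : ℝ) := by exact_mod_cast le_max_right _ _
      exact EReal.coe_le_coe_iff.2 this
  · exact ⟨a, b, ha2, hb1, hgood _ _ le_rfl le_rfl, fun h' => absurd h h'⟩
  · obtain ⟨q, hq1, hq2⟩ := EReal.lt_iff_exists_rat_btwn.1 h
    have hq1' : η < (q : ℝ) := H2_lt_e.1 hq1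
    refine ⟨a, min b q, ha2, ?_, hgood _ _ le_rfl (min_le_left _ _), fun _ => Or.inr ?_⟩
    · push_cast
      exact lt_min hb1 hq1'
    · refine lt_of_le_of_lt ?_ hq2
      have : ((min b q : ℚ) : ℝ) ≤ (q : ℝ) := by exact_mod_cast min_le_right _ _
      exact EReal.coe_le_coe_iff.2 this

/-- Proof. If `c = d` take `d' = c'`.  Let `(η', d')` be a cluster place of `g` at `(ξ, d)`
(`exists_cluster`).  We show `η' = η` and `linked κ G c' d'`; then `tendsto_of_clus` finishes the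
proof.  Suppose not.  The sets `bad κ g⁻¹ e'` are finite and do not contain `η`, so there are
rationals `v₁ < η < v₂` with no bad point of `g⁻¹` in `(v₁, v₂)`, and if `η' ≠ η` also
`η' ∉ [v₁, v₂]`.
Claim: there are `f ∈ G0 κ G` supported in `(v₁, v₂)` and `w` of colour `c'` with `v₁ < w < η < f w`,
and `f w' = w'` eventually at `(η', d')`.  If `η' ≠ η`: let `w ∈ (v₁, η)`, `w₂ ∈ (η, v₂)` have the
colour `c'` and let `f ∈ HH κ` be supported in `(v₁, v₂)` with `f w = w₂` (`exists_HH_local`);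
eventually at `(η', d')` the points are not in `[v₁, v₂]`.  If `η' = η`: `c'` and `d'` are not
linked; let `w ∈ (v₁, η)` have the colour `c'` and `y ∈ (η, v₂)` the colour `d'`; `mover_right`
for `v₁ < w < y < v₂` gives `f` which fixes all points of colour `d'`.
By `conj_mem_G0` `k = g⁻¹ * f * g ∈ G0 κ G`.  Let `z = g⁻¹ w`, so `k z = g⁻¹ (f w)`.  By `exists_mono`
for `g⁻¹`, `c'` on `(v₁, v₂)`: `g⁻¹ = φ` on the points of colour `c'` there, their images have the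
colour `c` and `φ η = ξ` (`clus_unique`, as `(ξ, c)` is a cluster place of `g⁻¹` at `(η, c')`).  `φ` is
strictly monotone or antitone, so `z < ξ < k z` or `k z < ξ < z`; `κ z = κ (k z) = c`.
By `clus_exists` there is `y` of colour `d`, strictly between `z` and `k z`, with `f (g y) = g y`, i.e.
`k y = y`.  But `c`, `d` are linked: `z < y ↔ k z < k y = y`; contradiction. -/
theorem linked_lim_generic {C : Type} [Finite C] (κ : ℚ → C) (G : Subgroup (Perm ℚ))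
    (hS : Std κ G) (g : Perm ℚ) (hg : g ∈ G) (c d : C) (hl : linked κ G c d) (ξ η : ℝ) (c' : C)
    (h : Tendsto g (Fp κ (ξ : EReal) c) (Fp κ (η : EReal) c'))
    (hgen : ∀ e', η ∉ bad κ g⁻¹ e') :
    ∃ d', Tendsto g (Fp κ (ξ : EReal) d) (Fp κ (η : EReal) d') ∧ linked κ G c' d' := by
  by_cases hcd : c = d
  · subst hcd
    exact ⟨c', h, linked_refl κ G c'⟩
  have hg' : g⁻¹ ∈ G := G.inv_mem hg
  have hne : (Fp κ (ξ : EReal) d).NeBot := Fp_neBot κ hS.dn _ _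
  obtain ⟨η', d', hcl⟩ := exists_cluster κ (map g (Fp κ (ξ : EReal) d)) (by
    intro q
    rw [eventually_map]
    filter_upwards [Fp_ne κ (ξ : EReal) d (g⁻¹ q)] with z hz hzq
    exact hz (by rw [← hzq, pia]))
  by_cases hgoal : η' = η ∧ linked κ G c' d'
  · obtain ⟨h1, h2⟩ := hgoal
    subst h1
    exact ⟨d', tendsto_of_clus κ G hS g hg _ _ _ _ hcl, h2⟩
  exfalso
  obtain ⟨v₁, v₂, hv1, hv2, hv3, hv4⟩ := H2_window (⋃ e', bad κ g⁻¹ e')
    (Set.finite_iUnion fun e' => (bad_finite κ G hS g⁻¹ hg' e').1) η (by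
      rw [Set.mem_iUnion]
      rintro ⟨e', he'⟩
      exact hgen e' he') η'
  have hv3' : ∀ ζ ∈ Set.Ioo (v₁ : ℝ) v₂, ∀ e', ζ ∉ bad κ g⁻¹ e' := fun ζ hζ e' he' =>
    hv3 ζ hζ (Set.mem_iUnion.2 ⟨e', he'⟩)
  have hv12 : v₁ < v₂ := by exact_mod_cast hv1.trans hv2
  -- the claim
  obtain ⟨f, hf, hfs, w, hwc, hw1, hw2, hw3, hev⟩ : ∃ f ∈ G0 κ G,
      (∀ q, q ≤ v₁ ∨ v₂ ≤ q → f q = q) ∧ ∃ w : ℚ, κ w = c' ∧ v₁ < w ∧ (w : ℝ) < η ∧
        η < (f w : ℝ) ∧ ∀ᶠ w' in Fp κ η' d', f w' = w' := by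
    obtain ⟨w, hw1, hw2, hwc, -⟩ := exists_col κ hS.dn (e v₁) (η : EReal) (H2_e_lt.2 hv1) c' ∅
    have hw1' : v₁ < w := by
      have : (v₁ : ℝ) < w := EReal.coe_lt_coe_iff.1 hw1
      exact_mod_cast this
    have hw2' : (w : ℝ) < η := H2_e_lt.1 hw2
    by_cases hη : η' = η
    · subst hη
      have hnl : ¬ linked κ G c' d' := fun hl' => hgoal ⟨rfl, hl'⟩
      obtain ⟨y, hy1, hy2, hyc, -⟩ := exists_col κ hS.dn (η : EReal) (e v₂) (H2_lt_e.2 hv2) d' ∅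
      have hy1' : η < (y : ℝ) := H2_lt_e.1 hy1
      have hy2' : y < v₂ := by
        have : (y : ℝ) < v₂ := EReal.coe_lt_coe_iff.1 hy2
        exact_mod_cast this
      have hwy : w < y := by exact_mod_cast hw2'.trans hy1'
      obtain ⟨f, hf, hfs, hfd, hyf⟩ := mover_right κ hS.dn G hS.le c' d' hnl v₁ w y v₂ hw1' hwy
        hy2' hwc hyc
      refine ⟨f, hf, hfs, w, hwc, hw1', hw2', ?_, ?_⟩
      · have : (y : ℝ) < f w := by exact_mod_cast hyf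
        exact hy1'.trans this
      · filter_upwards [Fp_color κ (η : EReal) d'] with w' hw'
        exact hfd w' hw'
    · obtain ⟨w₂, hy1, hy2, hyc, -⟩ := exists_col κ hS.dn (η : EReal) (e v₂) (H2_lt_e.2 hv2) c' ∅
      have hy1' : η < (w₂ : ℝ) := H2_lt_e.1 hy1
      have hy2' : w₂ < v₂ := by
        have : (w₂ : ℝ) < v₂ := EReal.coe_lt_coe_iff.1 hy2
        exact_mod_cast this
      have hww : w < w₂ := by exact_mod_cast hw2'.trans hy1'
      obtain ⟨f, hf, hfw, hfs⟩ := exists_HH_local κ hS.dn v₁ v₂ {w} (fun _ => w₂) (by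
          intro x hx
          rw [Finset.mem_singleton] at hx
          subst hx
          exact ⟨hw1', hww.trans hy2', hw1'.trans hww, hy2', hyc.trans hwc.symm⟩) (by
          intro x hx y hy hxy
          rw [Finset.mem_singleton] at hx hy
          subst hx
          subst hy
          exact absurd hxy (lt_irrefl _))
      have hfw' : f w = w₂ := hfw w (Finset.mem_singleton_self _)
      refine ⟨f, HH_le_G0 κ G hS.le hf, hfs, w, hwc, hw1', hw2', ?_, ?_⟩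
      · rw [hfw']
        exact hy1'
      · rcases hv4 hη with h1 | h1
        · filter_upwards [Fp_mem κ η' d' (Set.Iio (e v₁)) (Iio_mem_nhds h1)] with w' hw'
          refine hfs w' (Or.inl ?_)
          have : (w' : ℝ) < v₁ := EReal.coe_lt_coe_iff.1 hw'
          exact_mod_cast this.le
        · filter_upwards [Fp_mem κ η' d' (Set.Ioi (e v₂)) (Ioi_mem_nhds h1)] with w' hw'
          refine hfs w' (Or.inr ?_)
          have : (v₂ : ℝ) < w' := EReal.coe_lt_coe_iff.1 hw'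
          exact_mod_cast this.le
  have hk := conj_mem_G0 κ G hS g hg v₁ v₂ hv12 hv3' f hf hfs
  obtain ⟨d₁, φ, hφ1, -, hφ3, hφ4, -⟩ := exists_mono κ G hS g⁻¹ hg' c' (Set.Ioo (v₁ : ℝ) v₂)
    Set.ordConnected_Ioo isOpen_Ioo ⟨η, hv1, hv2⟩ (fun ζ hζ => hv3' ζ hζ c')
  have hηI : η ∈ Set.Ioo (v₁ : ℝ) v₂ := ⟨hv1, hv2⟩
  have hu := clus_unique κ G hS g⁻¹ hg' (η : EReal) c' (φ η) d₁ (ξ : EReal) c
    (clus_of_tendsto κ hS.dn _ _ _ _ _ (hφ1 η hηI))
    (clus_symm κ g _ _ _ _ (clus_of_tendsto κ hS.dn _ _ _ _ _ h))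
  have hφη : ξ = φ η := EReal.coe_eq_coe_iff.1 hu.1
  have hd₁ : c = d₁ := hu.2
  have hwI : (w : ℝ) ∈ Set.Ioo (v₁ : ℝ) v₂ := ⟨by exact_mod_cast hw1, hw2.trans hv2⟩
  have hwlt : w < f w := by exact_mod_cast hw2.trans hw3
  have hfwI : ((f w : ℚ) : ℝ) ∈ Set.Ioo (v₁ : ℝ) v₂ := by
    refine ⟨hv1.trans hw3, ?_⟩
    by_contra hcon
    have h1 : v₂ ≤ f w := by exact_mod_cast not_lt.1 hcon
    have h2 : f w = w := f.injective (hfs (f w) (Or.inr h1))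
    exact absurd hwlt (by rw [h2]; exact lt_irrefl _)
  obtain ⟨hcw, hφw⟩ := hφ4 w hwI hwc
  obtain ⟨hcfw, hφfw⟩ := hφ4 (f w) hfwI ((hf.2.1 w).trans hwc)
  -- the position of ξ
  have hkz : (g⁻¹ * f * g) (g⁻¹ w) = g⁻¹ (f w) := by
    rw [Perm.mul_apply, Perm.mul_apply, pai]
  have hcl' : clus κ g (ξ : EReal) d η' d' := hcl
  have hzc : κ (g⁻¹ w) = c := hcw.trans hd₁.symm
  rcases hφ3 with hm | hm
  · have h1 : ((g⁻¹ w : ℚ) : ℝ) < ξ := by
      rw [← hφw, hφη]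
      exact hm hwI hηI hw2
    have h2 : ξ < ((g⁻¹ (f w) : ℚ) : ℝ) := by
      rw [← hφfw, hφη]
      exact hm hηI hfwI hw3
    obtain ⟨y, ⟨hy1, hy2, hy3⟩, hy4⟩ := clus_exists κ g _ _ _ _ hcl'
      (P := fun y => κ y = d ∧ g⁻¹ w < y ∧ y < g⁻¹ (f w)) (Q := fun w' => f w' = w') (by
        filter_upwards [Fp_color κ (ξ : EReal) d,
          Fp_mem κ (ξ : EReal) d (Set.Ioo (e (g⁻¹ w)) (e (g⁻¹ (f w))))
            (Ioo_mem_nhds (H2_e_lt.2 h1) (H2_lt_e.2 h2))] with y hy1 hy2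
        refine ⟨hy1, ?_, ?_⟩
        · have : ((g⁻¹ w : ℚ) : ℝ) < y := EReal.coe_lt_coe_iff.1 hy2.1
          exact_mod_cast this
        · have : (y : ℝ) < ((g⁻¹ (f w) : ℚ) : ℝ) := EReal.coe_lt_coe_iff.1 hy2.2
          exact_mod_cast this) hev
    have hky : (g⁻¹ * f * g) y = y := by
      rw [Perm.mul_apply, Perm.mul_apply, hy4, pia]
    have := (hl _ hk (g⁻¹ w) y hzc hy1).1 hy2
    rw [hkz, hky] at this
    exact lt_asymm this hy3
  · have h1 : ξ < ((g⁻¹ w : ℚ) : ℝ) := by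
      rw [← hφw, hφη]
      exact hm hwI hηI hw2
    have h2 : ((g⁻¹ (f w) : ℚ) : ℝ) < ξ := by
      rw [← hφfw, hφη]
      exact hm hηI hfwI hw3
    obtain ⟨y, ⟨hy1, hy2, hy3⟩, hy4⟩ := clus_exists κ g _ _ _ _ hcl'
      (P := fun y => κ y = d ∧ g⁻¹ (f w) < y ∧ y < g⁻¹ w) (Q := fun w' => f w' = w') (by
        filter_upwards [Fp_color κ (ξ : EReal) d,
          Fp_mem κ (ξ : EReal) d (Set.Ioo (e (g⁻¹ (f w))) (e (g⁻¹ w)))
            (Ioo_mem_nhds (H2_e_lt.2 h2) (H2_lt_e.2 h1))] with y hy1 hy2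
        refine ⟨hy1, ?_, ?_⟩
        · have : ((g⁻¹ (f w) : ℚ) : ℝ) < y := EReal.coe_lt_coe_iff.1 hy2.1
          exact_mod_cast this
        · have : (y : ℝ) < ((g⁻¹ w : ℚ) : ℝ) := EReal.coe_lt_coe_iff.1 hy2.2
          exact_mod_cast this) hev
    have hky : (g⁻¹ * f * g) y = y := by
      rw [Perm.mul_apply, Perm.mul_apply, hy4, pia]
    have := (hl _ hk (g⁻¹ w) y hzc hy1).2 (by rw [hkz, hky]; exact hy2)
    exact lt_asymm this hy3

end Pool.Agent.Lib.H3C
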