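import Pool.Agent.Lib.H3C.H2

/-! # H3: linked places are mapped to linked places -/

namespace Pool.Agent.Lib.H3C

open Equiv Filter Topology

private theorem H3_Fp {C : Type} (κ : ℚ → C) (ξ : ℝ) (c : C) {P : ℝ → Prop}
    (h : ∀ᶠ x in 𝓝[≠] ξ, P x) : ∀ᶠ z : ℚ in Fp κ (ξ : EReal) c, P (z : ℝ) := by
  have h1 : comap (fun x : ℝ => (x : EReal)) (𝓝[≠] (ξ : EReal)) = 𝓝[≠] ξ := by
    unfold nhdsWithin
    rw [comap_inf, comap_principal, ← EReal.isEmbedding_coe.toIsInducing.nhds_eq_comap]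
    congr 2
    ext x
    simp
  have h2 : comap e (𝓝[≠] (ξ : EReal)) = comap (fun q : ℚ => (q : ℝ)) (𝓝[≠] ξ) := by
    rw [← h1, comap_comap]
    rfl
  have h3 : ∀ᶠ z : ℚ in comap e (𝓝[≠] (ξ : EReal)), P (z : ℝ) := by
    rw [h2]
    exact h.comap (fun q : ℚ => (q : ℝ))
  exact h3.filter_mono inf_le_left

/-- Proof. If `c = d` take `d' = c'`.  `ξ` is not bad for `g`, `c` (`clus_of_tendsto`,
`not_bad_of_clus`).  The bad sets are finite, so there is an open interval `I = (a, b)` around `ξ` with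
no bad point of `g`, `c` in `I` and no bad point of `g`, `d` in `I \ {ξ}`; let `φ` be the function of
`exists_mono` for `g`, `c`, `I` (colour `c'`, `φ ξ = η`).  `φ` is injective on `I` and
`⋃ e', bad κ g⁻¹ e'` is finite, so after shrinking `I` no `φ ξ'`, `ξ' ∈ I \ {ξ}`, is in this set.
Then `linked_lim_generic` gives for `ξ' ∈ I \ {ξ}` a `d'(ξ')` linked to `c'` with
`Tendsto g (Fp κ ξ' d) (Fp κ (φ ξ') (d' ξ'))`; in particular for a rational `z ∈ I \ {ξ}` of colour `d`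
by `tendsto_own` (and `clus_unique`): `g z = φ z` and `κ (g z) = d' z` is linked to `c'`.  As `φ` is
continuous at `ξ`, `g z → η` along `Fp κ ξ d`, and `κ (g z)` is linked to `c'`.  So any cluster place
`(η', d')` of `g` at `(ξ, d)` has `η' = η` and `linked κ G c' d'`; by `tendsto_of_clus` we are done. -/
theorem linked_lim {C : Type} [Finite C] (κ : ℚ → C) (G : Subgroup (Perm ℚ)) (hS : Std κ G)
    (g : Perm ℚ) (hg : g ∈ G) (c d : C) (hl : linked κ G c d) (ξ η : ℝ) (c' : C)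
    (h : Tendsto g (Fp κ (ξ : EReal) c) (Fp κ (η : EReal) c')) :
    ∃ d', Tendsto g (Fp κ (ξ : EReal) d) (Fp κ (η : EReal) d') ∧ linked κ G c' d' := by
  have hg' : g⁻¹ ∈ G := G.inv_mem hg
  have hclus : clus κ g (ξ : EReal) c (η : EReal) c' := clus_of_tendsto κ hS.dn g _ c _ c' h
  have hξc : ξ ∉ bad κ g c := not_bad_of_clus κ G hS g hg c ξ η c' hclus
  have hfc : (bad κ g c).Finite := (bad_finite κ G hS g hg c).1
  have hfi : (⋃ e' : C, bad κ g⁻¹ e').Finite :=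
    Set.finite_iUnion fun e' => (bad_finite κ G hS g⁻¹ hg' e').1
  -- a good interval
  have hnhds : (bad κ g c)ᶜ ∈ 𝓝 ξ := hfc.isClosed.isOpen_compl.mem_nhds hξc
  obtain ⟨ε, hε, hball⟩ := Metric.mem_nhds_iff.1 hnhds
  obtain ⟨I, hI⟩ : ∃ I : Set ℝ, I = Set.Ioo (ξ - ε) (ξ + ε) := ⟨_, rfl⟩
  have hIo : IsOpen I := by rw [hI]; exact isOpen_Ioo
  have hξI : ξ ∈ I := by
    rw [hI]
    constructor <;> linarith
  have hgood : ∀ ξ' ∈ I, ξ' ∉ bad κ g c := by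
    intro ξ' hξ'
    refine hball ?_
    rw [Real.ball_eq_Ioo, ← hI]
    exact hξ'
  obtain ⟨c'', φ, hφ, hφc, hφm, -, -⟩ := exists_mono κ G hS g hg c I
    (by rw [hI]; exact Set.ordConnected_Ioo) hIo ⟨ξ, hξI⟩ hgood
  have hun := clus_unique κ G hS g hg (ξ : EReal) c η c' (φ ξ : EReal) c'' hclus
    (clus_of_tendsto κ hS.dn g _ c _ c'' (hφ ξ hξI))
  obtain ⟨hφξ', hcc⟩ := hun
  have hφξ : φ ξ = η := EReal.coe_injective hφξ'
  rw [hcc] at hφ
  have hinj : Set.InjOn φ I := by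
    rcases hφm with h1 | h1
    · exact h1.injOn
    · exact h1.injOn
  -- exceptional points
  have hEf : {ξ' ∈ I | φ ξ' ∈ ⋃ e' : C, bad κ g⁻¹ e'}.Finite :=
    Set.Finite.of_injOn (f := φ) (fun x hx => hx.2) (fun x hx y hy hxy => hinj hx.1 hy.1 hxy) hfi
  have hev1 : ∀ᶠ x in 𝓝[≠] ξ, x ∈ I ∧ x ∉ {ξ' ∈ I | φ ξ' ∈ ⋃ e' : C, bad κ g⁻¹ e'} := by
    have h1 : ∀ᶠ x in 𝓝[≠] ξ, x ∈ I := nhdsWithin_le_nhds (hIo.mem_nhds hξI)
    have h2 : ({ξ' ∈ I | φ ξ' ∈ ⋃ e' : C, bad κ g⁻¹ e'} \ {ξ})ᶜ ∈ 𝓝 ξ := by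
      refine (hEf.subset Set.diff_subset).isClosed.isOpen_compl.mem_nhds ?_
      intro h3
      exact h3.2 rfl
    have h3 : ∀ᶠ x in 𝓝[≠] ξ, x ∈ ({ξ' ∈ I | φ ξ' ∈ ⋃ e' : C, bad κ g⁻¹ e'} \ {ξ})ᶜ :=
      nhdsWithin_le_nhds h2
    filter_upwards [h1, h3, self_mem_nhdsWithin] with x hx1 hx2 hx3
    refine ⟨hx1, fun hx4 => hx2 ⟨hx4, ?_⟩⟩
    exact hx3
  have hev2 : ∀ᶠ z : ℚ in Fp κ (ξ : EReal) d, ((g z : ℚ) : ℝ) = φ (z : ℝ) ∧ linked κ G c' (κ (g z)) := by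
    filter_upwards [H3_Fp κ ξ d hev1, Fp_color κ (ξ : EReal) d] with z hz hzc
    have hzI := hz.1
    have hgen : ∀ e', φ (z : ℝ) ∉ bad κ g⁻¹ e' := by
      intro e' he
      exact hz.2 ⟨hzI, Set.mem_iUnion.2 ⟨e', he⟩⟩
    obtain ⟨d', ht, hl'⟩ := linked_lim_generic κ G hS g hg c d hl (z : ℝ) (φ (z : ℝ)) c'
      (hφ _ hzI) hgen
    have hown := tendsto_own κ G hS g hg z
    rw [hzc] at hown
    have hu := clus_unique κ G hS g hg (e z) d (φ (z : ℝ)) d' (e (g z)) (κ (g z))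
      (clus_of_tendsto κ hS.dn g _ d _ d' ht) (clus_of_tendsto κ hS.dn g _ d _ _ hown)
    refine ⟨EReal.coe_injective hu.1, ?_⟩
    rw [hu.2]
    exact hl'
  -- the images tend to `η`
  have hcont : Tendsto φ (𝓝 ξ) (𝓝 η) := by
    have h1 := hφc.continuousAt (hIo.mem_nhds hξI)
    unfold ContinuousAt at h1
    rwa [hφξ] at h1
  have : (Fp κ (ξ : EReal) d).NeBot := Fp_neBot κ hS.dn _ d
  obtain ⟨η', d', hcl⟩ := exists_cluster κ (map g (Fp κ (ξ : EReal) d)) (by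
    intro q
    rw [eventually_map]
    filter_upwards [Fp_ne κ (ξ : EReal) d (g⁻¹ q)] with z hz hq
    apply hz
    rw [← hq, pia])
  have hcl' : clus κ g (ξ : EReal) d η' d' := hcl
  have hlink : linked κ G c' d' := by
    obtain ⟨z, hz1, hz2⟩ := clus_exists κ g (ξ : EReal) d η' d' hcl' hev2 (Fp_color κ η' d')
    rw [← hz2]
    exact hz1.2
  have hη : η' = (η : EReal) := by
    by_contra hne
    obtain ⟨U, V, hU, hV, hηU, hηV, hdis⟩ := t2_separation hne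
    have hV' : ∀ᶠ x in 𝓝[≠] ξ, ((φ x : ℝ) : EReal) ∈ V := by
      have h1 : Tendsto (fun x => ((φ x : ℝ) : EReal)) (𝓝 ξ) (𝓝 (η : EReal)) :=
        (continuous_coe_real_ereal.tendsto η).comp hcont
      exact nhdsWithin_le_nhds (h1 (hV.mem_nhds hηV))
    obtain ⟨z, hz1, hz2⟩ := clus_exists κ g (ξ : EReal) d η' d' hcl'
      (hev2.and (H3_Fp κ ξ d hV')) (Fp_mem κ η' d' U (hU.mem_nhds hηU))
    have h2 : e (g z) ∈ V := by
      have h3 := hz1.2
      rw [← hz1.1.1] at h3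
      exact h3
    exact Set.disjoint_left.1 hdis hz2 h2
  rw [hη] at hcl'
  exact ⟨d', tendsto_of_clus κ G hS g hg _ d η d' hcl', hlink⟩

/-- Linked colours have the same bad points.

Proof. If `ξ ∉ bad κ g c` then `good_of_not_bad` and `linked_lim` give a limit at `(ξ, d)`, so
`ξ ∉ bad κ g d` (`clus_of_tendsto`, `not_bad_of_clus`).  The other direction: `linked_symm`. -/
theorem bad_eq {C : Type} [Finite C] (κ : ℚ → C) (G : Subgroup (Perm ℚ)) (hS : Std κ G)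
    (g : Perm ℚ) (hg : g ∈ G) (c d : C) (hl : linked κ G c d) : bad κ g c = bad κ g d := by
  have key : ∀ c d : C, linked κ G c d → ∀ ξ, ξ ∉ bad κ g c → ξ ∉ bad κ g d := by
    intro c d hl ξ hξ
    obtain ⟨η, c', ht⟩ := good_of_not_bad κ G hS g hg c ξ hξ
    obtain ⟨d', ht', -⟩ := linked_lim κ G hS g hg c d hl ξ η c' ht
    exact not_bad_of_clus κ G hS g hg d ξ η d' (clus_of_tendsto κ hS.dn g _ d _ d' ht')
  ext ξ
  constructor
  · intro h
    by_contra h'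
    exact key d c (linked_symm κ G c d hl) ξ h' h
  · intro h
    by_contra h'
    exact key c d hl ξ h' h

end Pool.Agent.Lib.H3C
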