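import Pool.Agent.Lib.H3C.Defs

/-! # X1: the index of a point with respect to a finite set of cuts -/

namespace Pool.Agent.Lib.H3C

/-- The number of the elements of `S` below `x`. -/
noncomputable def idx (S : Set ℝ) (x : ℚ) : ℕ := (S ∩ Set.Iio (x : ℝ)).ncard

theorem idx_le {S : Set ℝ} (hS : S.Finite) (x : ℚ) : idx S x ≤ S.ncard :=
  Set.ncard_le_ncard Set.inter_subset_left hS

theorem idx_mono {S : Set ℝ} (hS : S.Finite) {x y : ℚ} (h : x ≤ y) : idx S x ≤ idx S y := by
  refine Set.ncard_le_ncard (Set.inter_subset_inter_right _ ?_) (hS.inter_of_left _)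
  exact Set.Iio_subset_Iio (by exact_mod_cast h)

/-- Proof. If `idx S x = idx S y` then the finite sets `S ∩ Iio x ⊆ S ∩ Iio y` are equal. -/
theorem idx_eq_iff {S : Set ℝ} (hS : S.Finite) {x y : ℚ} (h : x ≤ y) (hx : (x : ℝ) ∉ S) :
    idx S x = idx S y ↔ ∀ ξ ∈ S, ¬ ((x : ℝ) < ξ ∧ ξ < y) := by
  have hsub : S ∩ Set.Iio (x : ℝ) ⊆ S ∩ Set.Iio (y : ℝ) :=
    Set.inter_subset_inter_right _ (Set.Iio_subset_Iio (by exact_mod_cast h))
  constructor
  · intro he ξ hξ hc
    have heq := Set.eq_of_subset_of_ncard_le hsub (le_of_eq he.symm) (hS.inter_of_left _)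
    have h1 : ξ ∈ S ∩ Set.Iio (x : ℝ) := by
      rw [heq]
      exact ⟨hξ, hc.2⟩
    exact absurd h1.2 (not_lt.mpr hc.1.le)
  · intro he
    have heq : S ∩ Set.Iio (x : ℝ) = S ∩ Set.Iio (y : ℝ) := by
      apply Set.Subset.antisymm hsub
      rintro ξ ⟨h1, h2⟩
      refine ⟨h1, ?_⟩
      by_contra h3
      have h4 : (x : ℝ) ≤ ξ := not_lt.mp h3
      rcases eq_or_lt_of_le h4 with h5 | h5
      · exact hx (h5 ▸ h1)
      · exact he ξ h1 ⟨h5, h2⟩
    unfold idx
    rw [heq]

/-- The points with a given index form an interval.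

Proof. Let `s : Fin n → ℝ` be the increasing enumeration of `S`, `n = S.ncard`
(`Finset.orderEmbOfFin`).  `u i = s (i - 1)` for `1 ≤ i ≤ n` and `⊥` for `i = 0`; `v i = s i` for
`i < n` and `⊤` for `i ≥ n`.  For `q ∉ S`: `idx S q = i` iff exactly the first `i` elements are
`< q`. -/
theorem idx_interval {S : Set ℝ} (hS : S.Finite) :
    ∃ u v : ℕ → EReal, (∀ i ≤ S.ncard, u i < v i) ∧ (∀ i j, i < j → j ≤ S.ncard → v i ≤ u j) ∧
      ∀ q : ℚ, (q : ℝ) ∉ S → ∀ i ≤ S.ncard, (idx S q = i ↔ u i < e q ∧ e q < v i) := by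
  have hn : hS.toFinset.card = S.ncard := (Set.ncard_eq_toFinset_card S hS).symm
  let s : Fin S.ncard ↪o ℝ := hS.toFinset.orderEmbOfFin hn
  have hsS : ∀ k, s k ∈ S := fun k => by
    have := hS.toFinset.orderEmbOfFin_mem hn k
    rwa [Set.Finite.mem_toFinset] at this
  have hrange : ∀ ξ ∈ S, ∃ k, s k = ξ := by
    intro ξ hξ
    have h1 : ξ ∈ Set.range s := by
      rw [Finset.range_orderEmbOfFin]
      simpa using hξ
    exact h1
  have L1 : ∀ (q : ℚ) (k : Fin S.ncard), s k < (q : ℝ) → (k : ℕ) + 1 ≤ idx S q := by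
    intro q k hk
    have h1 : s '' (Set.Iic k) ⊆ S ∩ Set.Iio (q : ℝ) := by
      rintro _ ⟨j, hj, rfl⟩
      exact ⟨hsS j, lt_of_le_of_lt (s.monotone hj) hk⟩
    have h2 := Set.ncard_le_ncard h1 (hS.inter_of_left _)
    rw [Set.ncard_image_of_injective _ s.injective] at h2
    have h3 : (Set.Iic k).ncard = (k : ℕ) + 1 := by
      rw [← Finset.coe_Iic, Set.ncard_coe_finset, Fin.card_Iic]
    rw [h3] at h2
    exact h2
  have L2 : ∀ (q : ℚ) (k : Fin S.ncard), (q : ℝ) < s k → idx S q ≤ (k : ℕ) := by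
    intro q k hk
    have h1 : S ∩ Set.Iio (q : ℝ) ⊆ s '' (Set.Iio k) := by
      rintro ξ ⟨h1, h2⟩
      obtain ⟨j, rfl⟩ := hrange ξ h1
      refine ⟨j, ?_, rfl⟩
      exact s.lt_iff_lt.mp (lt_trans h2 hk)
    have h2 := Set.ncard_le_ncard h1 (Set.toFinite _)
    rw [Set.ncard_image_of_injective _ s.injective] at h2
    have h3 : (Set.Iio k).ncard = (k : ℕ) := by
      rw [← Finset.coe_Iio, Set.ncard_coe_finset, Fin.card_Iio]
    rw [h3] at h2
    exact h2
  have he : ∀ (q : ℚ) (r : ℝ), ((r : EReal) < e q ↔ r < (q : ℝ)) ∧ (e q < (r : EReal) ↔ (q : ℝ) < r) :=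
    fun q r => ⟨EReal.coe_lt_coe_iff, EReal.coe_lt_coe_iff⟩
  refine ⟨fun i => if h : 1 ≤ i ∧ i ≤ S.ncard then ((s ⟨i - 1, by omega⟩ : ℝ) : EReal) else ⊥,
    fun i => if h : i < S.ncard then ((s ⟨i, h⟩ : ℝ) : EReal) else ⊤, ?_, ?_, ?_⟩
  · intro i hi
    by_cases h1 : 1 ≤ i ∧ i ≤ S.ncard
    · by_cases h2 : i < S.ncard
      · simp only [dif_pos h1, dif_pos h2]
        rw [EReal.coe_lt_coe_iff, s.lt_iff_lt, Fin.lt_def]
        show i - 1 < i
        omega
      · simp only [dif_pos h1, dif_neg h2]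
        exact EReal.coe_lt_top _
    · by_cases h2 : i < S.ncard
      · simp only [dif_neg h1, dif_pos h2]
        exact EReal.bot_lt_coe _
      · simp only [dif_neg h1, dif_neg h2]
        exact bot_lt_top
  · intro i j hij hj
    have h1 : 1 ≤ j ∧ j ≤ S.ncard := ⟨by omega, hj⟩
    have h2 : i < S.ncard := by omega
    simp only [dif_pos h1, dif_pos h2]
    rw [EReal.coe_le_coe_iff, s.le_iff_le, Fin.le_def]
    show i ≤ j - 1
    omega
  · intro q hq i hi
    have hne : ∀ k, s k ≠ (q : ℝ) := fun k hk => hq (hk ▸ hsS k)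
    constructor
    · intro hidx
      constructor
      · by_cases h1 : 1 ≤ i ∧ i ≤ S.ncard
        · simp only [dif_pos h1]
          rw [(he q _).1]
          rcases lt_trichotomy (s ⟨i - 1, by omega⟩) (q : ℝ) with h2 | h2 | h2
          · exact h2
          · exact absurd h2 (hne _)
          · exfalso
            have h3 : idx S q ≤ i - 1 := L2 q ⟨i - 1, by omega⟩ h2
            omega
        · simp only [dif_neg h1]
          exact EReal.bot_lt_coe _
      · by_cases h2 : i < S.ncard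
        · simp only [dif_pos h2]
          rw [(he q _).2]
          rcases lt_trichotomy (s ⟨i, h2⟩) (q : ℝ) with h3 | h3 | h3
          · exfalso
            have h4 : i + 1 ≤ idx S q := L1 q ⟨i, h2⟩ h3
            omega
          · exact absurd h3 (hne _)
          · exact h3
        · simp only [dif_neg h2]
          exact EReal.coe_lt_top _
    · rintro ⟨hu, hv⟩
      apply le_antisymm
      · by_cases h2 : i < S.ncard
        · simp only [dif_pos h2] at hv
          rw [(he q _).2] at hv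
          exact L2 q ⟨i, h2⟩ hv
        · have h3 : i = S.ncard := by omega
          rw [h3]
          exact idx_le hS q
      · by_cases h1 : 1 ≤ i ∧ i ≤ S.ncard
        · simp only [dif_pos h1] at hu
          rw [(he q _).1] at hu
          have h3 : i - 1 + 1 ≤ idx S q := L1 q ⟨i - 1, by omega⟩ hu
          omega
        · have h3 : i = 0 := by omega
          rw [h3]
          exact Nat.zero_le _

end Pool.Agent.Lib.H3C
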