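import Pool.Agent.Lib.H3C.H3
import Pool.Agent.Lib.H3C.X1

/-! # H4: the pieces of an element -/

namespace Pool.Agent.Lib.H3C

open Equiv Filter Topology

/-- The interval of the complement of `S` which contains `x`. -/
private noncomputable def H4_int (S : Set ℝ) (x : ℚ) : Set ℝ :=
  ⋂ s ∈ S, open Classical in if s < (x : ℝ) then Set.Ioi s else Set.Iio s

/-- On the piece of `x` (and of all points of linked colours with the same index) `g` is one
continuous strictly monotone function.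

Proof. Let `c = κ x`, `S = bad κ g c` (finite), and
`I = {ξ : ℝ | ∀ s ∈ S, ξ ≠ s ∧ (s < ξ ↔ s < x)}`: an open interval containing `x` (`own_not_bad`)
without points of `S`.  Let `φ` be from `exists_mono` for `g`, `c`, `I`; its colour is `κ (g x)`.
`φ '' I` has no bad points of `g⁻¹`, `κ (g x)` by `not_bad_inv`.  Let `y` be as in the statement,
`d = κ y`; `bad κ g d = S` (`bad_eq`), `y ∉ S` (`own_not_bad`), so `idx_eq_iff` gives `y ∈ I`.
By `linked_lim` at `ξ = y` there is `d'` linked to `κ (g x)` with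
`Tendsto g (Fp κ y d) (Fp κ (φ y) d')`, and by `tendsto_own` and `clus_unique`: `φ y = g y`,
`d' = κ (g y)`. -/
theorem component {C : Type} [Finite C] (κ : ℚ → C) (G : Subgroup (Perm ℚ)) (hS : Std κ G)
    (g : Perm ℚ) (hg : g ∈ G) (x : ℚ) :
    ∃ (I : Set ℝ) (φ : ℝ → ℝ), I.OrdConnected ∧ ContinuousOn φ I ∧
      (StrictMonoOn φ I ∨ StrictAntiOn φ I) ∧ (∀ η ∈ φ '' I, η ∉ bad κ g⁻¹ (κ (g x))) ∧
      ∀ y : ℚ, linked κ G (κ x) (κ y) → idx (bad κ g (κ x)) x = idx (bad κ g (κ y)) y →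
        (y : ℝ) ∈ I ∧ φ y = g y ∧ linked κ G (κ (g x)) (κ (g y)) := by
  have hfin := (bad_finite κ G hS g hg (κ x)).1
  have hxS := own_not_bad κ G hS g hg x
  set S := bad κ g (κ x) with hSdef
  have hxI : (x : ℝ) ∈ H4_int S x := by
    unfold H4_int
    simp only [Set.mem_iInter]
    intro s hs
    split_ifs with h
    · exact h
    · rcases lt_or_eq_of_le (not_lt.1 h) with h1 | h1
      · exact h1
      · exact absurd (h1 ▸ hs) hxS
  have hoc : (H4_int S x).OrdConnected := by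
    unfold H4_int
    refine Set.ordConnected_biInter fun s _ => ?_
    split_ifs
    · exact Set.ordConnected_Ioi
    · exact Set.ordConnected_Iio
  have hop : IsOpen (H4_int S x) := by
    unfold H4_int
    refine hfin.isOpen_biInter fun s _ => ?_
    split_ifs
    · exact isOpen_Ioi
    · exact isOpen_Iio
  have hgood : ∀ ξ ∈ H4_int S x, ξ ∉ S := by
    intro ξ hξ hξS
    unfold H4_int at hξ
    simp only [Set.mem_iInter] at hξ
    have h := hξ ξ hξS
    split_ifs at h with h1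
    · exact lt_irrefl _ (Set.mem_Ioi.1 h)
    · exact lt_irrefl _ (Set.mem_Iio.1 h)
  obtain ⟨d, φ, h1, h2, h3, h4, -⟩ := exists_mono κ G hS g hg (κ x) (H4_int S x) hoc hop ⟨_, hxI⟩ hgood
  have hd : κ (g x) = d := (h4 x hxI rfl).1
  subst hd
  refine ⟨H4_int S x, φ, hoc, h2, h3, ?_, ?_⟩
  · rintro η ⟨ξ, hξ, rfl⟩
    exact not_bad_inv κ G hS g hg (κ x) ξ (φ ξ) (κ (g x)) (h1 ξ hξ)
  · intro y hl hi
    have hbe : S = bad κ g (κ y) := bad_eq κ G hS g hg (κ x) (κ y) hl
    have hyS : (y : ℝ) ∉ S := by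
      rw [hbe]
      exact own_not_bad κ G hS g hg y
    rw [← hbe] at hi
    have hyI : (y : ℝ) ∈ H4_int S x := by
      unfold H4_int
      simp only [Set.mem_iInter]
      intro s hs
      have hsy : (y : ℝ) ≠ s := fun h => hyS (h ▸ hs)
      have hsx : (x : ℝ) ≠ s := fun h => hxS (h ▸ hs)
      rcases le_total x y with hxy | hyx
      · have h := (idx_eq_iff hfin hxy hxS).1 hi s hs
        have hxy' : (x : ℝ) ≤ y := by exact_mod_cast hxy
        split_ifs with hc
        · exact lt_of_lt_of_le hc hxy'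
        · have h5 : (x : ℝ) < s := lt_of_le_of_ne (not_lt.1 hc) hsx
          rw [Set.mem_Iio]
          by_contra hcon
          exact h ⟨h5, lt_of_le_of_ne (not_lt.1 hcon) (Ne.symm hsy)⟩
      · have h := (idx_eq_iff hfin hyx hyS).1 hi.symm s hs
        have hyx' : (y : ℝ) ≤ x := by exact_mod_cast hyx
        split_ifs with hc
        · rw [Set.mem_Ioi]
          by_contra hcon
          exact h ⟨lt_of_le_of_ne (not_lt.1 hcon) hsy, hc⟩
        · exact lt_of_le_of_lt hyx' (lt_of_le_of_ne (not_lt.1 hc) hsx)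
    obtain ⟨d', hd1, hd2⟩ := linked_lim κ G hS g hg (κ x) (κ y) hl y (φ y) (κ (g x)) (h1 y hyI)
    have hu := clus_unique κ G hS g hg (e y) (κ y) (φ y) d' (e (g y)) (κ (g y))
      (clus_of_tendsto κ hS.dn g _ _ _ _ hd1)
      (clus_of_tendsto κ hS.dn g _ _ _ _ (tendsto_own κ G hS g hg y))
    refine ⟨hyI, ?_, ?_⟩
    · exact (EReal.coe_injective hu.1).symm
    · rw [hu.2]
      exact hd2

/-- Proof. With `I`, `φ` from `component`: `φ '' I` is an interval (connected) without points of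
`S' = bad κ g⁻¹ (κ (g x)) = bad κ g⁻¹ (κ (g y))` (`bad_eq` for `g⁻¹`) which contains `g x` and `g y`;
`idx_eq_iff`. -/
theorem piece {C : Type} [Finite C] (κ : ℚ → C) (G : Subgroup (Perm ℚ)) (hS : Std κ G)
    (g : Perm ℚ) (hg : g ∈ G) (x y : ℚ) (hl : linked κ G (κ x) (κ y))
    (hi : idx (bad κ g (κ x)) x = idx (bad κ g (κ y)) y) :
    linked κ G (κ (g x)) (κ (g y)) ∧
      idx (bad κ g⁻¹ (κ (g x))) (g x) = idx (bad κ g⁻¹ (κ (g y))) (g y) := by
  obtain ⟨I, φ, h1, h2, -, h4, h5⟩ := component κ G hS g hg x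
  obtain ⟨hyI, hφy, hlk⟩ := h5 y hl hi
  obtain ⟨hxI, hφx, -⟩ := h5 x (linked_refl κ G _) rfl
  refine ⟨hlk, ?_⟩
  have hg' : g⁻¹ ∈ G := G.inv_mem hg
  have hfin := (bad_finite κ G hS g⁻¹ hg' (κ (g x))).1
  rw [← bad_eq κ G hS g⁻¹ hg' (κ (g x)) (κ (g y)) hlk]
  have hoc : (φ '' I).OrdConnected := ((h1.isPreconnected).image φ h2).ordConnected
  have hgx : ((g x : ℚ) : ℝ) ∈ φ '' I := ⟨x, hxI, hφx⟩
  have hgy : ((g y : ℚ) : ℝ) ∈ φ '' I := ⟨y, hyI, hφy⟩
  rcases le_total (g x) (g y) with h | h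
  · refine (idx_eq_iff hfin h (h4 _ hgx)).2 fun ξ hξ hh => ?_
    exact h4 ξ (hoc.out hgx hgy ⟨hh.1.le, hh.2.le⟩) hξ
  · refine ((idx_eq_iff hfin h (h4 _ hgy)).2 fun ξ hξ hh => ?_).symm
    exact h4 ξ (hoc.out hgy hgx ⟨hh.1.le, hh.2.le⟩) hξ

/-- Proof. All four points are in the interval `I` of `component` for `x`, where `φ` is strictly
monotone or strictly antitone. -/
theorem orient {C : Type} [Finite C] (κ : ℚ → C) (G : Subgroup (Perm ℚ)) (hS : Std κ G)
    (g : Perm ℚ) (hg : g ∈ G) (x y x' y' : ℚ) (hl : linked κ G (κ x) (κ y))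
    (hl1 : linked κ G (κ x) (κ x')) (hl2 : linked κ G (κ x) (κ y'))
    (hi : idx (bad κ g (κ x)) x = idx (bad κ g (κ y)) y)
    (hi1 : idx (bad κ g (κ x)) x = idx (bad κ g (κ x')) x')
    (hi2 : idx (bad κ g (κ x)) x = idx (bad κ g (κ y')) y') (h : x < y) (h' : x' < y') :
    g x < g y ↔ g x' < g y' := by
  obtain ⟨I, φ, -, -, h3, -, h5⟩ := component κ G hS g hg x
  obtain ⟨hyI, hφy, -⟩ := h5 y hl hi
  obtain ⟨hxI, hφx, -⟩ := h5 x (linked_refl κ G _) rfl
  obtain ⟨hxI', hφx', -⟩ := h5 x' hl1 hi1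
  obtain ⟨hyI', hφy', -⟩ := h5 y' hl2 hi2
  have hxy : (x : ℝ) < y := by exact_mod_cast h
  have hxy' : (x' : ℝ) < y' := by exact_mod_cast h'
  rcases h3 with hm | hm
  · have k1 := hm hxI hyI hxy
    have k2 := hm hxI' hyI' hxy'
    rw [hφx, hφy] at k1
    rw [hφx', hφy'] at k2
    have k1' : g x < g y := by exact_mod_cast k1
    have k2' : g x' < g y' := by exact_mod_cast k2
    exact ⟨fun _ => k2', fun _ => k1'⟩
  · have k1 := hm hxI hyI hxy
    have k2 := hm hxI' hyI' hxy'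
    rw [hφx, hφy] at k1
    rw [hφx', hφy'] at k2
    have k1' : g y < g x := by exact_mod_cast k1
    have k2' : g y' < g x' := by exact_mod_cast k2
    exact ⟨fun hh => absurd hh (lt_asymm k1'), fun hh => absurd hh (lt_asymm k2')⟩

end Pool.Agent.Lib.H3C
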