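import Pool.Agent.Lib.H3C.H4

/-! # I1: patterns -/

namespace Pool.Agent.Lib.H3C

open Equiv Filter Topology

/-- The pattern of an element: numbers of bad points, and for every colour and index the colour and
index of the image piece and the orientation. -/
structure Pat (C : Type) (N : ℕ) where
  kc : C → Fin (N + 1)
  kc' : C → Fin (N + 1)
  P : C → Fin (N + 1) → C × Fin (N + 1) × Bool

/-- `p` is the pattern of `g` (`L`: the linking relation). -/
def HasPat {C : Type} {N : ℕ} (κ : ℚ → C) (L : C → C → Prop) (g : Perm ℚ) (p : Pat C N) : Prop :=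
  (∀ c, (bad κ g c).ncard = p.kc c) ∧ (∀ c, (bad κ g⁻¹ c).ncard = p.kc' c) ∧
  (∀ (x : ℚ) (i : Fin (N + 1)), idx (bad κ g (κ x)) x = i →
    κ (g x) = (p.P (κ x) i).1 ∧
      idx (bad κ g⁻¹ (κ (g x))) (g x) = (((p.P (κ x) i).2.1 : Fin (N + 1)) : ℕ)) ∧
  (∀ (x y : ℚ) (i : Fin (N + 1)), L (κ x) (κ y) → idx (bad κ g (κ x)) x = i →
    idx (bad κ g (κ y)) y = i → x < y → (g x < g y ↔ (p.P (κ x) i).2.2 = true))

theorem finite_pat (C : Type) [Finite C] (N : ℕ) : Finite (Pat C N) := by
  refine Finite.of_injective (fun p : Pat C N => (p.kc, p.kc', p.P)) ?_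
  rintro ⟨a, b, c⟩ ⟨a', b', c'⟩ h
  simp only [Prod.mk.injEq] at h
  obtain ⟨h1, h2, h3⟩ := h
  subst h1
  subst h2
  subst h3
  rfl

/-- Proof. `bad_finite` (for `g` and `g⁻¹`) and `idx_le` give the bounds.  For a colour `c` and an
index `i` for which there is a point `x` of colour `c` and index `i` let the value be
`(κ (g x), index of g x, decide (∃ x < y linked of index i with g x < g y))`, and anything otherwise;
`piece` (same colour is linked by `linked_refl`; the colour itself is constant by `component`: use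
`tendsto`/`exists_mono`) and `orient` show that it does not depend on `x`.
NOTE for the colour: for `x, y` of the same colour and index, `κ (g x) = κ (g y)`: this is
`same_color` below. -/
theorem exists_pat {C : Type} [Finite C] (κ : ℚ → C) (G : Subgroup (Perm ℚ)) (hS : Std κ G)
    (hcol : ∀ g ∈ G, ∀ x y : ℚ, κ x = κ y → idx (bad κ g (κ x)) x = idx (bad κ g (κ y)) y →
      κ (g x) = κ (g y))
    (g : Perm ℚ) (hg : g ∈ G) : ∃ p : Pat C (2 * Nat.card C), HasPat κ (linked κ G) g p := by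
  classical
  have hgi : g⁻¹ ∈ G := G.inv_mem hg
  have hb : ∀ c, (bad κ g c).ncard < 2 * Nat.card C + 1 := fun c =>
    Nat.lt_succ_of_le (bad_finite κ G hS g hg c).2
  have hb' : ∀ c, (bad κ g⁻¹ c).ncard < 2 * Nat.card C + 1 := fun c =>
    Nat.lt_succ_of_le (bad_finite κ G hS g⁻¹ hgi c).2
  have hi' : ∀ (c : C) (x : ℚ), idx (bad κ g⁻¹ c) x < 2 * Nat.card C + 1 := fun c x =>
    lt_of_le_of_lt (idx_le (bad_finite κ G hS g⁻¹ hgi c).1 x) (hb' c)
  let p : Pat C (2 * Nat.card C) :=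
    { kc := fun c => ⟨_, hb c⟩
      kc' := fun c => ⟨_, hb' c⟩
      P := fun c i =>
        if h : ∃ x : ℚ, κ x = c ∧ idx (bad κ g c) x = i then
          (κ (g h.choose), ⟨_, hi' (κ (g h.choose)) (g h.choose)⟩,
            decide (∃ x' y' : ℚ, linked κ G c (κ x') ∧ linked κ G c (κ y') ∧
              idx (bad κ g (κ x')) x' = i ∧ idx (bad κ g (κ y')) y' = i ∧ x' < y' ∧ g x' < g y'))
        else (c, 0, true) }
  refine ⟨p, fun c => rfl, fun c => rfl, ?_, ?_⟩
  · intro x i hx
    have h : ∃ x' : ℚ, κ x' = κ x ∧ idx (bad κ g (κ x)) x' = i := ⟨x, rfl, hx⟩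
    have hP : p.P (κ x) i = (κ (g h.choose), ⟨_, hi' (κ (g h.choose)) (g h.choose)⟩,
            decide (∃ x' y' : ℚ, linked κ G (κ x) (κ x') ∧ linked κ G (κ x) (κ y') ∧
              idx (bad κ g (κ x')) x' = i ∧ idx (bad κ g (κ y')) y' = i ∧ x' < y' ∧
              g x' < g y')) := dif_pos h
    have h1 := h.choose_spec.1
    have h2 := h.choose_spec.2
    rw [hP]
    have h3 : idx (bad κ g (κ x)) x = idx (bad κ g (κ h.choose)) h.choose := by
      rw [h1, h2, hx]
    refine ⟨hcol g hg x h.choose h1.symm h3, ?_⟩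
    have hl : linked κ G (κ x) (κ h.choose) := by
      rw [h1]
      exact linked_refl κ G _
    exact (piece κ G hS g hg x h.choose hl h3).2
  · intro x y i hl hx hy hxy
    have h : ∃ x' : ℚ, κ x' = κ x ∧ idx (bad κ g (κ x)) x' = i := ⟨x, rfl, hx⟩
    have hP : p.P (κ x) i = (κ (g h.choose), ⟨_, hi' (κ (g h.choose)) (g h.choose)⟩,
            decide (∃ x' y' : ℚ, linked κ G (κ x) (κ x') ∧ linked κ G (κ x) (κ y') ∧
              idx (bad κ g (κ x')) x' = i ∧ idx (bad κ g (κ y')) y' = i ∧ x' < y' ∧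
              g x' < g y')) := dif_pos h
    rw [hP]
    simp only [decide_eq_true_eq]
    constructor
    · intro hgg
      exact ⟨x, y, linked_refl κ G _, hl, hx, hy, hxy, hgg⟩
    · rintro ⟨x', y', hl1, hl2, hx', hy', hxy', hgg⟩
      exact (orient κ G hS g hg x y x' y' hl hl1 hl2 (by rw [hx, hy]) (by rw [hx, hx'])
        (by rw [hx, hy']) hxy hxy').2 hgg

/-- Points of the same colour in the same piece have images of the same colour.

Proof. As in `component`: `exists_mono` for the interval `I` (the colour `d` there is constant). -/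
theorem same_color {C : Type} [Finite C] (κ : ℚ → C) (G : Subgroup (Perm ℚ)) (hS : Std κ G)
    (g : Perm ℚ) (hg : g ∈ G) (x y : ℚ) (hc : κ x = κ y)
    (hi : idx (bad κ g (κ x)) x = idx (bad κ g (κ y)) y) : κ (g x) = κ (g y) := by
  have hfin := (bad_finite κ G hS g hg (κ x)).1
  have hxS : (x : ℝ) ∉ bad κ g (κ x) := own_not_bad κ G hS g hg x
  have hyS : (y : ℝ) ∉ bad κ g (κ x) := by
    rw [hc]
    exact own_not_bad κ G hS g hg y
  rw [← hc] at hi
  let I : Set ℝ := {ξ | ∀ s ∈ bad κ g (κ x), ξ ≠ s ∧ (s < ξ ↔ s < x)}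
  have hxI : (x : ℝ) ∈ I := fun s hs => ⟨fun h => hxS (h ▸ hs), Iff.rfl⟩
  have hyI : (y : ℝ) ∈ I := by
    intro s hs
    refine ⟨fun h => hyS (h ▸ hs), ?_⟩
    rcases le_total x y with hxy | hxy
    · have h1 := (idx_eq_iff hfin hxy hxS).1 hi s hs
      have hxy' : (x : ℝ) ≤ y := by exact_mod_cast hxy
      constructor
      · intro h2
        by_contra h3
        have h4 : (x : ℝ) < s := lt_of_le_of_ne (not_lt.1 h3) fun h => hxS (h ▸ hs)
        exact h1 ⟨h4, h2⟩
      · intro h2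
        exact lt_of_lt_of_le h2 hxy'
    · have h1 := (idx_eq_iff hfin hxy hyS).1 hi.symm s hs
      have hxy' : (y : ℝ) ≤ x := by exact_mod_cast hxy
      constructor
      · intro h2
        exact lt_of_lt_of_le h2 hxy'
      · intro h2
        by_contra h3
        have h4 : (y : ℝ) < s := lt_of_le_of_ne (not_lt.1 h3) fun h => hyS (h ▸ hs)
        exact h1 ⟨h4, h2⟩
  have hord : I.OrdConnected := by
    refine ⟨fun u hu v hv w hw s hs => ?_⟩
    obtain ⟨hu1, hu2⟩ := hu s hs
    obtain ⟨hv1, hv2⟩ := hv s hs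
    refine ⟨?_, ?_, ?_⟩
    · rintro rfl
      have h1 : u < w := lt_of_le_of_ne hw.1 hu1
      have h2 : w < v := lt_of_le_of_ne hw.2 (Ne.symm hv1)
      exact lt_asymm h1 (hu2.2 (hv2.1 h2))
    · intro h
      exact hv2.1 (lt_of_lt_of_le h hw.2)
    · intro h
      exact lt_of_lt_of_le (hu2.2 h) hw.1
  have hopen : IsOpen I := by
    have hI : I = ⋂ s ∈ bad κ g (κ x), {ξ : ℝ | ξ ≠ s ∧ (s < ξ ↔ s < x)} := by
      ext ξ
      simp [I]
    rw [hI]
    refine hfin.isOpen_biInter fun s _ => ?_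
    by_cases hs : s < (x : ℝ)
    · have : {ξ : ℝ | ξ ≠ s ∧ (s < ξ ↔ s < x)} = Set.Ioi s := by
        ext ξ
        constructor
        · rintro ⟨_, h⟩
          exact h.2 hs
        · intro h
          exact ⟨ne_of_gt h, fun _ => hs, fun _ => h⟩
      rw [this]
      exact isOpen_Ioi
    · have : {ξ : ℝ | ξ ≠ s ∧ (s < ξ ↔ s < x)} = Set.Iio s := by
        ext ξ
        constructor
        · rintro ⟨h0, h⟩
          exact lt_of_le_of_ne (not_lt.1 fun h1 => hs (h.1 h1)) h0
        · intro h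
          exact ⟨ne_of_lt h, fun h1 => absurd h1 (lt_asymm h), fun h1 => absurd h1 hs⟩
      rw [this]
      exact isOpen_Iio
  obtain ⟨d, φ, _, _, _, h4, _⟩ := exists_mono κ G hS g hg (κ x) I hord hopen ⟨_, hxI⟩
    (fun ξ hξ hb => (hξ ξ hb).1 rfl)
  rw [(h4 x hxI rfl).1, (h4 y hyI hc.symm).1]

end Pool.Agent.Lib.H3C
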