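import Pool.Agent.Lib.H3C.X1
import Pool.Agent.Lib.H3C.G1

/-! # I2a: placing a finite set block by block -/

namespace Pool.Agent.Lib.H3C

open Equiv Filter Topology

/-- Moving a finite set to a position prescribed by other cuts.

Proof. Treat the classes of linked colours separately (the equivalence relation on `F`:
`linked κ G (κ x) (κ y)`; e.g. choose a representative colour `r c` for every colour `c`, with
`r c = r d ↔ linked`, and note `S₁ c = S₁ (r c)`).  For a representative `r` take `u, v` from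
`idx_interval` for `S₁ r` and apply `placing` to `F.filter (r (κ x) = r)` with the intervals
`(u (i x), v (i x))`, `i x = idx (S₂ r) x`; `i` is monotone (`idx_mono`) and `≤ (S₂ r).ncard =
(S₁ r).ncard`, and the intervals are monotone by `idx_interval`; `Z` = the rationals whose value is
in `S₁ r` (a finite set, `S₁ r` finite).  Define `f x` by the function for `r (κ x)`. -/
theorem place_blocks {C : Type} [Finite C] (κ : ℚ → C) (hκ : Dn κ) (G : Subgroup (Perm ℚ))
    (F : Finset ℚ) (S₁ S₂ : C → Set ℝ) (h1 : ∀ c, (S₁ c).Finite) (h2 : ∀ c, (S₂ c).Finite)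
    (hn : ∀ c, (S₁ c).ncard = (S₂ c).ncard) (hS1 : ∀ c d, linked κ G c d → S₁ c = S₁ d)
    (hS2 : ∀ c d, linked κ G c d → S₂ c = S₂ d) :
    ∃ f : ℚ → ℚ, (∀ x ∈ F, κ (f x) = κ x ∧ idx (S₁ (κ x)) (f x) = idx (S₂ (κ x)) x) ∧
      ∀ x ∈ F, ∀ y ∈ F, linked κ G (κ x) (κ y) → x < y → f x < f y := by
  classical
  obtain ⟨r, hr1, hr2⟩ : ∃ r : C → C, (∀ c, linked κ G c (r c)) ∧
      ∀ c d, linked κ G c d → r c = r d := by
    let s : Setoid C := ⟨linked κ G, fun c => linked_refl κ G c,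
      fun {c d} h => linked_symm κ G c d h, fun {c d e'} h h' => linked_trans κ hκ G c d e' h h'⟩
    refine ⟨fun c => (Quotient.mk s c).out, fun c => ?_, fun c d h => ?_⟩
    · exact linked_symm κ G _ _ (Quotient.mk_out (s := s) c)
    · have h1 : Quotient.mk s c = Quotient.mk s d := Quotient.sound h
      show (Quotient.mk s c).out = (Quotient.mk s d).out
      rw [h1]
  choose u v h3 h4 h5 using fun c => idx_interval (h1 c)
  have hZ : ∀ c, {q : ℚ | (q : ℝ) ∈ S₁ c}.Finite := fun c =>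
    (h1 c).preimage (Rat.cast_injective.injOn)
  have hle : ∀ c x, idx (S₂ c) x ≤ (S₁ c).ncard := fun c x =>
    (idx_le (h2 c) x).trans (hn c).ge
  have key : ∀ c, ∃ f : ℚ → ℚ, (∀ x ∈ F.filter (fun x => r (κ x) = c), κ (f x) = κ x ∧
      u c (idx (S₂ c) x) < e (f x) ∧ e (f x) < v c (idx (S₂ c) x) ∧ f x ∉ (hZ c).toFinset) ∧
      ∀ x ∈ F.filter (fun x => r (κ x) = c), ∀ y ∈ F.filter (fun x => r (κ x) = c),
        x < y → f x < f y := by
    intro c
    refine placing κ hκ _ (fun x => u c (idx (S₂ c) x)) (fun x => v c (idx (S₂ c) x)) ?_ ?_ ?_ _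
    · intro x _
      exact h3 c _ (hle c x)
    · intro x _ y _ hxy
      rcases (idx_mono (h2 c) hxy.le).lt_or_eq with h6 | h6
      · exact (h3 c _ (hle c x)).le.trans (h4 c _ _ h6 (hle c y))
      · show u c (idx (S₂ c) x) ≤ u c (idx (S₂ c) y)
        rw [h6]
    · intro x _ y _ hxy
      rcases (idx_mono (h2 c) hxy.le).lt_or_eq with h6 | h6
      · exact (h4 c _ _ h6 (hle c y)).trans (h3 c _ (hle c y)).le
      · show v c (idx (S₂ c) x) ≤ v c (idx (S₂ c) y)
        rw [h6]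
  choose f hf1 hf2 using key
  refine ⟨fun x => f (r (κ x)) x, fun x hx => ?_, fun x hx y hy hl hxy => ?_⟩
  · obtain ⟨a1, a2, a3, a4⟩ := hf1 (r (κ x)) x (Finset.mem_filter.2 ⟨hx, rfl⟩)
    refine ⟨a1, ?_⟩
    rw [hS1 _ _ (hr1 (κ x)), hS2 _ _ (hr1 (κ x))]
    refine (h5 (r (κ x)) _ ?_ _ (hle _ x)).2 ⟨a2, a3⟩
    intro h
    exact a4 ((hZ (r (κ x))).mem_toFinset.2 h)
  · have h6 : r (κ x) = r (κ y) := hr2 _ _ hl
    show f (r (κ x)) x < f (r (κ y)) y
    rw [← h6]
    exact hf2 (r (κ x)) x (Finset.mem_filter.2 ⟨hx, rfl⟩) y (Finset.mem_filter.2 ⟨hy, h6.symm⟩) hxy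

end Pool.Agent.Lib.H3C
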