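import Pool.Agent.Lib.H3C.I1
import Pool.Agent.Lib.H3C.G4
import Pool.Agent.Lib.H3C.I2a

/-! # I2: the pattern determines the double coset -/

namespace Pool.Agent.Lib.H3C

open Equiv Filter Topology

/-- Proof. Closedness of `G₁`; let `F` be a finite set.  Take `a` from `place_blocks` with
`S₁ c = bad κ g₁ c`, `S₂ c = bad κ g₂ c` (`bad_eq`, `bad_finite`, equal cardinalities `p.kc`); `a` is
injective on `F` (equal values have equal colours, and the same colour is linked).  `G0_realizes` for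
`G₁` gives `α ∈ G0 κ G₁` with `α x = a x` on `F`.  Let `y x = g₁ (a x)`.  The map `y x ↦ g₂ x` satisfies
the hypotheses of `G0_realizes` for `G₁`: the colours are `(p.P (κ x) i).1` in both cases
(`i` = index of `x` for `g₂` = index of `a x` for `g₁`).  Let the colours of `y x`, `y x'` be linked
and `j x = idx (bad κ g₁⁻¹ (κ (y x))) (y x) = (p.P (κ x) i).2.1 = idx (bad κ g₂⁻¹ (κ (g₂ x))) (g₂ x)`,
similarly `j x'`.  Claim `y x < y x' → g₂ x < g₂ x'`.  The bad sets of `y x` and `y x'` are equal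
(`bad_eq` for `g₁⁻¹`), so `y x < y x'` implies `j x ≤ j x'` (`idx_mono`); if `j x < j x'` then
`g₂ x < g₂ x'` (otherwise `g₂ x' ≤ g₂ x` and `idx_mono`).  If `j x = j x'`: `piece` for `g₁⁻¹` at
`y x`, `y x'` gives that `κ x`, `κ x'` are linked and that `a x`, `a x'` have the same index `i`; so
`x`, `x'` have the same index for `g₂`.  If `x < x'` then `a x < a x'` and both `y x < y x'` and
`g₂ x < g₂ x'` are equivalent to `(p.P (κ x) i).2.2 = true`; if `x' < x` the same with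
`(p.P (κ x') i).2.2` for the reversed inequalities (`g₁`, `g₂` are injective).
So there is `β ∈ G0 κ G₁` with `β (g₁ (α x)) = g₂ x` on `F`, and `β * g₁ * α ∈ G₁`. -/
theorem mem_of_same_pat {C : Type} [Finite C] {N : ℕ} (κ : ℚ → C) (G₁ G₂ : Subgroup (Perm ℚ))
    (hS₁ : Std κ G₁) (hS₂ : Std κ G₂) (hcl : Cl G₁)
    (hL : ∀ c d, linked κ G₁ c d ↔ linked κ G₂ c d) (g₁ g₂ : Perm ℚ) (hg₁ : g₁ ∈ G₁)
    (hg₂ : g₂ ∈ G₂) (p : Pat C N) (hp₁ : HasPat κ (linked κ G₁) g₁ p)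
    (hp₂ : HasPat κ (linked κ G₂) g₂ p) : g₂ ∈ G₁ := by
  classical
  have hlt : ∀ x : ℚ, idx (bad κ g₂ (κ x)) x < N + 1 := by
    intro x
    have h1 := idx_le (bad_finite κ G₂ hS₂ g₂ hg₂ (κ x)).1 x
    rw [hp₂.1 (κ x)] at h1
    exact lt_of_le_of_lt h1 (p.kc (κ x)).2
  have hinv : g₁⁻¹ ∈ G₁ := G₁.inv_mem hg₁
  have hinv' : g₂⁻¹ ∈ G₂ := G₂.inv_mem hg₂
  apply hcl
  intro F
  obtain ⟨f, hf1, hf2⟩ := place_blocks κ hS₁.dn G₁ F (fun c => bad κ g₁ c) (fun c => bad κ g₂ c)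
    (fun c => (bad_finite κ G₁ hS₁ g₁ hg₁ c).1) (fun c => (bad_finite κ G₂ hS₂ g₂ hg₂ c).1)
    (fun c => by
      show (bad κ g₁ c).ncard = (bad κ g₂ c).ncard
      rw [hp₁.1 c, hp₂.1 c])
    (fun c d h => bad_eq κ G₁ hS₁ g₁ hg₁ c d h)
    (fun c d h => bad_eq κ G₂ hS₂ g₂ hg₂ c d ((hL c d).1 h))
  have hk : ∀ x ∈ F, κ (f x) = κ x := fun x hx => (hf1 x hx).1
  have hi : ∀ x ∈ F, idx (bad κ g₁ (κ x)) (f x) = idx (bad κ g₂ (κ x)) x :=
    fun x hx => (hf1 x hx).2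
  have hinj : ∀ x ∈ F, ∀ y ∈ F, f x = f y → x = y := by
    intro x hx y hy h
    have hc : κ x = κ y := by rw [← hk x hx, ← hk y hy, h]
    rcases lt_trichotomy x y with h1 | h1 | h1
    · have h2 := hf2 x hx y hy (by rw [hc]; exact linked_refl κ G₁ _) h1
      rw [h] at h2
      exact absurd h2 (lt_irrefl _)
    · exact h1
    · have h2 := hf2 y hy x hx (by rw [hc]; exact linked_refl κ G₁ _) h1
      rw [h] at h2
      exact absurd h2 (lt_irrefl _)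
  obtain ⟨α, hα, hα1⟩ := G0_realizes κ hS₁.dn G₁ hS₁.le (ι := {x // x ∈ F}) (fun i => i.1)
    (fun i => f i.1) Subtype.val_injective
    (fun i j h => Subtype.ext (hinj i.1 i.2 j.1 j.2 h))
    (fun i => (hk i.1 i.2).symm)
    (fun i j h h' => hf2 i.1 i.2 j.1 j.2 h h')
  -- data of a point
  have hd : ∀ x ∈ F, ∀ i : Fin (N + 1), idx (bad κ g₂ (κ x)) x = i →
      κ (g₁ (f x)) = κ (g₂ x) ∧ idx (bad κ g₁⁻¹ (κ (g₁ (f x)))) (g₁ (f x)) =
        idx (bad κ g₂⁻¹ (κ (g₂ x))) (g₂ x) := by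
    intro x hx i h
    have h1 := hp₁.2.2.1 (f x) i (by rw [hk x hx, hi x hx, h])
    have h2 := hp₂.2.2.1 x i h
    rw [hk x hx] at h1
    exact ⟨h1.1.trans h2.1.symm, h1.2.trans h2.2.symm⟩
  obtain ⟨β, hβ, hβ1⟩ := G0_realizes κ hS₁.dn G₁ hS₁.le (ι := {x // x ∈ F})
    (fun i => g₁ (f i.1)) (fun i => g₂ i.1)
    (fun i j h => Subtype.ext (hinj i.1 i.2 j.1 j.2 (g₁.injective h)))
    (fun i j h => Subtype.ext (g₂.injective h))
    (fun i => (hd i.1 i.2 ⟨_, hlt i.1⟩ rfl).1)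
    (by
      rintro ⟨x, hx⟩ ⟨y, hy⟩ hl h
      simp only at hl h ⊢
      obtain ⟨hx1, hx2⟩ := hd x hx ⟨_, hlt x⟩ rfl
      obtain ⟨hy1, hy2⟩ := hd y hy ⟨_, hlt y⟩ rfl
      have hB := bad_eq κ G₁ hS₁ g₁⁻¹ hinv _ _ hl
      have hl2 : linked κ G₂ (κ (g₂ x)) (κ (g₂ y)) := by
        rw [← hx1, ← hy1]
        exact (hL _ _).1 hl
      have hB2 := bad_eq κ G₂ hS₂ g₂⁻¹ hinv' _ _ hl2
      have hle : idx (bad κ g₁⁻¹ (κ (g₁ (f x)))) (g₁ (f x)) ≤
          idx (bad κ g₁⁻¹ (κ (g₁ (f y)))) (g₁ (f y)) := by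
        rw [hB]
        exact idx_mono (bad_finite κ G₁ hS₁ g₁⁻¹ hinv _).1 h.le
      rcases hle.lt_or_eq with h1 | h1
      · by_contra h2
        have h3 : idx (bad κ g₂⁻¹ (κ (g₂ y))) (g₂ y) ≤ idx (bad κ g₂⁻¹ (κ (g₂ x))) (g₂ x) := by
          rw [hB2]
          exact idx_mono (bad_finite κ G₂ hS₂ g₂⁻¹ hinv' _).1 (not_lt.1 h2)
        rw [hx2, hy2] at h1
        exact absurd h1 (not_lt.2 h3)
      · have h2 := piece κ G₁ hS₁ g₁⁻¹ hinv _ _ hl h1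
        rw [pia, pia, inv_inv] at h2
        obtain ⟨h3, h4⟩ := h2
        have h5 : idx (bad κ g₂ (κ x)) x = idx (bad κ g₂ (κ y)) y := by
          rw [← hi x hx, ← hi y hy, ← hk x hx, ← hk y hy]
          rw [hk x hx, hk y hy] at h4 ⊢
          exact h4
        have h3' : linked κ G₁ (κ x) (κ y) := by
          rw [hk x hx, hk y hy] at h3
          exact h3
        have h3'' : linked κ G₁ (κ y) (κ x) := linked_symm κ G₁ _ _ h3'
        rcases lt_trichotomy x y with h6 | h6 | h6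
        · have h7 := hf2 x hx y hy h3' h6
          have h8 := hp₁.2.2.2 (f x) (f y) ⟨_, hlt x⟩ h3 (by rw [hk x hx, hi x hx])
            (by rw [hk y hy, hi y hy, ← h5]) h7
          have h9 := hp₂.2.2.2 x y ⟨_, hlt x⟩ ((hL _ _).1 h3') rfl h5.symm h6
          rw [hk x hx] at h8
          exact h9.2 (h8.1 h)
        · subst h6
          exact absurd h (lt_irrefl _)
        · have h7 := hf2 y hy x hx h3'' h6
          have h8 := hp₁.2.2.2 (f y) (f x) ⟨_, hlt x⟩ (linked_symm κ G₁ _ _ h3)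
            (by rw [hk y hy, hi y hy, ← h5]) (by rw [hk x hx, hi x hx]) h7
          have h9 := hp₂.2.2.2 y x ⟨_, hlt x⟩ ((hL _ _).1 h3'') h5.symm rfl h6
          rw [hk y hy] at h8
          have h10 : ¬ g₂ y < g₂ x := fun h11 => lt_asymm h (h8.2 (h9.1 h11))
          exact lt_of_le_of_ne (not_lt.1 h10) (fun h11 => h6.ne' (g₂.injective h11)))
  refine ⟨β * g₁ * α, G₁.mul_mem (G₁.mul_mem hβ.1 hg₁) hα.1, fun x hx => ?_⟩
  have h1 := hα1 ⟨x, hx⟩
  have h2 := hβ1 ⟨x, hx⟩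
  simp only at h1 h2
  rw [Perm.mul_apply, Perm.mul_apply, h1, h2]

end Pool.Agent.Lib.H3C
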