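import Pool.Agent.Lib.H3C.I2
import Pool.Agent.Lib.H3C.C1
import Pool.Agent.Lib.H3C.C1b
import Pool.Agent.Lib.H3C.C5

/-! # J1: finitely many closed supergroups -/

namespace Pool.Agent.Lib.H3C

open Equiv Filter Topology

theorem J1_le {C : Type} [Finite C] (κ : ℚ → C) {G₁ G₂ : Subgroup (Perm ℚ)} (h₁ : Std κ G₁)
    (hc₁ : Cl G₁) (h₂ : Std κ G₂) (hL : linked κ G₁ = linked κ G₂)
    (hP : {p : Pat C (2 * Nat.card C) | ∃ g ∈ G₁, HasPat κ (linked κ G₁) g p} =
      {p : Pat C (2 * Nat.card C) | ∃ g ∈ G₂, HasPat κ (linked κ G₂) g p}) : G₂ ≤ G₁ := by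
  intro g₂ hg₂
  obtain ⟨p, hp⟩ := exists_pat κ G₂ h₂
    (fun g hg x y hc hi => same_color κ G₂ h₂ g hg x y hc hi) g₂ hg₂
  have h3 : p ∈ {p : Pat C (2 * Nat.card C) | ∃ g ∈ G₂, HasPat κ (linked κ G₂) g p} :=
    ⟨g₂, hg₂, hp⟩
  rw [← hP] at h3
  obtain ⟨g₁, hg₁, hp₁⟩ := h3
  exact mem_of_same_pat κ G₁ G₂ h₁ h₂ hc₁ (fun c d => by rw [hL]) g₁ g₂ hg₁ hg₂ p hp₁ hp

/-- Proof. Send `G` to `(linked κ G, {p | ∃ g ∈ G, HasPat κ (linked κ G) g p})` in
`(C → C → Prop) × Set (Pat C (2 * Nat.card C))`, a finite type.  The map is injective on the set: if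
`G₁`, `G₂` have the same image and `g₂ ∈ G₂`, then `g₂` has a pattern `p` (`exists_pat`, `same_color`),
some `g₁ ∈ G₁` has the same pattern and `mem_of_same_pat` gives `g₂ ∈ G₁`; by symmetry `G₁ = G₂`.
(`Set.Finite.of_injOn` or `Set.Finite.of_finite_image`.) -/
theorem finite_std {C : Type} [Finite C] (κ : ℚ → C) :
    {G : Subgroup (Perm ℚ) | Std κ G ∧ Cl G}.Finite := by
  have : Finite (Pat C (2 * Nat.card C)) := finite_pat C _
  let Φ : Subgroup (Perm ℚ) → (C → C → Prop) × Set (Pat C (2 * Nat.card C)) := fun G =>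
    (linked κ G, {p | ∃ g ∈ G, HasPat κ (linked κ G) g p})
  refine Set.Finite.of_finite_image (f := Φ) (Set.toFinite _) ?_
  rintro G₁ ⟨h₁, hc₁⟩ G₂ ⟨h₂, hc₂⟩ h
  have hL : linked κ G₁ = linked κ G₂ := congrArg Prod.fst h
  have hP : {p : Pat C (2 * Nat.card C) | ∃ g ∈ G₁, HasPat κ (linked κ G₁) g p} =
      {p : Pat C (2 * Nat.card C) | ∃ g ∈ G₂, HasPat κ (linked κ G₂) g p} := congrArg Prod.snd h
  exact le_antisymm (J1_le κ h₂ hc₂ h₁ hL.symm hP.symm) (J1_le κ h₁ hc₁ h₂ hL hP)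

theorem J1_aux (n : ℕ) : ∀ (C : Type) [Finite C], Nat.card C = n → ∀ κ : ℚ → C, Dn κ →
    FR (HH κ) := by
  induction n using Nat.strong_induction_on with
  | _ n ihn =>
    intro C _ hn κ hκ
    have ih : ∀ (C' : Type) [Finite C'], Nat.card C' < Nat.card C → ∀ κ' : ℚ → C', Dn κ' →
        FR (HH κ') := fun C' _ hlt κ' hκ' => ihn (Nat.card C') (hn ▸ hlt) C' rfl κ' hκ'
    have hA := finite_with_swaps ih κ hκ
    have hB : (⋃ p : {p : C × C // p.1 ≠ p.2},
        {G : Subgroup (Perm ℚ) | HH (mrg κ p.1.1 p.1.2 p.2) ≤ G ∧ Cl G}).Finite :=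
      Set.finite_iUnion fun p => ih {x : C // x ≠ p.1.2}
        (Finite.card_subtype_lt (x := p.1.2) (fun h => h rfl)) (mrg κ p.1.1 p.1.2 p.2)
        (dn_mrg κ hκ p.1.1 p.1.2 p.2)
    refine ((hA.union hB).union (finite_std κ)).subset ?_
    rintro G ⟨hle, hcl⟩
    by_cases h1 : N1 κ G
    · by_cases h2 : N2 κ G
      · exact Or.inr ⟨⟨hκ, hle, h1, h2⟩, hcl⟩
      · left
        right
        unfold N2 at h2
        push Not at h2
        obtain ⟨c, d, hcd, h⟩ := h2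
        exact Set.mem_iUnion.2 ⟨⟨(c, d), hcd⟩, R2 κ hκ G hle hcl c d hcd h, hcl⟩
    · left
      left
      unfold N1 at h1
      push Not at h1
      obtain ⟨c, h⟩ := h1
      have hR := R1 κ hκ G hle hcl c h
      obtain ⟨x, hx0, hx1, hxc⟩ := hκ 0 1 zero_lt_one c
      obtain ⟨y, hy0, hy1, hyc⟩ := hκ 1 2 one_lt_two c
      refine ⟨hle, hcl, c, x, y, (hx1.trans hy0).ne, hxc, hyc, hR _ fun z hz => ?_⟩
      refine swap_apply_of_ne_of_ne ?_ ?_
      · rintro rfl
        exact hz hxc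
      · rintro rfl
        exact hz hyc

/-- **The main theorem**: the group of a coloured dense order has finitely many closed supergroups.

Proof. Strong induction on `Nat.card C`.  Let `G ≥ HH κ` be closed.  (1) If `N1` fails for a colour
`c`, then `R1` shows that `G` contains all permutations supported by the points of colour `c`, so
`cr κ G c c`: finitely many by `finite_with_swaps`.  (2) If `N2` fails for `c ≠ d` then
`HH (mrg κ c d hcd) ≤ G` by `R2`; `mrg κ c d hcd` has values in a type with fewer elements and is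
dense (`dn_mrg`), so for given `c, d` finitely many by the induction hypothesis.  (3) Otherwise
`Std κ G`: `finite_std`.  Finite union. -/
theorem fr_HH {C : Type} [Finite C] (κ : ℚ → C) (hκ : Dn κ) : FR (HH κ) :=
  J1_aux (Nat.card C) C rfl κ hκ

end Pool.Agent.Lib.H3C
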