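import Pool.Agent.Lib.H3C.Defs
import Mathlib.ModelTheory.Definability

/-! # K1: automorphism groups of relational structures -/

namespace Pool.Agent.Lib.H3C

open Equiv FirstOrder Language

/-- The automorphism group of a relational structure, as a group of permutations. -/
def autP (L : Language.{0, 0}) (M : Type) [L.Structure M] : Subgroup (Perm M) where
  carrier := {σ | ∀ (n : ℕ) (R : L.Relations n) (x : Fin n → M),
    Structure.RelMap R (fun i => σ (x i)) ↔ Structure.RelMap R x}
  mul_mem' := fun {a b} ha hb n R x => (ha n R (fun i => b (x i))).trans (hb n R x)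
  one_mem' := fun _ _ _ => Iff.rfl
  inv_mem' := by
    intro a ha n R x
    have h := ha n R (fun i => a⁻¹ (x i))
    simp only [pai] at h
    exact h.symm

/-- Proof. If `σ` is approximated by elements of the group, compare `σ` with an element which agrees
with it on the range of `x`. -/
theorem cl_autP (L : Language.{0, 0}) (M : Type) [L.Structure M] : Cl (autP L M) := by
  classical
  intro σ h n R x
  obtain ⟨g, hg, hgx⟩ := h (Finset.univ.image x)
  have h1 : (fun i => σ (x i)) = fun i => g (x i) := by
    funext i
    exact (hgx (x i) (Finset.mem_image_of_mem x (Finset.mem_univ i))).symm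
  rw [h1]
  exact hg n R x

/-- Definable sets are invariant.

Proof. `σ` is an `L`-automorphism (`L` has no function symbols): build `M ≃[L] M` and use
`FirstOrder.Language.StrongHomClass.realize_formula` (or `realize_boundedFormula`) for the defining
formula (with parameters from the empty set; first remove the constants, `Set.empty_definable_iff`). -/
theorem inv_of_definable (L : Language.{0, 0}) (M : Type) [L.Structure M] (hL : L.IsRelational)
    {n : ℕ} (S : Set (Fin n → M)) (hS : (∅ : Set M).Definable L S) (σ : Perm M) (hσ : σ ∈ autP L M)
    (x : Fin n → M) : (fun i => σ (x i)) ∈ S ↔ x ∈ S := by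
  obtain ⟨φ, rfl⟩ := Set.empty_definable_iff.1 hS
  let e : M ≃[L] M :=
    { toEquiv := σ
      map_fun' := fun {n} f _ => (hL n).elim f
      map_rel' := fun {n} R y => hσ n R y }
  have h := StrongHomClass.realize_formula e φ (v := x)
  exact h

end Pool.Agent.Lib.H3C
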