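import Pool.Agent.Lib.H3C.K2a
import Pool.Agent.Lib.H3C.A1

/-! # K2: the theorem of Ryll-Nardzewski for relational structures -/

namespace Pool.Agent.Lib.H3C

open Equiv FirstOrder Language

private theorem K2_self (L : Language.{0, 0}) (M : Type) [L.Structure M] {n : ℕ}
    (a : Fin n → M) : a ∈ mdef L M a := fun _ hS => hS.2

private theorem K2_eq (L : Language.{0, 0}) (M : Type) [L.Structure M] {n : ℕ} (i j : Fin n) :
    (∅ : Set M).Definable L {x : Fin n → M | x i = x j} := by
  rw [Set.empty_definable_iff]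
  refine ⟨Term.equal (Term.var i) (Term.var j), ?_⟩
  ext x
  simp [Formula.realize_equal]

private theorem K2_rel (L : Language.{0, 0}) (M : Type) [L.Structure M] {n k : ℕ}
    (R : L.Relations k) (s : Fin k → Fin n) :
    (∅ : Set M).Definable L {y : Fin n → M | Structure.RelMap R (fun i => y (s i))} := by
  rw [Set.empty_definable_iff]
  refine ⟨R.formula (fun i => Term.var (s i)), ?_⟩
  ext x
  simp [Formula.realize_rel]

private theorem K2_img {M : Type} [DecidableEq M] {n : ℕ} (a b : Fin n → M) (c d : M) :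
    insert (c, d) (Finset.univ.image (fun i => (a i, b i))) =
      Finset.univ.image (fun i : Fin (n + 1) =>
        ((Fin.snoc a c : Fin (n + 1) → M) i, (Fin.snoc b d : Fin (n + 1) → M) i)) := by
  ext p
  simp only [Finset.mem_insert, Finset.mem_image, Finset.mem_univ, true_and]
  constructor
  · rintro (h | ⟨i, hi⟩)
    · exact ⟨Fin.last n, by rw [Fin.snoc_last, Fin.snoc_last, h]⟩
    · exact ⟨Fin.castSucc i, by rw [Fin.snoc_castSucc, Fin.snoc_castSucc, hi]⟩
  · rintro ⟨i, hi⟩
    revert hi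
    refine Fin.lastCases ?_ (fun j => ?_) i
    · intro hi
      rw [Fin.snoc_last, Fin.snoc_last] at hi
      exact Or.inl hi.symm
    · intro hi
      rw [Fin.snoc_castSucc, Fin.snoc_castSucc] at hi
      exact Or.inr ⟨j, hi⟩

/-- Tuples with the same smallest definable set are conjugate.

Proof. `backForth` with `X = Y = M` and `R` the set of the finite sets
`Finset.univ.image (fun i => (a i, b i))` with `b ∈ mdef L M a` (all `n` and `a b : Fin n → M`).
`hinj`: the set `{x | x i = x j}` is definable (`mdef` and `mdef_symm`).  `hl`: `mdef_ext` (the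
new set is `insert (x, y)` of the old one: `Fin.snoc`); `hr`: the same with `mdef_symm`.
The resulting `σ` preserves every relation: for `x : Fin k → M` all pairs `(x i, σ (x i))` are among
the `(a (s i), b (s i))` for some `s : Fin k → Fin n`, and `{y | RelMap R (y ∘ s)}` is definable. -/
theorem exists_aut_of_mdef (L : Language.{0, 0}) (M : Type) [L.Structure M] [Countable M]
    (hL : L.IsRelational) (hol : Olig (autP L M)) {n : ℕ} (a b : Fin n → M)
    (h : b ∈ mdef L M a) : ∃ σ ∈ autP L M, ∀ i, σ (a i) = b i := by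
  classical
  obtain ⟨R, hR⟩ : ∃ R : Set (Finset (M × M)), R = {r | ∃ (m : ℕ) (a b : Fin m → M),
      b ∈ mdef L M a ∧ r = Finset.univ.image (fun i => (a i, b i))} := ⟨_, rfl⟩
  have hinj : ∀ r ∈ R, ∀ p ∈ r, ∀ q ∈ r, p.1 = q.1 ↔ p.2 = q.2 := by
    intro r hr p hp q hq
    rw [hR] at hr
    obtain ⟨m, a, b, hb, rfl⟩ := hr
    rw [Finset.mem_image] at hp hq
    obtain ⟨i, -, rfl⟩ := hp
    obtain ⟨j, -, rfl⟩ := hq
    constructor
    · intro hij
      exact hb _ ⟨K2_eq L M i j, hij⟩
    · intro hij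
      exact (mdef_symm L M hL hol a b hb) _ ⟨K2_eq L M i j, hij⟩
  have hl : ∀ r ∈ R, ∀ x, ∃ y, insert (x, y) r ∈ R := by
    intro r hr x
    rw [hR] at hr
    obtain ⟨m, a, b, hb, rfl⟩ := hr
    obtain ⟨d, hd⟩ := mdef_ext L M hL hol a b hb x
    refine ⟨d, ?_⟩
    rw [hR]
    exact ⟨m + 1, _, _, hd, K2_img a b x d⟩
  have hr' : ∀ r ∈ R, ∀ y, ∃ x, insert (x, y) r ∈ R := by
    intro r hr y
    rw [hR] at hr
    obtain ⟨m, a, b, hb, rfl⟩ := hr
    obtain ⟨d, hd⟩ := mdef_ext L M hL hol b a (mdef_symm L M hL hol a b hb) y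
    refine ⟨d, ?_⟩
    rw [hR]
    exact ⟨m + 1, _, _, mdef_symm L M hL hol _ _ hd, K2_img a b d y⟩
  obtain ⟨σ, h1, h2⟩ := backForth R hinj hl hr' (Finset.univ.image (fun i => (a i, b i)))
    (by rw [hR]; exact ⟨n, a, b, h, rfl⟩)
  refine ⟨σ, ?_, fun i => h1 (a i, b i) (Finset.mem_image_of_mem _ (Finset.mem_univ i))⟩
  intro k R' x
  obtain ⟨r, hr, h3⟩ := h2 (Finset.univ.image x)
  rw [hR] at hr
  obtain ⟨m, a', b', hb', rfl⟩ := hr
  have h4 : ∀ i : Fin k, ∃ s : Fin m, a' s = x i ∧ b' s = σ (x i) := by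
    intro i
    have h5 := h3 (x i) (Finset.mem_image_of_mem _ (Finset.mem_univ i))
    rw [Finset.mem_image] at h5
    obtain ⟨s, -, hs⟩ := h5
    exact ⟨s, congrArg Prod.fst hs, congrArg Prod.snd hs⟩
  choose s hs1 hs2 using h4
  have h6 : (fun i => σ (x i)) = fun i => b' (s i) := funext (fun i => (hs2 i).symm)
  have h7 : x = fun i => a' (s i) := funext (fun i => (hs1 i).symm)
  rw [h6]
  constructor
  · intro hrel
    have := (mdef_symm L M hL hol a' b' hb') _ ⟨K2_rel L M R' s, hrel⟩
    rw [h7]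
    exact this
  · intro hrel
    rw [h7] at hrel
    exact hb' _ ⟨K2_rel L M R' s, hrel⟩

/-- **Invariant sets are definable.**

Proof. An invariant set `S` is the union of the sets `mdef a`, `a ∈ S` (`exists_aut_of_mdef`: if
`b ∈ mdef a` and `a ∈ S` then `b = σ a ∈ S`), and this is a union of a subset of the finite set of
definable sets: a finite union of definable sets. -/
theorem definable_of_inv (L : Language.{0, 0}) (M : Type) [L.Structure M] [Countable M]
    (hL : L.IsRelational) (hol : Olig (autP L M)) {n : ℕ} (S : Set (Fin n → M))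
    (hS : ∀ σ ∈ autP L M, ∀ x ∈ S, (fun i => σ (x i)) ∈ S) : (∅ : Set M).Definable L S := by
  classical
  have hfin : {X : Set (Fin n → M) | ∃ a ∈ S, X = mdef L M a}.Finite := by
    refine (finite_definable L M hL hol n).subset ?_
    rintro X ⟨a, -, rfl⟩
    exact definable_mdef L M hL hol a
  have hun : S = ⋃₀ {X : Set (Fin n → M) | ∃ a ∈ S, X = mdef L M a} := by
    ext b
    constructor
    · intro hb
      exact ⟨mdef L M b, ⟨b, hb, rfl⟩, K2_self L M b⟩
    · rintro ⟨X, ⟨a, ha, rfl⟩, hb⟩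
      obtain ⟨σ, hσ, h1⟩ := exists_aut_of_mdef L M hL hol a b hb
      have h2 := hS σ hσ a ha
      have h3 : (fun i => σ (a i)) = b := funext h1
      rw [h3] at h2
      exact h2
  have key : ∀ 𝒞 : Set (Set (Fin n → M)), 𝒞.Finite → (∀ X ∈ 𝒞, (∅ : Set M).Definable L X) →
      (∅ : Set M).Definable L (⋃₀ 𝒞) := by
    intro 𝒞 h𝒞
    induction 𝒞, h𝒞 using Set.Finite.induction_on with
    | empty =>
      intro _
      rw [Set.sUnion_empty]
      exact Set.definable_empty
    | insert hX h𝒞 ih =>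
      intro h
      rw [Set.sUnion_insert]
      exact (h _ (Set.mem_insert _ _)).union (ih (fun Y hY => h Y (Set.mem_insert_of_mem _ hY)))
  rw [hun]
  apply key _ hfin
  rintro X ⟨a, -, rfl⟩
  exact definable_mdef L M hL hol a

end Pool.Agent.Lib.H3C
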