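import Pool.Agent.Lib.H3C.K1

/-! # K2a: definable sets of a structure with finitely many orbits -/

namespace Pool.Agent.Lib.H3C

open Equiv FirstOrder Language

/-- There are finitely many definable sets of `n`-tuples.

Proof. They are invariant (`inv_of_definable`), so a definable set is determined by its intersection
with a finite set `T` of representatives of the orbits. -/
theorem finite_definable (L : Language.{0, 0}) (M : Type) [L.Structure M] (hL : L.IsRelational)
    (hol : Olig (autP L M)) (n : ℕ) :
    {S : Set (Fin n → M) | (∅ : Set M).Definable L S}.Finite := by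
  obtain ⟨T, hT⟩ := hol n
  apply Set.Finite.of_finite_image (f := fun S : Set (Fin n → M) => S ∩ (T : Set (Fin n → M)))
  · apply (T.finite_toSet.finite_subsets).subset
    rintro _ ⟨S, -, rfl⟩
    exact Set.inter_subset_right
  · intro S hS S' hS' he
    ext a
    obtain ⟨t, ht, h, hh, h1⟩ := hT a
    have ha : a = fun i => h (t i) := funext fun i => (h1 i).symm
    have he' : t ∈ S ∩ (T : Set (Fin n → M)) ↔ t ∈ S' ∩ (T : Set (Fin n → M)) := by
      have : S ∩ (T : Set (Fin n → M)) = S' ∩ (T : Set (Fin n → M)) := he
      rw [this]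
    rw [ha, inv_of_definable L M hL S hS h hh t, inv_of_definable L M hL S' hS' h hh t]
    constructor
    · intro h2
      exact (he'.mp ⟨h2, ht⟩).1
    · intro h2
      exact (he'.mpr ⟨h2, ht⟩).1

/-- The smallest definable set containing a tuple. -/
def mdef (L : Language.{0, 0}) (M : Type) [L.Structure M] {n : ℕ} (a : Fin n → M) :
    Set (Fin n → M) :=
  ⋂₀ {S | (∅ : Set M).Definable L S ∧ a ∈ S}

/-- Proof. A finite intersection of definable sets (`finite_definable`, induction over a finite set,
`Set.Definable.inter`, `Set.definable_univ`). -/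
theorem definable_mdef (L : Language.{0, 0}) (M : Type) [L.Structure M] (hL : L.IsRelational)
    (hol : Olig (autP L M)) {n : ℕ} (a : Fin n → M) : (∅ : Set M).Definable L (mdef L M a) := by
  have key : ∀ 𝒮 : Set (Set (Fin n → M)), 𝒮.Finite → (∀ S ∈ 𝒮, (∅ : Set M).Definable L S) →
      (∅ : Set M).Definable L (⋂₀ 𝒮) := by
    intro 𝒮 hf
    induction 𝒮, hf using Set.Finite.induction_on with
    | empty =>
      intro _
      rw [Set.sInter_empty]
      exact Set.definable_univ
    | insert _ _ ih =>
      intro h
      rw [Set.sInter_insert]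
      exact (h _ (Set.mem_insert _ _)).inter (ih fun S hS => h S (Set.mem_insert_of_mem _ hS))
  exact key _ ((finite_definable L M hL hol n).subset fun S hS => hS.1) fun S hS => hS.1

private theorem k2a_self (L : Language.{0, 0}) (M : Type) [L.Structure M] {n : ℕ}
    (a : Fin n → M) : a ∈ mdef L M a := fun _ hS => hS.2

private theorem k2a_sub (L : Language.{0, 0}) (M : Type) [L.Structure M] {n : ℕ}
    (a b : Fin n → M) (h : b ∈ mdef L M a) (S : Set (Fin n → M)) (hS : (∅ : Set M).Definable L S)
    (ha : a ∈ S) : b ∈ S := h S ⟨hS, ha⟩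

/-- Proof. If `a ∉ mdef b` then `mdef a \ mdef b` is definable and contains `a`, so it contains
`mdef a ∋ b`; but `b ∈ mdef b`. -/
theorem mdef_symm (L : Language.{0, 0}) (M : Type) [L.Structure M] (hL : L.IsRelational)
    (hol : Olig (autP L M)) {n : ℕ} (a b : Fin n → M) (h : b ∈ mdef L M a) : a ∈ mdef L M b := by
  by_contra hc
  have h1 := k2a_sub L M a b h (mdef L M a \ mdef L M b)
    ((definable_mdef L M hL hol a).sdiff (definable_mdef L M hL hol b)) ⟨k2a_self L M a, hc⟩
  exact h1.2 (k2a_self L M b)

/-- Proof. The projection of `mdef (Fin.snoc a c)` (forget the last coordinate,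
`Set.Definable.image_comp` with `Fin.castSucc`) is definable and contains `a`, so it contains `b`. -/
theorem mdef_ext (L : Language.{0, 0}) (M : Type) [L.Structure M] (hL : L.IsRelational)
    (hol : Olig (autP L M)) {n : ℕ} (a b : Fin n → M) (h : b ∈ mdef L M a) (c : M) :
    ∃ d : M, (Fin.snoc b d : Fin (n + 1) → M) ∈ mdef L M (Fin.snoc a c : Fin (n + 1) → M) := by
  have h1 := (definable_mdef L M hL hol (Fin.snoc a c : Fin (n + 1) → M)).image_comp
    (Fin.castSucc : Fin n → Fin (n + 1))
  have h2 := k2a_sub L M a b h _ h1 ⟨Fin.snoc a c, k2a_self L M _, by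
    funext i
    simp [Function.comp]⟩
  obtain ⟨g, hg, hgb⟩ := h2
  refine ⟨g (Fin.last n), ?_⟩
  have h3 : (Fin.snoc b (g (Fin.last n)) : Fin (n + 1) → M) = g := by
    rw [← hgb]
    exact Fin.snoc_init_self g
  rw [h3]
  exact hg

end Pool.Agent.Lib.H3C
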