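import Pool.Agent.Lib.H3C.K2
import Pool.Agent.Lib.H3C.A3

/-! # K3: reducts and closed groups -/

namespace Pool.Agent.Lib.H3C

open Equiv FirstOrder Language

/-- If the automorphism group has finitely many closed supergroups, the structure has finitely many
reducts.

Proof. For `L'`, `inst'` as in the set: `autP L M ≤ autP L' M` (the relations of `L'` are definable in
`L`: `inv_of_definable` for `{x | RelMap r x}`), it is closed (`cl_autP`) and has finitely many orbits
(`olig_mono`).  By `inv_of_definable` and `definable_of_inv` for `L'`: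
`D = {p | ∀ σ ∈ G, ∀ x ∈ p.2, (fun i => σ (x i)) ∈ p.2}` with `G = autP L' M`.  So the set of the `D`
is contained in the image of the finite set of the closed supergroups of `autP L M`. -/
theorem finite_reducts (L : Language.{0, 0}) (M : Type) [L.Structure M] [Countable M]
    (hL : L.IsRelational) (hol : Olig (autP L M)) (hfr : FR (autP L M)) :
    Set.Finite {D : Set (Σ n : ℕ, Set (Fin n → M)) |
      ∃ (L' : FirstOrder.Language.{0, 0}) (inst' : L'.Structure M), L'.IsRelational ∧
        (∀ (n : ℕ) (r : L'.Relations n),
          (∅ : Set M).Definable L (setOf (FirstOrder.Language.Structure.RelMap r))) ∧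
        D = {p : Σ n : ℕ, Set (Fin n → M) | (∅ : Set M).Definable L' p.2}} := by
  refine Set.Finite.subset (Set.Finite.image (fun G : Subgroup (Perm M) =>
    {p : Σ n : ℕ, Set (Fin n → M) | ∀ σ ∈ G, ∀ x ∈ p.2, (fun i => σ (x i)) ∈ p.2}) hfr) ?_
  rintro D ⟨L', inst', hL', hdef, rfl⟩
  have hle : autP L M ≤ autP L' M := by
    intro σ hσ n R x
    exact inv_of_definable L M hL _ (hdef n R) σ hσ x
  refine ⟨autP L' M, ⟨hle, cl_autP L' M⟩, ?_⟩
  ext p
  constructor
  · intro h
    exact definable_of_inv L' M hL' (olig_mono hle hol) p.2 h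
  · intro h σ hσ x hx
    exact (inv_of_definable L' M hL' p.2 h σ hσ x).mpr hx

end Pool.Agent.Lib.H3C
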