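import Pool.Agent.Lib.H3C.K1
import Mathlib.ModelTheory.Fraisse

/-! # L1: homogeneous coloured linear orders -/

namespace Pool.Agent.Lib.H3C

open Equiv FirstOrder Language

/-- Relation symbols: a binary symbol `<` and unary symbols indexed by `ι`. -/
inductive ColRel (ι : Type) : ℕ → Type
  | col (i : ι) : ColRel ι 1
  | lt : ColRel ι 2

/-- The language of coloured linear orders. -/
def colL (ι : Type) : Language.{0, 0} := ⟨fun _ => Empty, ColRel ι⟩

/-- The abstract form of a homogeneous coloured linear order: finite partial isomorphisms extend. -/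
def Hom {M T : Type} [LinearOrder M] (t : M → T) (H : Subgroup (Perm M)) : Prop :=
  (∀ σ : Perm M, σ ∈ H ↔ (∀ x y, x < y → σ x < σ y) ∧ ∀ x, t (σ x) = t x) ∧
  ∀ (F : Finset M) (f : M → M), (∀ x ∈ F, t (f x) = t x) → (∀ x ∈ F, ∀ y ∈ F, x < y → f x < f y) →
    ∃ h ∈ H, ∀ x ∈ F, h x = f x

/-- The colour of a point: the set of the unary predicates which hold. -/
def ctype {ι : Type} {M : Type} [(colL ι).Structure M] (x : M) : Set ι :=
  {i | Structure.RelMap (L := colL ι) (ColRel.col i) (fun _ : Fin 1 => x)}

private theorem L1_rel1 {ι : Type} {M : Type} [(colL ι).Structure M] (i : ι) (x : Fin 1 → M) :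
    Structure.RelMap (L := colL ι) (ColRel.col i) x ↔ i ∈ ctype (ι := ι) (x 0) := by
  have h : x = fun _ : Fin 1 => x 0 := by
    funext j
    rw [Subsingleton.elim j 0]
  constructor
  · intro h1
    rw [h] at h1
    exact h1
  · intro h1
    rw [h]
    exact h1

private theorem L1_rel2 {ι : Type} {M : Type} [LinearOrder M] [(colL ι).Structure M]
    (hlt : ∀ x y : M, Structure.RelMap (L := colL ι) ColRel.lt ![x, y] ↔ x < y)
    (x : Fin 2 → M) : Structure.RelMap (L := colL ι) ColRel.lt x ↔ x 0 < x 1 := by
  have h : x = ![x 0, x 1] := by
    funext j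
    fin_cases j <;> rfl
  rw [← hlt, ← h]

/-- Proof. First clause: unfold `autP`; for a permutation, preserving `<` in one direction and
colours is the same as preserving all relations in both directions (linear order).  Second clause: the
finite set `F` is the carrier of a finitely generated substructure `S` (no function symbols), `f`
restricts to an embedding `S ↪[colL ι] M`; `hu` extends it to an automorphism, whose underlying
permutation is in `autP`. -/
theorem hom_of_ultra (ι : Type) (M : Type) [LinearOrder M] [(colL ι).Structure M]
    (hlt : ∀ x y : M, Structure.RelMap (L := colL ι) ColRel.lt ![x, y] ↔ x < y)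
    (hu : (colL ι).IsUltrahomogeneous M) :
    Hom (fun x : M => ctype (ι := ι) x) (autP (colL ι) M) := by
  constructor
  · intro σ
    constructor
    · intro hσ
      refine ⟨fun x y hxy => ?_, fun x => ?_⟩
      · have h := hσ 2 ColRel.lt ![x, y]
        rw [L1_rel2 hlt, L1_rel2 hlt] at h
        exact h.2 hxy
      · ext i
        have h := hσ 1 (ColRel.col i) (fun _ => x)
        rw [L1_rel1, L1_rel1] at h
        exact h
    · rintro ⟨h1, h2⟩ n R x
      cases R with
      | col i =>
        rw [L1_rel1, L1_rel1]
        have h3 : ctype (ι := ι) (σ (x 0)) = ctype (ι := ι) (x 0) := h2 (x 0)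
        rw [h3]
      | lt =>
        rw [L1_rel2 hlt, L1_rel2 hlt]
        constructor
        · intro h
          by_contra hn
          rcases (not_lt.1 hn).lt_or_eq with h3 | h3
          · exact lt_asymm h (h1 _ _ h3)
          · rw [h3] at h
            exact lt_irrefl _ h
        · exact h1 _ _
  · intro F f hf1 hf2
    have hrel : (colL ι).IsRelational := fun n => show IsEmpty Empty from inferInstance
    let S : (colL ι).Substructure M :=
      { carrier := (F : Set M)
        fun_mem := fun {n} g => (show Empty from g).elim }
    have hS : S.FG := by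
      refine ⟨F, ?_⟩
      apply SetLike.coe_injective
      exact Substructure.closure_eq_of_isRelational (colL ι) (F : Set M)
    have hmem : ∀ x : S, (x : M) ∈ F := fun x => x.2
    have hstrict : ∀ x ∈ F, ∀ y ∈ F, (f x < f y ↔ x < y) := by
      intro x hx y hy
      refine ⟨fun h => ?_, hf2 x hx y hy⟩
      by_contra hn
      rcases (not_lt.1 hn).lt_or_eq with h3 | h3
      · exact lt_asymm h (hf2 y hy x hx h3)
      · rw [h3] at h
        exact lt_irrefl _ h
    let φ : S ↪[colL ι] M :=
      { toFun := fun x => f x
        inj' := by
          intro x y hxy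
          apply Subtype.ext
          rcases lt_trichotomy (x : M) (y : M) with h | h | h
          · have := hf2 _ (hmem x) _ (hmem y) h
            exact absurd hxy this.ne
          · exact h
          · have := hf2 _ (hmem y) _ (hmem x) h
            exact absurd hxy this.ne'
        map_fun' := fun {n} g => (show Empty from g).elim
        map_rel' := by
          intro n R x
          cases R with
          | col i =>
            rw [L1_rel1]
            show i ∈ ctype (ι := ι) (f (x 0)) ↔
              Structure.RelMap (L := colL ι) (ColRel.col i) (fun j => (x j : M))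
            have h3 : ctype (ι := ι) (f (x 0)) = ctype (ι := ι) (x 0 : M) := hf1 _ (hmem (x 0))
            rw [L1_rel1, h3]
          | lt =>
            rw [L1_rel2 hlt]
            show f (x 0) < f (x 1) ↔
              Structure.RelMap (L := colL ι) ColRel.lt (fun j => (x j : M))
            rw [L1_rel2 hlt]
            exact hstrict _ (hmem (x 0)) _ (hmem (x 1)) }
    obtain ⟨g, hg⟩ := hu S hS φ
    refine ⟨g.toEquiv, ?_, ?_⟩
    · intro n R x
      exact g.map_rel' R x
    · intro x hx
      have h := congrArg (fun k : S ↪[colL ι] M => k ⟨x, hx⟩) hg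
      exact h.symm

end Pool.Agent.Lib.H3C
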