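import Pool.Agent.Lib.H3C.L1

/-! # L2: the colour classes of a homogeneous coloured linear order -/

namespace Pool.Agent.Lib.H3C

open Equiv

variable {M T : Type} [LinearOrder M] (t : M → T) (H : Subgroup (Perm M))

/-- The colour `c` has at least two points. -/
def Big {M T : Type} (t : M → T) (c : T) : Prop := ∃ x y : M, x ≠ y ∧ t x = c ∧ t y = c

/-- The colours `c` and `d` are interleaved. -/
def Il {M T : Type} [LinearOrder M] (t : M → T) (c d : T) : Prop :=
  (∃ x y : M, t x = c ∧ t y = d ∧ x < y) ∧ ∃ x y : M, t x = c ∧ t y = d ∧ y < x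

variable {t H} in
private theorem l2_one (hH : Hom t H) {x z : M} (h : t z = t x) : ∃ g ∈ H, g x = z := by
  obtain ⟨g, hg, h1⟩ := hH.2 {x} (fun _ => z)
    (fun w hw => by rw [Finset.mem_singleton.mp hw]; exact h)
    (fun w hw w' hw' hlt => by
      rw [Finset.mem_singleton.mp hw, Finset.mem_singleton.mp hw'] at hlt
      exact absurd hlt (lt_irrefl _))
  exact ⟨g, hg, h1 x (Finset.mem_singleton_self x)⟩

open Classical in
variable {t H} in
private theorem l2_two (hH : Hom t H) {x y x' y' : M} (hxy : x < y) (hxy' : x' < y')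
    (hx : t x' = t x) (hy : t y' = t y) : ∃ g ∈ H, g x = x' ∧ g y = y' := by
  have e1 : ∀ w ∈ ({x, y} : Finset M), t (if w = x then x' else y') = t w := by
    intro w hw
    rcases Finset.mem_insert.mp hw with h | h
    · rw [h, if_pos rfl]
      exact hx
    · rw [Finset.mem_singleton.mp h, if_neg hxy.ne']
      exact hy
  have e2 : ∀ w ∈ ({x, y} : Finset M), ∀ w' ∈ ({x, y} : Finset M), w < w' →
      (if w = x then x' else y') < (if w' = x then x' else y') := by
    intro w hw w' hw' hlt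
    rcases Finset.mem_insert.mp hw with h | h
    · rcases Finset.mem_insert.mp hw' with h' | h'
      · rw [h, h'] at hlt
        exact absurd hlt (lt_irrefl _)
      · rw [h, Finset.mem_singleton.mp h', if_pos rfl, if_neg hxy.ne']
        exact hxy'
    · rcases Finset.mem_insert.mp hw' with h' | h'
      · rw [Finset.mem_singleton.mp h, h'] at hlt
        exact absurd (hlt.trans hxy) (lt_irrefl _)
      · rw [Finset.mem_singleton.mp h, Finset.mem_singleton.mp h'] at hlt
        exact absurd hlt (lt_irrefl _)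
  obtain ⟨g, hg, h1⟩ := hH.2 {x, y} (fun w => if w = x then x' else y') e1 e2
  refine ⟨g, hg, ?_, ?_⟩
  · rw [h1 x (by simp)]
    simp
  · rw [h1 y (by simp), if_neg hxy.ne']

/-- Proof. Let `x < y` have the colour `c` (exists by `Big`; `z` may be mapped to): the map `x ↦ z` is
a partial isomorphism, so there is `h ∈ H` with `h x = z`, and `h y > z`.  Similarly `y ↦ z` gives a
smaller point. -/
theorem big_unbounded (hH : Hom t H) (c : T) (hb : Big t c) (z : M) (hz : t z = c) :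
    (∃ x, t x = c ∧ x < z) ∧ ∃ y, t y = c ∧ z < y := by
  have key : ∀ x y : M, x < y → t x = c → t y = c →
      (∃ x, t x = c ∧ x < z) ∧ ∃ y, t y = c ∧ z < y := by
    intro x y hxy hx hy
    obtain ⟨g, hg, h1⟩ := l2_one hH (x := x) (z := z) (by rw [hx, hz])
    obtain ⟨g', hg', h1'⟩ := l2_one hH (x := y) (z := z) (by rw [hy, hz])
    have hm := (hH.1 g).mp hg
    have hm' := (hH.1 g').mp hg'
    refine ⟨⟨g' x, by rw [hm'.2, hx], ?_⟩, ⟨g y, by rw [hm.2, hy], ?_⟩⟩
    · rw [← h1']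
      exact hm'.1 _ _ hxy
    · have := hm.1 _ _ hxy
      rwa [h1] at this
  obtain ⟨x, y, hxy, hx, hy⟩ := hb
  rcases lt_or_gt_of_ne hxy with h | h
  · exact key x y h hx hy
  · exact key y x h hy hx

/-- Proof. `Il` gives `x < y` and `y' < x'` of colours `c`, `d`; map `x ↦ z`, `x' ↦ z`. -/
theorem il_unbounded (hH : Hom t H) (c d : T) (hi : Il t c d) (z : M) (hz : t z = c) :
    (∃ x, t x = d ∧ x < z) ∧ ∃ y, t y = d ∧ z < y := by
  obtain ⟨⟨x, y, hx, hy, hxy⟩, x', y', hx', hy', hxy'⟩ := hi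
  obtain ⟨g, hg, h1⟩ := l2_one hH (x := x) (z := z) (by rw [hx, hz])
  obtain ⟨g', hg', h1'⟩ := l2_one hH (x := x') (z := z) (by rw [hx', hz])
  have hm := (hH.1 g).mp hg
  have hm' := (hH.1 g').mp hg'
  refine ⟨⟨g' y', by rw [hm'.2, hy'], ?_⟩, ⟨g y, by rw [hm.2, hy], ?_⟩⟩
  · have := hm'.1 _ _ hxy'
    rwa [h1'] at this
  · have := hm.1 _ _ hxy
    rwa [h1] at this

theorem il_symm (c d : T) (h : Il t c d) : Il t d c := by
  obtain ⟨⟨x, y, hx, hy, hxy⟩, x', y', hx', hy', hxy'⟩ := h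
  exact ⟨⟨y', x', hy', hx', hxy'⟩, y, x, hy, hx, hxy⟩

theorem il_refl (c : T) (h : Big t c) : Il t c c := by
  obtain ⟨x, y, hxy, hx, hy⟩ := h
  rcases lt_or_gt_of_ne hxy with h | h
  · exact ⟨⟨x, y, hx, hy, h⟩, y, x, hy, hx, h⟩
  · exact ⟨⟨y, x, hy, hx, h⟩, x, y, hx, hy, h⟩

/-- Proof. For `x` of colour `c` (exists) take `y > x` of colour `d` and `z > y` of colour `e`
(`il_unbounded` twice); similarly below. -/
theorem il_trans (hH : Hom t H) (c d e' : T) (h : Il t c d) (h' : Il t d e') : Il t c e' := by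
  obtain ⟨⟨x, -, hx, -, -⟩, -⟩ := id h
  obtain ⟨⟨y₁, hy₁, h1⟩, y₂, hy₂, h2⟩ := il_unbounded t H hH c d h x hx
  obtain ⟨⟨z₁, hz₁, h3⟩, -⟩ := il_unbounded t H hH d e' h' y₁ hy₁
  obtain ⟨-, z₂, hz₂, h4⟩ := il_unbounded t H hH d e' h' y₂ hy₂
  exact ⟨⟨x, z₂, hx, hz₂, h2.trans h4⟩, x, z₁, hx, hz₁, h3.trans h1⟩

/-- Interleaved colours are big.  Proof. `il_unbounded` for `c, d` and then for `d, c`. -/
theorem big_of_il (hH : Hom t H) (c d : T) (h : Il t c d) : Big t c := by
  obtain ⟨⟨x, -, hx, -, -⟩, -⟩ := id h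
  obtain ⟨-, y, hy, h1⟩ := il_unbounded t H hH c d h x hx
  obtain ⟨-, z, hz, h2⟩ := il_unbounded t H hH d c (il_symm t c d h) y hy
  exact ⟨x, z, (h1.trans h2).ne, hx, hz⟩

/-- Interleaved colours are dense in each other.

Proof. First let `t x = t y = c`.  If `d = c`: take `z > y` of colour `c`; `x ↦ x`, `z ↦ y` is a
partial isomorphism, `h ∈ H` with `h x = x`, `h z = y` maps `y` into `(x, y)`.  In general, if there is
no point of colour `d` in `(x, y)`, then by homogeneity there is none between any two points of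
colour `c`; but for `w` of colour `d` there are points `x' < w < y'` of colour `c` (`il_unbounded`
for `d, c`); contradiction.
Now let `t x = c`, `t y = c'`.  It is enough to find a point `x'` of colour `c` in `(x, y)` (then use
the first part for `x, x'`).  If there is none then by homogeneity there is none for any pair
`x₁ < y₁` of colours `c`, `c'`; but take `x₁ < x₂` of colour `c` and `y₁ > x₂` of colour `c'`
(`il_unbounded`). -/
theorem il_dense (hH : Hom t H) (c c' d : T) (h : Il t c c') (h' : Il t c d) (x y : M)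
    (hx : t x = c) (hy : t y = c') (hxy : x < y) : ∃ z, t z = d ∧ x < z ∧ z < y := by
  have P : ∀ x y : M, t x = c → t y = c → x < y → ∃ z, t z = d ∧ x < z ∧ z < y := by
    intro x y hx hy hxy
    obtain ⟨⟨-, w, -, hw, -⟩, -⟩ := id h'
    obtain ⟨⟨x', hx', h1⟩, y', hy', h2⟩ := il_unbounded t H hH d c (il_symm t c d h') w hw
    obtain ⟨g, hg, g1, g2⟩ := l2_two hH (h1.trans h2) hxy (by rw [hx, hx']) (by rw [hy, hy'])
    have hm := (hH.1 g).mp hg
    refine ⟨g w, by rw [hm.2, hw], ?_, ?_⟩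
    · rw [← g1]
      exact hm.1 _ _ h1
    · rw [← g2]
      exact hm.1 _ _ h2
  obtain ⟨⟨x₂, -, hx₂, -, -⟩, -⟩ := id h
  obtain ⟨⟨x₁, hx₁, h1⟩, -⟩ := big_unbounded t H hH c (big_of_il t H hH c c' h) x₂ hx₂
  obtain ⟨-, y₁, hy₁, h2⟩ := il_unbounded t H hH c c' h x₂ hx₂
  obtain ⟨g, hg, g1, g2⟩ := l2_two hH (h1.trans h2) hxy (by rw [hx, hx₁]) (by rw [hy, hy₁])
  have hm := (hH.1 g).mp hg
  have h3 : x < g x₂ := by
    rw [← g1]
    exact hm.1 _ _ h1
  have h4 : g x₂ < y := by
    rw [← g2]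
    exact hm.1 _ _ h2
  obtain ⟨z, hz, h5, h6⟩ := P x (g x₂) hx (by rw [hm.2, hx₂]) h3
  exact ⟨z, hz, h5, h6.trans h4⟩

end Pool.Agent.Lib.H3C
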