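import Pool.Agent.Lib.H3C.Defs
import Mathlib.NumberTheory.Padics.PadicVal.Basic

/-! # L3a: dense colourings -/

namespace Pool.Agent.Lib.H3C

private theorem L3a_frac (a b : ℚ) (hab : a < b) (k : ℕ) (hk : 3 / (b - a) < (2 : ℚ) ^ k) :
    ∃ s : ℤ, a < (s : ℚ) / (2 : ℚ) ^ k ∧ (s : ℚ) / (2 : ℚ) ^ k < b ∧
      ((s : ℚ) / (2 : ℚ) ^ k).den = 2 ^ k := by
  have hba : 0 < b - a := sub_pos.2 hab
  have hP : (0 : ℚ) < (2 : ℚ) ^ k := by positivity
  rw [div_lt_iff₀ hba] at hk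
  set t : ℤ := ⌊(2 : ℚ) ^ k * a⌋ + 1 with ht
  have h1 : (2 : ℚ) ^ k * a < (t : ℚ) := by
    rw [ht]
    push_cast
    exact Int.lt_floor_add_one _
  have h2 : (t : ℚ) ≤ (2 : ℚ) ^ k * a + 1 := by
    rw [ht]
    push_cast
    have := Int.floor_le ((2 : ℚ) ^ k * a)
    linarith
  obtain ⟨s, hs1, hs2, hs3⟩ : ∃ s : ℤ, t ≤ s ∧ s ≤ t + 1 ∧ Odd s := by
    rcases Int.even_or_odd t with h | h
    · exact ⟨t + 1, by omega, le_rfl, h.add_one⟩
    · exact ⟨t, le_rfl, by omega, h⟩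
  have hs1' : (t : ℚ) ≤ (s : ℚ) := by exact_mod_cast hs1
  have hs2' : (s : ℚ) ≤ (t : ℚ) + 1 := by exact_mod_cast hs2
  refine ⟨s, ?_, ?_, ?_⟩
  · rw [lt_div_iff₀ hP]
    linarith
  · rw [div_lt_iff₀ hP]
    linarith
  · have h3 : Nat.Coprime s.natAbs ((2 : ℤ) ^ k).natAbs := by
      rw [Int.natAbs_pow]
      refine Nat.Coprime.pow_right k ?_
      show Nat.Coprime s.natAbs 2
      rw [Nat.coprime_two_right, Int.natAbs_odd]
      exact hs3
    have h4 := Rat.den_div_eq_of_coprime (a := s) (b := (2 : ℤ) ^ k) (by positivity) h3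
    push_cast at h4
    exact_mod_cast h4

/-- There are dense colourings.

Proof. Let `n = Nat.card C > 0` and `C ≃ Fin n`.  Let `κ q` be the class of
the exponent of `2` in the denominator, `padicValNat 2 q.den`, modulo `n`.  In `(a, b)` there are fractions `m / 2 ^ k` with `m` odd for every
large `k` (two consecutive multiples of `1 / 2 ^ k`, one of them has an odd numerator), and their
denominator is exactly `2 ^ k`; choose `k` in the required class modulo `n`. -/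
theorem exists_dense_coloring (C : Type) [Finite C] [Nonempty C] : ∃ κ : ℚ → C, Dn κ := by
  obtain ⟨n, ⟨e⟩⟩ := Finite.exists_equiv_fin C
  have hn : 0 < n := by
    obtain ⟨c⟩ := (inferInstance : Nonempty C)
    exact lt_of_le_of_lt (Nat.zero_le _) (e c).2
  refine ⟨fun q => e.symm ⟨padicValNat 2 q.den % n, Nat.mod_lt _ hn⟩, fun a b hab c => ?_⟩
  obtain ⟨m, hm⟩ := pow_unbounded_of_one_lt (3 / (b - a)) (one_lt_two : (1 : ℚ) < 2)
  have hk : 3 / (b - a) < (2 : ℚ) ^ ((e c : ℕ) + n * m) := by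
    refine lt_of_lt_of_le hm (pow_le_pow_right₀ one_le_two ?_)
    have : 1 * m ≤ n * m := Nat.mul_le_mul_right m hn
    omega
  obtain ⟨s, h1, h2, h3⟩ := L3a_frac a b hab _ hk
  refine ⟨_, h1, h2, ?_⟩
  show e.symm ⟨padicValNat 2 ((s : ℚ) / (2 : ℚ) ^ ((e c : ℕ) + n * m)).den % n, _⟩ = c
  rw [Equiv.symm_apply_eq]
  refine Fin.ext ?_
  show padicValNat 2 ((s : ℚ) / (2 : ℚ) ^ ((e c : ℕ) + n * m)).den % n = (e c : ℕ)
  rw [h3, padicValNat.prime_pow, Nat.add_mul_mod_self_left, Nat.mod_eq_of_lt (e c).2]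

end Pool.Agent.Lib.H3C
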