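import Pool.Agent.Lib.H3C.L2
import Pool.Agent.Lib.H3C.A1
import Pool.Agent.Lib.H3C.B1
import Pool.Agent.Lib.H3C.L3a

/-! # L3: a copy of the coloured rationals -/

namespace Pool.Agent.Lib.H3C

open Equiv

private theorem L3_right {M T : Type} [LinearOrder M] (t : M → T) (H : Subgroup (Perm M))
    (hH : Hom t H) (κ : ℚ → {c : T // Big t c}) (r : Finset (ℚ × {x : M // Big t (t x)}))
    (h1 : ∀ p ∈ r, t p.2 = κ p.1)
    (h3 : ∀ p ∈ r, ∀ q ∈ r, Il t (κ p.1) (κ q.1) → (p.1 < q.1 ↔ (p.2 : M) < q.2)) (x : ℚ) :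
    ∃ z : M, t z = κ x ∧ ∀ p ∈ r, Il t (κ p.1) (κ x) →
      (p.1 < x → (p.2 : M) < z) ∧ (x < p.1 → z < p.2) := by
  classical
  obtain ⟨L, hL⟩ : ∃ L : Finset (ℚ × {x : M // Big t (t x)}),
      ∀ p, p ∈ L ↔ p ∈ r ∧ Il t (κ p.1) (κ x) ∧ p.1 < x :=
    ⟨r.filter fun p => Il t (κ p.1) (κ x) ∧ p.1 < x, fun p => Finset.mem_filter⟩
  obtain ⟨U, hU⟩ : ∃ U : Finset (ℚ × {x : M // Big t (t x)}),
      ∀ p, p ∈ U ↔ p ∈ r ∧ Il t (κ p.1) (κ x) ∧ x < p.1 :=
    ⟨r.filter fun p => Il t (κ p.1) (κ x) ∧ x < p.1, fun p => Finset.mem_filter⟩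
  have key : ∀ z : M, (∀ p ∈ L, (p.2 : M) < z) → (∀ p ∈ U, z < p.2) →
      ∀ p ∈ r, Il t (κ p.1) (κ x) → (p.1 < x → (p.2 : M) < z) ∧ (x < p.1 → z < p.2) :=
    fun z hz1 hz2 p hp hi => ⟨fun h => hz1 p ((hL p).2 ⟨hp, hi, h⟩),
      fun h => hz2 p ((hU p).2 ⟨hp, hi, h⟩)⟩
  rcases L.eq_empty_or_nonempty with hLe | hLn
  · have hL0 : ∀ z : M, ∀ p ∈ L, (p.2 : M) < z := by
      intro z p hp
      rw [hLe] at hp
      exact absurd hp (Finset.notMem_empty p)
    rcases U.eq_empty_or_nonempty with hUe | hUn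
    · obtain ⟨a, b, hab, ha, hb⟩ := (κ x).2
      refine ⟨a, ha, key a (hL0 a) ?_⟩
      intro p hp
      rw [hUe] at hp
      exact absurd hp (Finset.notMem_empty p)
    · obtain ⟨q, hq, hqm⟩ := Finset.exists_min_image U (fun p => (p.2 : M)) hUn
      obtain ⟨hqr, hqi, hqx⟩ := (hU q).1 hq
      obtain ⟨⟨z, hz, hzq⟩, _⟩ := il_unbounded t H hH (κ q.1) (κ x) hqi q.2 (h1 q hqr)
      exact ⟨z, hz, key z (hL0 z) fun p hp => lt_of_lt_of_le hzq (hqm p hp)⟩
  · obtain ⟨p, hp, hpm⟩ := Finset.exists_max_image L (fun p => (p.2 : M)) hLn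
    obtain ⟨hpr, hpi, hpx⟩ := (hL p).1 hp
    rcases U.eq_empty_or_nonempty with hUe | hUn
    · obtain ⟨_, ⟨z, hz, hzp⟩⟩ := il_unbounded t H hH (κ p.1) (κ x) hpi p.2 (h1 p hpr)
      refine ⟨z, hz, key z (fun p' hp' => lt_of_le_of_lt (hpm p' hp') hzp) ?_⟩
      intro p' hp'
      rw [hUe] at hp'
      exact absurd hp' (Finset.notMem_empty p')
    · obtain ⟨q, hq, hqm⟩ := Finset.exists_min_image U (fun p => (p.2 : M)) hUn
      obtain ⟨hqr, hqi, hqx⟩ := (hU q).1 hq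
      have hpq : Il t (κ p.1) (κ q.1) := il_trans t H hH _ _ _ hpi (il_symm t _ _ hqi)
      have hlt : (p.2 : M) < q.2 := (h3 p hpr q hqr hpq).1 (hpx.trans hqx)
      obtain ⟨z, hz, hz1, hz2⟩ := il_dense t H hH (κ p.1) (κ q.1) (κ x) hpq hpi p.2 q.2
        (h1 p hpr) (h1 q hqr) hlt
      exact ⟨z, hz, key z (fun p' hp' => lt_of_le_of_lt (hpm p' hp') hz1)
        fun p' hp' => lt_of_lt_of_le hz2 (hqm p' hp')⟩

private theorem L3_e (a b : ℚ) : e a < e b ↔ a < b := by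
  unfold e
  rw [EReal.coe_lt_coe_iff, Rat.cast_lt]

private theorem L3_left {M T : Type} [LinearOrder M] (t : M → T) (H : Subgroup (Perm M))
    (hH : Hom t H) (κ : ℚ → {c : T // Big t c}) (hκ : Dn κ)
    (r : Finset (ℚ × {x : M // Big t (t x)}))
    (h3 : ∀ p ∈ r, ∀ q ∈ r, Il t (κ p.1) (κ q.1) → (p.1 < q.1 ↔ (p.2 : M) < q.2))
    (y : {x : M // Big t (t x)}) :
    ∃ x : ℚ, κ x = ⟨t y, y.2⟩ ∧ (∀ p ∈ r, p.1 ≠ x) ∧ ∀ p ∈ r, Il t (κ p.1) (t y) →
      ((p.2 : M) < y → p.1 < x) ∧ ((y : M) < p.2 → x < p.1) := by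
  classical
  obtain ⟨L, hL⟩ : ∃ L : Finset (ℚ × {x : M // Big t (t x)}),
      ∀ p, p ∈ L ↔ p ∈ r ∧ Il t (κ p.1) (t y) ∧ (p.2 : M) < y :=
    ⟨r.filter fun p => Il t (κ p.1) (t y) ∧ (p.2 : M) < y, fun p => Finset.mem_filter⟩
  obtain ⟨U, hU⟩ : ∃ U : Finset (ℚ × {x : M // Big t (t x)}),
      ∀ p, p ∈ U ↔ p ∈ r ∧ Il t (κ p.1) (t y) ∧ (y : M) < p.2 :=
    ⟨r.filter fun p => Il t (κ p.1) (t y) ∧ (y : M) < p.2, fun p => Finset.mem_filter⟩
  have hbot : (⊥ : EReal) < U.inf fun p => e p.1 := by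
    rw [Finset.lt_inf_iff bot_lt_top]
    intro p _
    exact EReal.bot_lt_coe _
  have huv : (L.sup fun p => e p.1) < U.inf fun p => e p.1 := by
    rw [Finset.sup_lt_iff hbot]
    intro p hp
    refine (Finset.lt_inf_iff (EReal.coe_lt_top _)).2 fun q hq => ?_
    obtain ⟨hpr, hpi, hpy⟩ := (hL p).1 hp
    obtain ⟨hqr, hqi, hqy⟩ := (hU q).1 hq
    exact (L3_e _ _).2
      ((h3 p hpr q hqr (il_trans t H hH _ _ _ hpi (il_symm t _ _ hqi))).2 (hpy.trans hqy))
  obtain ⟨x, hux, hxv, hκx, hxZ⟩ := exists_col κ hκ _ _ huv ⟨t y, y.2⟩ (r.image Prod.fst)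
  refine ⟨x, hκx, ?_, ?_⟩
  · intro p hp hpx
    apply hxZ
    rw [← hpx]
    exact Finset.mem_image_of_mem Prod.fst hp
  · intro p hp hi
    constructor
    · intro h
      rw [← L3_e]
      exact lt_of_le_of_lt
        (Finset.le_sup (f := fun p : ℚ × {x : M // Big t (t x)} => e p.1)
          ((hL p).2 ⟨hp, hi, h⟩)) hux
    · intro h
      rw [← L3_e]
      exact lt_of_lt_of_le hxv
        (Finset.inf_le (f := fun p : ℚ × {x : M // Big t (t x)} => e p.1)
          ((hU p).2 ⟨hp, hi, h⟩))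

/-- The points with big colours are a copy of the coloured rationals, where the order is remembered
only between interleaved colours.

Proof. Take `κ` from `exists_dense_coloring`.  `backForth` with `X = ℚ`, `Y = {x : M // Big t (t x)}`
and `R` the set of the finite `r ⊆ X × Y` such that for `p, q ∈ r`: `t p.2 = κ p.1`,
`p.1 = q.1 ↔ p.2 = q.2`, and if `Il t (κ p.1) (κ q.1)` then `p.1 < q.1 ↔ p.2 < q.2`; start with `∅`.
Extension on the right (`x : ℚ` new, colour `c = κ x`, `Big t c`): among the pairs of colours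
interleaved with `c` let `p` be the one with the largest `p.1 < x` and `q` the one with the smallest
`q.1 > x`; by `il_dense` there is a point of colour `c` between `p.2` and `q.2` (if only one of them
exists use `il_unbounded`, if none exists any point of colour `c`); it is different from all second
coordinates in `r` (those of interleaved colours by the order, the others by the colour: `c` is
interleaved with itself, `il_refl`).  Extension on the left: the same with `exists_col`. -/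
theorem exists_copy_big {M T : Type} [LinearOrder M] [Countable M] [Finite T] (t : M → T)
    (H : Subgroup (Perm M)) (hH : Hom t H) (hn : ∃ c, Big t c) :
    ∃ (κ : ℚ → {c : T // Big t c}) (φ : ℚ ≃ {x : M // Big t (t x)}), Dn κ ∧
      (∀ q, t (φ q) = κ q) ∧
      ∀ q q', Il t (κ q) (κ q') → (q < q' ↔ ((φ q : {x : M // Big t (t x)}) : M) < φ q') := by
  have : Nonempty {c : T // Big t c} := by
    obtain ⟨c, hc⟩ := hn
    exact ⟨⟨c, hc⟩⟩
  obtain ⟨κ, hκ⟩ := exists_dense_coloring {c : T // Big t c}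
  obtain ⟨R, hR⟩ : ∃ R : Set (Finset (ℚ × {x : M // Big t (t x)})), ∀ r, r ∈ R ↔
      (∀ p ∈ r, t p.2 = κ p.1) ∧ (∀ p ∈ r, ∀ q ∈ r, p.1 = q.1 ↔ p.2 = q.2) ∧
      ∀ p ∈ r, ∀ q ∈ r, Il t (κ p.1) (κ q.1) → (p.1 < q.1 ↔ (p.2 : M) < q.2) :=
    ⟨{r | (∀ p ∈ r, t p.2 = κ p.1) ∧ (∀ p ∈ r, ∀ q ∈ r, p.1 = q.1 ↔ p.2 = q.2) ∧
      ∀ p ∈ r, ∀ q ∈ r, Il t (κ p.1) (κ q.1) → (p.1 < q.1 ↔ (p.2 : M) < q.2)},
      fun r => Iff.rfl⟩
  have hins : ∀ r ∈ R, ∀ (x : ℚ) (y : {x : M // Big t (t x)}), t y = κ x →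
      (∀ p ∈ r, p.1 ≠ x) → (∀ p ∈ r, p.2 ≠ y) →
      (∀ p ∈ r, Il t (κ p.1) (κ x) → (p.1 < x ↔ (p.2 : M) < y)) →
      insert (x, y) r ∈ R := by
    intro r hr x y hty hx hy hlt
    obtain ⟨h1, h2, h3⟩ := (hR r).1 hr
    rw [hR]
    refine ⟨?_, ?_, ?_⟩
    · intro p hp
      rcases Finset.mem_insert.1 hp with rfl | hp
      · exact hty
      · exact h1 p hp
    · intro p hp q hq
      rcases Finset.mem_insert.1 hp with rfl | hp
      · rcases Finset.mem_insert.1 hq with rfl | hq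
        · exact ⟨fun _ => rfl, fun _ => rfl⟩
        · exact ⟨fun h => absurd h.symm (hx q hq), fun h => absurd h.symm (hy q hq)⟩
      · rcases Finset.mem_insert.1 hq with rfl | hq
        · exact ⟨fun h => absurd h (hx p hp), fun h => absurd h (hy p hp)⟩
        · exact h2 p hp q hq
    · intro p hp q hq hi
      rcases Finset.mem_insert.1 hp with rfl | hp
      · rcases Finset.mem_insert.1 hq with rfl | hq
        · exact ⟨fun h => absurd h (lt_irrefl _), fun h => absurd h (lt_irrefl _)⟩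
        · have h4 := hlt q hq (il_symm t _ _ hi)
          have h5 : q.1 ≠ x := hx q hq
          have h6 : (q.2 : M) ≠ y := fun h => hy q hq (Subtype.ext h)
          constructor
          · intro h
            by_contra hcon
            exact lt_asymm h (h4.2 (lt_of_le_of_ne (not_lt.1 hcon) h6))
          · intro h
            by_contra hcon
            exact lt_asymm h (h4.1 (lt_of_le_of_ne (not_lt.1 hcon) h5))
      · rcases Finset.mem_insert.1 hq with rfl | hq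
        · exact hlt p hp hi
        · exact h3 p hp q hq hi
  have hl : ∀ r ∈ R, ∀ x, ∃ y, insert (x, y) r ∈ R := by
    intro r hr x
    obtain ⟨h1, h2, h3⟩ := (hR r).1 hr
    by_cases hx : ∃ p ∈ r, p.1 = x
    · obtain ⟨p, hp, rfl⟩ := hx
      refine ⟨p.2, ?_⟩
      rw [Prod.mk.eta, Finset.insert_eq_of_mem hp]
      exact hr
    · have hx' : ∀ p ∈ r, p.1 ≠ x := fun p hp h => hx ⟨p, hp, h⟩
      obtain ⟨z, hz, hzp⟩ := L3_right t H hH κ r h1 h3 x
      have hzb : Big t (t z) := by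
        rw [hz]
        exact (κ x).2
      have hne : ∀ p ∈ r, (p.2 : M) ≠ z := by
        intro p hp h
        have h4 : Il t (κ p.1) (κ x) := by
          rw [← h1 p hp, h, hz]
          exact il_refl t _ (κ x).2
        have h5 := hzp p hp h4
        rcases lt_or_gt_of_ne (hx' p hp) with h6 | h6
        · exact absurd h (h5.1 h6).ne
        · exact absurd h (h5.2 h6).ne'
      refine ⟨⟨z, hzb⟩, hins r hr x ⟨z, hzb⟩ hz hx' (fun p hp h => hne p hp (congrArg _ h)) ?_⟩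
      intro p hp hi
      have h5 := hzp p hp hi
      constructor
      · exact h5.1
      · intro h
        by_contra hcon
        have h6 : x < p.1 := lt_of_le_of_ne (not_lt.1 hcon) (hx' p hp).symm
        exact lt_asymm h (h5.2 h6)
  have hr' : ∀ r ∈ R, ∀ y, ∃ x, insert (x, y) r ∈ R := by
    intro r hr y
    obtain ⟨h1, h2, h3⟩ := (hR r).1 hr
    by_cases hy : ∃ p ∈ r, p.2 = y
    · obtain ⟨p, hp, rfl⟩ := hy
      refine ⟨p.1, ?_⟩
      rw [Prod.mk.eta, Finset.insert_eq_of_mem hp]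
      exact hr
    · have hy' : ∀ p ∈ r, p.2 ≠ y := fun p hp h => hy ⟨p, hp, h⟩
      obtain ⟨x, hκx, hx, hxp⟩ := L3_left t H hH κ hκ r h3 y
      have hty : t y = κ x := by rw [hκx]
      refine ⟨x, hins r hr x y hty hx hy' ?_⟩
      intro p hp hi
      rw [← hty] at hi
      have h5 := hxp p hp hi
      constructor
      · intro h
        by_contra hcon
        have h6 : (y : M) < p.2 :=
          lt_of_le_of_ne (not_lt.1 hcon) fun h7 => hy' p hp (Subtype.ext h7.symm)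
        exact lt_asymm h (h5.2 h6)
      · exact h5.1
  have hinj : ∀ r ∈ R, ∀ p ∈ r, ∀ q ∈ r, p.1 = q.1 ↔ p.2 = q.2 := fun r hr =>
    ((hR r).1 hr).2.1
  have h0 : (∅ : Finset (ℚ × {x : M // Big t (t x)})) ∈ R := by
    rw [hR]
    refine ⟨?_, ?_, ?_⟩
    · intro p hp
      exact absurd hp (Finset.notMem_empty p)
    · intro p hp
      exact absurd hp (Finset.notMem_empty p)
    · intro p hp
      exact absurd hp (Finset.notMem_empty p)
  obtain ⟨σ, -, hσ⟩ := backForth R hinj hl hr' ∅ h0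
  refine ⟨κ, σ, hκ, ?_, ?_⟩
  · intro q
    obtain ⟨r, hr, hq⟩ := hσ {q}
    exact ((hR r).1 hr).1 _ (hq q (Finset.mem_singleton_self q))
  · intro q q' hi
    obtain ⟨r, hr, hq⟩ := hσ {q, q'}
    exact ((hR r).1 hr).2.2 _ (hq q (by simp)) _ (hq q' (by simp)) hi

end Pool.Agent.Lib.H3C
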