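import Pool.Agent.Lib.H3C.B2

/-! # L4: extension of permutations by the identity -/

namespace Pool.Agent.Lib.H3C

open Equiv

/-- The permutations `φ ∘ τ ∘ φ⁻¹` on the range of `φ`, the identity outside, for `τ ∈ K`. -/
def extG {M : Type} {p : M → Prop} [DecidablePred p] (φ : ℚ ≃ Subtype p)
    (K : Subgroup (Perm ℚ)) : Subgroup (Perm M) :=
  K.map (Equiv.Perm.extendDomainHom φ)

/-- Proof. For a `k`-tuple `a` in `M` let `J` be the set of the `i` with `p (a i)`.  For every `J` and
every function from the complement of `J` to the finite set `{x | ¬ p x}` and every one of the finitely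
many representatives of the orbits on `k`-tuples of `ℚ` (`h`) build a tuple; these represent all
orbits (fill the coordinates outside `J` of the rational tuple with arbitrary values; if `J` is
empty there is nothing to do). -/
theorem olig_extG {M : Type} {p : M → Prop} [DecidablePred p] (φ : ℚ ≃ Subtype p)
    (K : Subgroup (Perm ℚ)) (h : Olig K) (hfin : {x : M | ¬ p x}.Finite) : Olig (extG φ K) := by
  classical
  intro k
  obtain ⟨T, hT⟩ := h k
  have : Finite {x : M // ¬ p x} := hfin.to_subtype
  let _ : Fintype {x : M // ¬ p x} := Fintype.ofFinite _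
  refine ⟨(T ×ˢ (Finset.univ : Finset (Fin k → Option {x : M // ¬ p x}))).image
    (fun q i => (q.2 i).elim ((φ (q.1 i) : Subtype p) : M) (fun y => (y : M))), fun a => ?_⟩
  obtain ⟨t, ht, g, hg, h1⟩ := hT fun i => if hp : p (a i) then φ.symm ⟨a i, hp⟩ else 0
  refine ⟨fun i => if p (a i) then ((φ (t i) : Subtype p) : M) else a i, ?_,
    Equiv.Perm.extendDomainHom φ g, ⟨g, hg, rfl⟩, fun i => ?_⟩
  · rw [Finset.mem_image]
    refine ⟨(t, fun i => if hp : p (a i) then none else some ⟨a i, hp⟩),
      Finset.mem_product.2 ⟨ht, Finset.mem_univ _⟩, ?_⟩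
    funext i
    by_cases hp : p (a i)
    · simp [hp]
    · simp [hp]
  · show (g.extendDomain φ) (if p (a i) then ((φ (t i) : Subtype p) : M) else a i) = a i
    by_cases hp : p (a i)
    · have h2 := h1 i
      rw [dif_pos hp] at h2
      rw [if_pos hp, Equiv.Perm.extendDomain_apply_image, h2, Equiv.apply_symm_apply]
    · rw [if_neg hp]
      exact Equiv.Perm.extendDomain_apply_not_subtype g φ hp

end Pool.Agent.Lib.H3C
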