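import Pool.Agent.Lib.H3C.L4

/-! # L4b: closed supergroups of an extended group -/

namespace Pool.Agent.Lib.H3C

open Equiv

private theorem L4b_ext {M : Type} {p : M → Prop} [DecidablePred p] (φ : ℚ ≃ Subtype p)
    (g : Perm M) (hg : ∀ x, ¬ p x → g x = x) : ∃ τ : Perm ℚ, Equiv.Perm.extendDomain τ φ = g := by
  have hp : ∀ x, p (g x) ↔ p x := by
    intro x
    constructor
    · intro h
      by_contra hn
      rw [hg x hn] at h
      exact hn h
    · intro h
      by_contra hn
      have h1 := hg (g x) hn
      have h2 := g.injective h1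
      rw [h2] at hn
      exact hn h
  refine ⟨(φ.permCongr).symm (g.subtypePerm hp), ?_⟩
  apply Equiv.ext
  intro x
  by_cases hx : p x
  · rw [Perm.extendDomain_apply_subtype _ _ hx]
    simp [Equiv.permCongr]
  · rw [Perm.extendDomain_apply_not_subtype _ _ hx, hg x hx]

/-- Proof. `G ↦ {τ | τ.extendDomain φ ∈ G}` is injective on `Sup (extG φ K) F` (every `g ∈ G` fixes the
points outside `p`, so it maps the points with `p` to themselves and is the extension of its
restriction) and its values are closed and contain `K`. -/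
theorem sup_extG_finite {M : Type} {p : M → Prop} [DecidablePred p] (φ : ℚ ≃ Subtype p)
    (K : Subgroup (Perm ℚ)) (h : FR K) (F : Finset M) (hF : ∀ x, x ∈ F ↔ ¬ p x) :
    (Sup (extG φ K) F).Finite := by
  refine Set.Finite.of_injOn (f := fun G : Subgroup (Perm M) =>
    G.comap (Equiv.Perm.extendDomainHom φ)) (t := {G : Subgroup (Perm ℚ) | K ≤ G ∧ Cl G})
    ?_ ?_ h
  · rintro G ⟨h1, h2, h3⟩
    refine ⟨?_, ?_⟩
    · unfold extG at h1
      rw [Subgroup.map_le_iff_le_comap] at h1
      exact h1
    · intro σ hσ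
      show Equiv.Perm.extendDomain σ φ ∈ G
      apply h2
      intro F'
      classical
      have hinj : Function.Injective (fun q => ((φ q : Subtype p) : M)) :=
        fun a b hab => φ.injective (Subtype.ext hab)
      obtain ⟨g, hg, hgx⟩ := hσ (F'.preimage (fun q => ((φ q : Subtype p) : M)) hinj.injOn)
      refine ⟨Equiv.Perm.extendDomain g φ, hg, fun x hx => ?_⟩
      by_cases hpx : p x
      · rw [Perm.extendDomain_apply_subtype _ _ hpx, Perm.extendDomain_apply_subtype _ _ hpx]
        rw [hgx]
        refine Finset.mem_preimage.2 ?_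
        show ((φ (φ.symm ⟨x, hpx⟩) : Subtype p) : M) ∈ F'
        rw [Equiv.apply_symm_apply]
        exact hx
      · rw [Perm.extendDomain_apply_not_subtype _ _ hpx, Perm.extendDomain_apply_not_subtype _ _ hpx]
  · have key : ∀ G1 ∈ Sup (extG φ K) F, ∀ G2 : Subgroup (Perm M),
        G1.comap (Equiv.Perm.extendDomainHom φ) = G2.comap (Equiv.Perm.extendDomainHom φ) →
          G1 ≤ G2 := by
      rintro G1 ⟨_, _, h3⟩ G2 he g hg
      obtain ⟨τ, hτ⟩ := L4b_ext φ g (fun x hx => h3 g hg x ((hF x).2 hx))
      have h4 : τ ∈ G1.comap (Equiv.Perm.extendDomainHom φ) := by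
        show Equiv.Perm.extendDomain τ φ ∈ G1
        rw [hτ]
        exact hg
      rw [he] at h4
      have h5 : Equiv.Perm.extendDomain τ φ ∈ G2 := h4
      rw [hτ] at h5
      exact h5
    intro G1 hG1 G2 hG2 he
    exact le_antisymm (key G1 hG1 G2 he) (key G2 hG2 G1 he.symm)

end Pool.Agent.Lib.H3C
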