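import Pool.Agent.Lib.H3C.L4
import Pool.Agent.Lib.H3C.L2

/-! # L5a: the copy of the coloured rationals in a homogeneous coloured linear order -/

namespace Pool.Agent.Lib.H3C

open Equiv

/-- A point whose colour is not big is fixed by `H`.  Proof. `h x` has the same colour as `x`. -/
theorem small_fixed {M T : Type} [LinearOrder M] (t : M → T) (H : Subgroup (Perm M))
    (hH : Hom t H) (x : M) (hx : ¬ Big t (t x)) (h : Perm M) (hh : h ∈ H) : h x = x := by
  by_contra hne
  exact hx ⟨x, h x, fun he => hne he.symm, rfl, ((hH.1 h).1 hh).2 x⟩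

/-- There are finitely many points whose colour is not big.  Proof. `t` is injective on them. -/
theorem small_finite {M T : Type} [LinearOrder M] [Finite T] (t : M → T) :
    {x : M | ¬ Big t (t x)}.Finite := by
  refine Set.Finite.of_finite_image (f := t) (Set.toFinite _) ?_
  intro x hx y _ hxy
  by_contra hne
  exact hx ⟨x, y, hne, rfl, hxy.symm⟩

private theorem l5a_up {M T : Type} [LinearOrder M] (t : M → T) (H : Subgroup (Perm M))
    (hH : Hom t H) {x y z : M} (hx : ¬ Big t (t x)) (_ : Big t (t y)) (hz : t z = t y) :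
    (x < y → x < z) ∧ (y < x → z < x) := by
  obtain ⟨h, hh, hf⟩ := hH.2 {y} (fun _ => z)
    (fun w hw => by rw [Finset.mem_singleton] at hw; rw [hw, hz])
    (fun w hw w' hw' hlt => by
      rw [Finset.mem_singleton] at hw hw'
      rw [hw, hw'] at hlt
      exact absurd hlt (lt_irrefl _))
  have h1 : h y = z := hf y (Finset.mem_singleton_self y)
  have h2 : h x = x := small_fixed t H hH x hx h hh
  have hm := ((hH.1 h).1 hh).1
  constructor
  · intro hlt
    have := hm _ _ hlt
    rwa [h1, h2] at this
  · intro hlt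
    have := hm _ _ hlt
    rwa [h1, h2] at this

/-- Proof. Let `τ ∈ HH κ`, `σ = τ.extendDomain φ`.  `σ` preserves `t` (`t (φ q) = κ q`).  Let `x < y`;
we show `σ x < σ y`.  If both colours are big and interleaved: the order of `φ q`, `φ q'` is that
of `q`, `q'`, and `τ` is increasing.  If both are big and not interleaved: all points of colour `t x`
are below all points of colour `t y` (definition of `Il`: one of the two orders does not occur; and
`t x ≠ t y` by `il_refl`).  If `t x` is not big and `t y` is big: `σ x = x`; `x < z` for all `z` of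
colour `t y`: otherwise `z < x < y` (`z ≠ x` by the colours) and `h ∈ H` with `h y = z` (partial
isomorphism `y ↦ z`) gives `x = h x < h y = z` (`small_fixed`).  Similarly the other case.  If both are
not big then `σ x = x`, `σ y = y`. -/
theorem extG_le {M T : Type} [LinearOrder M] (t : M → T) (H : Subgroup (Perm M)) (hH : Hom t H)
    [DecidablePred fun x : M => Big t (t x)] (κ : ℚ → {c : T // Big t c})
    (φ : ℚ ≃ {x : M // Big t (t x)}) (h1 : ∀ q, t (φ q) = κ q)
    (h2 : ∀ q q', Il t (κ q) (κ q') → (q < q' ↔ ((φ q : {x : M // Big t (t x)}) : M) < φ q')) :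
    extG φ (HH κ) ≤ H := by
  intro σ hσ
  obtain ⟨τ, hτ, rfl⟩ := hσ
  have hσim : ∀ q : ℚ, (Equiv.Perm.extendDomainHom φ τ) (φ q : M) = (φ (τ q) : M) := fun q =>
    Equiv.Perm.extendDomain_apply_image τ φ q
  have hσo : ∀ x : M, ¬ Big t (t x) → (Equiv.Perm.extendDomainHom φ τ) x = x := fun x hx =>
    Equiv.Perm.extendDomain_apply_not_subtype τ φ hx
  have hex : ∀ x : M, Big t (t x) → ∃ q : ℚ, (φ q : M) = x := fun x hx =>
    ⟨φ.symm ⟨x, hx⟩, by rw [Equiv.apply_symm_apply]⟩
  have hκ : ∀ q, κ (τ q) = κ q := hτ.2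
  have hcol : ∀ x, t ((Equiv.Perm.extendDomainHom φ τ) x) = t x := by
    intro x
    by_cases hx : Big t (t x)
    · obtain ⟨q, rfl⟩ := hex x hx
      rw [hσim, h1, h1, hκ]
    · rw [hσo x hx]
  refine (hH.1 _).2 ⟨?_, hcol⟩
  intro x y hxy
  by_cases hx : Big t (t x)
  · by_cases hy : Big t (t y)
    · by_cases hil : Il t (t x) (t y)
      · obtain ⟨q, rfl⟩ := hex x hx
        obtain ⟨q', rfl⟩ := hex y hy
        rw [hσim, hσim]
        rw [h1, h1] at hil
        have h3 : q < q' := (h2 q q' hil).2 hxy
        have h4 : τ q < τ q' := hτ.1 _ _ h3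
        refine (h2 (τ q) (τ q') ?_).1 h4
        rw [hκ, hκ]
        exact hil
      · have h3 : ∀ x' y' : M, t x' = t x → t y' = t y → ¬ y' < x' := by
          intro x' y' hx' hy' hlt
          exact hil ⟨⟨x, y, rfl, rfl, hxy⟩, ⟨x', y', hx', hy', hlt⟩⟩
        have h4 := h3 _ _ (hcol x) (hcol y)
        refine lt_of_le_of_ne (not_lt.1 h4) ?_
        intro he
        exact hxy.ne ((Equiv.Perm.extendDomainHom φ τ).injective he)
    · rw [hσo y hy]
      exact (l5a_up t H hH hy hx (hcol x)).2 hxy
  · by_cases hy : Big t (t y)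
    · rw [hσo x hx]
      exact (l5a_up t H hH hx hy (hcol y)).1 hxy
    · rw [hσo x hx, hσo y hy]
      exact hxy

end Pool.Agent.Lib.H3C
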