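import Pool.Agent.Lib.H3C.L3
import Pool.Agent.Lib.H3C.L4b
import Pool.Agent.Lib.H3C.L5a
import Pool.Agent.Lib.H3C.A6
import Pool.Agent.Lib.H3C.J1

/-! # L5: homogeneous coloured linear orders -/

namespace Pool.Agent.Lib.H3C

open Equiv

/-- **Homogeneous coloured linear orders.**

Proof. If no colour is big then `M` is finite (`small_finite`) and everything is finite.  Otherwise
take `κ`, `φ` from `exists_copy_big` and `H' = extG φ (HH κ) ≤ H` (`extG_le`).  `Olig H'`
(`olig_extG`, `olig_HH`), so `Olig H` (`olig_mono`).  With `F` the finite set of the points whose colour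
is not big: `(Sup H' F).Finite` (`sup_extG_finite`, `fr_HH`), so `FR H'` (`fr_of_sup`; the elements of
`H'` fix `F`), and `FR H` as a closed supergroup of `H` is one of `H'`. -/
theorem fr_hom {M T : Type} [LinearOrder M] [Countable M] [Finite T] (t : M → T)
    (H : Subgroup (Perm M)) (hH : Hom t H) : Olig H ∧ FR H := by
  classical
  by_cases hn : ∃ c, Big t c
  · obtain ⟨κ, φ, hκ, h1, h2⟩ := exists_copy_big t H hH hn
    have hle : extG φ (HH κ) ≤ H := extG_le t H hH κ φ h1 h2
    have hfin : {x : M | ¬ Big t (t x)}.Finite := small_finite t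
    have hol' : Olig (extG φ (HH κ)) := olig_extG φ (HH κ) (olig_HH κ hκ) hfin
    refine ⟨olig_mono hle hol', ?_⟩
    have hF : ∀ x, x ∈ hfin.toFinset ↔ ¬ Big t (t x) := fun x => by
      rw [Set.Finite.mem_toFinset, Set.mem_setOf_eq]
    have hsup := sup_extG_finite φ (HH κ) (fr_HH κ hκ) hfin.toFinset hF
    have hfr : FR (extG φ (HH κ)) := by
      refine fr_of_sup _ hol' hfin.toFinset ?_ hsup
      intro h hh x hx
      exact small_fixed t H hH x ((hF x).1 hx) h (hle hh)
    exact Set.Finite.subset hfr (fun G hG => ⟨hle.trans hG.1, hG.2⟩)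
  · have huniv : {x : M | ¬ Big t (t x)} = Set.univ :=
      Set.eq_univ_of_forall fun x h => hn ⟨t x, h⟩
    have hfin : {x : M | ¬ Big t (t x)}.Finite := small_finite t
    rw [huniv] at hfin
    haveI : Finite M := Set.finite_univ_iff.1 hfin
    haveI : Fintype M := Fintype.ofFinite M
    refine ⟨fun k => ⟨Finset.univ, fun a => ⟨a, Finset.mem_univ _, 1, H.one_mem, fun _ => rfl⟩⟩, ?_⟩
    exact Set.toFinite _

end Pool.Agent.Lib.H3C
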