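import Pool.Agent.Lib.H3C.L5
import Pool.Agent.Lib.H3C.K3

/-! # L6: the theorem for reducts -/

namespace Pool.Agent.Lib.H3C

open Equiv FirstOrder Language

/-- **Thomas's conjecture for homogeneous coloured linear orders.**  Proof. `hom_of_ultra`, `fr_hom`
and `finite_reducts`. -/
theorem thomas_colored (ι : Type) [Finite ι] (M : Type) [Countable M] [LinearOrder M]
    [(colL ι).Structure M]
    (hlt : ∀ x y : M, Structure.RelMap (L := colL ι) ColRel.lt ![x, y] ↔ x < y)
    (hu : (colL ι).IsUltrahomogeneous M) :
    Set.Finite {D : Set (Σ n : ℕ, Set (Fin n → M)) |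
      ∃ (L' : FirstOrder.Language.{0, 0}) (inst' : L'.Structure M), L'.IsRelational ∧
        (∀ (n : ℕ) (r : L'.Relations n),
          (∅ : Set M).Definable (colL ι) (setOf (FirstOrder.Language.Structure.RelMap r))) ∧
        D = {p : Σ n : ℕ, Set (Fin n → M) | (∅ : Set M).Definable L' p.2}} := by
  have hL : (colL ι).IsRelational := fun n => inferInstanceAs (IsEmpty Empty)
  obtain ⟨h1, h2⟩ := fr_hom (fun x : M => ctype (ι := ι) x) (autP (colL ι) M)
    (hom_of_ultra ι M hlt hu)
  exact finite_reducts (colL ι) M hL h1 h2

/-- **Adding constants and infinite pure sets** preserves finiteness (general closure property):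
finitely many closed supergroups is inherited when a finite set of fixed points is added. -/
theorem fr_add_points {X : Type} [DecidableEq X] (H : Subgroup (Perm X)) (hol : Olig H)
    (F : Finset X) (hH : ∀ h ∈ H, ∀ x ∈ F, h x = x) (h : (Sup H F).Finite) : FR H :=
  fr_of_sup H hol F hH h

end Pool.Agent.Lib.H3C
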