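import Pool.Agent.Lib.H3C.L5
import Pool.Agent.Lib.H3C.K3

/-! # L7: the theorem for reducts, for an arbitrary finite relational language -/

namespace Pool.Agent.Lib.H3C

open Equiv FirstOrder Language

/-- The set of the unary relation symbols which hold at `x`. -/
def L7t (L : Language.{0, 0}) (M : Type) [L.Structure M] (x : M) : Set (L.Relations 1) :=
  {r | Structure.RelMap r (fun _ : Fin 1 => x)}

theorem L7_pres (L : Language.{0, 0}) (M : Type) [L.Structure M] [LinearOrder M]
    (lt : L.Relations 2) (hlt : ∀ x y : M, Structure.RelMap lt ![x, y] ↔ x < y)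
    (hother : ∀ (n : ℕ) (r : L.Relations n),
      n ≤ 1 ∨ (⟨n, r⟩ : Σ n, L.Relations n) = ⟨2, lt⟩)
    (F : Set M) (f : M → M) (hf : ∀ x ∈ F, L7t L M (f x) = L7t L M x)
    (hs : ∀ x ∈ F, ∀ y ∈ F, (f x < f y ↔ x < y)) (n : ℕ) (r : L.Relations n) (x : Fin n → M)
    (hx : ∀ i, x i ∈ F) :
    Structure.RelMap r (fun i => f (x i)) ↔ Structure.RelMap r x := by
  rcases hother n r with h | h
  · rcases n with _ | _ | n
    · rw [Subsingleton.elim (fun i => f (x i)) x]
    · have h1 : x = fun _ => x 0 := by
        funext j
        exact congrArg x (Subsingleton.elim (α := Fin 1) j 0)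
      have h2 : (fun i => f (x i)) = fun _ : Fin 1 => f (x 0) := by
        funext j
        exact congrArg (fun i => f (x i)) (Subsingleton.elim (α := Fin 1) j 0)
      rw [h2]
      have h3 : r ∈ L7t L M (f (x 0)) ↔ r ∈ L7t L M (x 0) := by rw [hf _ (hx 0)]
      have h4 : Structure.RelMap r x ↔ r ∈ L7t L M (x 0) := by
        constructor
        · intro h
          rw [h1] at h
          exact h
        · intro h
          rw [h1]
          exact h
      rw [h4]
      exact h3
    · omega
  · obtain ⟨h1, h2⟩ := Sigma.mk.inj_iff.1 h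
    subst h1
    have h3 := eq_of_heq h2
    subst h3
    have h4 : x = ![x 0, x 1] := by
      funext j
      fin_cases j <;> rfl
    have h5 : (fun i => f (x i)) = ![f (x 0), f (x 1)] := by
      funext j
      fin_cases j <;> rfl
    rw [h5, hlt, hs _ (hx 0) _ (hx 1)]
    rw [← hlt, ← h4]

theorem L7_hom (L : Language.{0, 0}) (M : Type) [L.Structure M] [LinearOrder M]
    (hL : L.IsRelational) (hu : L.IsUltrahomogeneous M)
    (lt : L.Relations 2) (hlt : ∀ x y : M, Structure.RelMap lt ![x, y] ↔ x < y)
    (hother : ∀ (n : ℕ) (r : L.Relations n),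
      n ≤ 1 ∨ (⟨n, r⟩ : Σ n, L.Relations n) = ⟨2, lt⟩) :
    Hom (L7t L M) (autP L M) := by
  constructor
  · intro σ
    constructor
    · intro hσ
      refine ⟨fun x y hxy => ?_, fun x => ?_⟩
      · have h := hσ 2 lt ![x, y]
        have h5 : (fun i => σ (![x, y] i)) = ![σ x, σ y] := by
          funext j
          fin_cases j <;> rfl
        rw [h5, hlt, hlt] at h
        exact h.2 hxy
      · ext r
        exact hσ 1 r (fun _ => x)
    · rintro ⟨h1, h2⟩ n R x
      refine L7_pres L M lt hlt hother Set.univ σ (fun x _ => h2 x) (fun x _ y _ => ?_) n R x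
        (fun _ => trivial)
      constructor
      · intro h
        by_contra hn
        rcases (not_lt.1 hn).lt_or_eq with h3 | h3
        · exact lt_asymm h (h1 _ _ h3)
        · rw [h3] at h
          exact lt_irrefl _ h
      · exact h1 _ _
  · intro F f hf1 hf2
    let S : L.Substructure M :=
      { carrier := (F : Set M)
        fun_mem := fun {n} g => ((hL n).elim g) }
    have hS : S.FG := by
      refine ⟨F, ?_⟩
      apply SetLike.coe_injective
      exact Substructure.closure_eq_of_isRelational L (F : Set M)
    have hmem : ∀ x : S, (x : M) ∈ F := fun x => x.2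
    have hstrict : ∀ x ∈ F, ∀ y ∈ F, (f x < f y ↔ x < y) := by
      intro x hx y hy
      refine ⟨fun h => ?_, hf2 x hx y hy⟩
      by_contra hn
      rcases (not_lt.1 hn).lt_or_eq with h3 | h3
      · exact lt_asymm h (hf2 y hy x hx h3)
      · rw [h3] at h
        exact lt_irrefl _ h
    let φ : S ↪[L] M :=
      { toFun := fun x => f x
        inj' := by
          intro x y hxy
          apply Subtype.ext
          rcases lt_trichotomy (x : M) (y : M) with h | h | h
          · have := hf2 _ (hmem x) _ (hmem y) h
            exact absurd hxy this.ne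
          · exact h
          · have := hf2 _ (hmem y) _ (hmem x) h
            exact absurd hxy this.ne'
        map_fun' := fun {n} g => (hL n).elim g
        map_rel' := fun {n} R x =>
          L7_pres L M lt hlt hother (F : Set M) f hf1 hstrict n R (fun i => (x i : M))
            (fun i => hmem (x i)) }
    obtain ⟨g, hg⟩ := hu S hS φ
    refine ⟨g.toEquiv, ?_, ?_⟩
    · intro n R x
      exact g.map_rel' R x
    · intro x hx
      have h := congrArg (fun k : S ↪[L] M => k ⟨x, hx⟩) hg
      exact h.symm

/-- **Thomas's conjecture for homogeneous coloured linear orders.** -/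
theorem thomas_coloured_orders (L : FirstOrder.Language.{0, 0}) (M : Type) [L.Structure M]
    (hM : Countable M) (hL : L.IsRelational) (hfin : Finite (Σ n, L.Relations n))
    (hu : L.IsUltrahomogeneous M) (lt : L.Relations 2)
    (hlt : IsStrictTotalOrder M (fun x y => Structure.RelMap lt ![x, y]))
    (hother : ∀ (n : ℕ) (r : L.Relations n),
      n ≤ 1 ∨ (⟨n, r⟩ : Σ n, L.Relations n) = ⟨2, lt⟩) :
    Set.Finite {D : Set (Σ n : ℕ, Set (Fin n → M)) |
      ∃ (L' : FirstOrder.Language.{0, 0}) (inst' : L'.Structure M), L'.IsRelational ∧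
        (∀ (n : ℕ) (r : L'.Relations n),
          (∅ : Set M).Definable L (setOf (FirstOrder.Language.Structure.RelMap r))) ∧
        D = {p : Σ n : ℕ, Set (Fin n → M) | (∅ : Set M).Definable L' p.2}} := by
  classical
  let _ : LinearOrder M := linearOrderOfSTO (fun x y : M => Structure.RelMap lt ![x, y])
  have hlt' : ∀ x y : M, Structure.RelMap lt ![x, y] ↔ x < y := fun x y => Iff.rfl
  have : Finite (L.Relations 1) :=
    Finite.of_injective (fun r : L.Relations 1 => (⟨1, r⟩ : Σ n, L.Relations n))
      (fun a b h => eq_of_heq (Sigma.mk.inj_iff.1 h).2)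
  have : Finite (Set (L.Relations 1)) := inferInstance
  obtain ⟨h1, h2⟩ := fr_hom (L7t L M) (autP L M) (L7_hom L M hL hu lt hlt' hother)
  exact finite_reducts L M hL h1 h2

end Pool.Agent.Lib.H3C
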